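import Mathlib
import Pool.Graph.R_pool_sql_team_seeded_620a6dc7.Helper139_Saxl.Defs
import Pool.Graph.R_pool_sql_team_seeded_620a6dc7.Helper139_Saxl.Defs2
import Pool.Graph.R_pool_sql_team_seeded_620a6dc7.Helper139_Saxl.J11
import Pool.Graph.R_pool_sql_team_seeded_620a6dc7.Helper139_Saxl.J12

set_option autoImplicit false

/-! Twisted and symmetrised sums of products of polytabloids, and the strip rule for them. -/

namespace Pool.Agent.H374

open Finset Pool.Saxl

/-- the trivial character (`t = false`) or the sign character (`t = true`) -/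
def ch {Ω : Type} [Fintype Ω] [DecidableEq Ω] (t : Bool) (g : Equiv.Perm Ω) : ℤ :=
  if t then (Equiv.Perm.sign g : ℤ) else 1

theorem ch_permCongr {Ω Ω' : Type} [Fintype Ω] [DecidableEq Ω] [Fintype Ω'] [DecidableEq Ω']
    (t : Bool) (f : Ω ≃ Ω') (g : Equiv.Perm Ω) : ch t (f.permCongr g) = ch t g := by
  unfold ch
  rw [Equiv.Perm.sign_permCongr]

theorem ch_sumCongr {A B : Type} [Fintype A] [DecidableEq A] [Fintype B] [DecidableEq B]
    (t : Bool) (gA : Equiv.Perm A) (gB : Equiv.Perm B) :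
    ch t (Equiv.sumCongr gA gB) = ch t gA * ch t gB := by
  have h : Equiv.Perm.sign (Equiv.sumCongr gA gB) = Equiv.Perm.sign gA * Equiv.Perm.sign gB :=
    Equiv.Perm.sign_sumCongr gA gB
  unfold ch
  rw [h]
  cases t <;> simp

/-- the twisted sum of products of three polytabloids -/
def trs {Ω : Type} [Fintype Ω] [DecidableEq Ω] (t : Bool) (r1 c1 r2 c2 r3 c3 : Ω → ℕ)
    (w1 w2 w3 : Ω → ℕ) : ℤ :=
  ∑ g : Equiv.Perm Ω, ch t g * (pt r1 c1 (w1 ∘ g) * pt r2 c2 (w2 ∘ g) * pt r3 c3 (w3 ∘ g))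

/-- the symmetrised (`e = 1`) or antisymmetrised (`e = -1`) twisted sum -/
def tw {Ω : Type} [Fintype Ω] [DecidableEq Ω] (t : Bool) (e : ℤ) (r1 c1 r2 c2 r3 c3 : Ω → ℕ)
    (w1 w2 w3 : Ω → ℕ) : ℤ :=
  trs t r1 c1 r2 c2 r3 c3 w1 w2 w3 + e * trs t r1 c1 r2 c2 r3 c3 w2 w1 w3

/-- the twisted weights -/
def W1 {n a : ℕ} (t : Bool) (α : Finset (Fin n)) (r3 c3 w1 w2 w3 : Fin n → ℕ)
    (N : Finset (Fin n)) (S S' : Fin a → Finset (Fin n)) : ℤ :=
  ∑ g : Equiv.Perm (Fin n), if ∀ x, g x ∈ α ↔ x ∈ N then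
    ch t g * (sx11_e N S (w1 ∘ g) * sx11_e N S' (w2 ∘ g) * pt r3 c3 (w3 ∘ g)) else 0

theorem W1_sum {n a : ℕ} (t : Bool) (h : Fin a → ℕ) (h1 : ∀ i, 1 ≤ h i) (α : Finset (Fin n))
    (r3 c3 w1 w2 w3 : Fin n → ℕ) (hw1 : ∀ x, w1 x = 0 ↔ x ∈ α) (hw2 : ∀ x, w2 x = 0 ↔ x ∈ α)
    (T T' : Fin a → Finset (Fin n)) (hT : IsPartOf T univ h) (hT' : IsPartOf T' univ h) :
    ∑ N ∈ (univ ∩ univ : Finset (Fin n)).powerset.filter
        (fun N => (∀ i, (N ∩ T i).card = 1) ∧ ∀ i, (N ∩ T' i).card = 1),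
        ((∏ i, sgN (T i) N : ℤ)) * ((∏ i, sgN (T' i) N : ℤ)) *
          W1 t α r3 c3 w1 w2 w3 N (fun i => T i \ N) (fun i => T' i \ N) =
      trs t (rk (sx11_idx T)) (sx11_idx T) (rk (sx11_idx T')) (sx11_idx T') r3 c3 w1 w2 w3 := by
  unfold W1 trs
  simp_rw [Finset.mul_sum]
  rw [Finset.sum_comm]
  refine Finset.sum_congr rfl fun g _ => ?_
  have e1 := sx11_expand h h1 T hT (univ.filter fun x => g x ∈ α) (w1 ∘ g) (by
    intro x; simp [hw1])
  have e2 := sx11_expand h h1 T' hT' (univ.filter fun x => g x ∈ α) (w2 ∘ g) (by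
    intro x; simp [hw2])
  have huniq : ∀ N : Finset (Fin n), (∀ x, g x ∈ α ↔ x ∈ N) → N = univ.filter fun x => g x ∈ α := by
    intro N hN
    ext x
    simp [hN x]
  rw [e1, e2]
  by_cases hc1 : ∀ i, ((univ.filter fun x => g x ∈ α) ∩ T i).card = 1
  · by_cases hc2 : ∀ i, ((univ.filter fun x => g x ∈ α) ∩ T' i).card = 1
    · rw [if_pos hc1, if_pos hc2]
      rw [Finset.sum_eq_single (univ.filter fun x => g x ∈ α)]
      · rw [if_pos (by intro x; simp)]
        ring
      · intro N _ hne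
        rw [if_neg (fun hN => hne (huniq N hN)), mul_zero]
      · intro hn
        exact absurd (by simp only [Finset.mem_filter, Finset.mem_powerset]; exact
          ⟨by intro x _; simp, hc1, hc2⟩) hn
    · rw [if_neg hc2, mul_zero, zero_mul, mul_zero]
      refine Finset.sum_eq_zero fun N hN => ?_
      rw [Finset.mem_filter] at hN
      rw [if_neg (fun hN' => hc2 (by rw [← huniq N hN']; exact hN.2.2)), mul_zero]
  · rw [if_neg hc1, zero_mul, zero_mul, mul_zero]
    refine Finset.sum_eq_zero fun N hN => ?_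
    rw [Finset.mem_filter] at hN
    rw [if_neg (fun hN' => hc1 (by rw [← huniq N hN']; exact hN.2.1)), mul_zero]

/-- the extension of a word by `0`, with all its letters raised -/
def up {n : ℕ} (α : Finset (Fin n)) (b : {x // x ∉ α} → ℕ) : Fin n → ℕ :=
  fun x => if hx : x ∈ α then 0 else b ⟨x, hx⟩ + 1

/-- the extension of a word by the rows -/
def ex3 {n : ℕ} (α : Finset (Fin n)) (r3 : Fin n → ℕ) (b : {x // x ∉ α} → ℕ) : Fin n → ℕ :=
  fun x => if hx : x ∈ α then r3 x else b ⟨x, hx⟩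

theorem trs_word3 {Ω : Type} [Fintype Ω] [DecidableEq Ω] {t : Bool}
    {r1 c1 r2 c2 r3 c3 w1 w2 w3 : Ω → ℕ}
    (h : trs t r1 c1 r2 c2 r3 c3 w1 w2 w3 ≠ 0) : ∃ g1 g2 g3 : Equiv.Perm Ω,
      w1 = r1 ∘ g1 ∧ w2 = r2 ∘ g2 ∧ w3 = r3 ∘ g3 := by
  obtain ⟨g, _, hg'⟩ := Finset.exists_ne_zero_of_sum_ne_zero h
  have hg := right_ne_zero_of_mul hg'
  have h3 := right_ne_zero_of_mul hg
  have h12 := left_ne_zero_of_mul hg
  have h2 := right_ne_zero_of_mul h12
  have h1 := left_ne_zero_of_mul h12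
  have key : ∀ r c w : Ω → ℕ, pt r c (w ∘ g) ≠ 0 → ∃ g' : Equiv.Perm Ω, w = r ∘ g' := by
    intro r c w hne
    obtain ⟨σ, _, hσ⟩ := exists_of_pt_ne r c _ hne
    refine ⟨g⁻¹.trans σ, ?_⟩
    funext x
    have := congrFun hσ (g⁻¹ x)
    simpa using this
  obtain ⟨g1, h1⟩ := key _ _ _ h1
  obtain ⟨g2, h2⟩ := key _ _ _ h2
  obtain ⟨g3, h3⟩ := key _ _ _ h3
  exact ⟨g1, g2, g3, h1, h2, h3⟩

theorem tw_word3 {Ω : Type} [Fintype Ω] [DecidableEq Ω] {t : Bool} {e : ℤ}
    {r1 c1 r2 c2 r3 c3 w1 w2 w3 : Ω → ℕ}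
    (h : tw t e r1 c1 r2 c2 r3 c3 w1 w2 w3 ≠ 0) : ∃ g3 : Equiv.Perm Ω, w3 = r3 ∘ g3 := by
  by_cases h1 : trs t r1 c1 r2 c2 r3 c3 w1 w2 w3 = 0
  · by_cases h2 : trs t r1 c1 r2 c2 r3 c3 w2 w1 w3 = 0
    · exfalso
      apply h
      unfold tw
      rw [h1, h2]
      ring
    · obtain ⟨_, _, g3, _, _, h3⟩ := trs_word3 h2
      exact ⟨g3, h3⟩
  · obtain ⟨_, _, g3, _, _, h3⟩ := trs_word3 h1
    exact ⟨g3, h3⟩

theorem strip_gen (t : Bool) (e : ℤ) (n a : ℕ) (h : ℕ → ℕ)
    (hh : ∀ i, i < a → 1 ≤ h i ∧ h i ≤ a - i)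
    (α : Finset (Fin n)) (hα : α.card = a) (c1 c2 : {x // x ∉ α} → ℕ)
    (hc1 : ∀ y, c1 y < a) (hc2 : ∀ y, c2 y < a)
    (h1 : ∀ i, i < a → (univ.filter fun y => c1 y = i).card + 1 = h i)
    (h2 : ∀ i, i < a → (univ.filter fun y => c2 y = i).card + 1 = h i)
    (r3 c3 : Fin n → ℕ) (b1 b2 b3 : {x // x ∉ α} → ℕ)
    (hA : ∑ g : Equiv.Perm {x // x ∈ α}, ch t g * pt (fun y : {x // x ∈ α} => r3 y)
      (fun y : {x // x ∈ α} => c3 y) ((fun y : {x // x ∈ α} => r3 y) ∘ g) ≠ 0)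
    (hαβ : ∀ x ∈ α, ∀ y, y ∉ α → c3 x = c3 y → r3 y < r3 x)
    (hB : tw t e (rk c1) c1 (rk c2) c2 (fun y : {x // x ∉ α} => r3 y)
      (fun y : {x // x ∉ α} => c3 y) b1 b2 b3 ≠ 0) :
    ∃ col1 col2 : Fin n → ℕ, (∀ x, col1 x < a) ∧ (∀ x, col2 x < a) ∧
      (∀ i, i < a → (univ.filter fun x => col1 x = i).card = h i) ∧
      (∀ i, i < a → (univ.filter fun x => col2 x = i).card = h i) ∧
      tw t e (rk col1) col1 (rk col2) col2 r3 c3 (up α b1) (up α b2) (ex3 α r3 b3) ≠ 0 := by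
  classical
  by_contra hcon
  push Not at hcon
  have z : ∀ (b : {x // x ∉ α} → ℕ), ∀ x, up α b x = 0 ↔ x ∈ α := by
    intro b x
    unfold up
    by_cases hx : x ∈ α <;> simp [hx]
  set w3 := ex3 α r3 b3 with hw3
  -- all the sums over partitions vanish
  have hvan : ∀ T T' : Fin a → Finset (Fin n), IsPartOf T univ (fun i : Fin a => h i) →
      IsPartOf T' univ (fun i : Fin a => h i) →
      tw t e (rk (sx11_idx T)) (sx11_idx T) (rk (sx11_idx T')) (sx11_idx T') r3 c3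
        (up α b1) (up α b2) w3 = 0 := by
    intro T T' hT hT'
    have hlt : ∀ (T : Fin a → Finset (Fin n)), IsPartOf T univ (fun i : Fin a => h i) →
        ∀ x, sx11_idx T x < a := by
      intro T hT x
      obtain ⟨i, hi⟩ := sx11_mem hT x
      rw [(sx11_mem_iff hT x i).2 hi]
      exact i.2
    have hcard : ∀ (T : Fin a → Finset (Fin n)), IsPartOf T univ (fun i : Fin a => h i) →
        ∀ i, i < a → (univ.filter fun x => sx11_idx T x = i).card = h i := by
      intro T hT i hi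
      refine Eq.trans ?_ (hT.1 ⟨i, hi⟩)
      congr 1
      ext x
      simp only [Finset.mem_filter, Finset.mem_univ, true_and]
      exact sx11_mem_iff hT x ⟨i, hi⟩
    exact hcon (sx11_idx T) (sx11_idx T') (hlt T hT) (hlt T' hT') (hcard T hT) (hcard T' hT')
  have hh1 : ∀ i : Fin a, 1 ≤ h i := fun i => (hh i i.2).1
  set S : Fin a → Finset (Fin n) := fun i => univ.filter fun x => ∃ hx : x ∉ α, c1 ⟨x, hx⟩ = i
    with hS
  set S' : Fin a → Finset (Fin n) := fun i => univ.filter fun x => ∃ hx : x ∉ α, c2 ⟨x, hx⟩ = i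
    with hS'
  have hpart : ∀ c : {x // x ∉ α} → ℕ, (∀ y, c y < a) →
      (∀ i, i < a → (univ.filter fun y => c y = i).card + 1 = h i) →
      IsPartOf (fun i : Fin a => (univ.filter fun x => ∃ hx : x ∉ α, c ⟨x, hx⟩ = i :
        Finset (Fin n))) ((univ : Finset (Fin n)) \ α) (fun i : Fin a => h i - 1) := by
    intro c hc hci
    refine ⟨?_, ?_, ?_⟩
    · intro i
      have h2 := hci i i.2
      have h3 : (univ.filter fun x => ∃ hx : x ∉ α, c ⟨x, hx⟩ = i : Finset (Fin n)) =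
          (univ.filter fun y => c y = i).map ⟨Subtype.val, Subtype.val_injective⟩ := by
        ext x
        simp
      change (univ.filter fun x => ∃ hx : x ∉ α, c ⟨x, hx⟩ = i : Finset (Fin n)).card = h i - 1
      rw [h3, Finset.card_map]
      omega
    · intro i j hij
      rw [Finset.disjoint_left]
      intro x hx hx'
      simp only [Finset.mem_filter, Finset.mem_univ, true_and] at hx hx'
      obtain ⟨hx1, hx2⟩ := hx
      obtain ⟨hx3, hx4⟩ := hx'
      exact hij (Fin.ext (by rw [← hx2, ← hx4]))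
    · ext x
      simp only [Finset.mem_biUnion, Finset.mem_univ, true_and, Finset.mem_filter,
        Finset.mem_sdiff]
      constructor
      · rintro ⟨i, hx, _⟩
        exact hx
      · intro hx
        exact ⟨⟨c ⟨x, hx⟩, hc _⟩, hx, rfl⟩
  have hW0 := indep a (fun i : Fin a => h i) (fun i : Fin a => h i) hh1 hh1
    (fun i => by
      have := (hh i i.2).2
      simpa using this) (univ : Finset (Fin n)) univ
    (fun N S S' => ((W1 t α r3 c3 (up α b1) (up α b2) w3 N S S' +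
      e * W1 t α r3 c3 (up α b2) (up α b1) w3 N S S' : ℤ) : ℚ))
    (by
      intro T T' hT hT'
      have h5 := W1_sum t (fun i : Fin a => h i) hh1 α r3 c3 (up α b1) (up α b2) w3 (z b1)
        (z b2) T T' hT hT'
      have h5' := W1_sum t (fun i : Fin a => h i) hh1 α r3 c3 (up α b2) (up α b1) w3 (z b2)
        (z b1) T T' hT hT'
      have h55 := hvan T T' hT hT'
      unfold tw at h55
      rw [← h5, ← h5', Finset.mul_sum, ← Finset.sum_add_distrib] at h55
      have h6 := congrArg (fun z : ℤ => (z : ℚ)) h55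
      simp only [Int.cast_zero] at h6
      rw [← h6]
      push_cast
      refine Finset.sum_congr rfl fun N _ => ?_
      ring) α S S' (by simp) hα (hpart c1 hc1 h1) (hpart c2 hc2 h2)
  have hW1 : W1 t α r3 c3 (up α b1) (up α b2) w3 α S S' +
      e * W1 t α r3 c3 (up α b2) (up α b1) w3 α S S' = 0 := by exact_mod_cast hW0
  -- the columns off `α`
  have hcol : ∀ c : {x // x ∉ α} → ℕ, (hc : ∀ y, c y < a) →
      (hci : ∀ i, i < a → (univ.filter fun y => c y = i).card + 1 = h i) →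
      (fun x : {x // x ∉ α} => sx11_idx (fun i : Fin a => (univ.filter fun x =>
        ∃ hx : x ∉ α, c ⟨x, hx⟩ = i : Finset (Fin n))) x.1) = c := by
    intro c hc hci
    funext x
    rw [sx11_idx_of _ (hpart c hc hci).2.1 x.1 ⟨c x, hc x⟩]
    rw [Finset.mem_filter]
    exact ⟨Finset.mem_univ _, x.2, rfl⟩
  have he1 : ∀ u : Fin n → ℕ, sx11_e α S u = pt (rk c1) c1 (fun x => u x - 1) := by
    intro u
    unfold sx11_e
    rw [hS, hcol c1 hc1 h1]
  have he2 : ∀ u : Fin n → ℕ, sx11_e α S' u = pt (rk c2) c2 (fun x => u x - 1) := by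
    intro u
    unfold sx11_e
    rw [hS', hcol c2 hc2 h2]
  -- the sum of `b3`
  have hsum3 : ∑ y, b3 y = ∑ y : {x // x ∉ α}, r3 y := by
    obtain ⟨σ, hσ⟩ := tw_word3 hB
    rw [← Equiv.sum_comp σ (fun y : {x // x ∉ α} => r3 y)]
    exact Finset.sum_congr rfl fun y _ => congrFun hσ y
  have key : ∀ b1 b2 : {x // x ∉ α} → ℕ, W1 t α r3 c3 (up α b1) (up α b2) w3 α S S' =
      (∑ g : Equiv.Perm {x // x ∈ α}, ch t g * pt (fun y : {x // x ∈ α} => r3 y)
        (fun y : {x // x ∈ α} => c3 y) ((fun y : {x // x ∈ α} => r3 y) ∘ g)) *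
      trs t (rk c1) c1 (rk c2) c2 (fun y : {x // x ∉ α} => r3 y)
        (fun y : {x // x ∉ α} => c3 y) b1 b2 b3 := by
    intro b1 b2
    unfold W1
    rw [sx11_split α (fun g => ch t g * (sx11_e α S (up α b1 ∘ g) * sx11_e α S' (up α b2 ∘ g) *
      pt r3 c3 (w3 ∘ g)))]
    have hterm : ∀ (gA : Equiv.Perm {x // x ∈ α}) (gB : Equiv.Perm {x // x ∉ α}),
        (fun g => ch t g * (sx11_e α S (up α b1 ∘ g) * sx11_e α S' (up α b2 ∘ g) *
          pt r3 c3 (w3 ∘ g)))
          ((Equiv.sumCompl (fun x => x ∈ α)).permCongr (Equiv.sumCongr gA gB)) =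
        (ch t gA * pt (fun y : {x // x ∈ α} => r3 y) (fun y : {x // x ∈ α} => c3 y)
          ((fun y : {x // x ∈ α} => r3 y) ∘ gA)) *
        (ch t gB * (pt (rk c1) c1 (b1 ∘ gB) * pt (rk c2) c2 (b2 ∘ gB) *
          pt (fun y : {x // x ∉ α} => r3 y) (fun y : {x // x ∉ α} => c3 y) (b3 ∘ gB))) := by
      intro gA gB
      have hneg : ∀ y : {x // x ∉ α}, ((Equiv.sumCompl (fun x => x ∈ α)).permCongr
          (Equiv.sumCongr gA gB)) y.1 = (gB y).1 := by
        intro y
        simp only [Equiv.permCongr_apply]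
        rw [Equiv.sumCompl_symm_apply_of_neg (p := fun x => x ∈ α) y.2]
        simp
      have hpos : ∀ y : {x // x ∈ α}, ((Equiv.sumCompl (fun x => x ∈ α)).permCongr
          (Equiv.sumCongr gA gB)) y.1 = (gA y).1 := by
        intro y
        simp only [Equiv.permCongr_apply]
        rw [Equiv.sumCompl_symm_apply_of_pos (p := fun x => x ∈ α) y.2]
        simp
      simp only
      rw [he1, he2, ch_permCongr, ch_sumCongr]
      have f1 : ∀ b : {x // x ∉ α} → ℕ,
          (fun x : {x // x ∉ α} => (up α b ∘ ((Equiv.sumCompl (fun x => x ∈ α)).permCongr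
          (Equiv.sumCongr gA gB))) x.1 - 1) = b ∘ gB := by
        intro b
        funext y
        simp only [Function.comp_apply, hneg]
        unfold up
        simp [(gB y).2]
      have f3 : pt r3 c3 (w3 ∘ ((Equiv.sumCompl (fun x => x ∈ α)).permCongr
          (Equiv.sumCongr gA gB))) =
          pt (fun y : {x // x ∈ α} => r3 y) (fun y : {x // x ∈ α} => c3 y)
            ((fun y : {x // x ∈ α} => r3 y) ∘ gA) *
          pt (fun y : {x // x ∉ α} => r3 y) (fun y : {x // x ∉ α} => c3 y) (b3 ∘ gB) := by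
        rw [← pt_factor, ← pt_equiv (Equiv.sumCompl (fun x => x ∈ α))]
        · congr 1
          · funext s
            cases s <;> simp
          · funext s
            cases s <;> simp
          · funext s
            cases s with
            | inl y =>
              simp only [Function.comp_apply, Equiv.sumCompl_apply_inl, hpos, Sum.elim_inl]
              rw [hw3]
              unfold ex3
              simp [(gA y).2]
            | inr y =>
              simp only [Function.comp_apply, Equiv.sumCompl_apply_inr, hneg, Sum.elim_inr]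
              rw [hw3]
              unfold ex3
              simp [(gB y).2]
        · intro x y hxy
          exact hαβ x.1 x.2 y.1 y.2 hxy
        · rw [← hsum3]
          exact le_of_eq (Equiv.sum_comp gB b3)
      rw [f1 b1, f1 b2, f3]
      ring
    simp_rw [hterm]
    simp_rw [← Finset.mul_sum]
    rw [← Finset.sum_mul]
    rfl
  rw [key b1 b2, key b2 b1] at hW1
  have h9 : (∑ g : Equiv.Perm {x // x ∈ α}, ch t g * pt (fun y : {x // x ∈ α} => r3 y)
        (fun y : {x // x ∈ α} => c3 y) ((fun y : {x // x ∈ α} => r3 y) ∘ g)) *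
      tw t e (rk c1) c1 (rk c2) c2 (fun y : {x // x ∉ α} => r3 y)
        (fun y : {x // x ∉ α} => c3 y) b1 b2 b3 = 0 := by
    unfold tw
    linear_combination hW1
  rcases mul_eq_zero.1 h9 with h7 | h7
  · exact hA h7
  · exact hB h7

end Pool.Agent.H374
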