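import Mathlib
import Pool.Graph.R_pool_sql_team_seeded_620a6dc7.Helper139_Saxl.Defs
import Pool.Graph.R_pool_sql_team_seeded_620a6dc7.Helper139_Saxl.Defs2
import Pool.Graph.R_pool_sql_team_seeded_620a6dc7.Helper139_Saxl.J03
import Pool.Graph.R_pool_sql_team_seeded_620a6dc7.Helper139_Saxl.J04
import Pool.Graph.R_pool_sql_team_seeded_620a6dc7.Helper139_Saxl.J12
import Pool.Agent.H374.A01

set_option autoImplicit false

/-! Rules for the twisted sums: horizontal and vertical strips. -/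

namespace Pool.Agent.H374

open Finset Pool.Saxl

theorem trs_equiv {Ω Ω' : Type} [Fintype Ω] [DecidableEq Ω] [Fintype Ω'] [DecidableEq Ω']
    (t : Bool) (f : Ω ≃ Ω') (r1 c1 r2 c2 r3 c3 w1 w2 w3 : Ω' → ℕ) :
    trs t (r1 ∘ f) (c1 ∘ f) (r2 ∘ f) (c2 ∘ f) (r3 ∘ f) (c3 ∘ f) (w1 ∘ f) (w2 ∘ f) (w3 ∘ f) =
      trs t r1 c1 r2 c2 r3 c3 w1 w2 w3 := by
  have key : ∀ (r c w : Ω' → ℕ) (g : Equiv.Perm Ω),
      pt (r ∘ f) (c ∘ f) ((w ∘ f) ∘ g) = pt r c (w ∘ (f.permCongr g)) := by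
    intro r c w g
    have h : (w ∘ f) ∘ g = (w ∘ (f.permCongr g)) ∘ f := by
      funext x
      simp [Equiv.permCongr_apply]
    rw [h, pt_equiv]
  unfold trs
  refine Fintype.sum_equiv f.permCongr _ _ (fun g => ?_)
  rw [key, key, key, ch_permCongr]

theorem tw_equiv {Ω Ω' : Type} [Fintype Ω] [DecidableEq Ω] [Fintype Ω'] [DecidableEq Ω']
    (t : Bool) (e : ℤ) (f : Ω ≃ Ω') (r1 c1 r2 c2 r3 c3 w1 w2 w3 : Ω' → ℕ) :
    tw t e (r1 ∘ f) (c1 ∘ f) (r2 ∘ f) (c2 ∘ f) (r3 ∘ f) (c3 ∘ f) (w1 ∘ f) (w2 ∘ f) (w3 ∘ f) =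
      tw t e r1 c1 r2 c2 r3 c3 w1 w2 w3 := by
  unfold tw
  rw [trs_equiv, trs_equiv]

theorem tw_col {Ω : Type} [Fintype Ω] [DecidableEq Ω] {t : Bool} {e : ℤ}
    {r1 c1 r2 c2 r3 c3 c1' c2' c3' w1 w2 w3 : Ω → ℕ}
    (h1 : ∀ x y, c1 x = c1 y ↔ c1' x = c1' y) (h2 : ∀ x y, c2 x = c2 y ↔ c2' x = c2' y)
    (h3 : ∀ x y, c3 x = c3 y ↔ c3' x = c3' y) :
    tw t e r1 c1 r2 c2 r3 c3 w1 w2 w3 = tw t e r1 c1' r2 c2' r3 c3' w1 w2 w3 := by
  have key : ∀ w1 w2 : Ω → ℕ, trs t r1 c1 r2 c2 r3 c3 w1 w2 w3 =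
      trs t r1 c1' r2 c2' r3 c3' w1 w2 w3 := by
    intro w1 w2
    unfold trs
    refine Finset.sum_congr rfl (fun g _ => ?_)
    rw [pt_col r1 c1 c1' _ h1, pt_col r2 c2 c2' _ h2, pt_col r3 c3 c3' _ h3]
  unfold tw
  rw [key, key]

/-- the sum over a horizontal strip -/
theorem alphaF {A : Type} [Fintype A] [DecidableEq A] (rA cA : A → ℕ)
    (hinj : ∀ x y, cA x = cA y → x = y) :
    ∑ g : Equiv.Perm A, ch false g * pt rA cA (rA ∘ g) ≠ 0 := by
  have := sx11_alpha rA cA hinj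
  simp only [ch, Bool.false_eq_true, if_false, one_mul]
  exact ne_of_gt this

/-- the sum over a vertical strip -/
theorem alphaT {A : Type} [Fintype A] [DecidableEq A] (rA cA : A → ℕ)
    (hinj : ∀ x y, rA x = rA y → x = y) :
    ∑ g : Equiv.Perm A, ch true g * pt rA cA (rA ∘ g) ≠ 0 := by
  have h : ∀ g : Equiv.Perm A, ch true g * pt rA cA (rA ∘ g) =
      if ∀ x, cA (g x) = cA x then 1 else 0 := by
    intro g
    unfold ch
    simp only [if_true]
    by_cases hg : ∀ x, cA (g x) = cA x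
    · rw [if_pos hg, pt_of rA cA (fun x y h _ => hinj x y h) g hg, ← Units.val_mul,
        Int.units_mul_self]
      rfl
    · rw [if_neg hg]
      have : pt rA cA (rA ∘ g) = 0 := by
        by_contra hne
        obtain ⟨σ, hσ, hw⟩ := exists_of_pt_ne _ _ _ hne
        apply hg
        intro x
        have : g x = σ x := hinj _ _ (congrFun hw x)
        rw [this, hσ]
      rw [this, mul_zero]
  simp only [h]
  have h0 : 0 < ∑ g : Equiv.Perm A, if ∀ x, cA (g x) = cA x then (1 : ℤ) else 0 := by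
    refine Finset.sum_pos' (fun g _ => ?_) ⟨1, Finset.mem_univ _, ?_⟩
    · split_ifs <;> norm_num
    · simp
  exact ne_of_gt h0

/-- `nu ⊆ mu`, and every row of `mu / nu` has at most one box. -/
def VStrip (mu nu : ℕ → ℕ) : Prop := ∀ i, nu i ≤ mu i ∧ mu i ≤ nu i + 1

/-- an extension of a standard tableau to a larger shape -/
theorem third_gen (n a : ℕ) (mu nu : ℕ → ℕ) (hmu : IsPart mu n) (hnu : IsPart nu (n - a))
    (han : a ≤ n) (hst : ∀ i, nu i ≤ mu i) (α : Finset (Fin n)) (hα : α.card = a)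
    (r c : {x // x ∉ α} → ℕ) (h3 : IsStd r c nu) :
    ∃ r3 c3 : Fin n → ℕ, IsStd r3 c3 mu ∧ (fun y : {x // x ∉ α} => r3 y) = r ∧
      (fun y : {x // x ∉ α} => c3 y) = c ∧
      (∀ x ∈ α, nu (r3 x) ≤ c3 x ∧ c3 x < mu (r3 x)) ∧
      (∀ x ∈ α, ∀ y, y ∉ α → c3 x = c3 y → r3 y < r3 x) := by
  classical
  set B : Finset (Σ _ : ℕ, ℕ) := (range n).sigma (fun i => Finset.Ico (nu i) (mu i)) with hB
  have hBc : B.card = a := by
    rw [hB, Finset.card_sigma]
    simp only [Nat.card_Ico]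
    have h1 : ∑ i ∈ range n, (mu i - nu i) + ∑ i ∈ range n, nu i = ∑ i ∈ range n, mu i := by
      rw [← Finset.sum_add_distrib]
      exact Finset.sum_congr rfl fun i _ => Nat.sub_add_cancel (hst i)
    have h2 : ∑ i ∈ range n, nu i = ∑ i ∈ range (n - a), nu i := by
      symm
      refine Finset.sum_subset (by intro i hi; simp at *; omega) ?_
      intro i _ hi'
      exact hnu.zero i (by simpa using hi')
    have h4 := hmu.sum
    have h5 := hnu.sum
    omega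
  have e : {x // x ∈ α} ≃ {b // b ∈ B} := Finset.equivOfCardEq (by rw [hα, hBc])
  have hBm : ∀ b : {b // b ∈ B}, nu b.1.1 ≤ b.1.2 ∧ b.1.2 < mu b.1.1 := by
    intro b
    have h := Finset.mem_sigma.1
      (show b.1 ∈ (range n).sigma (fun i => Finset.Ico (nu i) (mu i)) from b.2)
    exact Finset.mem_Ico.1 h.2
  set r3 : Fin n → ℕ := fun x => if h : x ∈ α then (e ⟨x, h⟩).1.1 else r ⟨x, h⟩ with hr3
  set c3 : Fin n → ℕ := fun x => if h : x ∈ α then (e ⟨x, h⟩).1.2 else c ⟨x, h⟩ with hc3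
  have r3α : ∀ (x : Fin n) (h : x ∈ α), r3 x = (e ⟨x, h⟩).1.1 := fun x h => by
    rw [hr3]; simp only [dif_pos h]
  have c3α : ∀ (x : Fin n) (h : x ∈ α), c3 x = (e ⟨x, h⟩).1.2 := fun x h => by
    rw [hc3]; simp only [dif_pos h]
  have r3n : ∀ (x : Fin n) (h : x ∉ α), r3 x = r ⟨x, h⟩ := fun x h => by
    rw [hr3]; simp only [dif_neg h]
  have c3n : ∀ (x : Fin n) (h : x ∉ α), c3 x = c ⟨x, h⟩ := fun x h => by
    rw [hc3]; simp only [dif_neg h]
  have inα : ∀ x ∈ α, nu (r3 x) ≤ c3 x ∧ c3 x < mu (r3 x) := by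
    intro x hx
    rw [r3α x hx, c3α x hx]
    exact hBm _
  have outα : ∀ x, x ∉ α → c3 x < nu (r3 x) := by
    intro x hx
    rw [r3n x hx, c3n x hx]
    exact h3.lt _
  have hlt : ∀ x, c3 x < mu (r3 x) := by
    intro x
    by_cases hx : x ∈ α
    · exact (inα x hx).2
    · exact lt_of_lt_of_le (outα x hx) (hst _)
  have hinj : ∀ x y, r3 x = r3 y → c3 x = c3 y → x = y := by
    intro x y h1 h2
    by_cases hx : x ∈ α
    · by_cases hy : y ∈ α
      · rw [r3α x hx, r3α y hy] at h1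
        rw [c3α x hx, c3α y hy] at h2
        have : e ⟨x, hx⟩ = e ⟨y, hy⟩ := Subtype.ext (Sigma.ext h1 (heq_of_eq h2))
        have := e.injective this
        exact congrArg Subtype.val this
      · have h4 := inα x hx
        have h5 := outα y hy
        rw [← h1, ← h2] at h5
        omega
    · by_cases hy : y ∈ α
      · have h4 := inα y hy
        have h5 := outα x hx
        rw [h1, h2] at h5
        omega
      · rw [r3n x hx, r3n y hy] at h1
        rw [c3n x hx, c3n y hy] at h2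
        have := h3.inj _ _ h1 h2
        exact congrArg Subtype.val this
  have hsurj : ∀ i j, j < mu i → ∃ x, r3 x = i ∧ c3 x = j := by
    intro i j hij
    by_cases hj : j < nu i
    · obtain ⟨x, hx1, hx2⟩ := std_surj r c nu h3 i j hj
      refine ⟨x.1, ?_, ?_⟩
      · rw [r3n x.1 x.2]; exact hx1
      · rw [c3n x.1 x.2]; exact hx2
    · have hin : i < n := by
        by_contra hc
        rw [hmu.zero i (by omega)] at hij
        omega
      have hb : (⟨i, j⟩ : Σ _ : ℕ, ℕ) ∈ B := by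
        rw [hB, Finset.mem_sigma, Finset.mem_Ico]
        exact ⟨mem_range.2 hin, by simpa using hj, hij⟩
      refine ⟨(e.symm ⟨_, hb⟩).1, ?_, ?_⟩
      · rw [r3α _ (e.symm ⟨_, hb⟩).2]
        simp
      · rw [c3α _ (e.symm ⟨_, hb⟩).2]
        simp
  refine ⟨r3, c3, ⟨⟨hinj, ?_, ?_⟩, hlt⟩, ?_, ?_, inα, ?_⟩
  · intro x i hi
    obtain ⟨y, hy1, hy2⟩ := hsurj i (c3 x) (lt_of_lt_of_le (hlt x) (hmu.anti hi.le))
    exact ⟨y, hy2, hy1⟩
  · intro i
    have : (univ.filter fun x => r3 x = i).card = (range (mu i)).card := by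
      refine Finset.card_bij (fun x _ => c3 x) ?_ ?_ ?_
      · intro x hx
        simp only [mem_filter, mem_univ, true_and] at hx
        rw [mem_range, ← hx]
        exact hlt x
      · intro x hx y hy hxy
        simp only [mem_filter, mem_univ, true_and] at hx hy
        exact hinj x y (hx.trans hy.symm) hxy
      · intro j hj
        obtain ⟨x, hx1, hx2⟩ := hsurj i j (mem_range.1 hj)
        exact ⟨x, by simp [hx1], hx2⟩
    rw [this, card_range]
  · funext y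
    rw [r3n y.1 y.2]
  · funext y
    rw [c3n y.1 y.2]
  · intro x hx y hy hxy
    by_contra hcon
    have h4 := inα x hx
    have h5 := outα y hy
    have h6 := hnu.anti (show r3 x ≤ r3 y by omega)
    omega

theorem hstrip_inj {n : ℕ} {mu nu : ℕ → ℕ} (hmu : Antitone mu) (hst : HStrip mu nu)
    {α : Finset (Fin n)} {r3 c3 : Fin n → ℕ}
    (hinj : ∀ x y, r3 x = r3 y → c3 x = c3 y → x = y)
    (hin : ∀ x ∈ α, nu (r3 x) ≤ c3 x ∧ c3 x < mu (r3 x)) :
    ∀ x ∈ α, ∀ y ∈ α, c3 x = c3 y → x = y := by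
  intro x hx y hy hxy
  have h4 := hin x hx
  have h5 := hin y hy
  rcases lt_trichotomy (r3 x) (r3 y) with h6 | h6 | h6
  · exfalso
    have h7 := (hst (r3 x)).2
    have h8 := hmu (show r3 x + 1 ≤ r3 y from h6)
    omega
  · exact hinj x y h6 hxy
  · exfalso
    have h7 := (hst (r3 y)).2
    have h8 := hmu (show r3 y + 1 ≤ r3 x from h6)
    omega

theorem vstrip_inj {n : ℕ} {mu nu : ℕ → ℕ} (hst : VStrip mu nu)
    {α : Finset (Fin n)} {r3 c3 : Fin n → ℕ}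
    (hinj : ∀ x y, r3 x = r3 y → c3 x = c3 y → x = y)
    (hin : ∀ x ∈ α, nu (r3 x) ≤ c3 x ∧ c3 x < mu (r3 x)) :
    ∀ x ∈ α, ∀ y ∈ α, r3 x = r3 y → x = y := by
  intro x hx y hy hxy
  have h4 := hin x hx
  have h5 := hin y hy
  have h6 := hst (r3 x)
  refine hinj x y hxy ?_
  rw [← hxy] at h5
  omega

/-- a horizontal strip (`t = false`) or a vertical strip (`t = true`) -/
def Strip (t : Bool) (mu nu : ℕ → ℕ) : Prop := if t then VStrip mu nu else HStrip mu nu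

theorem Strip.le {t : Bool} {mu nu : ℕ → ℕ} (h : Strip t mu nu) (i : ℕ) : nu i ≤ mu i := by
  unfold Strip at h
  cases t
  · exact (h i).1
  · exact (h i).1

theorem tri_succ (k : ℕ) : (k + 1) * (k + 2) / 2 = k * (k + 1) / 2 + (k + 1) := by
  have h : (k + 1) * (k + 2) = k * (k + 1) + 2 * (k + 1) := by ring
  rw [h, Nat.add_mul_div_left _ _ (by norm_num)]

theorem step_core (t : Bool) (e : ℤ) (k : ℕ) (mu nu : ℕ → ℕ) (n : ℕ)
    (hn : n = (k + 1) * (k + 2) / 2)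
    (hmu : IsPart mu n) (hnu : IsPart nu (n - (k + 1))) (hst : Strip t mu nu)
    (α : Finset (Fin n)) (hα : α.card = k + 1)
    (r1 c1 r2 c2 r c b1 b2 b3 : {x // x ∉ α} → ℕ) (s1 : IsStd r1 c1 (rho k))
    (s2 : IsStd r2 c2 (rho k)) (s3 : IsStd r c nu) (hb : tw t e r1 c1 r2 c2 r c b1 b2 b3 ≠ 0) :
    ∃ r1' c1' r2' c2' r3 c3 : Fin n → ℕ, IsTab r1' c1' (rho (k + 1)) ∧
      IsTab r2' c2' (rho (k + 1)) ∧ IsTab r3 c3 mu ∧
      tw t e r1' c1' r2' c2' r3 c3 (up α b1) (up α b2) (ex3 α r3 b3) ≠ 0 := by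
  have hρ : IsPart (rho (k + 1)) n := by rw [hn]; exact isPart_rho (k + 1)
  have hρ0 : rho (k + 1) 0 = k + 1 := by unfold rho; omega
  have han : k + 1 ≤ n := by
    rw [hn, tri_succ]
    omega
  obtain ⟨r3, c3, ht3, hr, hc, hin, hαβ⟩ :=
    third_gen n (k + 1) mu nu hmu hnu han hst.le α hα r c s3
  have hA : ∑ g : Equiv.Perm {x // x ∈ α}, ch t g * pt (fun y : {x // x ∈ α} => r3 y)
      (fun y : {x // x ∈ α} => c3 y) ((fun y : {x // x ∈ α} => r3 y) ∘ g) ≠ 0 := by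
    cases t
    · refine alphaF _ _ fun x y hxy => Subtype.ext ?_
      exact hstrip_inj hmu.anti hst ht3.inj hin x.1 x.2 y.1 y.2 hxy
    · refine alphaT _ _ fun x y hxy => Subtype.ext ?_
      exact vstrip_inj hst ht3.inj hin x.1 x.2 y.1 y.2 hxy
  have hp' := s1.toIsTab.isPart
  obtain ⟨t1, ht1, hrk1⟩ := pt_rk r1 c1 s1.inj s1.down
  obtain ⟨t2, ht2, hrk2⟩ := pt_rk r2 c2 s2.inj s2.down
  have hB : tw t e (rk c1) c1 (rk c2) c2 (fun y : {x // x ∉ α} => r3 y)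
      (fun y : {x // x ∉ α} => c3 y) b1 b2 b3 ≠ 0 := by
    rw [hr, hc]
    intro h0
    apply hb
    have key : ∀ b1 b2 : {x // x ∉ α} → ℕ, trs t r1 c1 r2 c2 r c b1 b2 b3 =
        t1 * t2 * trs t (rk c1) c1 (rk c2) c2 r c b1 b2 b3 := by
      intro b1 b2
      unfold trs
      rw [Finset.mul_sum]
      refine Finset.sum_congr rfl fun g _ => ?_
      have e1 := hrk1 (b1 ∘ g)
      have e2 := hrk2 (b2 ∘ g)
      have e1' : pt r1 c1 (b1 ∘ g) = t1 * pt (rk c1) c1 (b1 ∘ g) := by exact e1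
      have e2' : pt r2 c2 (b2 ∘ g) = t2 * pt (rk c2) c2 (b2 ∘ g) := by exact e2
      rw [e1', e2']
      ring
    unfold tw
    rw [key, key]
    have : t1 * t2 * tw t e (rk c1) c1 (rk c2) c2 r c b1 b2 b3 = 0 := by rw [h0, mul_zero]
    unfold tw at this
    linear_combination this
  have hshift : (fun i => rho (k + 1) (i + 1)) = rho k := by
    funext i; unfold rho; omega
  have hh : ∀ i, i < k + 1 → 1 ≤ cj (rho (k + 1)) i ∧ cj (rho (k + 1)) i ≤ k + 1 - i := by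
    intro i hi
    rw [cj_rho]
    unfold rho
    omega
  have hc1 : ∀ y, c1 y < k + 1 := fun y => by
    have := s1.lt y
    unfold rho at this
    omega
  have hc2 : ∀ y, c2 y < k + 1 := fun y => by
    have := s2.lt y
    unfold rho at this
    omega
  have hcard : ∀ (r1 c1 : {x // x ∉ α} → ℕ), IsStd r1 c1 (rho k) →
      ∀ i, i < k + 1 → (univ.filter fun y => c1 y = i).card + 1 = cj (rho (k + 1)) i := by
    intro r1 c1 s1 i hi
    rw [sx12_col_card r1 c1 _ s1 i, cj_rho, cj_rho]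
    unfold rho
    omega
  obtain ⟨col1, col2, g1, g2, g3, g4, hw⟩ :=
    strip_gen t e n (k + 1) (cj (rho (k + 1))) hh α hα c1 c2 hc1 hc2
      (hcard r1 c1 s1) (hcard r2 c2 s2) r3 c3 b1 b2 b3 hA hαβ hB
  refine ⟨rk col1, col1, rk col2, col2, r3, c3, ?_, ?_, ht3.toIsTab, hw⟩
  · exact sx12_rk_tab (rho (k + 1)) n hρ col1 (by rw [hρ0]; exact g1) (by rw [hρ0]; exact g3)
  · exact sx12_rk_tab (rho (k + 1)) n hρ col2 (by rw [hρ0]; exact g2) (by rw [hρ0]; exact g4)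

/-- The shape `mu` occurs in the symmetric (`e = 1`) or exterior (`e = -1`) square of the shape
`lam`. -/
def SS (e : ℤ) (lam mu : ℕ → ℕ) : Prop :=
  ∃ (n : ℕ) (r1 c1 r2 c2 r3 c3 : Fin n → ℕ), IsTab r1 c1 lam ∧ IsTab r2 c2 lam ∧
    IsTab r3 c3 mu ∧ ∃ w1 w2 w3 : Fin n → ℕ, tw false e r1 c1 r2 c2 r3 c3 w1 w2 w3 ≠ 0

/-- the predicate for twisted sums with conditions on the words -/
def YV (e : ℤ) (k m d : ℕ) (mu : ℕ → ℕ) : Prop :=
  ∃ (n : ℕ) (r1 c1 r2 c2 r3 c3 : Fin n → ℕ), IsTab r1 c1 (rho k) ∧ IsTab r2 c2 (rho k) ∧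
    IsTab r3 c3 mu ∧ ∃ w1 w2 w3 : Fin n → ℕ, tw true e r1 c1 r2 c2 r3 c3 w1 w2 w3 ≠ 0 ∧
      (∀ x, w1 x < m ∨ w2 x < m → w1 x = w2 x) ∧
      ((univ.filter fun x => m ≤ w1 x).image w3).card ≤ d

/-- transport to standard tableaux on the complement of `α` -/
theorem to_compl (t : Bool) (e : ℤ) (k : ℕ) (nu : ℕ → ℕ) {n0 : ℕ} {n : ℕ}
    (hn : n = (k + 1) * (k + 2) / 2) {r1 c1 r2 c2 r3 c3 w1 w2 w3 : Fin n0 → ℕ}
    (h1 : IsTab r1 c1 (rho k)) (h2 : IsTab r2 c2 (rho k)) (h3 : IsTab r3 c3 nu)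
    (hw : tw t e r1 c1 r2 c2 r3 c3 w1 w2 w3 ≠ 0) (α : Finset (Fin n)) (hα : α.card = k + 1) :
    ∃ (f : {x // x ∉ α} ≃ Fin n0) (d1 d2 d3 : {x // x ∉ α} → ℕ),
      IsStd (r1 ∘ f) d1 (rho k) ∧ IsStd (r2 ∘ f) d2 (rho k) ∧ IsStd (r3 ∘ f) d3 nu ∧
      tw t e (r1 ∘ f) d1 (r2 ∘ f) d2 (r3 ∘ f) d3 (w1 ∘ f) (w2 ∘ f) (w3 ∘ f) ≠ 0 := by
  have hcard : Fintype.card {x // x ∉ α} = n - (k + 1) := by
    rw [Fintype.card_subtype_compl, Fintype.card_fin]
    simp [hα]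
  have hn0 : n0 = k * (k + 1) / 2 := by
    have := h1.isPart
    rw [Fintype.card_fin] at this
    exact sx03_part_unique this (isPart_rho k)
  have hc0 : Fintype.card {x // x ∉ α} = Fintype.card (Fin n0) := by
    rw [hcard, Fintype.card_fin, hn0, hn, tri_succ]
    omega
  have f : {x // x ∉ α} ≃ Fin n0 := Fintype.equivOfCardEq hc0
  obtain ⟨d1, hd1, hc1⟩ := exists_std _ _ _ (h1.comp f)
  obtain ⟨d2, hd2, hc2⟩ := exists_std _ _ _ (h2.comp f)
  obtain ⟨d3, hd3, hc3⟩ := exists_std _ _ _ (h3.comp f)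
  refine ⟨f, d1, d2, d3, hd1, hd2, hd3, ?_⟩
  rw [← tw_col hc1 hc2 hc3, tw_equiv]
  exact hw

/-- rule H -/
theorem SS_step (e : ℤ) (k : ℕ) (mu nu : ℕ → ℕ) (hmu : IsPart mu ((k + 1) * (k + 2) / 2))
    (hst : HStrip mu nu) (h : SS e (rho k) nu) : SS e (rho (k + 1)) mu := by
  obtain ⟨n0, r1, c1, r2, c2, r3, c3, h1, h2, h3, w1, w2, w3, hw⟩ := h
  obtain ⟨n, hn⟩ : ∃ n, n = (k + 1) * (k + 2) / 2 := ⟨_, rfl⟩
  rw [← hn] at hmu
  have hkn : k + 1 ≤ n := by
    rw [hn, tri_succ]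
    omega
  have hn0 : n0 = k * (k + 1) / 2 := by
    have := h1.isPart
    rw [Fintype.card_fin] at this
    exact sx03_part_unique this (isPart_rho k)
  have hnu : IsPart nu (n - (k + 1)) := by
    have := h3.isPart
    rw [Fintype.card_fin, hn0] at this
    have e : n - (k + 1) = k * (k + 1) / 2 := by rw [hn, tri_succ]; omega
    rw [e]
    exact this
  obtain ⟨α, -, hα⟩ := Finset.exists_subset_card_eq (s := (univ : Finset (Fin n)))
    (n := k + 1) (by simpa using hkn)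
  obtain ⟨f, d1, d2, d3, hd1, hd2, hd3, hd⟩ := to_compl false e k nu hn h1 h2 h3 hw α hα
  obtain ⟨r1', c1', r2', c2', r3', c3', g1, g2, g3, hg⟩ := step_core false e k mu nu n hn hmu hnu
    hst α hα _ _ _ _ _ _ _ _ _ hd1 hd2 hd3 hd
  exact ⟨n, r1', c1', r2', c2', r3', c3', g1, g2, g3, _, _, _, hg⟩

theorem YV_step (e : ℤ) (k m d : ℕ) (mu nu : ℕ → ℕ) (hmu : IsPart mu ((k + 1) * (k + 2) / 2))
    (hst : VStrip mu nu) (h : YV e k m d nu) : YV e (k + 1) (m + 1) d mu := by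
  obtain ⟨n0, r1, c1, r2, c2, r3, c3, h1, h2, h3, w1, w2, w3, hw, ha, hd'⟩ := h
  obtain ⟨n, hn⟩ : ∃ n, n = (k + 1) * (k + 2) / 2 := ⟨_, rfl⟩
  rw [← hn] at hmu
  have hkn : k + 1 ≤ n := by
    rw [hn, tri_succ]
    omega
  have hn0 : n0 = k * (k + 1) / 2 := by
    have := h1.isPart
    rw [Fintype.card_fin] at this
    exact sx03_part_unique this (isPart_rho k)
  have hnu : IsPart nu (n - (k + 1)) := by
    have := h3.isPart
    rw [Fintype.card_fin, hn0] at this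
    have e : n - (k + 1) = k * (k + 1) / 2 := by rw [hn, tri_succ]; omega
    rw [e]
    exact this
  obtain ⟨α, -, hα⟩ := Finset.exists_subset_card_eq (s := (univ : Finset (Fin n)))
    (n := k + 1) (by simpa using hkn)
  obtain ⟨f, d1, d2, d3, hd1, hd2, hd3, hd⟩ := to_compl true e k nu hn h1 h2 h3 hw α hα
  obtain ⟨r1', c1', r2', c2', r3', c3', g1, g2, g3, hg⟩ := step_core true e k mu nu n hn hmu hnu
    hst α hα _ _ _ _ _ _ _ _ _ hd1 hd2 hd3 hd
  refine ⟨n, r1', c1', r2', c2', r3', c3', g1, g2, g3, _, _, _, hg, ?_, ?_⟩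
  · intro x hx
    unfold up at hx ⊢
    by_cases hxα : x ∈ α
    · simp [hxα]
    · simp only [hxα, dite_false, Function.comp_apply] at hx ⊢
      rw [ha _ (by omega)]
  · refine le_trans (Finset.card_le_card ?_) hd'
    intro y hy
    rw [Finset.mem_image] at hy ⊢
    obtain ⟨x, hx, rfl⟩ := hy
    rw [Finset.mem_filter] at hx
    have hxα : x ∉ α := by
      intro hxα
      have := hx.2
      unfold up at this
      simp [hxα] at this
    refine ⟨f ⟨x, hxα⟩, ?_, ?_⟩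
    · rw [Finset.mem_filter]
      refine ⟨Finset.mem_univ _, ?_⟩
      have := hx.2
      unfold up at this
      simp only [hxα, dite_false, Function.comp_apply] at this
      omega
    · unfold ex3
      simp [hxα]

end Pool.Agent.H374
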