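import Mathlib
import Pool.Graph.R_pool_sql_team_seeded_620a6dc7.Helper139_Saxl.Defs
import Pool.Graph.R_pool_sql_team_seeded_620a6dc7.Helper139_Saxl.Defs2
import Pool.Graph.R_pool_sql_team_seeded_620a6dc7.Helper139_Saxl.J01
import Pool.Graph.R_pool_sql_team_seeded_620a6dc7.Helper139_Saxl.J31

set_option autoImplicit false

/-! The kernels. -/

namespace Pool.Agent.H374

open Finset Pool.Saxl

section kernels

variable {n : ℕ}

/-- the letters of a word as natural numbers -/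
def vl (v : Fin n → Fin n) : Fin n → ℕ := fun x => (v x : ℕ)

/-- the sign of the bijection to the cells given by the rows `w` and the columns `c` -/
def sg (R C w c : Fin n → ℕ) : ℤ :=
  ∑ σ : Equiv.Perm (Fin n), if w = R ∘ σ ∧ c = C ∘ σ then (Equiv.Perm.sign σ : ℤ) else 0

theorem sgn_mul_self (g : Equiv.Perm (Fin n)) :
    (Equiv.Perm.sign g : ℤ) * (Equiv.Perm.sign g : ℤ) = 1 := by
  rw [← Units.val_mul, Int.units_mul_self]
  rfl

theorem sg_comp (R C w c : Fin n → ℕ) (g : Equiv.Perm (Fin n)) :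
    sg R C (w ∘ g) (c ∘ g) = (Equiv.Perm.sign g : ℤ) * sg R C w c := by
  unfold sg
  rw [Finset.mul_sum]
  symm
  apply Fintype.sum_equiv (Equiv.mulRight g)
  intro σ
  have h1 : (w ∘ g = R ∘ (Equiv.mulRight g σ)) ↔ w = R ∘ σ := by
    constructor
    · intro h
      funext x
      have := congrFun h (g⁻¹ x)
      simpa using this
    · intro h
      rw [h]
      rfl
  have h2 : (c ∘ g = C ∘ (Equiv.mulRight g σ)) ↔ c = C ∘ σ := by
    constructor
    · intro h
      funext x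
      have := congrFun h (g⁻¹ x)
      simpa using this
    · intro h
      rw [h]
      rfl
  simp only [h1, h2]
  split_ifs
  · simp [Equiv.Perm.sign_mul, mul_comm]
  · simp

theorem sg_comp_left (R C w c : Fin n → ℕ) (g : Equiv.Perm (Fin n)) :
    sg R C (w ∘ g) c = (Equiv.Perm.sign g : ℤ) * sg R C w (c ∘ g.symm) := by
  have h := sg_comp R C w (c ∘ g.symm) g
  have e : (c ∘ g.symm) ∘ g = c := by funext x; simp
  rw [e] at h
  exact h

theorem sg_of (R C : Fin n → ℕ) (hinj : ∀ x y, R x = R y → C x = C y → x = y)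
    (σ : Equiv.Perm (Fin n)) : sg R C (R ∘ σ) (C ∘ σ) = (Equiv.Perm.sign σ : ℤ) := by
  unfold sg
  rw [Finset.sum_eq_single σ]
  · rw [if_pos ⟨rfl, rfl⟩]
  · intro τ _ hτ
    rw [if_neg]
    rintro ⟨h1, h2⟩
    apply hτ
    ext x
    rw [hinj _ _ (congrFun h1 x).symm (congrFun h2 x).symm]
  · intro h
    exact absurd (Finset.mem_univ _) h

theorem sg_ne {R C w c : Fin n → ℕ} (h : sg R C w c ≠ 0) :
    ∃ σ : Equiv.Perm (Fin n), w = R ∘ σ ∧ c = C ∘ σ := by
  by_contra hcon
  push Not at hcon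
  apply h
  unfold sg
  refine Finset.sum_eq_zero fun σ _ => ?_
  rw [if_neg (fun h => hcon σ h.1 h.2)]

theorem pt_sg (R C w : Fin n → ℕ) (σ : Equiv.Perm (Fin n)) :
    pt (R ∘ σ) (C ∘ σ) w = (Equiv.Perm.sign σ : ℤ) * sg R C w (C ∘ σ) := by
  unfold pt sg
  rw [Finset.mul_sum]
  apply Fintype.sum_equiv (Equiv.mulLeft σ)
  intro τ
  have h1 : (∀ x, (C ∘ σ) (τ x) = (C ∘ σ) x) ↔ C ∘ σ = C ∘ (Equiv.mulLeft σ τ) := by
    constructor
    · intro h
      funext x
      exact (h x).symm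
    · intro h x
      exact (congrFun h x).symm
  have h2 : (∀ x, w x = (R ∘ σ) (τ x)) ↔ w = R ∘ (Equiv.mulLeft σ τ) := by
    constructor
    · intro h
      funext x
      exact h x
    · intro h x
      exact congrFun h x
  by_cases hc : C ∘ σ = C ∘ (Equiv.mulLeft σ τ)
  · by_cases hw : w = R ∘ (Equiv.mulLeft σ τ)
    · rw [if_pos ⟨h1.2 hc, h2.2 hw⟩, if_pos ⟨hw, hc⟩]
      simp only [Equiv.coe_mulLeft, Equiv.Perm.sign_mul, Units.val_mul]
      rw [← mul_assoc, sgn_mul_self, one_mul]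
    · rw [if_neg (fun h => hw (h2.1 h.2)), if_neg (fun h => hw h.1), mul_zero]
  · rw [if_neg (fun h => hc (h1.1 h.1)), if_neg (fun h => hc h.2), mul_zero]

theorem pt_sg_one (R C w : Fin n → ℕ) : pt R C w = sg R C w C := by
  have h := pt_sg R C w 1
  simpa using h

theorem sg_swap {R C : Fin n → ℕ} {τ : Equiv.Perm (Fin n)} (h1 : C = R ∘ τ) (h2 : R = C ∘ τ)
    (w c : Fin n → ℕ) : sg R C c w = (Equiv.Perm.sign τ : ℤ) * sg R C w c := by
  unfold sg
  rw [Finset.mul_sum]
  apply Fintype.sum_equiv (Equiv.mulLeft τ)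
  intro σ
  have e1 : R ∘ (Equiv.mulLeft τ σ) = C ∘ σ := by
    conv_rhs => rw [h1]
    rfl
  have e2 : C ∘ (Equiv.mulLeft τ σ) = R ∘ σ := by
    conv_rhs => rw [h2]
    rfl
  rw [e1, e2]
  by_cases hc : c = R ∘ σ
  · by_cases hw : w = C ∘ σ
    · rw [if_pos ⟨hc, hw⟩, if_pos ⟨hw, hc⟩]
      simp only [Equiv.coe_mulLeft, Equiv.Perm.sign_mul, Units.val_mul]
      rw [← mul_assoc, sgn_mul_self, one_mul]
    · rw [if_neg (fun h => hw h.2), if_neg (fun h => hw h.1), mul_zero]
  · rw [if_neg (fun h => hc h.1), if_neg (fun h => hc h.2), mul_zero]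

/-- the projection kernel -/
def kp (r c w v : Fin n → ℕ) : ℤ := ∑ g : Equiv.Perm (Fin n), pt r c (w ∘ g) * pt r c (v ∘ g)

theorem kp_comp (r c w v : Fin n → ℕ) (h : Equiv.Perm (Fin n)) :
    kp r c (w ∘ h) (v ∘ h) = kp r c w v := by
  unfold kp
  apply Fintype.sum_equiv (Equiv.mulLeft h)
  intro g
  rfl

theorem kp_comp_right (r c w v : Fin n → ℕ) (h : Equiv.Perm (Fin n)) :
    kp r c w (v ∘ h) = kp r c (w ∘ h.symm) v := by
  rw [← kp_comp r c (w ∘ h.symm) v h]
  congr 1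
  funext x
  simp

theorem kp_symm (r c w v : Fin n → ℕ) : kp r c w v = kp r c v w := by
  unfold kp
  exact Finset.sum_congr rfl fun g _ => mul_comm _ _

theorem sum_words_comp (F : (Fin n → ℕ) → ℤ) (g : Equiv.Perm (Fin n)) :
    ∑ v : Fin n → Fin n, F (vl v ∘ g) = ∑ v : Fin n → Fin n, F (vl v) := by
  refine Fintype.sum_equiv (Equiv.arrowCongr g.symm (Equiv.refl (Fin n))) _ _ fun v => ?_
  congr 1

theorem pt_bd {r c w : Fin n → ℕ} (hr : ∀ x, r x < n) (h : pt r c w ≠ 0) : ∀ x, w x < n := by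
  obtain ⟨σ, _, hw⟩ := exists_of_pt_ne _ _ _ h
  intro x
  rw [hw]
  exact hr _

theorem exists_vl {w : Fin n → ℕ} (h : ∀ x, w x < n) : ∃ v : Fin n → Fin n, vl v = w :=
  ⟨fun x => ⟨w x, h x⟩, rfl⟩

theorem pt_inv (r c w : Fin n → ℕ) (g : Equiv.Perm (Fin n)) :
    pt r c (w ∘ g) = pt (r ∘ g.symm) (c ∘ g.symm) w := by
  have h := pt_equiv g.symm r c (w ∘ g)
  rw [← h]
  congr 1
  funext x
  simp

theorem kp_mem {r c : Fin n → ℕ} {lam : ℕ → ℕ} (hT : IsTab r c lam) (w : Fin n → ℕ) :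
    (fun v : Fin n → Fin n => ((kp r c w (vl v) : ℤ) : ℂ)) ∈ spe n lam := by
  have h : (fun v : Fin n → Fin n => ((kp r c w (vl v) : ℤ) : ℂ)) =
      ∑ g : Equiv.Perm (Fin n), ((pt r c (w ∘ g) : ℤ) : ℂ) • ev (r ∘ g.symm) (c ∘ g.symm) := by
    funext v
    rw [Finset.sum_apply]
    unfold kp
    push_cast
    refine Finset.sum_congr rfl fun g _ => ?_
    rw [Pi.smul_apply, smul_eq_mul]
    congr 1
    rw [pt_inv]
    rfl
  rw [h]
  refine Submodule.sum_mem _ fun g _ => Submodule.smul_mem _ _ ?_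
  exact Submodule.subset_span ⟨_, _, hT.comp g.symm, rfl⟩

theorem kp_swap {r c : Fin n → ℕ} {lam : ℕ → ℕ} (hT : IsTab r c lam)
    (w v : Fin n → Fin n) :
    (∑ u : Fin n → Fin n, kp r c (vl w) (vl u) * pt r c (vl u)) * pt r c (vl v) =
      (∑ u : Fin n → Fin n, kp r c (vl v) (vl u) * pt r c (vl u)) * pt r c (vl w) := by
  have hp := hT.isPart
  rw [Fintype.card_fin] at hp
  have hr := sx31_row_lt hp hT
  have key : ∀ w v : Fin n → Fin n,
      ∑ σ : Equiv.Perm (Fin n), (if ∀ x, c (σ x) = c x then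
        (Equiv.Perm.sign σ : ℤ) * kp r c (vl w) (vl v ∘ σ) else 0) =
      (∑ u : Fin n → Fin n, kp r c (vl w) (vl u) * pt r c (vl u)) * pt r c (vl v) := by
    intro w v
    have h1 := congrFun (sx31_K_eq hT hr (kp_mem hT (vl w))) v
    rw [sx31_K_apply, Pi.smul_apply, smul_eq_mul] at h1
    have h2 : ((∑ σ : Equiv.Perm (Fin n), (if ∀ x, c (σ x) = c x then
        (Equiv.Perm.sign σ : ℤ) * kp r c (vl w) (vl v ∘ σ) else 0) : ℤ) : ℂ) =
      (((∑ u : Fin n → Fin n, kp r c (vl w) (vl u) * pt r c (vl u)) * pt r c (vl v) : ℤ) : ℂ) := by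
      rw [Int.cast_sum, Int.cast_mul, Int.cast_sum]
      refine Eq.trans ?_ (h1.trans ?_)
      · refine Finset.sum_congr rfl fun σ _ => ?_
        split_ifs
        · push_cast
          rfl
        · simp
      · congr 1
        refine Finset.sum_congr rfl fun u _ => ?_
        push_cast
        rfl
    exact_mod_cast h2
  rw [← key w v, ← key v w]
  apply Fintype.sum_equiv (Equiv.inv (Equiv.Perm (Fin n)))
  intro σ
  have e1 : (∀ x, c ((Equiv.inv (Equiv.Perm (Fin n)) σ) x) = c x) ↔ ∀ x, c (σ x) = c x := by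
    constructor
    · intro h x
      have := h (σ x)
      simpa using this.symm
    · intro h x
      have := h (σ⁻¹ x)
      simpa using this.symm
  simp only [e1]
  split_ifs
  · have e2 : (Equiv.Perm.sign ((Equiv.inv (Equiv.Perm (Fin n))) σ) : ℤ) =
      (Equiv.Perm.sign σ : ℤ) := by simp
    rw [e2, kp_comp_right, kp_symm]
    rfl
  · rfl

theorem pt_self {r c : Fin n → ℕ} (hinj : ∀ x y, r x = r y → c x = c y → x = y) :
    pt r c r = 1 := by
  have h := pt_of r c hinj 1 (fun _ => rfl)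
  simpa using h

theorem kp_proj {r c : Fin n → ℕ} {lam : ℕ → ℕ} (hT : IsTab r c lam) :
    ∃ C : ℤ, 0 < C ∧ ∀ w : Fin n → ℕ,
      ∑ v : Fin n → Fin n, kp r c w (vl v) * pt r c (vl v) = C * pt r c w := by
  have hp := hT.isPart
  rw [Fintype.card_fin] at hp
  have hr := sx31_row_lt hp hT
  obtain ⟨ρ, hρ⟩ := exists_vl hr
  set C : ℤ := ∑ v : Fin n → Fin n, kp r c r (vl v) * pt r c (vl v) with hC
  have hmain : ∀ w : Fin n → ℕ,
      ∑ v : Fin n → Fin n, kp r c w (vl v) * pt r c (vl v) = C * pt r c w := by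
    intro w
    by_cases hw : ∀ x, w x < n
    · obtain ⟨u, rfl⟩ := exists_vl hw
      have h := kp_swap hT u ρ
      rw [hρ, pt_self hT.inj, mul_one] at h
      exact h
    · push Not at hw
      obtain ⟨x, hx⟩ := hw
      have h0 : ∀ g : Equiv.Perm (Fin n), pt r c (w ∘ g) = 0 := by
        intro g
        by_contra hne
        have := pt_bd hr hne (g.symm x)
        simp at this
        omega
      have h1 : pt r c w = 0 := by simpa using h0 1
      rw [h1, mul_zero]
      refine Finset.sum_eq_zero fun v _ => ?_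
      have : kp r c w (vl v) = 0 := by
        unfold kp
        refine Finset.sum_eq_zero fun g _ => ?_
        rw [h0, zero_mul]
      rw [this, zero_mul]
  refine ⟨C, ?_, hmain⟩
  have h1 : C * ∑ w : Fin n → Fin n, pt r c (vl w) * pt r c (vl w) =
      ∑ g : Equiv.Perm (Fin n), (∑ w : Fin n → Fin n, pt r c (vl w ∘ g) * pt r c (vl w)) ^ 2 := by
    calc C * ∑ w : Fin n → Fin n, pt r c (vl w) * pt r c (vl w)
        = ∑ w : Fin n → Fin n, (∑ v : Fin n → Fin n, kp r c (vl w) (vl v) * pt r c (vl v)) *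
          pt r c (vl w) := by
          rw [Finset.mul_sum]
          refine Finset.sum_congr rfl fun w _ => ?_
          rw [hmain]
          ring
      _ = ∑ w : Fin n → Fin n, ∑ g : Equiv.Perm (Fin n), ∑ v : Fin n → Fin n,
          pt r c (vl w ∘ g) * pt r c (vl w) * (pt r c (vl v ∘ g) * pt r c (vl v)) := by
          refine Finset.sum_congr rfl fun w _ => ?_
          rw [Finset.sum_mul, Finset.sum_comm]
          refine Finset.sum_congr rfl fun v _ => ?_
          unfold kp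
          rw [Finset.sum_mul, Finset.sum_mul]
          refine Finset.sum_congr rfl fun g _ => ?_
          ring
      _ = _ := by
          rw [Finset.sum_comm]
          refine Finset.sum_congr rfl fun g _ => ?_
          rw [sq, Finset.sum_mul_sum]
  have h2 : 0 < ∑ g : Equiv.Perm (Fin n),
      (∑ w : Fin n → Fin n, pt r c (vl w ∘ g) * pt r c (vl w)) ^ 2 := by
    refine Finset.sum_pos' (fun g _ => sq_nonneg _) ⟨1, Finset.mem_univ _, ?_⟩
    have h3 : 0 < ∑ w : Fin n → Fin n, pt r c (vl w ∘ (1 : Equiv.Perm (Fin n))) * pt r c (vl w) := by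
      refine Finset.sum_pos' (fun w _ => mul_self_nonneg _) ⟨ρ, Finset.mem_univ _, ?_⟩
      have : pt r c (vl ρ ∘ (1 : Equiv.Perm (Fin n))) * pt r c (vl ρ) = 1 := by
        rw [hρ]
        have := pt_self hT.inj
        simp [this]
      rw [this]
      norm_num
    positivity
  have h4 : 0 ≤ ∑ w : Fin n → Fin n, pt r c (vl w) * pt r c (vl w) :=
    Finset.sum_nonneg fun w _ => mul_self_nonneg _
  rw [← h1] at h2
  exact pos_of_mul_pos_left h2 h4

theorem kp_kp {r c : Fin n → ℕ} {C : ℤ}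
    (h : ∀ w : Fin n → ℕ, ∑ v : Fin n → Fin n, kp r c w (vl v) * pt r c (vl v) = C * pt r c w)
    (w u : Fin n → ℕ) :
    ∑ v : Fin n → Fin n, kp r c w (vl v) * kp r c u (vl v) = C * kp r c w u := by
  have h1 : ∀ g : Equiv.Perm (Fin n),
      ∑ v : Fin n → Fin n, kp r c w (vl v) * pt r c (vl v ∘ g) = C * pt r c (w ∘ g) := by
    intro g
    rw [← h (w ∘ g), ← sum_words_comp (fun v => kp r c (w ∘ g) v * pt r c v) g]
    refine Finset.sum_congr rfl fun v _ => ?_
    rw [kp_comp]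
  calc ∑ v : Fin n → Fin n, kp r c w (vl v) * kp r c u (vl v)
      = ∑ v : Fin n → Fin n, ∑ g : Equiv.Perm (Fin n),
        pt r c (u ∘ g) * (kp r c w (vl v) * pt r c (vl v ∘ g)) := by
        refine Finset.sum_congr rfl fun v _ => ?_
        conv_lhs =>
          rw [show kp r c u (vl v) = ∑ g : Equiv.Perm (Fin n), pt r c (u ∘ g) * pt r c (vl v ∘ g)
            from rfl]
        rw [Finset.mul_sum]
        refine Finset.sum_congr rfl fun g _ => ?_
        ring
    _ = ∑ g : Equiv.Perm (Fin n), pt r c (u ∘ g) * (C * pt r c (w ∘ g)) := by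
        rw [Finset.sum_comm]
        refine Finset.sum_congr rfl fun g _ => ?_
        rw [← Finset.mul_sum, h1]
    _ = C * kp r c w u := by
        unfold kp
        rw [Finset.mul_sum]
        refine Finset.sum_congr rfl fun g _ => ?_
        ring

theorem kp_sg {R C0 : Fin n → ℕ} {C : ℤ}
    (h : ∀ w : Fin n → ℕ, ∑ v : Fin n → Fin n, kp R C0 w (vl v) * pt R C0 (vl v) = C * pt R C0 w)
    (w c : Fin n → ℕ) :
    ∑ v : Fin n → Fin n, kp R C0 w (vl v) * sg R C0 (vl v) c = C * sg R C0 w c := by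
  by_cases hc : ∃ σ : Equiv.Perm (Fin n), c = C0 ∘ σ
  · obtain ⟨σ, rfl⟩ := hc
    have e : ∀ v, sg R C0 v (C0 ∘ σ) = (Equiv.Perm.sign σ : ℤ) * pt R C0 (v ∘ σ.symm) := by
      intro v
      rw [pt_sg_one]
      have := sg_comp R C0 (v ∘ σ.symm) C0 σ
      rw [← this]
      congr 1
      funext x
      simp
    simp only [e]
    have h2 := h (w ∘ σ.symm)
    rw [← sum_words_comp (fun v => kp R C0 (w ∘ σ.symm) v * pt R C0 v) σ.symm] at h2
    have h3 : ∑ v : Fin n → Fin n, kp R C0 w (vl v) * pt R C0 (vl v ∘ σ.symm) =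
        C * pt R C0 (w ∘ σ.symm) := by
      rw [← h2]
      refine Finset.sum_congr rfl fun v _ => ?_
      rw [kp_comp]
    calc _ = (Equiv.Perm.sign σ : ℤ) *
          ∑ v : Fin n → Fin n, kp R C0 w (vl v) * pt R C0 (vl v ∘ σ.symm) := by
          rw [Finset.mul_sum]
          refine Finset.sum_congr rfl fun v _ => ?_
          ring
      _ = _ := by
          rw [h3]
          ring
  · have h0 : ∀ v, sg R C0 v c = 0 := by
      intro v
      by_contra hne
      obtain ⟨σ, _, h⟩ := sg_ne hne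
      exact hc ⟨σ, h⟩
    simp [h0]

/-- a product of two sums of products of functions of three variables -/
theorem triple {ι ι' κ : Type} [Fintype ι] [Fintype ι'] [Fintype κ]
    (a b u : ι → κ → ℤ) (a' b' u' : ι' → κ → ℤ) :
    ∑ v1, ∑ v2, ∑ v3, (∑ g, a g v1 * b g v2 * u g v3) * (∑ h, a' h v1 * b' h v2 * u' h v3) =
      ∑ g, ∑ h, (∑ v, a g v * a' h v) * (∑ v, b g v * b' h v) * (∑ v, u g v * u' h v) := by
  have e1 : ∀ g h, (∑ v, a g v * a' h v) * (∑ v, b g v * b' h v) * (∑ v, u g v * u' h v) =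
      ∑ v1, ∑ v2, ∑ v3, (a g v1 * b g v2 * u g v3) * (a' h v1 * b' h v2 * u' h v3) := by
    intro g h
    rw [Finset.sum_mul_sum, Finset.sum_mul]
    refine Finset.sum_congr rfl fun v1 _ => ?_
    rw [Finset.sum_mul]
    refine Finset.sum_congr rfl fun v2 _ => ?_
    rw [Finset.mul_sum]
    refine Finset.sum_congr rfl fun v3 _ => ?_
    ring
  simp only [e1]
  simp only [Finset.sum_mul_sum]
  calc _ = ∑ p : κ × κ × κ, ∑ q : ι × ι',
        (a q.1 p.1 * b q.1 p.2.1 * u q.1 p.2.2) * (a' q.2 p.1 * b' q.2 p.2.1 * u' q.2 p.2.2) := by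
        simp only [Fintype.sum_prod_type]
    _ = ∑ q : ι × ι', ∑ p : κ × κ × κ,
        (a q.1 p.1 * b q.1 p.2.1 * u q.1 p.2.2) * (a' q.2 p.1 * b' q.2 p.2.1 * u' q.2 p.2.2) :=
        Finset.sum_comm
    _ = _ := by simp only [Fintype.sum_prod_type]

end kernels

end Pool.Agent.H374
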