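import Mathlib
import Pool.Graph.R_pool_sql_team_seeded_620a6dc7.Helper139_Saxl.Defs
import Pool.Graph.R_pool_sql_team_seeded_620a6dc7.Helper139_Saxl.Defs2
import Pool.Graph.R_pool_sql_team_seeded_620a6dc7.Helper139_Saxl.J01
import Pool.Graph.R_pool_sql_team_seeded_620a6dc7.Helper139_Saxl.J31
import Pool.Agent.H374.A02
import Pool.Agent.H374.A03

set_option autoImplicit false

/-! The orthogonality argument. -/

namespace Pool.Agent.H374

open Finset Pool.Saxl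

section orth

variable {n : ℕ}

/-- an invariant tensor -/
def Zt (R C r3 c3 w3 p q v1 v2 v3 : Fin n → ℕ) : ℤ :=
  ∑ g : Equiv.Perm (Fin n), kp R C p (v1 ∘ g) * sg R C (v2 ∘ g) q * kp r3 c3 w3 (v3 ∘ g)

theorem kp_sg_gen {R C : Fin n → ℕ} {C1 : ℤ}
    (h : ∀ w : Fin n → ℕ, ∑ v : Fin n → Fin n, kp R C w (vl v) * pt R C (vl v) = C1 * pt R C w)
    (p q : Fin n → ℕ) (g h' : Equiv.Perm (Fin n)) :
    ∑ v : Fin n → Fin n, kp R C p (vl v ∘ g) * sg R C (vl v ∘ h') q =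
      C1 * sg R C (p ∘ (g⁻¹ * h' : Equiv.Perm (Fin n))) q := by
  have h1 := sum_words_comp (fun v => kp R C p (v ∘ g) * sg R C (v ∘ h') q) g⁻¹
  have h2 : ∀ v : Fin n → Fin n, (fun v : Fin n → ℕ => kp R C p (v ∘ g) * sg R C (v ∘ h') q)
      (vl v ∘ (g⁻¹ : Equiv.Perm (Fin n))) = (Equiv.Perm.sign (g⁻¹ * h') : ℤ) *
      (kp R C p (vl v) * sg R C (vl v) (q ∘ (g⁻¹ * h').symm)) := by
    intro v
    have e1 : (vl v ∘ (g⁻¹ : Equiv.Perm (Fin n))) ∘ g = vl v := by funext x; simp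
    have e2 : (vl v ∘ (g⁻¹ : Equiv.Perm (Fin n))) ∘ h' =
      vl v ∘ (g⁻¹ * h' : Equiv.Perm (Fin n)) := by funext x; simp
    simp only
    rw [e1, e2, sg_comp_left]
    ring
  simp only [h2] at h1
  rw [← h1, ← Finset.mul_sum, kp_sg h, sg_comp_left]
  ring

theorem Zt_pair {R C r3 c3 : Fin n → ℕ} {C1 C3 : ℤ}
    (h : ∀ w : Fin n → ℕ, ∑ v : Fin n → Fin n, kp R C w (vl v) * pt R C (vl v) = C1 * pt R C w)
    (h3 : ∀ w : Fin n → ℕ, ∑ v : Fin n → Fin n, kp r3 c3 w (vl v) * pt r3 c3 (vl v) =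
      C3 * pt r3 c3 w) (w3 p q p' q' : Fin n → ℕ) :
    ∑ v1 : Fin n → Fin n, ∑ v2 : Fin n → Fin n, ∑ v3 : Fin n → Fin n,
      Zt R C r3 c3 w3 p q (vl v1) (vl v2) (vl v3) * Zt R C r3 c3 w3 p' q' (vl v2) (vl v1) (vl v3) =
    (C1 * C1 * C3 * (Fintype.card (Equiv.Perm (Fin n)))) * ∑ x : Equiv.Perm (Fin n),
      sg R C (p ∘ x) q' * sg R C (p' ∘ x.symm) q * kp r3 c3 (w3 ∘ x) w3 := by
  have e0 : ∀ v1 v2 v3 : Fin n → Fin n,
      Zt R C r3 c3 w3 p q (vl v1) (vl v2) (vl v3) * Zt R C r3 c3 w3 p' q' (vl v2) (vl v1) (vl v3) =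
      (∑ g : Equiv.Perm (Fin n), (fun (g : Equiv.Perm (Fin n)) (v : Fin n → Fin n) =>
          kp R C p (vl v ∘ g)) g v1 *
        (fun (g : Equiv.Perm (Fin n)) (v : Fin n → Fin n) => sg R C (vl v ∘ g) q) g v2 *
        (fun (g : Equiv.Perm (Fin n)) (v : Fin n → Fin n) => kp r3 c3 w3 (vl v ∘ g)) g v3) *
      (∑ g : Equiv.Perm (Fin n), (fun (g : Equiv.Perm (Fin n)) (v : Fin n → Fin n) =>
          sg R C (vl v ∘ g) q') g v1 *
        (fun (g : Equiv.Perm (Fin n)) (v : Fin n → Fin n) => kp R C p' (vl v ∘ g)) g v2 *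
        (fun (g : Equiv.Perm (Fin n)) (v : Fin n → Fin n) => kp r3 c3 w3 (vl v ∘ g)) g v3) := by
    intro v1 v2 v3
    unfold Zt
    congr 1
    refine Finset.sum_congr rfl fun g _ => ?_
    simp only
    ring
  simp only [e0]
  rw [triple]
  have e1 : ∀ g h' : Equiv.Perm (Fin n),
      (∑ v : Fin n → Fin n, kp R C p (vl v ∘ g) * sg R C (vl v ∘ h') q') *
      (∑ v : Fin n → Fin n, sg R C (vl v ∘ g) q * kp R C p' (vl v ∘ h')) *
      (∑ v : Fin n → Fin n, kp r3 c3 w3 (vl v ∘ g) * kp r3 c3 w3 (vl v ∘ h')) =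
      (C1 * C1 * C3) * (sg R C (p ∘ (g⁻¹ * h' : Equiv.Perm (Fin n))) q' *
        sg R C (p' ∘ (g⁻¹ * h' : Equiv.Perm (Fin n)).symm) q *
        kp r3 c3 (w3 ∘ (g⁻¹ * h' : Equiv.Perm (Fin n))) w3) := by
    intro g h'
    have f1 := kp_sg_gen h p q' g h'
    have f2 := kp_sg_gen h p' q h' g
    have f2' : ∑ v : Fin n → Fin n, sg R C (vl v ∘ g) q * kp R C p' (vl v ∘ h') =
        C1 * sg R C (p' ∘ (h'⁻¹ * g : Equiv.Perm (Fin n))) q := by
      rw [← f2]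
      exact Finset.sum_congr rfl fun v _ => mul_comm _ _
    have e2 : (g⁻¹ * h' : Equiv.Perm (Fin n)).symm = h'⁻¹ * g := by
      have : (g⁻¹ * h' : Equiv.Perm (Fin n))⁻¹ = h'⁻¹ * g := by group
      rw [← this]
      rfl
    have f3 : ∑ v : Fin n → Fin n, kp r3 c3 w3 (vl v ∘ g) * kp r3 c3 w3 (vl v ∘ h') =
        C3 * kp r3 c3 (w3 ∘ (g⁻¹ * h' : Equiv.Perm (Fin n))) w3 := by
      have g1 := sum_words_comp (fun v => kp r3 c3 w3 (v ∘ g) * kp r3 c3 w3 (v ∘ h')) g⁻¹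
      rw [← g1]
      have g2 : ∀ v : Fin n → Fin n, (fun v : Fin n → ℕ =>
          kp r3 c3 w3 (v ∘ g) * kp r3 c3 w3 (v ∘ h')) (vl v ∘ (g⁻¹ : Equiv.Perm (Fin n))) =
          kp r3 c3 w3 (vl v) * kp r3 c3 (w3 ∘ (g⁻¹ * h').symm) (vl v) := by
        intro v
        have e1 : (vl v ∘ (g⁻¹ : Equiv.Perm (Fin n))) ∘ g = vl v := by funext x; simp
        have e2 : (vl v ∘ (g⁻¹ : Equiv.Perm (Fin n))) ∘ h' =
          vl v ∘ (g⁻¹ * h' : Equiv.Perm (Fin n)) := by funext x; simp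
        simp only
        rw [e1, e2, kp_comp_right r3 c3 w3 (vl v) (g⁻¹ * h')]
      simp only [g2]
      rw [kp_kp h3, kp_symm r3 c3 (w3 ∘ (g⁻¹ * h' : Equiv.Perm (Fin n))) w3,
        kp_comp_right r3 c3 w3 w3 (g⁻¹ * h'), kp_symm]
    rw [f1, f2', f3, e2]
    ring
  simp only [e1]
  have e3 : ∀ g : Equiv.Perm (Fin n), ∑ h' : Equiv.Perm (Fin n),
      (C1 * C1 * C3) * (sg R C (p ∘ (g⁻¹ * h' : Equiv.Perm (Fin n))) q' *
        sg R C (p' ∘ (g⁻¹ * h' : Equiv.Perm (Fin n)).symm) q *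
        kp r3 c3 (w3 ∘ (g⁻¹ * h' : Equiv.Perm (Fin n))) w3) =
      (C1 * C1 * C3) * ∑ x : Equiv.Perm (Fin n),
      sg R C (p ∘ x) q' * sg R C (p' ∘ x.symm) q * kp r3 c3 (w3 ∘ x) w3 := by
    intro g
    rw [Finset.mul_sum]
    apply Fintype.sum_equiv (Equiv.mulLeft g⁻¹)
    intro h'
    rfl
  simp only [e3]
  rw [Finset.sum_const, Finset.card_univ, nsmul_eq_mul]
  ring

theorem Zt_contr {R C r3 c3 : Fin n → ℕ} {C1 C3 : ℤ} {τ : Equiv.Perm (Fin n)}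
    (h : ∀ w : Fin n → ℕ, ∑ v : Fin n → Fin n, kp R C w (vl v) * pt R C (vl v) = C1 * pt R C w)
    (h3 : ∀ w : Fin n → ℕ, ∑ v : Fin n → Fin n, kp r3 c3 w (vl v) * pt r3 c3 (vl v) =
      C3 * pt r3 c3 w) (hτ1 : C = R ∘ τ) (hτ2 : R = C ∘ τ) (w3 p q d1 d2 : Fin n → ℕ) :
    ∑ v1 : Fin n → Fin n, ∑ v2 : Fin n → Fin n, ∑ v3 : Fin n → Fin n,
      Zt R C r3 c3 w3 p q (vl v1) (vl v2) (vl v3) *
        (sg R C (vl v1) d1 * kp R C d2 (vl v2) * pt r3 c3 (vl v3)) =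
    (C1 * C1 * C3 * (Equiv.Perm.sign τ : ℤ)) * ∑ x : Equiv.Perm (Fin n), ch true x *
      (sg R C (p ∘ x) d1 * sg R C (q ∘ x) d2 * pt r3 c3 (w3 ∘ x)) := by
  have e0 : ∀ v1 v2 v3 : Fin n → Fin n,
      Zt R C r3 c3 w3 p q (vl v1) (vl v2) (vl v3) *
        (sg R C (vl v1) d1 * kp R C d2 (vl v2) * pt r3 c3 (vl v3)) =
      (∑ g : Equiv.Perm (Fin n), (fun (g : Equiv.Perm (Fin n)) (v : Fin n → Fin n) =>
          kp R C p (vl v ∘ g)) g v1 *
        (fun (g : Equiv.Perm (Fin n)) (v : Fin n → Fin n) => sg R C (vl v ∘ g) q) g v2 *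
        (fun (g : Equiv.Perm (Fin n)) (v : Fin n → Fin n) => kp r3 c3 w3 (vl v ∘ g)) g v3) *
      (∑ g : Unit, (fun (_ : Unit) (v : Fin n → Fin n) => sg R C (vl v) d1) g v1 *
        (fun (_ : Unit) (v : Fin n → Fin n) => kp R C d2 (vl v)) g v2 *
        (fun (_ : Unit) (v : Fin n → Fin n) => pt r3 c3 (vl v)) g v3) := by
    intro v1 v2 v3
    unfold Zt
    congr 1
    simp
  simp only [e0]
  rw [triple]
  have e1 : ∀ (g : Equiv.Perm (Fin n)),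
      (∑ v : Fin n → Fin n, kp R C p (vl v ∘ g) * sg R C (vl v) d1) *
      (∑ v : Fin n → Fin n, sg R C (vl v ∘ g) q * kp R C d2 (vl v)) *
      (∑ v : Fin n → Fin n, kp r3 c3 w3 (vl v ∘ g) * pt r3 c3 (vl v)) =
      (C1 * C1 * C3 * (Equiv.Perm.sign τ : ℤ)) * (ch true (g⁻¹ : Equiv.Perm (Fin n)) *
        (sg R C (p ∘ (g⁻¹ : Equiv.Perm (Fin n))) d1 *
        sg R C (q ∘ (g⁻¹ : Equiv.Perm (Fin n))) d2 *
        pt r3 c3 (w3 ∘ (g⁻¹ : Equiv.Perm (Fin n))))) := by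
    intro g
    have f1 := kp_sg_gen h p d1 g 1
    have f2 := kp_sg_gen h d2 q 1 g
    simp only [mul_one, Equiv.Perm.coe_one, Function.comp_id, inv_one, one_mul] at f1 f2
    have f2' : ∑ v : Fin n → Fin n, sg R C (vl v ∘ g) q * kp R C d2 (vl v) =
        C1 * sg R C (d2 ∘ g) q := by
      rw [← f2]
      exact Finset.sum_congr rfl fun v _ => mul_comm _ _
    have f4 : sg R C (d2 ∘ g) q = (Equiv.Perm.sign τ : ℤ) * (ch true (g⁻¹ : Equiv.Perm (Fin n)) *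
        sg R C (q ∘ (g⁻¹ : Equiv.Perm (Fin n))) d2) := by
      rw [sg_swap hτ1 hτ2, sg_comp_left R C q d2 g⁻¹]
      unfold ch
      simp only [if_true]
      rw [← mul_assoc (Equiv.Perm.sign (g⁻¹ : Equiv.Perm (Fin n)) : ℤ), sgn_mul_self, one_mul]
      rfl
    have f3 : ∑ v : Fin n → Fin n, kp r3 c3 w3 (vl v ∘ g) * pt r3 c3 (vl v) =
        C3 * pt r3 c3 (w3 ∘ (g⁻¹ : Equiv.Perm (Fin n))) := by
      rw [← h3]
      refine Finset.sum_congr rfl fun v _ => ?_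
      rw [kp_comp_right]
      rfl
    rw [f1, f2', f3, f4]
    ring
  simp only [e1]
  simp only [Finset.sum_const, Finset.card_univ, Fintype.card_unit, one_smul]
  rw [Finset.mul_sum]
  apply Fintype.sum_equiv (Equiv.inv (Equiv.Perm (Fin n)))
  intro g
  rfl

/-- two standard tableaux of the same shape -/
theorem std_trans {lam : ℕ → ℕ} {row col row' col' : Fin n → ℕ} (hT : IsStd row col lam)
    (hT' : IsStd row' col' lam) : ∃ g : Equiv.Perm (Fin n), row' = row ∘ g ∧ col' = col ∘ g := by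
  have hex : ∀ x, ∃ y, row y = row' x ∧ col y = col' x := fun x =>
    std_surj row col lam hT (row' x) (col' x) (hT'.lt x)
  choose g hg1 hg2 using hex
  have hinj : Function.Injective g := by
    intro x y e
    refine hT'.inj x y ?_ ?_
    · rw [← hg1 x, ← hg1 y, e]
    · rw [← hg2 x, ← hg2 y, e]
  exact ⟨Equiv.ofBijective g (Finite.injective_iff_bijective.1 hinj), (funext hg1).symm,
    (funext hg2).symm⟩

/-- words with the content of the shape -/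
theorem tw_words {Ω : Type} [Fintype Ω] [DecidableEq Ω] {t : Bool} {e : ℤ}
    {r1 c1 r2 c2 r3 c3 w1 w2 w3 : Ω → ℕ} {lam : ℕ → ℕ}
    (h1 : IsTab r1 c1 lam) (h2 : IsTab r2 c2 lam)
    (h : tw t e r1 c1 r2 c2 r3 c3 w1 w2 w3 ≠ 0) :
    (∀ i, (univ.filter fun x => w1 x = i).card = lam i) ∧
    (∀ i, (univ.filter fun x => w2 x = i).card = lam i) := by
  have key : ∀ (r c w : Ω → ℕ) (g : Equiv.Perm Ω), IsTab r c lam → w = r ∘ g →
      ∀ i, (univ.filter fun x => w x = i).card = lam i := by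
    intro r c w g hT hw i
    rw [← hT.card i]
    refine Finset.card_equiv g fun x => ?_
    rw [Finset.mem_filter, Finset.mem_filter, hw]
    simp
  by_cases h' : trs t r1 c1 r2 c2 r3 c3 w1 w2 w3 = 0
  · by_cases h'' : trs t r1 c1 r2 c2 r3 c3 w2 w1 w3 = 0
    · exfalso
      apply h
      unfold tw
      rw [h', h'']
      ring
    · obtain ⟨g1, g2, g3, e1, e2, e3⟩ := trs_word3 h''
      exact ⟨key _ _ _ g2 h2 e2, key _ _ _ g1 h1 e1⟩
  · obtain ⟨g1, g2, g3, e1, e2, e3⟩ := trs_word3 h'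
    exact ⟨key _ _ _ g1 h1 e1, key _ _ _ g2 h2 e2⟩

/-- the orthogonality condition -/
def Orth (e : ℤ) (R C r3 c3 w1 w2 w3 : Fin n → ℕ) : Prop :=
  ∑ x : Equiv.Perm (Fin n), (sg R C (w1 ∘ x) w2 * sg R C (w1 ∘ x.symm) w2 +
    e * (sg R C (w1 ∘ x) w1 * sg R C (w2 ∘ x.symm) w2) +
    e * (sg R C (w2 ∘ x) w2 * sg R C (w1 ∘ x.symm) w1) +
    e * e * (sg R C (w2 ∘ x) w1 * sg R C (w2 ∘ x.symm) w1)) * kp r3 c3 (w3 ∘ x) w3 = 0

/-- The orthogonality argument: both signs occur. -/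
theorem both_of_orth {lam mu : ℕ → ℕ} {R C r1 c1 r2 c2 r3 c3 : Fin n → ℕ}
    {τ : Equiv.Perm (Fin n)} (hτ1 : C = R ∘ τ) (hτ2 : R = C ∘ τ)
    (hR : IsStd R C lam) (h1 : IsStd r1 c1 lam) (h2 : IsStd r2 c2 lam) (h3 : IsTab r3 c3 mu)
    (e : ℤ) (w1 w2 w3 : Fin n → ℕ) (hw : tw true e r1 c1 r2 c2 r3 c3 w1 w2 w3 ≠ 0)
    (hO : Orth e R C r3 c3 w1 w2 w3) (eps : ℤ) :
    SS eps lam mu := by
  obtain ⟨C1, hC1, hP1⟩ := kp_proj hR.toIsTab
  obtain ⟨C3, hC3, hP3⟩ := kp_proj h3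
  obtain ⟨s1, hs1, hs1'⟩ := std_trans hR h1
  obtain ⟨s2, hs2, hs2'⟩ := std_trans hR h2
  set z : (Fin n → ℕ) → (Fin n → ℕ) → (Fin n → ℕ) → ℤ := fun v1 v2 v3 =>
    Zt R C r3 c3 w3 w1 w2 v1 v2 v3 + e * Zt R C r3 c3 w3 w2 w1 v1 v2 v3 with hz
  -- step 1
  have step1 : ∃ v1 v2 v3 : Fin n → Fin n, z (vl v1) (vl v2) (vl v3) ≠ 0 := by
    by_contra hcon
    push Not at hcon
    have e1 := Zt_contr hP1 hP3 hτ1 hτ2 w3 w1 w2 c1 c2
    have e2 := Zt_contr hP1 hP3 hτ1 hτ2 w3 w2 w1 c1 c2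
    have e3 : ∑ v1 : Fin n → Fin n, ∑ v2 : Fin n → Fin n, ∑ v3 : Fin n → Fin n,
        z (vl v1) (vl v2) (vl v3) * (sg R C (vl v1) c1 * kp R C c2 (vl v2) * pt r3 c3 (vl v3)) =
        0 := by
      refine Finset.sum_eq_zero fun v1 _ => Finset.sum_eq_zero fun v2 _ =>
        Finset.sum_eq_zero fun v3 _ => ?_
      rw [hcon, zero_mul]
    have e4 : ∑ v1 : Fin n → Fin n, ∑ v2 : Fin n → Fin n, ∑ v3 : Fin n → Fin n,
        z (vl v1) (vl v2) (vl v3) * (sg R C (vl v1) c1 * kp R C c2 (vl v2) * pt r3 c3 (vl v3)) =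
        ∑ v1 : Fin n → Fin n, ∑ v2 : Fin n → Fin n, ∑ v3 : Fin n → Fin n,
          Zt R C r3 c3 w3 w1 w2 (vl v1) (vl v2) (vl v3) *
          (sg R C (vl v1) c1 * kp R C c2 (vl v2) * pt r3 c3 (vl v3)) +
        e * ∑ v1 : Fin n → Fin n, ∑ v2 : Fin n → Fin n, ∑ v3 : Fin n → Fin n,
          Zt R C r3 c3 w3 w2 w1 (vl v1) (vl v2) (vl v3) *
          (sg R C (vl v1) c1 * kp R C c2 (vl v2) * pt r3 c3 (vl v3)) := by
      simp only [Finset.mul_sum, ← Finset.sum_add_distrib]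
      refine Finset.sum_congr rfl fun v1 _ => Finset.sum_congr rfl fun v2 _ =>
        Finset.sum_congr rfl fun v3 _ => ?_
      rw [hz]
      ring
    rw [e3, e1, e2] at e4
    have key : ∀ p q : Fin n → ℕ, trs true r1 c1 r2 c2 r3 c3 p q w3 =
        (Equiv.Perm.sign s1 : ℤ) * (Equiv.Perm.sign s2 : ℤ) *
        ∑ x : Equiv.Perm (Fin n), ch true x *
          (sg R C (p ∘ x) c1 * sg R C (q ∘ x) c2 * pt r3 c3 (w3 ∘ x)) := by
      intro p q
      unfold trs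
      rw [Finset.mul_sum]
      refine Finset.sum_congr rfl fun g _ => ?_
      rw [hs1, hs1', hs2, hs2', pt_sg, pt_sg]
      ring
    apply hw
    unfold tw
    rw [key, key]
    have hC : C1 * C1 * C3 * (Equiv.Perm.sign τ : ℤ) ≠ 0 := by
      refine mul_ne_zero (mul_ne_zero (mul_ne_zero hC1.ne' hC1.ne') hC3.ne') ?_
      exact (Equiv.Perm.sign τ).ne_zero
    have e5 : (C1 * C1 * C3 * (Equiv.Perm.sign τ : ℤ)) *
        (∑ x : Equiv.Perm (Fin n), ch true x *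
          (sg R C (w1 ∘ x) c1 * sg R C (w2 ∘ x) c2 * pt r3 c3 (w3 ∘ x)) +
        e * ∑ x : Equiv.Perm (Fin n), ch true x *
          (sg R C (w2 ∘ x) c1 * sg R C (w1 ∘ x) c2 * pt r3 c3 (w3 ∘ x))) = 0 := by
      linear_combination -e4
    rcases mul_eq_zero.1 e5 with h | h
    · exact absurd h hC
    · linear_combination (Equiv.Perm.sign s1 : ℤ) * (Equiv.Perm.sign s2 : ℤ) * h
  -- step 2
  have step2 : ∃ v1 v2 v3 : Fin n → Fin n,
      z (vl v1) (vl v2) (vl v3) + eps * z (vl v2) (vl v1) (vl v3) ≠ 0 := by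
    by_contra hcon
    push Not at hcon
    have e1 : ∑ v1 : Fin n → Fin n, ∑ v2 : Fin n → Fin n, ∑ v3 : Fin n → Fin n,
        z (vl v1) (vl v2) (vl v3) * (z (vl v1) (vl v2) (vl v3) +
          eps * z (vl v2) (vl v1) (vl v3)) = 0 := by
      refine Finset.sum_eq_zero fun v1 _ => Finset.sum_eq_zero fun v2 _ =>
        Finset.sum_eq_zero fun v3 _ => ?_
      rw [hcon, mul_zero]
    have e2 : ∑ v1 : Fin n → Fin n, ∑ v2 : Fin n → Fin n, ∑ v3 : Fin n → Fin n,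
        z (vl v1) (vl v2) (vl v3) * z (vl v2) (vl v1) (vl v3) = 0 := by
      have f1 := Zt_pair hP1 hP3 w3 w1 w2 w1 w2
      have f2 := Zt_pair hP1 hP3 w3 w1 w2 w2 w1
      have f3 := Zt_pair hP1 hP3 w3 w2 w1 w1 w2
      have f4 := Zt_pair hP1 hP3 w3 w2 w1 w2 w1
      unfold Orth at hO
      have g1 : ∑ v1 : Fin n → Fin n, ∑ v2 : Fin n → Fin n, ∑ v3 : Fin n → Fin n,
          z (vl v1) (vl v2) (vl v3) * z (vl v2) (vl v1) (vl v3) =
          ∑ v1 : Fin n → Fin n, ∑ v2 : Fin n → Fin n, ∑ v3 : Fin n → Fin n,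
            Zt R C r3 c3 w3 w1 w2 (vl v1) (vl v2) (vl v3) *
              Zt R C r3 c3 w3 w1 w2 (vl v2) (vl v1) (vl v3) +
          e * (∑ v1 : Fin n → Fin n, ∑ v2 : Fin n → Fin n, ∑ v3 : Fin n → Fin n,
            Zt R C r3 c3 w3 w1 w2 (vl v1) (vl v2) (vl v3) *
              Zt R C r3 c3 w3 w2 w1 (vl v2) (vl v1) (vl v3)) +
          e * (∑ v1 : Fin n → Fin n, ∑ v2 : Fin n → Fin n, ∑ v3 : Fin n → Fin n,
            Zt R C r3 c3 w3 w2 w1 (vl v1) (vl v2) (vl v3) *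
              Zt R C r3 c3 w3 w1 w2 (vl v2) (vl v1) (vl v3)) +
          e * e * (∑ v1 : Fin n → Fin n, ∑ v2 : Fin n → Fin n, ∑ v3 : Fin n → Fin n,
            Zt R C r3 c3 w3 w2 w1 (vl v1) (vl v2) (vl v3) *
              Zt R C r3 c3 w3 w2 w1 (vl v2) (vl v1) (vl v3)) := by
        simp only [Finset.mul_sum, ← Finset.sum_add_distrib]
        refine Finset.sum_congr rfl fun v1 _ => Finset.sum_congr rfl fun v2 _ =>
          Finset.sum_congr rfl fun v3 _ => ?_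
        rw [hz]
        ring
      rw [g1, f1, f2, f3, f4]
      have g2 : (C1 * C1 * C3 * (Fintype.card (Equiv.Perm (Fin n)))) *
          ∑ x : Equiv.Perm (Fin n), (sg R C (w1 ∘ x) w2 * sg R C (w1 ∘ x.symm) w2 +
          e * (sg R C (w1 ∘ x) w1 * sg R C (w2 ∘ x.symm) w2) +
          e * (sg R C (w2 ∘ x) w2 * sg R C (w1 ∘ x.symm) w1) +
          e * e * (sg R C (w2 ∘ x) w1 * sg R C (w2 ∘ x.symm) w1)) * kp r3 c3 (w3 ∘ x) w3 = 0 := by
        rw [hO, mul_zero]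
      rw [← g2]
      simp only [add_mul, Finset.sum_add_distrib, Finset.mul_sum, mul_add]
      congr 1
      · congr 1
        · congr 1
          refine Finset.sum_congr rfl fun x _ => ?_
          ring
        · refine Finset.sum_congr rfl fun x _ => ?_
          ring
      · refine Finset.sum_congr rfl fun x _ => ?_
        ring
    have e3 : ∑ v1 : Fin n → Fin n, ∑ v2 : Fin n → Fin n, ∑ v3 : Fin n → Fin n,
        z (vl v1) (vl v2) (vl v3) * z (vl v1) (vl v2) (vl v3) = 0 := by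
      have : ∑ v1 : Fin n → Fin n, ∑ v2 : Fin n → Fin n, ∑ v3 : Fin n → Fin n,
        z (vl v1) (vl v2) (vl v3) * (z (vl v1) (vl v2) (vl v3) +
          eps * z (vl v2) (vl v1) (vl v3)) =
        ∑ v1 : Fin n → Fin n, ∑ v2 : Fin n → Fin n, ∑ v3 : Fin n → Fin n,
        z (vl v1) (vl v2) (vl v3) * z (vl v1) (vl v2) (vl v3) +
        eps * ∑ v1 : Fin n → Fin n, ∑ v2 : Fin n → Fin n, ∑ v3 : Fin n → Fin n,
        z (vl v1) (vl v2) (vl v3) * z (vl v2) (vl v1) (vl v3) := by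
        simp only [Finset.mul_sum, ← Finset.sum_add_distrib]
        refine Finset.sum_congr rfl fun v1 _ => Finset.sum_congr rfl fun v2 _ =>
          Finset.sum_congr rfl fun v3 _ => ?_
        ring
      rw [e1, e2, mul_zero, add_zero] at this
      exact this.symm
    obtain ⟨v1, v2, v3, hv⟩ := step1
    have e4 := (Finset.sum_eq_zero_iff_of_nonneg (fun v1 _ => Finset.sum_nonneg fun v2 _ =>
      Finset.sum_nonneg fun v3 _ => mul_self_nonneg _)).1 e3 v1 (Finset.mem_univ _)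
    have e5 := (Finset.sum_eq_zero_iff_of_nonneg (fun v2 _ =>
      Finset.sum_nonneg fun v3 _ => mul_self_nonneg _)).1 e4 v2 (Finset.mem_univ _)
    have e6 := (Finset.sum_eq_zero_iff_of_nonneg (fun v3 _ => mul_self_nonneg _)).1 e5 v3
      (Finset.mem_univ _)
    exact hv (mul_self_eq_zero.1 e6)
  -- step 3
  obtain ⟨v1, v2, v3, hv⟩ := step2
  obtain ⟨hcw1, hcw2⟩ := tw_words h1.toIsTab h2.toIsTab hw
  have h5 : ∃ p q : Fin n → ℕ, (∀ i, (univ.filter fun x => q x = i).card = lam i) ∧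
      Zt R C r3 c3 w3 p q (vl v1) (vl v2) (vl v3) +
      eps * Zt R C r3 c3 w3 p q (vl v2) (vl v1) (vl v3) ≠ 0 := by
    by_contra hcon
    push Not at hcon
    have g1 := hcon w1 w2 hcw2
    have g2 := hcon w2 w1 hcw1
    apply hv
    rw [hz]
    linear_combination g1 + e * g2
  obtain ⟨p, q, hq, hpq⟩ := h5
  -- `q` is a column word
  have hq' : ∃ σ : Equiv.Perm (Fin n), q = C ∘ σ := by
    have hCc : ∀ i, (univ.filter fun x => C x = i).card = lam i := by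
      intro i
      rw [← hR.card i]
      refine Finset.card_equiv τ fun x => ?_
      rw [Finset.mem_filter, Finset.mem_filter, hτ1]
      simp
    have : ∀ i, (univ.filter fun x => q x = i).card = (univ.filter fun x => C x = i).card :=
      fun i => (hq i).trans (hCc i).symm
    have h6 : ∀ i, Nonempty ({x // q x = i} ≃ {x // C x = i}) := by
      intro i
      refine ⟨Fintype.equivOfCardEq ?_⟩
      rw [Fintype.card_subtype, Fintype.card_subtype]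
      exact this i
    let f : (i : ℕ) → {x // q x = i} ≃ {x // C x = i} := fun i => (h6 i).some
    refine ⟨(Equiv.sigmaFiberEquiv q).symm.trans
      ((Equiv.sigmaCongrRight f).trans (Equiv.sigmaFiberEquiv C)), ?_⟩
    funext x
    exact ((f (q x)) ⟨x, rfl⟩).2.symm
  obtain ⟨σ, hσ⟩ := hq'
  -- expansion
  have h7 : ∀ u1 u2 u3 : Fin n → ℕ, Zt R C r3 c3 w3 p q u1 u2 u3 =
      ∑ a : Equiv.Perm (Fin n), ∑ b : Equiv.Perm (Fin n),
        pt R C (p ∘ a) * pt r3 c3 (w3 ∘ b) * (Equiv.Perm.sign σ : ℤ) *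
        ∑ g : Equiv.Perm (Fin n), pt (R ∘ a.symm) (C ∘ a.symm) (u1 ∘ g) *
          pt (R ∘ σ) (C ∘ σ) (u2 ∘ g) * pt (r3 ∘ b.symm) (c3 ∘ b.symm) (u3 ∘ g) := by
    intro u1 u2 u3
    have g1 : ∀ g : Equiv.Perm (Fin n), kp R C p (u1 ∘ g) * sg R C (u2 ∘ g) q *
        kp r3 c3 w3 (u3 ∘ g) = ∑ a : Equiv.Perm (Fin n), ∑ b : Equiv.Perm (Fin n),
        pt R C (p ∘ a) * pt r3 c3 (w3 ∘ b) * (Equiv.Perm.sign σ : ℤ) *
        (pt (R ∘ a.symm) (C ∘ a.symm) (u1 ∘ g) *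
          pt (R ∘ σ) (C ∘ σ) (u2 ∘ g) * pt (r3 ∘ b.symm) (c3 ∘ b.symm) (u3 ∘ g)) := by
      intro g
      have e1 : sg R C (u2 ∘ g) q = (Equiv.Perm.sign σ : ℤ) * pt (R ∘ σ) (C ∘ σ) (u2 ∘ g) := by
        rw [pt_sg, hσ, ← mul_assoc, sgn_mul_self, one_mul]
      rw [e1]
      unfold kp
      rw [Finset.sum_mul, Finset.sum_mul]
      refine Finset.sum_congr rfl fun a _ => ?_
      rw [Finset.mul_sum]
      refine Finset.sum_congr rfl fun b _ => ?_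
      rw [pt_inv R C (u1 ∘ g) a, pt_inv r3 c3 (u3 ∘ g) b]
      ring
    unfold Zt
    simp only [g1]
    rw [Finset.sum_comm]
    refine Finset.sum_congr rfl fun a _ => ?_
    rw [Finset.sum_comm]
    refine Finset.sum_congr rfl fun b _ => ?_
    rw [Finset.mul_sum]
  rw [h7, h7, Finset.mul_sum, ← Finset.sum_add_distrib] at hpq
  obtain ⟨a, -, ha⟩ := Finset.exists_ne_zero_of_sum_ne_zero hpq
  rw [Finset.mul_sum, ← Finset.sum_add_distrib] at ha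
  obtain ⟨b, -, hb⟩ := Finset.exists_ne_zero_of_sum_ne_zero ha
  refine ⟨n, R ∘ a.symm, C ∘ a.symm, R ∘ σ, C ∘ σ, r3 ∘ b.symm, c3 ∘ b.symm,
    hR.toIsTab.comp a.symm, hR.toIsTab.comp σ, h3.comp b.symm, vl v1, vl v2, vl v3, ?_⟩
  intro h0
  apply hb
  unfold tw trs at h0
  simp only [ch, Bool.false_eq_true, if_false, one_mul] at h0
  linear_combination (pt R C (p ∘ a) * pt r3 c3 (w3 ∘ b) * (Equiv.Perm.sign σ : ℤ)) * h0

end orth

end Pool.Agent.H374
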