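import Mathlib
import Pool.Graph.R_pool_sql_team_seeded_620a6dc7.Helper139_Saxl.Defs
import Pool.Graph.R_pool_sql_team_seeded_620a6dc7.Helper139_Saxl.J02
import Pool.Graph.R_pool_sql_team_seeded_620a6dc7.Helper139_Saxl.J04
import Pool.Graph.R_pool_sql_team_seeded_620a6dc7.Helper139_Saxl.J12
import Pool.Agent.H374.A04

set_option autoImplicit false

/-! Rule Y. -/

namespace Pool.Agent.H374

open Finset Pool.Saxl

section ruleY

variable {n : ℕ}

theorem std_swap {Ω : Type} [Fintype Ω] [DecidableEq Ω] {R C : Ω → ℕ} {lam : ℕ → ℕ}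
    (h : IsStd R C lam) : IsStd C R (cj lam) := by
  have hp := h.toIsTab.isPart
  refine ⟨⟨fun x y h1 h2 => h.inj x y h2 h1, fun x i hi => ?_, fun i => ?_⟩, fun x => ?_⟩
  · have h1 : i < lam (R x) := hi.trans (h.lt x)
    obtain ⟨y, hy1, hy2⟩ := std_surj R C lam h (R x) i h1
    exact ⟨y, hy1, hy2⟩
  · exact sx12_col_card R C lam h i
  · rw [lt_cj_iff lam _ hp]
    exact h.lt x

theorem exists_ref (k n : ℕ) (hn : n = k * (k + 1) / 2) :
    ∃ (R C : Fin n → ℕ) (τ : Equiv.Perm (Fin n)), IsStd R C (rho k) ∧ C = R ∘ τ ∧ R = C ∘ τ := by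
  have hp : IsPart (rho k) n := by rw [hn]; exact isPart_rho k
  obtain ⟨R, C, h⟩ := exists_tab (rho k) n hp
  have h2 := std_swap h
  rw [cj_rho] at h2
  obtain ⟨g, hg1, hg2⟩ := std_trans h h2
  exact ⟨R, C, g, h, hg1, hg2⟩

theorem row_col_card {R C : Fin n → ℕ} {k : ℕ} (h : IsStd R C (rho k)) (m : ℕ) :
    (univ.filter fun z => R z = 0 ∧ m ≤ C z).card = k - m := by
  have : (univ.filter fun z => R z = 0 ∧ m ≤ C z).card = (Finset.Ico m k).card := by
    refine Finset.card_bij (fun x _ => C x) ?_ ?_ ?_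
    · intro x hx
      rw [Finset.mem_filter] at hx
      rw [Finset.mem_Ico]
      refine ⟨hx.2.2, ?_⟩
      have := h.lt x
      rw [hx.2.1] at this
      unfold rho at this
      omega
    · intro x hx y hy hxy
      rw [Finset.mem_filter] at hx hy
      exact h.inj x y (hx.2.1.trans hy.2.1.symm) hxy
    · intro j hj
      rw [Finset.mem_Ico] at hj
      obtain ⟨x, hx1, hx2⟩ := std_surj R C (rho k) h 0 j (by unfold rho; omega)
      refine ⟨x, ?_, hx2⟩
      rw [Finset.mem_filter]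
      exact ⟨Finset.mem_univ _, hx1, by omega⟩
  rw [this, Nat.card_Ico]

/-- a choice of a collision -/
noncomputable def colT (w3 : Fin n → ℕ) (S : Finset (Fin n)) : Equiv.Perm (Fin n) :=
  haveI := Classical.dec (∃ p : Fin n × Fin n, p.1 ∈ S ∧ p.2 ∈ S ∧ p.1 ≠ p.2 ∧ w3 p.1 = w3 p.2)
  if h : ∃ p : Fin n × Fin n, p.1 ∈ S ∧ p.2 ∈ S ∧ p.1 ≠ p.2 ∧ w3 p.1 = w3 p.2 then
    Equiv.swap h.choose.1 h.choose.2 else 1

theorem colT_spec (w3 : Fin n → ℕ) (S : Finset (Fin n)) :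
    (colT w3 S = 1 ∧ ¬ ∃ p : Fin n × Fin n, p.1 ∈ S ∧ p.2 ∈ S ∧ p.1 ≠ p.2 ∧ w3 p.1 = w3 p.2) ∨
    ∃ a b, a ∈ S ∧ b ∈ S ∧ a ≠ b ∧ w3 a = w3 b ∧ colT w3 S = Equiv.swap a b := by
  unfold colT
  split_ifs with h
  · right
    exact ⟨h.choose.1, h.choose.2, h.choose_spec.1, h.choose_spec.2.1, h.choose_spec.2.2.1,
      h.choose_spec.2.2.2, rfl⟩
  · left
    exact ⟨rfl, h⟩

theorem comp_swap_of_eq {w : Fin n → ℕ} {a b : Fin n} (h : w a = w b) :
    w ∘ Equiv.swap a b = w := by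
  funext z
  rw [Function.comp_apply, Equiv.swap_apply_def]
  split_ifs with h9 h10
  · rw [h9]; exact h.symm
  · rw [h10]; exact h
  · rfl

/-- the pairing argument -/
theorem orth_pair {R C r3 c3 w1 w2 w3 : Fin n → ℕ} {k m d : ℕ} (hR : IsStd R C (rho k))
    (hm : 1 ≤ m) (hd : d < k - m) (ha : ∀ x, w1 x < m ∨ w2 x < m → w1 x = w2 x)
    (hc : ((univ.filter fun x => m ≤ w1 x).image w3).card ≤ d) :
    Orth 0 R C r3 c3 w1 w2 w3 := by
  unfold Orth
  simp only [zero_mul, add_zero, mul_zero]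
  set f : Equiv.Perm (Fin n) → ℤ := fun x =>
    sg R C (w1 ∘ x) w2 * sg R C (w1 ∘ x.symm) w2 * kp r3 c3 (w3 ∘ x) w3 with hf
  change ∑ x, f x = 0
  set X : Equiv.Perm (Fin n) → Finset (Fin n) := fun x =>
    univ.filter fun y => m ≤ w1 y ∧ w1 (x y) = 0 with hX
  have hcol : ∀ x, f x ≠ 0 → ∃ p : Fin n × Fin n, p.1 ∈ X x ∧ p.2 ∈ X x ∧ p.1 ≠ p.2 ∧
      w3 p.1 = w3 p.2 := by
    intro x hx
    have h1 : sg R C (w1 ∘ x) w2 ≠ 0 := fun h0 => hx (by rw [hf]; simp [h0])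
    obtain ⟨σ, hσ1, hσ2⟩ := sg_ne h1
    have h2 : (X x).card = k - m := by
      rw [← row_col_card hR m, hX]
      refine Finset.card_equiv σ fun y => ?_
      rw [Finset.mem_filter, Finset.mem_filter]
      have e1 : R (σ y) = w1 (x y) := (congrFun hσ1 y).symm
      have e2 : C (σ y) = w2 y := (congrFun hσ2 y).symm
      rw [e1, e2]
      have := ha y
      constructor
      · rintro ⟨h3, h4, h5⟩
        exact ⟨Finset.mem_univ _, h5, by omega⟩
      · rintro ⟨h3, h4, h5⟩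
        exact ⟨Finset.mem_univ _, by omega, h4⟩
    have h3 : ((univ.filter fun x => m ≤ w1 x).image w3).card < (X x).card := by omega
    obtain ⟨a, ha1, b, hb1, hab, he⟩ := Finset.exists_ne_map_eq_of_card_lt_of_maps_to h3
      (f := w3) (fun y hy => by
        rw [hX, Finset.mem_coe, Finset.mem_filter] at hy
        exact Finset.mem_coe.2 (Finset.mem_image_of_mem _
          (Finset.mem_filter.2 ⟨Finset.mem_univ _, hy.2.1⟩)))
    exact ⟨(a, b), ha1, hb1, hab, he⟩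
  have hXm : ∀ x y, y ∈ X x ↔ m ≤ w1 y ∧ w1 (x y) = 0 := by
    intro x y
    rw [hX, Finset.mem_filter]
    exact ⟨fun h => h.2, fun h => ⟨Finset.mem_univ _, h⟩⟩
  have hXT : ∀ x, X (x * colT w3 (X x)) = X x := by
    intro x
    rcases colT_spec w3 (X x) with ⟨h1, _⟩ | ⟨a, b, h1, h2, h3, h4, h5⟩
    · rw [h1, mul_one]
    · rw [h5]
      have h1' := (hXm _ _).1 h1
      have h2' := (hXm _ _).1 h2
      ext y
      rw [hXm, hXm, Equiv.Perm.mul_apply, Equiv.swap_apply_def]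
      split_ifs with h6 h7
      · rw [h6]
        exact ⟨fun h => ⟨h.1, h1'.2⟩, fun h => ⟨h.1, h2'.2⟩⟩
      · rw [h7]
        exact ⟨fun h => ⟨h.1, h2'.2⟩, fun h => ⟨h.1, h1'.2⟩⟩
      · rfl
  refine Finset.sum_involution (fun x _ => x * colT w3 (X x)) ?_ ?_ ?_ ?_
  · intro x _
    rcases colT_spec w3 (X x) with ⟨h1, h2⟩ | ⟨a, b, h1, h2, h3, h4, h5⟩
    · have : f x = 0 := by
        by_contra h
        exact h2 (hcol x h)
      rw [h1, mul_one, this]
      rfl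
    · rw [h5]
      rw [hX, Finset.mem_filter] at h1 h2
      have e1 : w1 ∘ (x * Equiv.swap a b : Equiv.Perm (Fin n)) = w1 ∘ x := by
        have : (w1 ∘ x) ∘ Equiv.swap a b = w1 ∘ x :=
          comp_swap_of_eq (by simp only [Function.comp_apply]; rw [h1.2.2, h2.2.2])
        rw [← this]
        rfl
      have e1' : w2 ∘ (x * Equiv.swap a b : Equiv.Perm (Fin n)) = w2 ∘ x := by
        have : (w2 ∘ x) ∘ Equiv.swap a b = w2 ∘ x :=
          comp_swap_of_eq (by
            simp only [Function.comp_apply]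
            rw [← ha (x a) (Or.inl (by omega)), ← ha (x b) (Or.inl (by omega)), h1.2.2, h2.2.2])
        rw [← this]
        rfl
      have e2 : sg R C (w1 ∘ (x * Equiv.swap a b : Equiv.Perm (Fin n)).symm) w2 =
          - sg R C (w1 ∘ x.symm) w2 := by
        rw [sg_comp_left, sg_comp_left, Equiv.symm_symm, Equiv.symm_symm, e1']
        have : (Equiv.Perm.sign (x * Equiv.swap a b : Equiv.Perm (Fin n)).symm : ℤ) =
            - (Equiv.Perm.sign x.symm : ℤ) := by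
          rw [Equiv.Perm.sign_symm, Equiv.Perm.sign_symm, Equiv.Perm.sign_mul,
            Equiv.Perm.sign_swap h3]
          simp
        rw [this]
        ring
      have e3 : kp r3 c3 (w3 ∘ (x * Equiv.swap a b : Equiv.Perm (Fin n))) w3 =
          kp r3 c3 (w3 ∘ x) w3 := by
        have h8 : w3 ∘ (x * Equiv.swap a b : Equiv.Perm (Fin n)) = (w3 ∘ x) ∘ Equiv.swap a b :=
          rfl
        have h9 : kp r3 c3 ((w3 ∘ x) ∘ Equiv.swap a b) (w3 ∘ Equiv.swap a b) =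
          kp r3 c3 (w3 ∘ x) w3 := kp_comp _ _ _ _ _
        rw [comp_swap_of_eq h4] at h9
        rw [h8, h9]
      rw [hf]
      simp only
      rw [e1, e2, e3]
      ring
  · intro x _ hx h1
    rcases colT_spec w3 (X x) with ⟨h2, h3⟩ | ⟨a, b, h2, h3, h4, h5, h6⟩
    · exact h3 (hcol x hx)
    · rw [h6] at h1
      have h7 : Equiv.swap a b = 1 := by
        have := congrArg (fun y => x⁻¹ * y) h1
        simpa using this
      have h8 := Equiv.swap_apply_left a b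
      rw [h7] at h8
      exact h4 h8
  · intro x _
    exact Finset.mem_univ _
  · intro x _
    rw [hXT]
    rcases colT_spec w3 (X x) with ⟨h2, h3⟩ | ⟨a, b, h2, h3, h4, h5, h6⟩
    · rw [h2]
      simp
    · rw [h6, mul_assoc, Equiv.swap_mul_self, mul_one]

/-- the determinant lemma, one case -/
theorem det_aux {R C : Fin n → ℕ} {k m : ℕ} (hR : IsStd R C (rho k)) (hk : k ≤ 2 * m + 1)
    {p1 p2 q1 q2 : Fin n → ℕ} (hp : ∀ x, p1 x < m ∨ p2 x < m → p1 x = p2 x)
    (hq : ∀ x, q1 x < m ∨ q2 x < m → q1 x = q2 x) (h1 : sg R C p1 q1 ≠ 0)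
    (h2 : sg R C p2 q2 ≠ 0) :
    sg R C p1 q2 * sg R C p2 q1 = sg R C p1 q1 * sg R C p2 q2 := by
  obtain ⟨σ1, hp1, hq1⟩ := sg_ne h1
  obtain ⟨σ2, hp2, hq2⟩ := sg_ne h2
  set π : Equiv.Perm (Fin n) := σ1⁻¹ * σ2 with hπ
  have hπ1 : ∀ y, σ1 (π y) = σ2 y := by
    intro y
    rw [hπ]
    simp
  have hP : ∀ y, p1 (π y) < m ↔ p1 y < m := by
    intro y
    have e1 : p1 (π y) = p2 y := by
      rw [hp1, hp2]
      simp only [Function.comp_apply]
      rw [hπ1]
    rw [e1]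
    have := hp y
    omega
  set α : Equiv.Perm (Fin n) := Equiv.Perm.ofSubtype (π.subtypePerm (p := fun y => p1 y < m) hP)
    with hα
  have α1 : ∀ y, p1 y < m → α y = π y := by
    intro y hy
    rw [hα, Equiv.Perm.ofSubtype_apply_of_mem (p := fun y => p1 y < m) _ hy]
    rfl
  have α2 : ∀ y, ¬ p1 y < m → α y = y := by
    intro y hy
    rw [hα, Equiv.Perm.ofSubtype_apply_of_not_mem (p := fun y => p1 y < m) _ hy]
  set β : Equiv.Perm (Fin n) := α⁻¹ * π with hβ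
  have β1 : ∀ y, p1 y < m → β y = y := by
    intro y hy
    rw [hβ, Equiv.Perm.mul_apply, Equiv.Perm.inv_eq_iff_eq]
    exact (α1 y hy).symm
  have β2 : ∀ y, ¬ p1 y < m → β y = π y := by
    intro y hy
    rw [hβ, Equiv.Perm.mul_apply, Equiv.Perm.inv_eq_iff_eq]
    exact (α2 _ (fun h => hy ((hP y).1 h))).symm
  -- off `P` the words `q` agree
  have hoff : ∀ y, ¬ p1 y < m → q1 y = q2 y := by
    intro y hy
    by_cases h : q1 y < m ∨ q2 y < m
    · exact hq y h
    · have l1 := hR.lt (σ1 y)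
      have l2 := hR.lt (σ2 y)
      have e1 : R (σ1 y) = p1 y := (congrFun hp1 y).symm
      have e2 : R (σ2 y) = p2 y := (congrFun hp2 y).symm
      have e3 : C (σ1 y) = q1 y := (congrFun hq1 y).symm
      have e4 : C (σ2 y) = q2 y := (congrFun hq2 y).symm
      rw [e1, e3] at l1
      rw [e2, e4] at l2
      unfold rho at l1 l2
      have := hp y
      omega
  have f1 : p1 = R ∘ (σ1 * α : Equiv.Perm (Fin n)) := by
    funext y
    simp only [Function.comp_apply, Equiv.Perm.mul_apply]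
    by_cases hy : p1 y < m
    · rw [α1 y hy, hπ1]
      have := congrFun hp2 y
      simp only [Function.comp_apply] at this
      rw [← this]
      exact hp y (Or.inl hy)
    · rw [α2 y hy]
      exact congrFun hp1 y
  have f2 : q2 = C ∘ (σ1 * α : Equiv.Perm (Fin n)) := by
    funext y
    simp only [Function.comp_apply, Equiv.Perm.mul_apply]
    by_cases hy : p1 y < m
    · rw [α1 y hy, hπ1]
      exact congrFun hq2 y
    · rw [α2 y hy, ← hoff y hy]
      exact congrFun hq1 y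
  have f3 : p2 = R ∘ (σ1 * β : Equiv.Perm (Fin n)) := by
    funext y
    simp only [Function.comp_apply, Equiv.Perm.mul_apply]
    by_cases hy : p1 y < m
    · rw [β1 y hy]
      have := congrFun hp1 y
      simp only [Function.comp_apply] at this
      rw [← this]
      exact (hp y (Or.inl hy)).symm
    · rw [β2 y hy, hπ1]
      exact congrFun hp2 y
  have f4 : q1 = C ∘ (σ1 * β : Equiv.Perm (Fin n)) := by
    funext y
    simp only [Function.comp_apply, Equiv.Perm.mul_apply]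
    by_cases hy : p1 y < m
    · rw [β1 y hy]
      exact congrFun hq1 y
    · rw [β2 y hy, hπ1, hoff y hy]
      exact congrFun hq2 y
  have g1 : sg R C p1 q2 = (Equiv.Perm.sign (σ1 * α) : ℤ) := by
    rw [f1, f2]
    exact sg_of R C hR.inj _
  have g2 : sg R C p2 q1 = (Equiv.Perm.sign (σ1 * β) : ℤ) := by
    rw [f3, f4]
    exact sg_of R C hR.inj _
  have g3 : sg R C p1 q1 = (Equiv.Perm.sign σ1 : ℤ) := by
    rw [hp1, hq1]
    exact sg_of R C hR.inj _
  have g4 : sg R C p2 q2 = (Equiv.Perm.sign σ2 : ℤ) := by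
    rw [hp2, hq2]
    exact sg_of R C hR.inj _
  rw [g1, g2, g3, g4, ← Units.val_mul, ← Units.val_mul, ← Equiv.Perm.sign_mul,
    ← Equiv.Perm.sign_mul]
  congr 1
  have : σ1 * α * (σ1 * β) = σ1 * (α * σ1 * α⁻¹) * π := by rw [hβ]; group
  rw [this, hπ]
  simp only [Equiv.Perm.sign_mul, Equiv.Perm.sign_inv]
  rcases Int.units_eq_one_or (Equiv.Perm.sign σ1) with h | h <;>
    rcases Int.units_eq_one_or (Equiv.Perm.sign σ2) with h' | h' <;>
    rcases Int.units_eq_one_or (Equiv.Perm.sign α) with h'' | h'' <;>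
    rw [h, h', h''] <;> rfl

/-- the determinant lemma -/
theorem det_zero {R C : Fin n → ℕ} {k m : ℕ} (hR : IsStd R C (rho k)) (hk : k ≤ 2 * m + 1)
    {p1 p2 q1 q2 : Fin n → ℕ} (hp : ∀ x, p1 x < m ∨ p2 x < m → p1 x = p2 x)
    (hq : ∀ x, q1 x < m ∨ q2 x < m → q1 x = q2 x) :
    sg R C p1 q2 * sg R C p2 q1 = sg R C p1 q1 * sg R C p2 q2 := by
  by_cases h : sg R C p1 q1 ≠ 0 ∧ sg R C p2 q2 ≠ 0
  · exact det_aux hR hk hp hq h.1 h.2
  · by_cases h' : sg R C p1 q2 ≠ 0 ∧ sg R C p2 q1 ≠ 0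
    · have := det_aux hR hk hp (fun x hx => (hq x hx.symm).symm) h'.1 h'.2
      exact this.symm
    · have e1 : sg R C p1 q1 * sg R C p2 q2 = 0 := by
        by_contra hne
        exact h ⟨left_ne_zero_of_mul hne, right_ne_zero_of_mul hne⟩
      have e2 : sg R C p1 q2 * sg R C p2 q1 = 0 := by
        by_contra hne
        exact h' ⟨left_ne_zero_of_mul hne, right_ne_zero_of_mul hne⟩
      rw [e1, e2]

theorem orth_det {R C r3 c3 w1 w2 w3 : Fin n → ℕ} {k m : ℕ} {τ : Equiv.Perm (Fin n)}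
    (hτ1 : C = R ∘ τ) (hτ2 : R = C ∘ τ) (hR : IsStd R C (rho k))
    (hk : k ≤ 2 * m + 1) (ha : ∀ x, w1 x < m ∨ w2 x < m → w1 x = w2 x) :
    Orth (-1) R C r3 c3 w1 w2 w3 := by
  unfold Orth
  refine Finset.sum_eq_zero fun x _ => ?_
  have key : ∀ p q : Fin n → ℕ, sg R C (p ∘ x.symm) q =
      (Equiv.Perm.sign x : ℤ) * (Equiv.Perm.sign τ : ℤ) * sg R C (q ∘ x) p := by
    intro p q
    rw [sg_comp_left, Equiv.symm_symm, Equiv.Perm.sign_symm, sg_swap hτ1 hτ2 (q ∘ x) p]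
    ring
  have hdet := det_zero hR hk (p1 := w1 ∘ x) (p2 := w2 ∘ x) (q1 := w1) (q2 := w2)
    (fun y hy => ha (x y) hy) ha
  rw [key, key, key, key]
  linear_combination (2 * (Equiv.Perm.sign x : ℤ) * (Equiv.Perm.sign τ : ℤ) *
    kp r3 c3 (w3 ∘ x) w3) * hdet

/-- rule Y, general form -/
theorem SS_of_YV (e : ℤ) (k m d : ℕ) (mu : ℕ → ℕ) (h : YV e k m d mu)
    (he : (e = 0 ∧ 1 ≤ m ∧ d < k - m) ∨ (e = -1 ∧ k ≤ 2 * m + 1)) (eps : ℤ) :
    SS eps (rho k) mu := by
  obtain ⟨n, r1, c1, r2, c2, r3, c3, h1, h2, h3, w1, w2, w3, hw, ha, hd⟩ := h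
  have hn : n = k * (k + 1) / 2 := by
    have := h1.isPart
    rw [Fintype.card_fin] at this
    exact sx12_isPart_uniq _ _ _ this (isPart_rho k)
  obtain ⟨R, C, τ, hR, hτ1, hτ2⟩ := exists_ref k n hn
  obtain ⟨d1, hd1, hc1⟩ := exists_std _ _ _ h1
  obtain ⟨d2, hd2, hc2⟩ := exists_std _ _ _ h2
  rw [tw_col hc1 hc2 (fun x y => Iff.rfl)] at hw
  refine both_of_orth hτ1 hτ2 hR hd1 hd2 h3 e w1 w2 w3 hw ?_ eps
  rcases he with ⟨rfl, hm, hdk⟩ | ⟨rfl, hkm⟩
  · exact orth_pair hR hm hdk ha hd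
  · exact orth_det hτ1 hτ2 hR hkm ha

end ruleY

end Pool.Agent.H374
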