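import Mathlib
import Pool.Graph.R_pool_sql_team_seeded_620a6dc7.Helper139_Saxl.Defs
import Pool.Graph.R_pool_sql_team_seeded_620a6dc7.Helper139_Saxl.J04
import Pool.Graph.R_pool_sql_team_seeded_620a6dc7.Helper139_Saxl.J23
import Pool.Graph.R_pool_sql_team_seeded_620a6dc7.Helper139_Saxl.J33
import Pool.Graph.R_pool_sql_team_seeded_620a6dc7.Helper139_Saxl.J34
import Pool.Agent.H374.A05

set_option autoImplicit false

/-! The sign twist of the third factor, and the base of rule Y. -/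

namespace Pool.Agent.H374

open Finset Pool.Saxl

theorem twist_gen {n : ℕ} {mu : ℕ → ℕ} {r3 c3 w3 : Fin n → ℕ} (h3 : IsTab r3 c3 mu)
    (a : Equiv.Perm (Fin n) → ℤ)
    (h : ∑ g : Equiv.Perm (Fin n), a g * pt r3 c3 (w3 ∘ g) ≠ 0) :
    ∃ r c w : Fin n → ℕ, IsTab r c (cj mu) ∧
      ∑ g : Equiv.Perm (Fin n), (ch true g * a g) * pt r c (w ∘ g) ≠ 0 := by
  have p3 : IsPart mu n := by simpa using h3.isPart
  have hr := sx31_row_lt p3 h3
  have hwb : ∀ x, w3 x < n := by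
    obtain ⟨g, -, hg⟩ := Finset.exists_ne_zero_of_sum_ne_zero h
    have h1 := pt_bd hr (right_ne_zero_of_mul hg)
    intro x
    have := h1 (g.symm x)
    simpa using this
  obtain ⟨v3, hv3⟩ := exists_vl hwb
  obtain ⟨η, hη1, hη2, hη3⟩ := theta n mu p3
  have m3 : ev r3 c3 ∈ spe n mu := Submodule.subset_span ⟨r3, c3, h3, rfl⟩
  obtain ⟨u3, hu3⟩ := sx34_step mu (cj mu) η hη1 hη3 (ev r3 c3) m3
    (fun g => ((a g : ℤ) : ℂ)) v3 (by
      intro h0
      apply h
      have h1 : ((∑ g : Equiv.Perm (Fin n), a g * pt r3 c3 (w3 ∘ g) : ℤ) : ℂ) = 0 := by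
        rw [← h0]
        push_cast
        refine Finset.sum_congr rfl fun g _ => ?_
        rw [← hv3]
        rfl
      exact_mod_cast h1)
  by_contra hcon
  push Not at hcon
  have key : ∀ f ∈ spe n (cj mu), ∑ g : Equiv.Perm (Fin n),
      ((a g : ℤ) : ℂ) * (((Equiv.Perm.sign g : ℤ) : ℂ) * f (u3 ∘ g)) = 0 := by
    intro f hf
    refine Submodule.span_induction (p := fun f _ => ∑ g : Equiv.Perm (Fin n),
      ((a g : ℤ) : ℂ) * (((Equiv.Perm.sign g : ℤ) : ℂ) * f (u3 ∘ g)) = 0) ?_ ?_ ?_ ?_ hf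
    · rintro f ⟨r, c, hrc, rfl⟩
      have h1 := hcon r c (vl u3) hrc
      have h2 : ((∑ g : Equiv.Perm (Fin n), (ch true g * a g) * pt r c (vl u3 ∘ g) : ℤ) : ℂ) =
        0 := by rw [h1]; simp
      rw [← h2]
      push_cast
      refine Finset.sum_congr rfl fun g _ => ?_
      unfold ch ev
      simp only [if_true]
      have : (fun x => (((u3 ∘ g) x : Fin n) : ℕ)) = vl u3 ∘ g := rfl
      rw [this]
      ring
    · simp
    · intro x y _ _ hx hy
      simp only [Pi.add_apply, mul_add, Finset.sum_add_distrib] at hx hy ⊢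
      rw [hx, hy, add_zero]
    · intro c x _ hx
      have : ∑ g : Equiv.Perm (Fin n),
          ((a g : ℤ) : ℂ) * (((Equiv.Perm.sign g : ℤ) : ℂ) * (c • x) (u3 ∘ g)) =
          c * ∑ g : Equiv.Perm (Fin n),
          ((a g : ℤ) : ℂ) * (((Equiv.Perm.sign g : ℤ) : ℂ) * x (u3 ∘ g)) := by
        rw [Finset.mul_sum]
        refine Finset.sum_congr rfl fun g _ => ?_
        simp only [Pi.smul_apply, smul_eq_mul]
        ring
      rw [this, hx, mul_zero]
  exact hu3 (key _ (hη2 _ m3))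

/-- twisting the third factor -/
theorem twist_third {n : ℕ} {mu : ℕ → ℕ} (e : ℤ) {r1 c1 r2 c2 r3 c3 w1 w2 w3 : Fin n → ℕ}
    (h3 : IsTab r3 c3 mu) (h : tw false e r1 c1 r2 c2 r3 c3 w1 w2 w3 ≠ 0) :
    ∃ r c w : Fin n → ℕ, IsTab r c (cj mu) ∧ tw true e r1 c1 r2 c2 r c w1 w2 w ≠ 0 := by
  have h1 : ∑ g : Equiv.Perm (Fin n), (pt r1 c1 (w1 ∘ g) * pt r2 c2 (w2 ∘ g) +
      e * (pt r1 c1 (w2 ∘ g) * pt r2 c2 (w1 ∘ g))) * pt r3 c3 (w3 ∘ g) ≠ 0 := by
    intro h0
    apply h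
    rw [← h0]
    unfold tw trs
    rw [Finset.mul_sum, ← Finset.sum_add_distrib]
    refine Finset.sum_congr rfl fun g _ => ?_
    unfold ch
    simp only [Bool.false_eq_true, if_false]
    ring
  obtain ⟨r, c, w, hrc, hw⟩ := twist_gen h3 _ h1
  refine ⟨r, c, w, hrc, ?_⟩
  intro h0
  apply hw
  rw [← h0]
  unfold tw trs
  rw [Finset.mul_sum, ← Finset.sum_add_distrib]
  refine Finset.sum_congr rfl fun g _ => ?_
  ring

/-- the number of letters -/
theorem letters_le {n : ℕ} {mu : ℕ → ℕ} {t : Bool} {e : ℤ} {r1 c1 r2 c2 r c w1 w2 w : Fin n → ℕ}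
    (hT : IsTab r c mu) (d : ℕ) (hd : mu d = 0) (h : tw t e r1 c1 r2 c2 r c w1 w2 w ≠ 0)
    (S : Finset (Fin n)) : (S.image w).card ≤ d := by
  have hp := hT.isPart
  obtain ⟨g, hg⟩ := tw_word3 h
  have h1 : S.image w ⊆ range d := by
    intro i hi
    rw [Finset.mem_image] at hi
    obtain ⟨x, _, rfl⟩ := hi
    rw [Finset.mem_range]
    by_contra hcon
    have h2 := hT.card (w x)
    have h3 : mu (w x) = 0 := by
      have := hp.anti (not_lt.1 hcon)
      omega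
    rw [h3, Finset.card_eq_zero] at h2
    have h4 : g x ∈ univ.filter fun y => r y = w x := by
      rw [Finset.mem_filter]
      refine ⟨Finset.mem_univ _, ?_⟩
      rw [hg]
      rfl
    rw [h2] at h4
    simp at h4
  have := Finset.card_le_card h1
  rwa [Finset.card_range] at this

/-- the base of rule Y -/
theorem YV_base (j d : ℕ) (kap : ℕ → ℕ) (hk : IsPart kap (j * (j + 1) / 2)) (hd : kap d = 0) :
    YV 0 j 0 d kap := by
  have hG := saxl j (cj kap) (isPart_cj kap _ hk)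
  obtain ⟨n, r1, c1, r2, c2, r3, c3, h1, h2, h3, w1, w2, w3, hne⟩ := hG
  have h4 : tw false 0 r1 c1 r2 c2 r3 c3 w1 w2 w3 ≠ 0 := by
    intro h0
    apply hne
    rw [← h0]
    unfold tw trs tri
    simp [ch]
  obtain ⟨r, c, w, hrc, hw⟩ := twist_third 0 h3 h4
  rw [cj_cj kap _ hk] at hrc
  exact ⟨n, r1, c1, r2, c2, r, c, h1, h2, hrc, w1, w2, w, hw, fun x hx => by omega,
    letters_le hrc d hd hw _⟩

theorem vstrip_cj {mu nu : ℕ → ℕ} {n m : ℕ} (hmu : IsPart mu n) (hnu : IsPart nu m)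
    (h : HStrip mu nu) : VStrip (cj mu) (cj nu) := by
  intro j
  constructor
  · apply le_of_forall_lt
    intro i hi
    rw [lt_cj_iff nu m hnu] at hi
    rw [lt_cj_iff mu n hmu]
    exact hi.trans_le (h i).1
  · by_contra hcon
    have h1 : cj nu j + 1 < cj mu j := by omega
    rw [lt_cj_iff mu n hmu] at h1
    have h2 : j < nu (cj nu j) := h1.trans_le (h (cj nu j)).2
    rw [← lt_cj_iff nu m hnu] at h2
    exact lt_irrefl _ h2

/-- the recursion for rule Y; `kap` is the conjugate of the third shape -/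
inductive Good : ℕ → (ℕ → ℕ) → Prop
  | base (j : ℕ) (kap : ℕ → ℕ) (hk : IsPart kap (j * (j + 1) / 2)) (h : kap 0 < j) : Good j kap
  | step (j : ℕ) (kap kap' : ℕ → ℕ) (hk : IsPart kap ((j + 1) * (j + 2) / 2))
      (hs : HStrip kap kap') (h : Good j kap') : Good (j + 1) kap

theorem Good.isPart {j : ℕ} {kap : ℕ → ℕ} (h : Good j kap) : IsPart kap (j * (j + 1) / 2) := by
  cases h with
  | base _ _ hk _ => exact hk
  | step j _ _ hk _ _ => exact hk

theorem Good.toYV {j : ℕ} {kap : ℕ → ℕ} (h : Good j kap) :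
    ∃ m d, d < j - m ∧ YV 0 j m d (cj kap) := by
  induction h with
  | base j kap hk h =>
    refine ⟨0, kap 0, by omega, YV_base j (kap 0) (cj kap) (isPart_cj kap _ hk) ?_⟩
    by_contra hne
    have h1 : 0 < cj kap (kap 0) := Nat.pos_of_ne_zero hne
    rw [lt_cj_iff kap _ hk] at h1
    exact lt_irrefl _ h1
  | step j kap kap' hk hs h ih =>
    obtain ⟨m, d, hd, hY⟩ := ih
    exact ⟨m + 1, d, by omega, YV_step 0 j m d (cj kap) (cj kap') (isPart_cj kap _ hk)
      (vstrip_cj hk h.isPart hs) hY⟩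

/-- rule Y -/
theorem SS_of_good (eps : ℤ) (k : ℕ) (mu kap : ℕ → ℕ) (hmu : IsPart mu ((k + 1) * (k + 2) / 2))
    (hs : HStrip (cj mu) kap) (h : Good k kap) : SS eps (rho (k + 1)) mu := by
  obtain ⟨m, d, hd, hY⟩ := h.toYV
  have h1 := YV_step 0 k m d (cj (cj mu)) (cj kap) (isPart_cj _ _ (isPart_cj mu _ hmu))
      (vstrip_cj (isPart_cj mu _ hmu) h.isPart hs) hY
  rw [cj_cj mu _ hmu] at h1
  exact SS_of_YV 0 (k + 1) (m + 1) d mu h1 (Or.inl ⟨rfl, by omega, by omega⟩) eps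

end Pool.Agent.H374
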