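import Mathlib
import Pool.Graph.R_pool_sql_team_seeded_620a6dc7.Helper139_Saxl.Defs
import Pool.Graph.R_pool_sql_team_seeded_620a6dc7.Helper139_Saxl.Defs2
import Pool.Graph.R_pool_sql_team_seeded_620a6dc7.Helper139_Saxl.J31
import Pool.Agent.H374.A02
import Pool.Agent.H374.A03

set_option autoImplicit false

/-! A criterion: an invariant tensor with a sign gives a constituent with this sign. -/

namespace Pool.Agent.H374

open Finset Pool.Saxl

section crit

variable {n : ℕ}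

/-- integer valued elements of the Specht module -/
def InS (lam : ℕ → ℕ) (f : (Fin n → Fin n) → ℤ) : Prop :=
  (fun v => ((f v : ℤ) : ℂ)) ∈ spe n lam

theorem InS.zero (lam : ℕ → ℕ) : InS lam (fun _ : Fin n → Fin n => 0) := by
  unfold InS
  have : (fun _ : Fin n → Fin n => ((0 : ℤ) : ℂ)) = 0 := by funext v; simp
  rw [this]
  exact Submodule.zero_mem _

theorem InS.add {lam : ℕ → ℕ} {f g : (Fin n → Fin n) → ℤ} (hf : InS lam f) (hg : InS lam g) :
    InS lam (fun v => f v + g v) := by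
  unfold InS at *
  have : (fun v : Fin n → Fin n => ((f v + g v : ℤ) : ℂ)) =
      (fun v => ((f v : ℤ) : ℂ)) + (fun v => ((g v : ℤ) : ℂ)) := by
    funext v; simp
  rw [this]
  exact Submodule.add_mem _ hf hg

theorem InS.smul {lam : ℕ → ℕ} {f : (Fin n → Fin n) → ℤ} (c : ℤ) (hf : InS lam f) :
    InS lam (fun v => c * f v) := by
  unfold InS at *
  have : (fun v : Fin n → Fin n => ((c * f v : ℤ) : ℂ)) =
      (c : ℂ) • (fun v => ((f v : ℤ) : ℂ)) := by
    funext v; simp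
  rw [this]
  exact Submodule.smul_mem _ _ hf

theorem InS.sum {ι : Type} {lam : ℕ → ℕ} (s : Finset ι) (f : ι → (Fin n → Fin n) → ℤ)
    (hf : ∀ i ∈ s, InS lam (f i)) : InS lam (fun v => ∑ i ∈ s, f i v) := by
  classical
  induction s using Finset.induction_on with
  | empty => simpa using InS.zero lam
  | insert a s ha ih =>
    have h1 := (hf a (Finset.mem_insert_self a s)).add (ih fun i hi =>
      hf i (Finset.mem_insert_of_mem hi))
    have h2 : (fun v => ∑ i ∈ insert a s, f i v) = fun v => f a v + ∑ i ∈ s, f i v := by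
      funext v
      rw [Finset.sum_insert ha]
    rw [h2]
    exact h1

theorem InS.ptm {lam : ℕ → ℕ} {r c : Fin n → ℕ} (hT : IsTab r c lam) :
    InS lam (fun v => pt r c (vl v)) :=
  Submodule.subset_span ⟨r, c, hT, rfl⟩

theorem InS.sgm {lam : ℕ → ℕ} {R C : Fin n → ℕ} (hT : IsTab R C lam) (c : Fin n → ℕ) :
    InS lam (fun v => sg R C (vl v) c) := by
  by_cases hc : ∃ σ : Equiv.Perm (Fin n), c = C ∘ σ
  · obtain ⟨σ, rfl⟩ := hc
    have h := (InS.ptm (hT.comp σ)).smul (Equiv.Perm.sign σ : ℤ)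
    have e : (fun v => sg R C (vl v) (C ∘ σ)) =
        fun v : Fin n → Fin n => (Equiv.Perm.sign σ : ℤ) * Pool.Saxl.pt (R ∘ σ) (C ∘ σ) (vl v) := by
      funext v
      rw [pt_sg, ← mul_assoc, sgn_mul_self, one_mul]
    rw [e]
    exact h
  · have e : (fun v : Fin n → Fin n => sg R C (vl v) c) = fun _ => 0 := by
      funext v
      by_contra hne
      obtain ⟨σ, _, h⟩ := sg_ne hne
      exact hc ⟨σ, h⟩
    rw [e]
    exact InS.zero lam

/-- a nonzero element of the Specht module is not orthogonal to all polytabloids -/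
theorem InS.exists_tab {lam : ℕ → ℕ} {f : (Fin n → Fin n) → ℤ} (hf : InS lam f)
    (hne : ∃ v, f v ≠ 0) : ∃ r c : Fin n → ℕ, IsTab r c lam ∧ ∑ v, f v * Pool.Saxl.pt r c (vl v) ≠ 0 := by
  by_contra hcon
  push Not at hcon
  have key : ∀ g ∈ spe n lam, ∑ v, ((f v : ℤ) : ℂ) * g v = 0 := by
    intro g hg
    unfold spe at hg
    induction hg using Submodule.span_induction with
    | mem g h =>
      obtain ⟨row, col, hT, rfl⟩ := h
      have h1 := hcon row col hT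
      have h2 : ((∑ v, f v * Pool.Saxl.pt row col (vl v) : ℤ) : ℂ) = 0 := by rw [h1]; simp
      rw [← h2]
      push_cast
      rfl
    | zero => simp
    | add g g' _ _ h1 h2 =>
      simp only [Pi.add_apply, mul_add, Finset.sum_add_distrib]
      rw [h1, h2, add_zero]
    | smul c g _ h1 =>
      have h2 : ∀ w, ((f w : ℤ) : ℂ) * ((c • g) w) = c * (((f w : ℤ) : ℂ) * g w) := by
        intro w
        rw [Pi.smul_apply, smul_eq_mul]
        ring
      simp only [h2]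
      rw [← Finset.mul_sum, h1, mul_zero]
  have h1 := key _ hf
  have h2 : ∑ v, f v * f v = 0 := by
    have : ((∑ v, f v * f v : ℤ) : ℂ) = 0 := by
      rw [← h1]
      push_cast
      rfl
    exact_mod_cast this
  rw [Finset.sum_eq_zero_iff_of_nonneg fun v _ => mul_self_nonneg _] at h2
  obtain ⟨v, hv⟩ := hne
  exact hv (mul_self_eq_zero.1 (h2 v (Finset.mem_univ v)))

/-- the criterion -/
theorem SS_of_tensor (lam mu : ℕ → ℕ) (e : ℤ)
    (z : (Fin n → Fin n) → (Fin n → Fin n) → (Fin n → Fin n) → ℤ)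
    (h1 : ∀ v2 v3, InS lam (fun v1 => z v1 v2 v3))
    (h2 : ∀ v1 v3, InS lam (fun v2 => z v1 v2 v3))
    (h3 : ∀ v1 v2, InS mu (fun v3 => z v1 v2 v3))
    (hinv : ∀ (g : Equiv.Perm (Fin n)) v1 v2 v3, z (v1 ∘ g) (v2 ∘ g) (v3 ∘ g) = z v1 v2 v3)
    (hsym : ∀ v1 v2 v3, z v2 v1 v3 = e * z v1 v2 v3)
    (hne : ∃ v1 v2 v3, z v1 v2 v3 ≠ 0) : SS e lam mu := by
  obtain ⟨a1, a2, a3, ha⟩ := hne
  obtain ⟨r1, c1, t1, k1⟩ := (h1 a2 a3).exists_tab ⟨a1, ha⟩
  have m2 : InS lam (fun v2 => ∑ v1, z v1 v2 a3 * Pool.Saxl.pt r1 c1 (vl v1)) := by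
    refine InS.sum _ _ fun v1 _ => ?_
    have := (h2 v1 a3).smul (Pool.Saxl.pt r1 c1 (vl v1))
    have e1 : (fun v2 => z v1 v2 a3 * Pool.Saxl.pt r1 c1 (vl v1)) =
        fun v2 => Pool.Saxl.pt r1 c1 (vl v1) * z v1 v2 a3 := by
      funext v2; ring
    rw [e1]
    exact this
  obtain ⟨r2, c2, t2, k2⟩ := m2.exists_tab ⟨a2, k1⟩
  have m3 : InS mu (fun v3 => ∑ v2, (∑ v1, z v1 v2 v3 * Pool.Saxl.pt r1 c1 (vl v1)) *
      Pool.Saxl.pt r2 c2 (vl v2)) := by
    refine InS.sum _ _ fun v2 _ => ?_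
    have h5 : InS mu (fun v3 => ∑ v1, z v1 v2 v3 * Pool.Saxl.pt r1 c1 (vl v1)) := by
      refine InS.sum _ _ fun v1 _ => ?_
      have := (h3 v1 v2).smul (Pool.Saxl.pt r1 c1 (vl v1))
      have e1 : (fun v3 => z v1 v2 v3 * Pool.Saxl.pt r1 c1 (vl v1)) =
          fun v3 => Pool.Saxl.pt r1 c1 (vl v1) * z v1 v2 v3 := by
        funext v3; ring
      rw [e1]
      exact this
    have := h5.smul (Pool.Saxl.pt r2 c2 (vl v2))
    have e1 : (fun v3 => (∑ v1, z v1 v2 v3 * Pool.Saxl.pt r1 c1 (vl v1)) *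
        Pool.Saxl.pt r2 c2 (vl v2)) = fun v3 => Pool.Saxl.pt r2 c2 (vl v2) *
        ∑ v1, z v1 v2 v3 * Pool.Saxl.pt r1 c1 (vl v1) := by
      funext v3; ring
    rw [e1]
    exact this
  obtain ⟨r3, c3, t3, k3⟩ := m3.exists_tab ⟨a3, k2⟩
  by_contra hSS
  have hno : ∀ w1 w2 w3 : Fin n → ℕ, tw false e r1 c1 r2 c2 r3 c3 w1 w2 w3 = 0 := by
    intro w1 w2 w3
    by_contra h
    exact hSS ⟨n, r1, c1, r2, c2, r3, c3, t1, t2, t3, w1, w2, w3, h⟩
  apply k3
  -- the triple sum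
  have e0 : ∑ v3, (∑ v2, (∑ v1, z v1 v2 v3 * Pool.Saxl.pt r1 c1 (vl v1)) *
      Pool.Saxl.pt r2 c2 (vl v2)) * Pool.Saxl.pt r3 c3 (vl v3) =
      ∑ v3, ∑ v2, ∑ v1, z v1 v2 v3 * (Pool.Saxl.pt r1 c1 (vl v1) *
        Pool.Saxl.pt r2 c2 (vl v2) * Pool.Saxl.pt r3 c3 (vl v3)) := by
    refine Finset.sum_congr rfl fun v3 _ => ?_
    rw [Finset.sum_mul]
    refine Finset.sum_congr rfl fun v2 _ => ?_
    rw [Finset.sum_mul, Finset.sum_mul]
    refine Finset.sum_congr rfl fun v1 _ => ?_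
    ring
  rw [e0]
  set S : ℤ := ∑ v3, ∑ v2, ∑ v1, z v1 v2 v3 * (Pool.Saxl.pt r1 c1 (vl v1) *
        Pool.Saxl.pt r2 c2 (vl v2) * Pool.Saxl.pt r3 c3 (vl v3)) with hS
  have hg : ∀ g : Equiv.Perm (Fin n), ∑ v3, ∑ v2, ∑ v1, z v1 v2 v3 *
      (Pool.Saxl.pt r1 c1 (vl v1 ∘ g) * Pool.Saxl.pt r2 c2 (vl v2 ∘ g) *
        Pool.Saxl.pt r3 c3 (vl v3 ∘ g)) = S := by
    intro g
    rw [hS]
    refine Fintype.sum_equiv (Equiv.arrowCongr g.symm (Equiv.refl (Fin n))) _ _ fun v3 => ?_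
    refine Fintype.sum_equiv (Equiv.arrowCongr g.symm (Equiv.refl (Fin n))) _ _ fun v2 => ?_
    refine Fintype.sum_equiv (Equiv.arrowCongr g.symm (Equiv.refl (Fin n))) _ _ fun v1 => ?_
    have e1 := hinv g v1 v2 v3
    rw [← e1]
    rfl
  have hsum : (Fintype.card (Equiv.Perm (Fin n)) : ℤ) * S =
      ∑ v3, ∑ v2, ∑ v1, z v1 v2 v3 * trs false r1 c1 r2 c2 r3 c3 (vl v1) (vl v2) (vl v3) := by
    calc (Fintype.card (Equiv.Perm (Fin n)) : ℤ) * S = ∑ _g : Equiv.Perm (Fin n), S := by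
          rw [Finset.sum_const, Finset.card_univ, nsmul_eq_mul]
      _ = ∑ g : Equiv.Perm (Fin n), ∑ v3, ∑ v2, ∑ v1, z v1 v2 v3 *
          (Pool.Saxl.pt r1 c1 (vl v1 ∘ g) * Pool.Saxl.pt r2 c2 (vl v2 ∘ g) *
            Pool.Saxl.pt r3 c3 (vl v3 ∘ g)) :=
          Finset.sum_congr rfl fun g _ => (hg g).symm
      _ = _ := by
          rw [Finset.sum_comm]
          refine Finset.sum_congr rfl fun v3 _ => ?_
          rw [Finset.sum_comm]
          refine Finset.sum_congr rfl fun v2 _ => ?_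
          rw [Finset.sum_comm]
          refine Finset.sum_congr rfl fun v1 _ => ?_
          unfold trs
          rw [Finset.mul_sum]
          refine Finset.sum_congr rfl fun g _ => ?_
          unfold ch
          simp only [Bool.false_eq_true, if_false, one_mul]
  have hsum' : (Fintype.card (Equiv.Perm (Fin n)) : ℤ) * S =
      ∑ v3, ∑ v2, ∑ v1, z v1 v2 v3 *
        (e * trs false r1 c1 r2 c2 r3 c3 (vl v2) (vl v1) (vl v3)) := by
    rw [hsum]
    refine Finset.sum_congr rfl fun v3 _ => ?_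
    rw [Finset.sum_comm]
    refine Finset.sum_congr rfl fun v1 _ => ?_
    refine Finset.sum_congr rfl fun v2 _ => ?_
    rw [hsym v2 v1 v3]
    ring
  have h2S : (Fintype.card (Equiv.Perm (Fin n)) : ℤ) * S +
      (Fintype.card (Equiv.Perm (Fin n)) : ℤ) * S = 0 := by
    nth_rewrite 1 [hsum]
    rw [hsum', ← Finset.sum_add_distrib]
    refine Finset.sum_eq_zero fun v3 _ => ?_
    rw [← Finset.sum_add_distrib]
    refine Finset.sum_eq_zero fun v2 _ => ?_
    rw [← Finset.sum_add_distrib]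
    refine Finset.sum_eq_zero fun v1 _ => ?_
    have := hno (vl v1) (vl v2) (vl v3)
    unfold tw at this
    rw [← mul_add, this, mul_zero]
  have h3S : (Fintype.card (Equiv.Perm (Fin n)) : ℤ) * S = 0 := by omega
  rcases mul_eq_zero.1 h3S with h | h
  · exfalso
    have : Fintype.card (Equiv.Perm (Fin n)) ≠ 0 := Fintype.card_ne_zero
    exact this (by exact_mod_cast h)
  · exact h

end crit

end Pool.Agent.H374
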