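import Mathlib
import Pool.Graph.R_pool_sql_team_seeded_620a6dc7.Helper139_Saxl.Defs
import Pool.Graph.R_pool_sql_team_seeded_620a6dc7.Helper139_Saxl.Defs2
import Pool.Graph.R_pool_sql_team_seeded_620a6dc7.Helper139_Saxl.J31
import Pool.Agent.H374.A05
import Pool.Agent.H374.A07

set_option autoImplicit false

/-! Tensors from central elements. -/

namespace Pool.Agent.H374

open Finset Pool.Saxl

section lemK

variable {n : ℕ}

/-- the tensor of an equivariant family -/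
def zK (R C R3 C3 : Fin n → ℕ) (x : (Fin n → Fin n) → Equiv.Perm (Fin n) → ℤ)
    (v1 v2 v3 : Fin n → Fin n) : ℤ :=
  ∑ c : Fin n → Fin n, ∑ h : Equiv.Perm (Fin n),
    x c h * sg R C (vl v1) (vl v2 ∘ h) * sg R3 C3 (vl v3) (vl c)

theorem sg_move {R C : Fin n → ℕ} {τ : Equiv.Perm (Fin n)} (hτ1 : C = R ∘ τ) (hτ2 : R = C ∘ τ)
    (a b : Fin n → ℕ) (h : Equiv.Perm (Fin n)) :
    sg R C a (b ∘ h) = (Equiv.Perm.sign h : ℤ) * (Equiv.Perm.sign τ : ℤ) *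
      sg R C b (a ∘ h.symm) := by
  have h1 := sg_comp R C (a ∘ h.symm) b h
  have e : (a ∘ h.symm) ∘ h = a := by funext x; simp
  rw [e] at h1
  rw [h1, sg_swap hτ1 hτ2 b (a ∘ h.symm)]
  ring

theorem SS_of_K {lam mu : ℕ → ℕ} {R C R3 C3 : Fin n → ℕ} {τ : Equiv.Perm (Fin n)}
    (hR : IsTab R C lam) (hτ1 : C = R ∘ τ) (hτ2 : R = C ∘ τ) (h3 : IsTab R3 C3 mu)
    (x : (Fin n → Fin n) → Equiv.Perm (Fin n) → ℤ)
    (hx : ∀ (g : Equiv.Perm (Fin n)) c h, x (c ∘ g) (g⁻¹ * h * g) = x c h) (s : ℤ)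
    (hs : ∀ c h, x c h⁻¹ * (Equiv.Perm.sign h : ℤ) = s * x c h)
    (hne : ∃ v1 v2 v3, zK R C R3 C3 x v1 v2 v3 ≠ 0) :
    SS ((Equiv.Perm.sign τ : ℤ) * s) lam mu := by
  refine SS_of_tensor lam mu _ (zK R C R3 C3 x) ?_ ?_ ?_ ?_ ?_ hne
  · intro v2 v3
    unfold zK
    refine InS.sum _ _ fun c _ => InS.sum _ _ fun h _ => ?_
    have := (InS.sgm hR (vl v2 ∘ h)).smul (x c h * sg R3 C3 (vl v3) (vl c))
    have e : (fun v1 : Fin n → Fin n => x c h * sg R C (vl v1) (vl v2 ∘ h) *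
        sg R3 C3 (vl v3) (vl c)) = fun v1 => (x c h * sg R3 C3 (vl v3) (vl c)) *
        sg R C (vl v1) (vl v2 ∘ h) := by
      funext v1; ring
    rw [e]
    exact this
  · intro v1 v3
    unfold zK
    refine InS.sum _ _ fun c _ => InS.sum _ _ fun h _ => ?_
    have := (InS.sgm hR (vl v1 ∘ h.symm)).smul (x c h * sg R3 C3 (vl v3) (vl c) *
      ((Equiv.Perm.sign h : ℤ) * (Equiv.Perm.sign τ : ℤ)))
    have e : (fun v2 : Fin n → Fin n => x c h * sg R C (vl v1) (vl v2 ∘ h) *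
        sg R3 C3 (vl v3) (vl c)) = fun v2 => (x c h * sg R3 C3 (vl v3) (vl c) *
        ((Equiv.Perm.sign h : ℤ) * (Equiv.Perm.sign τ : ℤ))) *
        sg R C (vl v2) (vl v1 ∘ h.symm) := by
      funext v2
      rw [sg_move hτ1 hτ2 (vl v1) (vl v2) h]
      ring
    rw [e]
    exact this
  · intro v1 v2
    unfold zK
    refine InS.sum _ _ fun c _ => InS.sum _ _ fun h _ => ?_
    exact (InS.sgm h3 (vl c)).smul (x c h * sg R C (vl v1) (vl v2 ∘ h))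
  · intro g v1 v2 v3
    unfold zK
    symm
    refine Fintype.sum_equiv (Equiv.arrowCongr g.symm (Equiv.refl (Fin n))) _ _ fun c => ?_
    have ec : (Equiv.arrowCongr g.symm (Equiv.refl (Fin n))) c = c ∘ g := rfl
    rw [ec]
    refine Fintype.sum_equiv (MulAut.conj g⁻¹).toEquiv _ _ fun h => ?_
    have eh : (MulAut.conj g⁻¹).toEquiv h = g⁻¹ * h * g := by
      simp
    rw [eh, hx]
    have e1 : vl (v2 ∘ g) ∘ (g⁻¹ * h * g : Equiv.Perm (Fin n)) = (vl v2 ∘ h) ∘ g := by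
      funext y
      simp [vl]
    have e2 : sg R C (vl (v1 ∘ g)) ((vl v2 ∘ h) ∘ g) =
        (Equiv.Perm.sign g : ℤ) * sg R C (vl v1) (vl v2 ∘ h) := sg_comp R C (vl v1) (vl v2 ∘ h) g
    have e3 : sg R3 C3 (vl (v3 ∘ g)) (vl (c ∘ g)) =
        (Equiv.Perm.sign g : ℤ) * sg R3 C3 (vl v3) (vl c) := sg_comp R3 C3 (vl v3) (vl c) g
    rw [e1, e2, e3]
    have := sgn_mul_self g
    linear_combination (-(x c h * sg R C (vl v1) (vl v2 ∘ h) * sg R3 C3 (vl v3) (vl c))) * this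
  · intro v1 v2 v3
    unfold zK
    rw [Finset.mul_sum]
    refine Finset.sum_congr rfl fun c _ => ?_
    rw [Finset.mul_sum]
    refine Fintype.sum_equiv (Equiv.inv (Equiv.Perm (Fin n))) _ _ fun h => ?_
    have e1 : (Equiv.inv (Equiv.Perm (Fin n))) h = h⁻¹ := rfl
    rw [e1, sg_move hτ1 hτ2 (vl v2) (vl v1) h]
    have h1 := hs c h⁻¹
    rw [inv_inv, Equiv.Perm.sign_inv] at h1
    have e2 : (vl v2 ∘ (h⁻¹ : Equiv.Perm (Fin n))) = vl v2 ∘ h.symm := rfl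
    rw [e2]
    linear_combination ((Equiv.Perm.sign τ : ℤ) * sg R C (vl v1) (vl v2 ∘ h.symm) *
      sg R3 C3 (vl v3) (vl c)) * h1

/-- the family of cycles of length `m` -/
noncomputable def xm (m : ℕ) (c : Fin n → Fin n) (h : Equiv.Perm (Fin n)) : ℤ :=
  haveI := Classical.dec (h.cycleType = {m} ∧ ∀ y, (c y : ℕ) ≠ 0 → h y ≠ y)
  if h.cycleType = {m} ∧ ∀ y, (c y : ℕ) ≠ 0 → h y ≠ y then 1 else 0

theorem xm_pos {m : ℕ} {c : Fin n → Fin n} {h : Equiv.Perm (Fin n)}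
    (hc : h.cycleType = {m} ∧ ∀ y, (c y : ℕ) ≠ 0 → h y ≠ y) : xm m c h = 1 := by
  unfold xm
  exact if_pos hc

theorem xm_neg {m : ℕ} {c : Fin n → Fin n} {h : Equiv.Perm (Fin n)}
    (hc : ¬ (h.cycleType = {m} ∧ ∀ y, (c y : ℕ) ≠ 0 → h y ≠ y)) : xm m c h = 0 := by
  unfold xm
  exact if_neg hc

theorem xm_equiv (m : ℕ) (g : Equiv.Perm (Fin n)) (c : Fin n → Fin n) (h : Equiv.Perm (Fin n)) :
    xm m (c ∘ g) (g⁻¹ * h * g) = xm m c h := by
  have h1 : (g⁻¹ * h * g).cycleType = h.cycleType := by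
    have := Equiv.Perm.cycleType_conj (σ := h) (τ := g⁻¹)
    rw [inv_inv] at this
    exact this
  have h2 : (∀ y, ((c ∘ g) y : ℕ) ≠ 0 → (g⁻¹ * h * g : Equiv.Perm (Fin n)) y ≠ y) ↔
      ∀ y, (c y : ℕ) ≠ 0 → h y ≠ y := by
    constructor
    · intro H y hy hhy
      refine H (g⁻¹ y) (by simpa using hy) ?_
      simp [hhy]
    · intro H y hy hhy
      refine H (g y) (by simpa using hy) ?_
      have := congrArg g hhy
      simpa using this
  by_cases hc : h.cycleType = {m} ∧ ∀ y, (c y : ℕ) ≠ 0 → h y ≠ y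
  · rw [xm_pos hc, xm_pos ⟨h1.trans hc.1, h2.2 hc.2⟩]
  · rw [xm_neg hc, xm_neg (fun h => hc ⟨h1.symm.trans h.1, h2.1 h.2⟩)]

theorem xm_inv (m : ℕ) (c : Fin n → Fin n) (h : Equiv.Perm (Fin n)) :
    xm m c h⁻¹ * (Equiv.Perm.sign h : ℤ) = (-1) ^ (m + 1) * xm m c h := by
  have h2 : (∀ y, (c y : ℕ) ≠ 0 → (h⁻¹ : Equiv.Perm (Fin n)) y ≠ y) ↔
      ∀ y, (c y : ℕ) ≠ 0 → h y ≠ y := by
    constructor
    · intro H y hy hhy
      refine H y hy ?_
      rw [Equiv.Perm.inv_eq_iff_eq]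
      exact hhy.symm
    · intro H y hy hhy
      refine H y hy ?_
      rw [Equiv.Perm.inv_eq_iff_eq] at hhy
      exact hhy.symm
  by_cases hc : h.cycleType = {m} ∧ ∀ y, (c y : ℕ) ≠ 0 → h y ≠ y
  · rw [xm_pos hc, xm_pos ⟨(Equiv.Perm.cycleType_inv h).trans hc.1, h2.2 hc.2⟩]
    have := Equiv.Perm.sign_of_cycleType h
    rw [hc.1] at this
    rw [this]
    simp
  · rw [xm_neg hc, xm_neg (fun h' => hc ⟨(Equiv.Perm.cycleType_inv h).symm.trans h'.1,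
      h2.1 h'.2⟩)]
    simp

end lemK

end Pool.Agent.H374
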