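import Mathlib
import Pool.Graph.R_pool_sql_team_seeded_620a6dc7.Helper139_Saxl.Defs
import Pool.Graph.R_pool_sql_team_seeded_620a6dc7.Helper139_Saxl.Defs2
import Pool.Graph.R_pool_sql_team_seeded_620a6dc7.Helper139_Saxl.J31
import Pool.Agent.H374.A08

set_option autoImplicit false

/-! Evaluation of the tensors for shapes with two columns. -/

namespace Pool.Agent.H374

open Finset Pool.Saxl

section evalK

variable {n : ℕ}

theorem sg_star {R C : Fin n → ℕ} {k : ℕ} (hR : IsStd R C (rho k)) {π h : Equiv.Perm (Fin n)}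
    (hs : sg R C R ((C ∘ π) ∘ h) ≠ 0) (y : Fin n) : R y + C (π (h y)) < k := by
  obtain ⟨σ, h1, h2⟩ := sg_ne hs
  have e1 := congrFun h1 y
  have e2 := congrFun h2 y
  simp only [Function.comp_apply] at e1 e2
  have h3 := hR.lt (σ y)
  unfold rho at h3
  omega

theorem supp_mem {h : Equiv.Perm (Fin n)} {S : Finset (Fin n)} {m : ℕ}
    (hct : h.cycleType = {m}) (hS : ∀ y ∈ S, h y ≠ y) (hc : S.card = m) (y : Fin n) :
    h y ≠ y ↔ y ∈ S := by
  have h1 : S ⊆ h.support := fun y hy => Equiv.Perm.mem_support.2 (hS y hy)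
  have h2 : h.support.card = m := by
    rw [← Equiv.Perm.sum_cycleType, hct]
    simp
  have h3 : S = h.support := Finset.eq_of_subset_of_card_le h1 (by rw [h2, hc])
  rw [h3, Equiv.Perm.mem_support]

theorem uniq3 {R C : Fin n → ℕ} {k : ℕ} (hk : 3 ≤ k)
    {x0 x1 x2 : Fin n} (r0 : R x0 = 0) (c0 : C x0 = k - 1) (r1 : R x1 = 1) (c1 : C x1 = k - 2)
    (r2 : R x2 = 2) (h : Equiv.Perm (Fin n)) (hct : h.cycleType = {3})
    (hst : ∀ y, R y + C ((Equiv.swap x0 x1 * Equiv.swap x0 x2 : Equiv.Perm (Fin n)) (h y)) < k)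
    (a0 : Fin n) (ha0 : h a0 ≠ a0) (hR0 : a0 = x0 ∨ (R a0 = 1 ∧ a0 ≠ x1)) :
    a0 = x0 ∧ h = (Equiv.swap x0 x1 * Equiv.swap x0 x2 : Equiv.Perm (Fin n))⁻¹ := by
  have n01 : x0 ≠ x1 := by intro e; rw [e] at r0; omega
  have n02 : x0 ≠ x2 := by intro e; rw [e] at r0; omega
  have n12 : x1 ≠ x2 := by intro e; rw [e] at r1; omega
  set π : Equiv.Perm (Fin n) := Equiv.swap x0 x1 * Equiv.swap x0 x2 with hπ
  have π0 : π x0 = x2 := by
    rw [hπ, Equiv.Perm.mul_apply, Equiv.swap_apply_left, Equiv.swap_apply_of_ne_of_ne n02.symm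
      n12.symm]
  have π1 : π x1 = x0 := by
    rw [hπ, Equiv.Perm.mul_apply, Equiv.swap_apply_of_ne_of_ne n01.symm n12,
      Equiv.swap_apply_right]
  have π2 : π x2 = x1 := by
    rw [hπ, Equiv.Perm.mul_apply, Equiv.swap_apply_right, Equiv.swap_apply_left]
  have πo : ∀ y, y ≠ x0 → y ≠ x1 → y ≠ x2 → π y = y := by
    intro y h0 h1 h2
    rw [hπ, Equiv.Perm.mul_apply, Equiv.swap_apply_of_ne_of_ne h0 h2,
      Equiv.swap_apply_of_ne_of_ne h0 h1]
  have hx1 : h x1 ≠ x1 := by
    intro e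
    have := hst x1
    rw [e, π1, c0, r1] at this
    omega
  have hx2 : h x2 ≠ x2 := by
    intro e
    have := hst x2
    rw [e, π2, c1, r2] at this
    omega
  have na1 : a0 ≠ x1 := by
    rcases hR0 with e | e
    · rw [e]; exact n01
    · exact e.2
  have na2 : a0 ≠ x2 := by
    intro e
    rcases hR0 with e' | e'
    · exact n02 (e'.symm.trans e)
    · rw [e] at e'; omega
  have hsupp := supp_mem (S := {a0, x1, x2}) hct (by
    intro y hy
    simp only [Finset.mem_insert, Finset.mem_singleton] at hy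
    rcases hy with rfl | rfl | rfl
    · exact ha0
    · exact hx1
    · exact hx2) (Finset.card_eq_three.2 ⟨a0, x1, x2, na1, na2, n12, rfl⟩)
  simp only [Finset.mem_insert, Finset.mem_singleton] at hsupp
  -- the preimage of `x1`
  obtain ⟨y1, hy1⟩ := h.surjective x1
  have ry1 : R y1 = 0 := by
    have := hst y1
    rw [hy1, π1, c0] at this
    omega
  have my1 : y1 = a0 := by
    have h5 : h y1 ≠ y1 := by
      rw [hy1]
      intro e
      rw [← e] at ry1
      omega
    rcases (hsupp y1).1 h5 with e | e | e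
    · exact e
    · rw [e] at ry1; omega
    · rw [e] at ry1; omega
  have a00 : a0 = x0 := by
    rcases hR0 with e | e
    · exact e
    · rw [my1] at ry1; omega
  subst a00
  rw [my1] at hy1
  obtain ⟨y2, hy2⟩ := h.surjective x2
  have ry2 : R y2 ≤ 1 := by
    have := hst y2
    rw [hy2, π2, c1] at this
    omega
  have my2 : y2 = x1 := by
    have h5 : h y2 ≠ y2 := by
      rw [hy2]
      intro e
      rw [← e] at ry2
      omega
    rcases (hsupp y2).1 h5 with e | e | e
    · rw [e, hy1] at hy2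
      exact absurd hy2 n12
    · exact e
    · rw [e] at ry2; omega
  rw [my2] at hy2
  have hx2' : h x2 = a0 := by
    have h5 : h (h x2) ≠ h x2 := fun e => hx2 (h.injective e)
    rcases (hsupp (h x2)).1 h5 with e | e | e
    · exact e
    · rw [← hy1] at e
      exact absurd (h.injective e).symm n02
    · exact absurd e hx2
  refine ⟨rfl, ?_⟩
  rw [eq_inv_iff_mul_eq_one]
  -- `h * π = 1`
  ext y
  simp only [Equiv.Perm.mul_apply, Equiv.Perm.one_apply]
  by_cases e0 : y = a0
  · rw [e0, π0, hx2']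
  · by_cases e1 : y = x1
    · rw [e1, π1, hy1]
    · by_cases e2 : y = x2
      · rw [e2, π2, hy2]
      · rw [πo y e0 e1 e2]
        by_contra hne
        have := (hsupp y).1 (fun e => hne (by rw [e]))
        tauto

theorem uniq2 {R C : Fin n → ℕ} {k : ℕ} (hk : 3 ≤ k)
    {x0 x1 : Fin n} (r0 : R x0 = 0) (c0 : C x0 = k - 1) (r1 : R x1 = 1)
    (h : Equiv.Perm (Fin n)) (hct : h.cycleType = {2})
    (hst : ∀ y, R y + C ((Equiv.swap x0 x1 : Equiv.Perm (Fin n)) (h y)) < k)
    (a0 : Fin n) (ha0 : h a0 ≠ a0) (hR0 : a0 = x0 ∨ (R a0 = 1 ∧ a0 ≠ x1)) :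
    a0 = x0 ∧ h = (Equiv.swap x0 x1 : Equiv.Perm (Fin n))⁻¹ := by
  have n01 : x0 ≠ x1 := by intro e; rw [e] at r0; omega
  have hx1 : h x1 ≠ x1 := by
    intro e
    have := hst x1
    rw [e, Equiv.swap_apply_right, c0, r1] at this
    omega
  have na1 : a0 ≠ x1 := by
    rcases hR0 with e | e
    · rw [e]; exact n01
    · exact e.2
  have hsupp := supp_mem (S := {a0, x1}) hct (by
    intro y hy
    simp only [Finset.mem_insert, Finset.mem_singleton] at hy
    rcases hy with rfl | rfl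
    · exact ha0
    · exact hx1) (Finset.card_pair na1)
  simp only [Finset.mem_insert, Finset.mem_singleton] at hsupp
  obtain ⟨y1, hy1⟩ := h.surjective x1
  have ry1 : R y1 = 0 := by
    have := hst y1
    rw [hy1, Equiv.swap_apply_right, c0] at this
    omega
  have my1 : y1 = a0 := by
    have h5 : h y1 ≠ y1 := by
      rw [hy1]
      intro e
      rw [← e] at ry1
      omega
    rcases (hsupp y1).1 h5 with e | e
    · exact e
    · rw [e] at ry1; omega
  have a00 : a0 = x0 := by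
    rcases hR0 with e | e
    · exact e
    · rw [my1] at ry1; omega
  subst a00
  rw [my1] at hy1
  have hx1' : h x1 = a0 := by
    have h5 : h (h x1) ≠ h x1 := fun e => hx1 (h.injective e)
    rcases (hsupp (h x1)).1 h5 with e | e
    · exact e
    · exact absurd e hx1
  refine ⟨rfl, ?_⟩
  rw [eq_inv_iff_mul_eq_one]
  ext y
  simp only [Equiv.Perm.mul_apply, Equiv.Perm.one_apply]
  by_cases e0 : y = a0
  · rw [e0, Equiv.swap_apply_left, hx1']
  · by_cases e1 : y = x1
    · rw [e1, Equiv.swap_apply_right, hy1]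
    · rw [Equiv.swap_apply_of_ne_of_ne e0 e1]
      by_contra hne
      have := (hsupp y).1 (fun e => hne (by rw [e]))
      tauto

/-- the evaluation -/
theorem eval_K {R C R3 C3 : Fin n → ℕ} {k : ℕ} {mu : ℕ → ℕ} (hR : IsStd R C (rho k))
    (h3 : IsStd R3 C3 mu) (m : ℕ) (π : Equiv.Perm (Fin n)) (x0 p : Fin n)
    (huniq : ∀ h : Equiv.Perm (Fin n), h.cycleType = {m} → (∀ y, R y + C (π (h y)) < k) →
      ∀ a0, h a0 ≠ a0 → (a0 = x0 ∨ a0 = p) → a0 = x0 ∧ h = π⁻¹)
    (hπ : (π⁻¹).cycleType = {m}) (hC3 : ∀ y, C3 y ≤ 1) (hx0 : R3 x0 = 0 ∧ C3 x0 = 1)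
    (H1 : ∀ y, C3 y ≠ 0 → (π⁻¹ : Equiv.Perm (Fin n)) y ≠ y)
    (H2 : ∀ y, R3 y = 0 → y = x0 ∨ y = p)
    (H3 : ∀ y y', R3 y ≠ 0 → C3 y = 0 → y' ≠ y → R3 y' = R3 y →
      (π⁻¹ : Equiv.Perm (Fin n)) y = y)
    (v1 v2 v3 c0 : Fin n → Fin n) (hv1 : vl v1 = R) (hv2 : vl v2 = C ∘ π) (hv3 : vl v3 = R3)
    (hc0 : vl c0 = C3) : zK R C R3 C3 (xm m) v1 v2 v3 = 1 := by
  have key : ∀ (c : Fin n → Fin n) (h : Equiv.Perm (Fin n)),
      xm m c h * sg R C (vl v1) (vl v2 ∘ h) * sg R3 C3 (vl v3) (vl c) ≠ 0 →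
      c = c0 ∧ h = π⁻¹ := by
    intro c h hne
    have g3 := right_ne_zero_of_mul hne
    have g1 := left_ne_zero_of_mul (left_ne_zero_of_mul hne)
    have g2 := right_ne_zero_of_mul (left_ne_zero_of_mul hne)
    have hxm : h.cycleType = {m} ∧ ∀ y, (c y : ℕ) ≠ 0 → h y ≠ y := by
      by_contra hc
      exact g1 (xm_neg hc)
    rw [hv1, hv2] at g2
    have hst := sg_star hR g2
    rw [hv3] at g3
    obtain ⟨σ, hσ1, hσ2⟩ := sg_ne g3
    have r3 : ∀ y, R3 (σ y) = R3 y := fun y => (congrFun hσ1 y).symm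
    have c3 : ∀ y, C3 (σ y) = (c y : ℕ) := fun y => (congrFun hσ2 y).symm
    -- the position of the cell `(0, 1)`
    obtain ⟨a0, ha0⟩ := σ.surjective x0
    have ra0 : R3 a0 = 0 := by rw [← r3, ha0, hx0.1]
    have ca0 : (c a0 : ℕ) = 1 := by rw [← c3, ha0, hx0.2]
    have hma0 : h a0 ≠ a0 := hxm.2 a0 (by omega)
    obtain ⟨ea0, eh⟩ := huniq h hxm.1 hst a0 hma0 (H2 a0 ra0)
    refine ⟨?_, eh⟩
    rw [ea0] at ha0 ca0
    -- no new box of the second column
    have nn : ∀ y, (c y : ℕ) ≠ 0 → C3 y ≠ 0 := by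
      intro y hy hy0
      have hm := hxm.2 y hy
      rw [eh] at hm
      have hσy : σ y ≠ y := by
        intro e
        have := c3 y
        rw [e] at this
        omega
      by_cases hr : R3 y = 0
      · have h5 : R3 (σ y) = R3 x0 := by rw [r3, hr, hx0.1]
        have h6 : C3 (σ y) = C3 x0 := by
          rw [c3, hx0.2]
          have := hC3 (σ y)
          rw [c3] at this
          omega
        have h7 := h3.inj _ _ h5 h6
        rw [← ha0] at h7
        have h8 := σ.injective h7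
        rw [h8, hx0.2] at hy0
        omega
      · exact hm (H3 y (σ y) hr hy0 hσy (r3 y))
    have hcc : ∀ y, (c y : ℕ) = C3 y := by
      intro y
      by_cases hy : (c y : ℕ) = 0
      · by_cases hy' : C3 y = 0
        · rw [hy, hy']
        · exfalso
          obtain ⟨y2, hy2⟩ := σ.surjective y
          have e1 : (c y2 : ℕ) = C3 y := by rw [← c3, hy2]
          have e2 : R3 y2 = R3 y := by rw [← r3, hy2]
          have e3 : C3 y2 ≠ 0 := nn y2 (by rw [e1]; exact hy')
          have e4 : y2 = y := h3.inj _ _ e2 (by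
            have := hC3 y; have := hC3 y2; omega)
          rw [e4] at e1
          omega
      · have h5 := nn y hy
        have h6 := hC3 y
        have h7 := hC3 (σ y)
        rw [c3] at h7
        omega
    funext y
    apply Fin.ext
    rw [hcc y, ← hc0]
    rfl
  unfold zK
  rw [Finset.sum_eq_single c0, Finset.sum_eq_single π⁻¹]
  · rw [hv1, hv2, hv3, hc0]
    have e1 : (C ∘ π) ∘ (π⁻¹ : Equiv.Perm (Fin n)) = C := by funext y; simp
    have e2 : sg R C R C = 1 := by
      have := sg_of R C hR.inj 1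
      simpa using this
    have e3 : sg R3 C3 R3 C3 = 1 := by
      have := sg_of R3 C3 h3.inj 1
      simpa using this
    have e4 : xm m c0 π⁻¹ = 1 := by
      refine xm_pos ⟨hπ, fun y hy => H1 y ?_⟩
      rw [← hc0]
      exact hy
    rw [e1, e2, e3, e4]
    norm_num
  · intro h _ hne
    by_contra hne'
    exact hne (key c0 h hne').2
  · intro h
    exact absurd (Finset.mem_univ _) h
  · intro c _ hne
    refine Finset.sum_eq_zero fun h _ => ?_
    by_contra hne'
    exact hne (key c h hne').1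
  · intro h
    exact absurd (Finset.mem_univ _) h

/-- the shape with two columns -/
def tc (b n : ℕ) : ℕ → ℕ := fun i => if i < b then 2 else if i < n - b then 1 else 0

theorem isPart_tc {b n : ℕ} (h : 2 * b ≤ n) : IsPart (tc b n) n := by
  refine ⟨?_, ?_, ?_⟩
  · intro i j hij
    unfold tc
    split_ifs <;> omega
  · intro i hi
    unfold tc
    by_cases h0 : i < b
    · omega
    · rw [if_neg h0, if_neg (by omega)]
  · have h1 : ∀ i, tc b n i = (if i < b then 1 else 0) + (if i < n - b then 1 else 0) := by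
      intro i
      unfold tc
      split_ifs <;> omega
    simp only [h1, Finset.sum_add_distrib]
    rw [sx04_count, sx04_count]
    omega

/-- a standard tableau with prescribed positions -/
theorem exists_tab_at {mu : ℕ → ℕ} {ι : Type} [Finite ι] (hmu : IsPart mu n) (f : ι → Fin n)
    (hf : Function.Injective f) (a b : ι → ℕ) (hab : Function.Injective fun i => (a i, b i))
    (hlt : ∀ i, b i < mu (a i)) :
    ∃ R3 C3 : Fin n → ℕ, IsStd R3 C3 mu ∧ ∀ i, R3 (f i) = a i ∧ C3 (f i) = b i := by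
  obtain ⟨R', C', h⟩ := exists_tab mu n hmu
  have hex : ∀ i, ∃ y, R' y = a i ∧ C' y = b i := fun i => std_surj R' C' mu h _ _ (hlt i)
  choose g hg1 hg2 using hex
  have hg : Function.Injective g := by
    intro i j e
    apply hab
    simp only [Prod.mk.injEq]
    rw [← hg1 i, ← hg1 j, ← hg2 i, ← hg2 j, e]
    exact ⟨rfl, rfl⟩
  obtain ⟨σ, hσ⟩ := Equiv.Perm.exists_extending_pair f g hf hg
  refine ⟨R' ∘ σ, C' ∘ σ, ⟨h.toIsTab.comp σ, fun x => h.lt (σ x)⟩, fun i => ?_⟩
  simp only [Function.comp_apply, hσ]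
  exact ⟨hg1 i, hg2 i⟩

end evalK

end Pool.Agent.H374
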