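import Mathlib
import Pool.Graph.R_pool_sql_team_seeded_620a6dc7.Helper139_Saxl.Defs
import Pool.Graph.R_pool_sql_team_seeded_620a6dc7.Helper139_Saxl.Defs2
import Pool.Graph.R_pool_sql_team_seeded_620a6dc7.Helper139_Saxl.J04
import Pool.Graph.R_pool_sql_team_seeded_620a6dc7.Helper139_Saxl.J31
import Pool.Agent.H374.A09

set_option autoImplicit false

/-! Shapes with at most two columns. -/

namespace Pool.Agent.H374

open Finset Pool.Saxl

section twocol

variable {n : ℕ}

/-- the sign of the transposition of the staircase -/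
theorem sign_tau {R C : Fin n → ℕ} {k : ℕ} (hR : IsStd R C (rho k)) {τ : Equiv.Perm (Fin n)}
    (hτ1 : C = R ∘ τ) (hτ2 : R = C ∘ τ) :
    (Equiv.Perm.sign τ : ℤ) = (-1) ^ ((k * (k + 1) / 2 - (k + 1) / 2) / 2) := by
  have hn : n = k * (k + 1) / 2 := by
    have := hR.toIsTab.isPart
    rw [Fintype.card_fin] at this
    exact sx12_isPart_uniq _ _ _ this (isPart_rho k)
  have e1 : ∀ x, C x = R (τ x) := fun x => congrFun hτ1 x
  have e2 : ∀ x, R x = C (τ x) := fun x => congrFun hτ2 x
  have hsq : τ ^ 2 = 1 := by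
    ext x
    rw [sq, Equiv.Perm.mul_apply, Equiv.Perm.one_apply]
    congr 1
    apply hR.inj
    · rw [← e1, ← e2]
    · rw [← e2, ← e1]
  have hfix : Fintype.card (Function.fixedPoints τ) = (k + 1) / 2 := by
    classical
    have h1 : Fintype.card (Function.fixedPoints τ) = (univ.filter fun x => R x = C x).card := by
      rw [← Fintype.card_subtype]
      refine Fintype.card_congr (Equiv.subtypeEquivRight fun x => ?_)
      constructor
      · intro hx
        have hx' : τ x = x := hx
        have := e1 x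
        rw [hx'] at this
        exact this.symm
      · intro hx
        apply hR.inj
        · rw [← e1]; exact hx.symm
        · rw [← e2]; exact hx
    rw [h1]
    have h2 : (univ.filter fun x => R x = C x).card = (range ((k + 1) / 2)).card := by
      refine Finset.card_bij (fun x _ => R x) ?_ ?_ ?_
      · intro x hx
        rw [Finset.mem_filter] at hx
        have := hR.lt x
        unfold rho at this
        rw [Finset.mem_range]
        omega
      · intro x hx y hy hxy
        rw [Finset.mem_filter] at hx hy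
        exact hR.inj x y hxy (by rw [← hx.2, ← hy.2]; exact hxy)
      · intro i hi
        rw [Finset.mem_range] at hi
        obtain ⟨x, hx1, hx2⟩ := std_surj R C (rho k) hR i i (by unfold rho; omega)
        exact ⟨x, Finset.mem_filter.2 ⟨Finset.mem_univ _, hx1.trans hx2.symm⟩, hx1⟩
    rw [h2, Finset.card_range]
  rw [Equiv.Perm.sign_of_pow_two_eq_one hsq, Fintype.card_fin, hfix, hn]
  simp

theorem eta_pos {k : ℕ} (hk : k % 4 ≠ 2) :
    ((-1 : ℤ)) ^ ((k * (k + 1) / 2 - (k + 1) / 2) / 2) = 1 := by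
  apply Even.neg_one_pow
  obtain ⟨j, hj⟩ : ∃ j, k = 4 * j + k % 4 := ⟨k / 4, by omega⟩
  have h4 : k % 4 < 4 := Nat.mod_lt _ (by norm_num)
  interval_cases h : k % 4
  · have e : k * (k + 1) / 2 = 2 * j * (4 * j + 1) := by
      rw [hj]
      have : (4 * j + 0) * (4 * j + 0 + 1) = (2 * j * (4 * j + 1)) * 2 := by ring
      rw [this, Nat.mul_div_cancel _ (by norm_num)]
    have e2 : (k + 1) / 2 = 2 * j := by omega
    have e3 : 2 * j * (4 * j + 1) - 2 * j = 2 * (2 * (2 * (j * j))) := by
      have : 2 * j * (4 * j + 1) = 2 * (2 * (2 * (j * j))) + 2 * j := by ring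
      omega
    rw [e, e2, e3, Nat.mul_div_cancel_left _ (by norm_num)]
    exact even_two_mul _
  · have e : k * (k + 1) / 2 = (4 * j + 1) * (2 * j + 1) := by
      rw [hj]
      have : (4 * j + 1) * (4 * j + 1 + 1) = ((4 * j + 1) * (2 * j + 1)) * 2 := by ring
      rw [this, Nat.mul_div_cancel _ (by norm_num)]
    have e2 : (k + 1) / 2 = 2 * j + 1 := by omega
    have e3 : (4 * j + 1) * (2 * j + 1) - (2 * j + 1) = 2 * (2 * (j * (2 * j + 1))) := by
      have : (4 * j + 1) * (2 * j + 1) = 2 * (2 * (j * (2 * j + 1))) + (2 * j + 1) := by ring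
      omega
    rw [e, e2, e3, Nat.mul_div_cancel_left _ (by norm_num)]
    exact even_two_mul _
  · exact absurd rfl hk
  · have e : k * (k + 1) / 2 = (4 * j + 3) * (2 * j + 2) := by
      rw [hj]
      have : (4 * j + 3) * (4 * j + 3 + 1) = ((4 * j + 3) * (2 * j + 2)) * 2 := by ring
      rw [this, Nat.mul_div_cancel _ (by norm_num)]
    have e2 : (k + 1) / 2 = 2 * j + 2 := by omega
    have e3 : (4 * j + 3) * (2 * j + 2) - (2 * j + 2) = 2 * (2 * ((2 * j + 1) * (j + 1))) := by
      have : (4 * j + 3) * (2 * j + 2) = 2 * (2 * ((2 * j + 1) * (j + 1))) + (2 * j + 2) := by ring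
      omega
    rw [e, e2, e3, Nat.mul_div_cancel_left _ (by norm_num)]
    exact even_two_mul _

theorem eta_neg {k : ℕ} (hk : k % 4 = 2) :
    ((-1 : ℤ)) ^ ((k * (k + 1) / 2 - (k + 1) / 2) / 2) = -1 := by
  apply Odd.neg_one_pow
  obtain ⟨j, hj⟩ : ∃ j, k = 4 * j + 2 := ⟨k / 4, by omega⟩
  have e : k * (k + 1) / 2 = (2 * j + 1) * (4 * j + 3) := by
    rw [hj]
    have : (4 * j + 2) * (4 * j + 2 + 1) = ((2 * j + 1) * (4 * j + 3)) * 2 := by ring
    rw [this, Nat.mul_div_cancel _ (by norm_num)]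
  have e2 : (k + 1) / 2 = 2 * j + 1 := by omega
  have e3 : (2 * j + 1) * (4 * j + 3) - (2 * j + 1) = 2 * ((2 * j + 1) * (2 * j + 1)) := by
    have : (2 * j + 1) * (4 * j + 3) = 2 * ((2 * j + 1) * (2 * j + 1)) + (2 * j + 1) := by ring
    omega
  rw [e, e2, e3, Nat.mul_div_cancel_left _ (by norm_num)]
  exact Odd.mul ⟨j, rfl⟩ ⟨j, rfl⟩

theorem word_lt {R C : Fin n → ℕ} {mu : ℕ → ℕ} (hR : IsStd R C mu) (x : Fin n) :
    R x < n ∧ C x < n := by
  have hp := hR.toIsTab.isPart
  rw [Fintype.card_fin] at hp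
  refine ⟨sx31_row_lt hp hR.toIsTab x, (hR.lt x).trans_le ?_⟩
  exact sx04_mu_le mu n hp _

/-- shapes with two columns and at most three boxes in the second column -/
theorem special {R C : Fin n → ℕ} {k : ℕ} (hR : IsStd R C (rho k)) {τ : Equiv.Perm (Fin n)}
    (hτ1 : C = R ∘ τ) (hτ2 : R = C ∘ τ) (m b : ℕ) (hb : 1 ≤ b) (h2b : 2 * b ≤ n)
    (π : Equiv.Perm (Fin n)) (xs ps : Fin b → Fin n)
    (hinj : Function.Injective (Sum.elim xs ps))
    (huniq : ∀ h : Equiv.Perm (Fin n), h.cycleType = {m} → (∀ y, R y + C (π (h y)) < k) →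
      ∀ a0, h a0 ≠ a0 → (a0 = xs ⟨0, hb⟩ ∨ a0 = ps ⟨0, hb⟩) → a0 = xs ⟨0, hb⟩ ∧ h = π⁻¹)
    (hπ : (π⁻¹).cycleType = {m}) (hmove : ∀ i, (π⁻¹ : Equiv.Perm (Fin n)) (xs i) ≠ xs i)
    (hfix : ∀ i, i ≠ ⟨0, hb⟩ → (π⁻¹ : Equiv.Perm (Fin n)) (ps i) = ps i) :
    SS ((Equiv.Perm.sign τ : ℤ) * (-1) ^ (m + 1)) (rho k) (tc b n) := by
  obtain ⟨R3, C3, h3, hcell⟩ := exists_tab_at (isPart_tc h2b) (Sum.elim xs ps) hinj
    (Sum.elim (fun i => (i : ℕ)) (fun i => (i : ℕ))) (Sum.elim (fun _ => 1) (fun _ => 0))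
    (by
      rintro (i | i) (j | j) h
      · simp only [Sum.elim_inl, Prod.mk.injEq] at h
        rw [Fin.ext h.1]
      · simp at h
      · simp at h
      · simp only [Sum.elim_inr, Prod.mk.injEq] at h
        rw [Fin.ext h.1])
    (by
      rintro (i | i)
      · simp only [Sum.elim_inl]
        unfold tc
        rw [if_pos i.2]
        norm_num
      · simp only [Sum.elim_inr]
        unfold tc
        rw [if_pos i.2]
        norm_num)
  have cx : ∀ i, R3 (xs i) = i ∧ C3 (xs i) = 1 := fun i => hcell (Sum.inl i)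
  have cp : ∀ i, R3 (ps i) = i ∧ C3 (ps i) = 0 := fun i => hcell (Sum.inr i)
  have hC3 : ∀ y, C3 y ≤ 1 := by
    intro y
    have := h3.lt y
    unfold tc at this
    split_ifs at this <;> omega
  have hrow : ∀ y, C3 y = 1 → R3 y < b := by
    intro y hy
    have := h3.lt y
    unfold tc at this
    split_ifs at this <;> omega
  have hone : ∀ y, C3 y = 1 → ∃ i, y = xs i := by
    intro y hy
    refine ⟨⟨R3 y, hrow y hy⟩, ?_⟩
    exact h3.inj _ _ (cx ⟨R3 y, hrow y hy⟩).1.symm (by rw [hy, (cx _).2])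
  obtain ⟨v1, hv1⟩ := exists_vl (w := R) (fun x => (word_lt hR x).1)
  obtain ⟨v2, hv2⟩ := exists_vl (w := C ∘ π) (fun x => (word_lt hR (π x)).2)
  obtain ⟨v3, hv3⟩ := exists_vl (w := R3) (fun x => (word_lt h3 x).1)
  obtain ⟨c0, hc0⟩ := exists_vl (w := C3) (fun x => (word_lt h3 x).2)
  have hz := eval_K hR h3 m π (xs ⟨0, hb⟩) (ps ⟨0, hb⟩) huniq hπ hC3 (cx ⟨0, hb⟩) (by
      intro y hy
      have h1 : C3 y = 1 := by have := hC3 y; omega
      obtain ⟨i, rfl⟩ := hone y h1
      exact hmove i) (by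
      intro y hy
      have h1 := hC3 y
      rcases Nat.lt_or_ge (C3 y) 1 with h2 | h2
      · right
        exact h3.inj _ _ (by rw [hy, (cp _).1]) (by rw [(cp _).2]; omega)
      · left
        exact h3.inj _ _ (by rw [hy, (cx _).1]) (by rw [(cx _).2]; omega)) (by
      intro y y' hy hy0 hne hyy
      have h1 : C3 y' = 1 := by
        by_contra h2
        apply hne
        exact h3.inj _ _ hyy (by have := hC3 y'; omega)
      have h4 := hrow y' h1
      have h5 : y = ps ⟨R3 y, by rw [← hyy]; exact h4⟩ :=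
        h3.inj _ _ (cp ⟨R3 y, by rw [← hyy]; exact h4⟩).1.symm (by rw [hy0, (cp _).2])
      rw [h5]
      apply hfix
      intro h6
      have := congrArg Fin.val h6
      exact hy this) v1 v2 v3 c0 hv1 hv2 hv3 hc0
  refine SS_of_K hR.toIsTab hτ1 hτ2 h3.toIsTab (xm m) (fun g c h => xm_equiv m g c h)
    ((-1) ^ (m + 1)) (fun c h => xm_inv m c h) ⟨v1, v2, v3, ?_⟩
  rw [hz]
  norm_num

/-- the cells used -/
theorem cells_k {R C : Fin n → ℕ} {k : ℕ} (hR : IsStd R C (rho k)) (hk : 3 ≤ k) :
    ∃ x0 x1 x2 p q r : Fin n, (R x0 = 0 ∧ C x0 = k - 1) ∧ (R x1 = 1 ∧ C x1 = k - 2) ∧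
      (R x2 = 2 ∧ C x2 = k - 3) ∧ (R p = 1 ∧ C p = 0) ∧ (R q = 0 ∧ C q = 0) ∧
      (R r = 0 ∧ C r = 1) := by
  obtain ⟨x0, h0⟩ := std_surj R C (rho k) hR 0 (k - 1) (by unfold rho; omega)
  obtain ⟨x1, h1⟩ := std_surj R C (rho k) hR 1 (k - 2) (by unfold rho; omega)
  obtain ⟨x2, h2⟩ := std_surj R C (rho k) hR 2 (k - 3) (by unfold rho; omega)
  obtain ⟨p, hp⟩ := std_surj R C (rho k) hR 1 0 (by unfold rho; omega)
  obtain ⟨q, hq⟩ := std_surj R C (rho k) hR 0 0 (by unfold rho; omega)
  obtain ⟨r, hr⟩ := std_surj R C (rho k) hR 0 1 (by unfold rho; omega)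
  exact ⟨x0, x1, x2, p, q, r, h0, h1, h2, hp, hq, hr⟩

theorem special3 (k b : ℕ) (hk : 3 ≤ k) (hk4 : k % 4 ≠ 2) (hb : 1 ≤ b) (hb3 : b ≤ 3) :
    SS 1 (rho k) (tc b (k * (k + 1) / 2)) := by
  obtain ⟨n, hn⟩ : ∃ n, n = k * (k + 1) / 2 := ⟨_, rfl⟩
  obtain ⟨R, C, τ, hR, hτ1, hτ2⟩ := exists_ref k n hn
  obtain ⟨x0, x1, x2, p, q, r, ⟨r0, c0⟩, ⟨r1, c1⟩, ⟨r2, c2⟩, ⟨rp, cp⟩, ⟨rq, cq⟩, ⟨rr, cr⟩⟩ :=
    cells_k hR hk
  have hn6 : 6 ≤ n := by
    rw [hn]
    have : 3 * 4 ≤ k * (k + 1) := Nat.mul_le_mul hk (by omega)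
    omega
  have d01 : x0 ≠ x1 := by intro e; rw [e] at r0; omega
  have d02 : x0 ≠ x2 := by intro e; rw [e] at r0; omega
  have d12 : x1 ≠ x2 := by intro e; rw [e] at r1; omega
  have d0p : x0 ≠ p := by intro e; rw [e] at r0; omega
  have d0q : x0 ≠ q := by intro e; rw [e] at c0; omega
  have d0r : x0 ≠ r := by intro e; rw [e] at c0; omega
  have d1p : x1 ≠ p := by intro e; rw [e] at c1; omega
  have d1q : x1 ≠ q := by intro e; rw [e] at r1; omega
  have d1r : x1 ≠ r := by intro e; rw [e] at r1; omega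
  have d2p : x2 ≠ p := by intro e; rw [e] at r2; omega
  have d2q : x2 ≠ q := by intro e; rw [e] at r2; omega
  have d2r : x2 ≠ r := by intro e; rw [e] at r2; omega
  have dpq : p ≠ q := by intro e; rw [e] at rp; omega
  have dpr : p ≠ r := by intro e; rw [e] at rp; omega
  have dqr : q ≠ r := by intro e; rw [e] at cq; omega
  have hct : ((Equiv.swap x0 x1 * Equiv.swap x0 x2 : Equiv.Perm (Fin n))⁻¹).cycleType = {3} := by
    rw [Equiv.Perm.cycleType_inv]
    exact Equiv.Perm.isThreeCycle_swap_mul_swap_same d01 d02 d12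
  have π0 : (Equiv.swap x0 x1 * Equiv.swap x0 x2 : Equiv.Perm (Fin n)) x0 = x2 := by
    rw [Equiv.Perm.mul_apply, Equiv.swap_apply_left, Equiv.swap_apply_of_ne_of_ne d02.symm
      d12.symm]
  have π1 : (Equiv.swap x0 x1 * Equiv.swap x0 x2 : Equiv.Perm (Fin n)) x1 = x0 := by
    rw [Equiv.Perm.mul_apply, Equiv.swap_apply_of_ne_of_ne d01.symm d12,
      Equiv.swap_apply_right]
  have π2 : (Equiv.swap x0 x1 * Equiv.swap x0 x2 : Equiv.Perm (Fin n)) x2 = x1 := by
    rw [Equiv.Perm.mul_apply, Equiv.swap_apply_right, Equiv.swap_apply_left]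
  have πo : ∀ y, y ≠ x0 → y ≠ x1 → y ≠ x2 →
      (Equiv.swap x0 x1 * Equiv.swap x0 x2 : Equiv.Perm (Fin n)) y = y := by
    intro y h0 h1 h2
    rw [Equiv.Perm.mul_apply, Equiv.swap_apply_of_ne_of_ne h0 h2,
      Equiv.swap_apply_of_ne_of_ne h0 h1]
  set π : Equiv.Perm (Fin n) := Equiv.swap x0 x1 * Equiv.swap x0 x2 with hπ
  have mv : ∀ y, π y ≠ y → (π⁻¹ : Equiv.Perm (Fin n)) y ≠ y := by
    intro y hy e
    rw [Equiv.Perm.inv_eq_iff_eq] at e
    exact hy e.symm
  have fx : ∀ y, π y = y → (π⁻¹ : Equiv.Perm (Fin n)) y = y := by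
    intro y hy
    rw [Equiv.Perm.inv_eq_iff_eq]
    exact hy.symm
  set xs3 : Fin 3 → Fin n := ![x0, x1, x2] with hxs3
  set ps3 : Fin 3 → Fin n := ![p, q, r] with hps3
  have hinj3 : Function.Injective (Sum.elim xs3 ps3) := by
    rintro (i | i) (j | j) h <;> fin_cases i <;> fin_cases j <;>
      simp [hxs3, hps3] at h ⊢ <;>
      first
        | exact absurd h d01 | exact absurd h.symm d01 | exact absurd h d02
        | exact absurd h.symm d02 | exact absurd h d12 | exact absurd h.symm d12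
        | exact absurd h d0p | exact absurd h.symm d0p | exact absurd h d0q
        | exact absurd h.symm d0q | exact absurd h d0r | exact absurd h.symm d0r
        | exact absurd h d1p | exact absurd h.symm d1p | exact absurd h d1q
        | exact absurd h.symm d1q | exact absurd h d1r | exact absurd h.symm d1r
        | exact absurd h d2p | exact absurd h.symm d2p | exact absurd h d2q
        | exact absurd h.symm d2q | exact absurd h d2r | exact absurd h.symm d2r
        | exact absurd h dpq | exact absurd h.symm dpq | exact absurd h dpr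
        | exact absurd h.symm dpr | exact absurd h dqr | exact absurd h.symm dqr
  have h := special hR hτ1 hτ2 3 b hb (by omega) π (xs3 ∘ Fin.castLE hb3) (ps3 ∘ Fin.castLE hb3)
    (by
      have e : Sum.elim (xs3 ∘ Fin.castLE hb3) (ps3 ∘ Fin.castLE hb3) =
          Sum.elim xs3 ps3 ∘ Sum.map (Fin.castLE hb3) (Fin.castLE hb3) := by
        funext s
        rcases s with s | s <;> rfl
      rw [e]
      exact hinj3.comp (Function.Injective.sumMap (Fin.castLE_injective hb3)
        (Fin.castLE_injective hb3)))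
    (by
      intro h h1 h2 a0 h3 h4
      have e0 : (xs3 ∘ Fin.castLE hb3) ⟨0, hb⟩ = x0 := rfl
      have e1 : (ps3 ∘ Fin.castLE hb3) ⟨0, hb⟩ = p := rfl
      rw [e0, e1] at h4
      rw [e0]
      refine uniq3 hk r0 c0 r1 c1 r2 h h1 h2 a0 h3 ?_
      rcases h4 with h4 | h4
      · left; exact h4
      · right
        rw [h4]
        exact ⟨rp, d1p.symm⟩)
    hct
    (by
      intro i
      apply mv
      simp only [Function.comp_apply]
      generalize Fin.castLE hb3 i = j
      fin_cases j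
      · simp only [hxs3]
        show π x0 ≠ x0
        rw [π0]; exact d02.symm
      · simp only [hxs3]
        show π x1 ≠ x1
        rw [π1]; exact d01
      · simp only [hxs3]
        show π x2 ≠ x2
        rw [π2]; exact d12)
    (by
      intro i hi
      apply fx
      simp only [Function.comp_apply]
      have hj : Fin.castLE hb3 i ≠ 0 := by
        intro e
        apply hi
        apply Fin.ext
        have := congrArg Fin.val e
        simpa using this
      revert hj
      generalize Fin.castLE hb3 i = j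
      intro hj
      fin_cases j
      · exact absurd rfl hj
      · show π q = q
        exact πo q d0q.symm d1q.symm d2q.symm
      · show π r = r
        exact πo r d0r.symm d1r.symm d2r.symm)
  have hs := sign_tau hR hτ1 hτ2
  rw [eta_pos hk4] at hs
  rw [hs] at h
  rw [← hn]
  simpa using h

theorem special2 (k b : ℕ) (hk : 3 ≤ k) (hk4 : k % 4 = 2) (hb : 1 ≤ b) (hb2 : b ≤ 2) :
    SS 1 (rho k) (tc b (k * (k + 1) / 2)) := by
  obtain ⟨n, hn⟩ : ∃ n, n = k * (k + 1) / 2 := ⟨_, rfl⟩
  obtain ⟨R, C, τ, hR, hτ1, hτ2⟩ := exists_ref k n hn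
  obtain ⟨x0, x1, x2, p, q, r, ⟨r0, c0⟩, ⟨r1, c1⟩, ⟨r2, c2⟩, ⟨rp, cp⟩, ⟨rq, cq⟩, ⟨rr, cr⟩⟩ :=
    cells_k hR hk
  have hn6 : 6 ≤ n := by
    rw [hn]
    have : 3 * 4 ≤ k * (k + 1) := Nat.mul_le_mul hk (by omega)
    omega
  have d01 : x0 ≠ x1 := by intro e; rw [e] at r0; omega
  have d0p : x0 ≠ p := by intro e; rw [e] at r0; omega
  have d0q : x0 ≠ q := by intro e; rw [e] at c0; omega
  have d1p : x1 ≠ p := by intro e; rw [e] at c1; omega
  have d1q : x1 ≠ q := by intro e; rw [e] at r1; omega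
  have dpq : p ≠ q := by intro e; rw [e] at rp; omega
  have hct : ((Equiv.swap x0 x1 : Equiv.Perm (Fin n))⁻¹).cycleType = {2} := by
    rw [Equiv.Perm.cycleType_inv]
    exact (Equiv.Perm.isCycle_swap d01).cycleType.trans (by
      rw [Equiv.Perm.card_support_swap d01])
  have πo : ∀ y, y ≠ x0 → y ≠ x1 → (Equiv.swap x0 x1 : Equiv.Perm (Fin n)) y = y :=
    fun y h0 h1 => Equiv.swap_apply_of_ne_of_ne h0 h1
  set xs3 : Fin 2 → Fin n := ![x0, x1] with hxs3
  set ps3 : Fin 2 → Fin n := ![p, q] with hps3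
  have hinj3 : Function.Injective (Sum.elim xs3 ps3) := by
    rintro (i | i) (j | j) h <;> fin_cases i <;> fin_cases j <;>
      simp [hxs3, hps3] at h ⊢ <;>
      first
        | exact absurd h d01 | exact absurd h.symm d01
        | exact absurd h d0p | exact absurd h.symm d0p | exact absurd h d0q
        | exact absurd h.symm d0q
        | exact absurd h d1p | exact absurd h.symm d1p | exact absurd h d1q
        | exact absurd h.symm d1q
        | exact absurd h dpq | exact absurd h.symm dpq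
  have h := special hR hτ1 hτ2 2 b hb (by omega) (Equiv.swap x0 x1) (xs3 ∘ Fin.castLE hb2)
    (ps3 ∘ Fin.castLE hb2)
    (by
      have e : Sum.elim (xs3 ∘ Fin.castLE hb2) (ps3 ∘ Fin.castLE hb2) =
          Sum.elim xs3 ps3 ∘ Sum.map (Fin.castLE hb2) (Fin.castLE hb2) := by
        funext s
        rcases s with s | s <;> rfl
      rw [e]
      exact hinj3.comp (Function.Injective.sumMap (Fin.castLE_injective hb2)
        (Fin.castLE_injective hb2)))
    (by
      intro h h1 h2 a0 h3 h4
      have e0 : (xs3 ∘ Fin.castLE hb2) ⟨0, hb⟩ = x0 := rfl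
      have e1 : (ps3 ∘ Fin.castLE hb2) ⟨0, hb⟩ = p := rfl
      rw [e0, e1] at h4
      rw [e0]
      refine uniq2 hk r0 c0 r1 h h1 h2 a0 h3 ?_
      rcases h4 with h4 | h4
      · left; exact h4
      · right
        rw [h4]
        exact ⟨rp, d1p.symm⟩)
    hct
    (by
      intro i
      rw [Equiv.swap_inv]
      simp only [Function.comp_apply]
      generalize Fin.castLE hb2 i = j
      fin_cases j
      · show Equiv.swap x0 x1 x0 ≠ x0
        rw [Equiv.swap_apply_left]; exact d01.symm
      · show Equiv.swap x0 x1 x1 ≠ x1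
        rw [Equiv.swap_apply_right]; exact d01)
    (by
      intro i hi
      rw [Equiv.swap_inv]
      simp only [Function.comp_apply]
      have hj : Fin.castLE hb2 i ≠ 0 := by
        intro e
        apply hi
        apply Fin.ext
        have := congrArg Fin.val e
        simpa using this
      revert hj
      generalize Fin.castLE hb2 i = j
      intro hj
      fin_cases j
      · exact absurd rfl hj
      · show Equiv.swap x0 x1 q = q
        exact πo q d0q.symm d1q.symm)
  have hs := sign_tau hR hτ1 hτ2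
  rw [eta_neg hk4] at hs
  rw [hs] at h
  rw [← hn]
  simpa using h

/-- the sign character -/
theorem special0 (k : ℕ) (hk : 1 ≤ k) (hk4 : k % 4 ≠ 2) :
    SS 1 (rho k) (tc 0 (k * (k + 1) / 2)) := by
  obtain ⟨n, hn⟩ : ∃ n, n = k * (k + 1) / 2 := ⟨_, rfl⟩
  obtain ⟨R, C, τ, hR, hτ1, hτ2⟩ := exists_ref k n hn
  obtain ⟨R3, C3, h3⟩ := exists_tab (tc 0 n) n (isPart_tc (by omega))
  obtain ⟨v1, hv1⟩ := exists_vl (w := R) (fun x => (word_lt hR x).1)
  obtain ⟨v2, hv2⟩ := exists_vl (w := C) (fun x => (word_lt hR x).2)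
  obtain ⟨v3, hv3⟩ := exists_vl (w := R3) (fun x => (word_lt h3 x).1)
  obtain ⟨c0, hc0⟩ := exists_vl (w := C3) (fun x => (word_lt h3 x).2)
  have hC3 : ∀ y, C3 y = 0 := by
    intro y
    have := h3.lt y
    unfold tc at this
    split_ifs at this <;> omega
  have h := SS_of_K hR.toIsTab hτ1 hτ2 h3.toIsTab (fun _ h => if h = 1 then 1 else 0)
    (by
      intro g c h
      have : (g⁻¹ * h * g = 1) ↔ h = 1 := by
        constructor
        · intro e
          have : h = g * (g⁻¹ * h * g) * g⁻¹ := by group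
          rw [this, e]
          group
        · intro e
          rw [e]
          group
      simp only [this]) 1
    (by
      intro c h
      simp only [inv_eq_one]
      split_ifs with e
      · rw [e]; simp
      · simp) ⟨v1, v2, v3, by
        unfold zK
        rw [Finset.sum_eq_single c0, Finset.sum_eq_single 1]
        · rw [hv1, hv2, hv3, hc0]
          have e2 : sg R C R C = 1 := by
            have := sg_of R C hR.inj 1
            simpa using this
          have e3 : sg R3 C3 R3 C3 = 1 := by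
            have := sg_of R3 C3 h3.inj 1
            simpa using this
          simp only [Equiv.Perm.coe_one, Function.comp_id, if_true]
          rw [e2, e3]
          norm_num
        · intro h _ hne
          simp only [if_neg hne]
          ring
        · intro h
          exact absurd (Finset.mem_univ _) h
        · intro c _ hne
          refine Finset.sum_eq_zero fun h _ => ?_
          by_contra hne'
          have g3 := right_ne_zero_of_mul hne'
          obtain ⟨σ, _, hσ2⟩ := sg_ne g3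
          apply hne
          funext y
          apply Fin.ext
          have e1 := congrFun hσ2 y
          have e2 := congrFun hc0 y
          simp only [Function.comp_apply, hC3] at e1 e2
          exact e1.trans e2.symm
        · intro h
          exact absurd (Finset.mem_univ _) h⟩
  have hs := sign_tau hR hτ1 hτ2
  rw [eta_pos hk4] at hs
  rw [hs] at h
  rw [← hn]
  simpa using h

end twocol

end Pool.Agent.H374
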