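import Mathlib
import Pool.Graph.R_pool_sql_team_seeded_620a6dc7.Helper139_Saxl.Defs
import Pool.Agent.H374.A04

set_option autoImplicit false

/-! A recursion which evaluates the twisted sums. -/

namespace Pool.Agent.H374

open Finset Pool.Saxl

/-- removal of an entry of a list: the head takes its place -/
def rmL {α : Type} : List α → ℕ → List α
  | [], _ => []
  | _ :: t, 0 => t
  | a :: t, p + 1 => t.set p a

/-- sum over the entries of a list -/
def sumL {α : Type} (F : ℕ → α → ℤ) : List α → ℕ → ℤ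
  | [], _ => 0
  | x :: t, q => F q x + sumL F t (q + 1)

/-- the sign of a removal -/
def sgq : ℕ → ℤ
  | 0 => 1
  | _ + 1 => -1

/-- sum over the entries equal to `(r, c)` -/
def look (r c : ℕ) (L : List (ℕ × ℕ)) (k : List (ℕ × ℕ) → ℤ) : ℤ :=
  sumL (fun q x => bif (Nat.beq x.1 r && Nat.beq x.2 c) then sgq q * k (rmL L q) else 0) L 0

/-- the recursion -/
def TL (t : Bool) : List (ℕ × ℕ × ℕ) → List (ℕ × ℕ × ℕ) → List (ℕ × ℕ) → List (ℕ × ℕ) →
    List (ℕ × ℕ) → ℤ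
  | [], _, _, _, _ => 1
  | d :: ds, W, L1, L2, L3 =>
    sumL (fun p a => (bif t then sgq p else 1) * look a.1 d.1 L1 fun L1' =>
      look a.2.1 d.2.1 L2 fun L2' => look a.2.2 d.2.2 L3 fun L3' =>
        TL t ds (rmL W p) L1' L2' L3') W 0

/-- removal of an entry -/
def rmF {n : ℕ} {α : Type} (f : Fin (n + 1) → α) (p : Fin (n + 1)) : Fin n → α :=
  fun x => f (Equiv.swap 0 p x.succ)

theorem ofFn_rmF {n : ℕ} {α : Type} (f : Fin (n + 1) → α) (p : Fin (n + 1)) :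
    rmL (List.ofFn f) p.1 = List.ofFn (rmF f p) := by
  rw [List.ofFn_succ]
  refine Fin.cases ?_ (fun q => ?_) p
  · show rmL (f 0 :: List.ofFn fun i : Fin n => f i.succ) 0 = _
    unfold rmL
    congr 1
  · show rmL (f 0 :: List.ofFn fun i : Fin n => f i.succ) (q.1 + 1) = _
    show (List.ofFn fun i : Fin n => f i.succ).set q.1 (f 0) = _
    apply List.ext_getElem
    · simp
    · intro i h1 h2
      rw [List.getElem_set, List.getElem_ofFn, List.getElem_ofFn]
      unfold rmF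
      by_cases h : q.1 = i
      · rw [if_pos h]
        have e : (⟨i, by simpa using h2⟩ : Fin n).succ = q.succ := by
          rw [Fin.succ_inj]
          exact Fin.ext h.symm
        rw [e, Equiv.swap_apply_right]
      · rw [if_neg h, Equiv.swap_apply_of_ne_of_ne (Fin.succ_ne_zero _)]
        intro h3
        rw [Fin.succ_inj] at h3
        exact h (congrArg Fin.val h3).symm

theorem sumL_ofFn {α : Type} (F : ℕ → α → ℤ) (n : ℕ) (f : Fin n → α) (q : ℕ) :
    sumL F (List.ofFn f) q = ∑ p : Fin n, F (q + p.1) (f p) := by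
  induction n generalizing q with
  | zero => simp [sumL]
  | succ n ih =>
    rw [List.ofFn_succ, Fin.sum_univ_succ]
    show F q (f 0) + sumL F (List.ofFn fun i => f i.succ) (q + 1) = _
    rw [ih]
    congr 1
    refine Finset.sum_congr rfl fun p _ => ?_
    rw [Fin.val_succ]
    congr 1
    omega

/-- the coefficient of a removal -/
def cof {n : ℕ} (r c : ℕ) (R C : Fin (n + 1) → ℕ) (q : Fin (n + 1)) : ℤ :=
  if r = R q ∧ c = C q then sgq q.1 else 0

theorem look_ofFn {n : ℕ} (r c : ℕ) (R C : Fin (n + 1) → ℕ) (k : List (ℕ × ℕ) → ℤ) :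
    look r c (List.ofFn fun x => (R x, C x)) k =
      ∑ q : Fin (n + 1), cof r c R C q * k (List.ofFn fun x => (rmF R q x, rmF C q x)) := by
  unfold look
  rw [sumL_ofFn]
  refine Finset.sum_congr rfl fun q _ => ?_
  rw [Nat.zero_add, ofFn_rmF]
  unfold cof
  by_cases h : r = R q ∧ c = C q
  · rw [if_pos h]
    have h1 : (Nat.beq (R q) r && Nat.beq (C q) c) = true := by
      rw [Bool.and_eq_true]
      rw [← h.1, ← h.2]
      exact ⟨Nat.beq_refl _, Nat.beq_refl _⟩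
    rw [h1]
    rfl
  · rw [if_neg h]
    have h1 : (Nat.beq (R q) r && Nat.beq (C q) c) = false := by
      rw [Bool.eq_false_iff]
      intro h2
      rw [Bool.and_eq_true] at h2
      exact h ⟨(Nat.eq_of_beq_eq_true h2.1).symm, (Nat.eq_of_beq_eq_true h2.2).symm⟩
    rw [h1]
    simp

theorem decomp_comp {n : ℕ} (w : Fin (n + 1) → ℕ) (p : Fin (n + 1)) (e : Equiv.Perm (Fin n)) :
    (w ∘ (Equiv.Perm.decomposeFin.symm (p, e) : Equiv.Perm (Fin (n + 1)))) =
      Fin.cons (w p) (rmF w p ∘ e) := by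
  funext x
  refine Fin.cases ?_ (fun x => ?_) x
  · simp
  · simp [rmF]

theorem decomp_sign {n : ℕ} (p : Fin (n + 1)) (e : Equiv.Perm (Fin n)) :
    ((Equiv.Perm.sign (Equiv.Perm.decomposeFin.symm (p, e)) : ℤˣ) : ℤ) =
      sgq p.1 * (Equiv.Perm.sign e : ℤ) := by
  rw [Equiv.Perm.decomposeFin.symm_sign]
  refine Fin.cases ?_ (fun q => ?_) p
  · simp [sgq]
  · rw [if_neg (Fin.succ_ne_zero q)]
    rw [Fin.val_succ]
    show ((-1 * Equiv.Perm.sign e : ℤˣ) : ℤ) = -1 * (Equiv.Perm.sign e : ℤ)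
    push_cast
    rfl

theorem sg_rec {n : ℕ} (R C : Fin (n + 1) → ℕ) (w0 c0 : ℕ) (w c : Fin n → ℕ) :
    sg R C (Fin.cons w0 w) (Fin.cons c0 c) =
      ∑ q : Fin (n + 1), cof w0 c0 R C q * sg (rmF R q) (rmF C q) w c := by
  unfold sg
  rw [← Equiv.sum_comp Equiv.Perm.decomposeFin.symm, Fintype.sum_prod_type]
  refine Finset.sum_congr rfl fun q _ => ?_
  rw [Finset.mul_sum]
  refine Finset.sum_congr rfl fun e _ => ?_
  rw [decomp_comp, decomp_comp, decomp_sign]
  have h1 : ((Fin.cons w0 w : Fin (n + 1) → ℕ) = Fin.cons (R q) (rmF R q ∘ e)) ↔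
      w0 = R q ∧ w = rmF R q ∘ e := Fin.cons_inj
  have h2 : ((Fin.cons c0 c : Fin (n + 1) → ℕ) = Fin.cons (C q) (rmF C q ∘ e)) ↔
      c0 = C q ∧ c = rmF C q ∘ e := Fin.cons_inj
  unfold cof
  by_cases h : w0 = R q ∧ c0 = C q
  · rw [if_pos h]
    by_cases h' : w = rmF R q ∘ e ∧ c = rmF C q ∘ e
    · rw [if_pos h', if_pos ⟨h1.2 ⟨h.1, h'.1⟩, h2.2 ⟨h.2, h'.2⟩⟩]
    · rw [if_neg h', if_neg (fun h3 => h' ⟨(h1.1 h3.1).2, (h2.1 h3.2).2⟩), mul_zero]
  · rw [if_neg h, if_neg (fun h3 => h ⟨(h1.1 h3.1).1, (h2.1 h3.2).1⟩), zero_mul]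

/-- the sum computed by the recursion -/
def SG (t : Bool) {n : ℕ} (d1 d2 d3 w1 w2 w3 R1 C1 R2 C2 R3 C3 : Fin n → ℕ) : ℤ :=
  ∑ g : Equiv.Perm (Fin n), ch t g *
    (sg R1 C1 (w1 ∘ g) d1 * (sg R2 C2 (w2 ∘ g) d2 * sg R3 C3 (w3 ∘ g) d3))

theorem three_sums {E Q : Type} [Fintype E] [Fintype Q] (a : E → ℤ) (x y z : Q → ℤ)
    (f g h : Q → E → ℤ) :
    ∑ e, a e * ((∑ q, x q * f q e) * ((∑ q, y q * g q e) * ∑ q, z q * h q e)) =
      ∑ q1, x q1 * ∑ q2, y q2 * ∑ q3, z q3 * ∑ e, a e * (f q1 e * (g q2 e * h q3 e)) := by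
  have h1 : ∀ e, a e * ((∑ q, x q * f q e) * ((∑ q, y q * g q e) * ∑ q, z q * h q e)) =
      ∑ q1, ∑ q2, ∑ q3, x q1 * (y q2 * (z q3 * (a e * (f q1 e * (g q2 e * h q3 e))))) := by
    intro e
    rw [Finset.sum_mul_sum, Finset.sum_mul_sum, Finset.mul_sum]
    refine Finset.sum_congr rfl fun q1 _ => ?_
    rw [Finset.mul_sum]
    refine Finset.sum_congr rfl fun q2 _ => ?_
    rw [Finset.mul_sum, Finset.mul_sum]
    refine Finset.sum_congr rfl fun q3 _ => ?_
    ring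
  simp only [h1]
  rw [Finset.sum_comm]
  refine Finset.sum_congr rfl fun q1 _ => ?_
  rw [Finset.mul_sum, Finset.sum_comm]
  refine Finset.sum_congr rfl fun q2 _ => ?_
  rw [Finset.mul_sum, Finset.mul_sum, Finset.sum_comm]
  refine Finset.sum_congr rfl fun q3 _ => ?_
  rw [Finset.mul_sum, Finset.mul_sum, Finset.mul_sum]

theorem cons_eta {n : ℕ} (d : Fin (n + 1) → ℕ) : d = Fin.cons (d 0) (fun x => d x.succ) := by
  funext x
  refine Fin.cases ?_ (fun x => ?_) x <;> simp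

theorem SG_eq (t : Bool) (n : ℕ) : ∀ d1 d2 d3 w1 w2 w3 R1 C1 R2 C2 R3 C3 : Fin n → ℕ,
    SG t d1 d2 d3 w1 w2 w3 R1 C1 R2 C2 R3 C3 =
      TL t (List.ofFn fun x => (d1 x, d2 x, d3 x)) (List.ofFn fun x => (w1 x, w2 x, w3 x))
        (List.ofFn fun x => (R1 x, C1 x)) (List.ofFn fun x => (R2 x, C2 x))
        (List.ofFn fun x => (R3 x, C3 x)) := by
  induction n with
  | zero =>
    intro d1 d2 d3 w1 w2 w3 R1 C1 R2 C2 R3 C3
    have h : ∀ R C w c : Fin 0 → ℕ, sg R C w c = 1 := by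
      intro R C w c
      unfold sg
      rw [Fintype.sum_unique, if_pos ⟨funext fun x => x.elim0, funext fun x => x.elim0⟩]
      rw [Subsingleton.elim (default : Equiv.Perm (Fin 0)) 1, Equiv.Perm.sign_one]
      rfl
    unfold SG
    rw [Fintype.sum_unique, h, h, h, Subsingleton.elim (default : Equiv.Perm (Fin 0)) 1]
    rw [List.ofFn_zero]
    unfold TL ch
    simp
  | succ n ih =>
    intro d1 d2 d3 w1 w2 w3 R1 C1 R2 C2 R3 C3
    have hW := List.ofFn_succ (f := fun x : Fin (n + 1) => (d1 x, d2 x, d3 x))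
    rw [hW]
    unfold TL
    rw [sumL_ofFn]
    unfold SG
    rw [← Equiv.sum_comp Equiv.Perm.decomposeFin.symm, Fintype.sum_prod_type]
    refine Finset.sum_congr rfl fun p _ => ?_
    rw [Nat.zero_add]
    simp only [look_ofFn]
    have hrm : rmL (List.ofFn fun x : Fin (n + 1) => (w1 x, w2 x, w3 x)) p.1 =
        List.ofFn fun x => (rmF w1 p x, rmF w2 p x, rmF w3 p x) := by
      rw [ofFn_rmF]
      rfl
    rw [hrm]
    have key : ∀ q1 q2 q3 : Fin (n + 1),
        TL t (List.ofFn fun i : Fin n => (d1 i.succ, d2 i.succ, d3 i.succ))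
          (List.ofFn fun x => (rmF w1 p x, rmF w2 p x, rmF w3 p x))
          (List.ofFn fun x => (rmF R1 q1 x, rmF C1 q1 x))
          (List.ofFn fun x => (rmF R2 q2 x, rmF C2 q2 x))
          (List.ofFn fun x => (rmF R3 q3 x, rmF C3 q3 x)) =
        SG t (fun i => d1 i.succ) (fun i => d2 i.succ) (fun i => d3 i.succ) (rmF w1 p) (rmF w2 p)
          (rmF w3 p) (rmF R1 q1) (rmF C1 q1) (rmF R2 q2) (rmF C2 q2) (rmF R3 q3) (rmF C3 q3) := by
      intro q1 q2 q3
      rw [ih]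
    simp only [key]
    unfold SG
    rw [← three_sums, Finset.mul_sum]
    refine Finset.sum_congr rfl fun e _ => ?_
    rw [decomp_comp, decomp_comp, decomp_comp]
    conv_lhs => rw [cons_eta d1, cons_eta d2, cons_eta d3]
    rw [sg_rec, sg_rec, sg_rec]
    have hch : ch t (Equiv.Perm.decomposeFin.symm (p, e)) =
        (bif t then sgq p.1 else 1) * ch t e := by
      unfold ch
      cases t
      · simp
      · simp only [if_true, cond_true]
        exact decomp_sign p e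
    rw [hch]
    ring

theorem trs_TL (t : Bool) {n : ℕ} (r1 c1 r2 c2 r3 c3 w1 w2 w3 : Fin n → ℕ) :
    trs t r1 c1 r2 c2 r3 c3 w1 w2 w3 =
      TL t (List.ofFn fun x => (c1 x, c2 x, c3 x)) (List.ofFn fun x => (w1 x, w2 x, w3 x))
        (List.ofFn fun x => (r1 x, c1 x)) (List.ofFn fun x => (r2 x, c2 x))
        (List.ofFn fun x => (r3 x, c3 x)) := by
  rw [← SG_eq]
  unfold trs SG
  refine Finset.sum_congr rfl fun g _ => ?_
  rw [pt_sg_one, pt_sg_one, pt_sg_one]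
  ring

/-- the value of a twisted sum, by the recursion -/
def TT (t : Bool) (e : ℤ) {n : ℕ} (r1 c1 r2 c2 r3 c3 w1 w2 w3 : Fin n → ℕ) : ℤ :=
  TL t (List.ofFn fun x => (c1 x, c2 x, c3 x)) (List.ofFn fun x => (w1 x, w2 x, w3 x))
        (List.ofFn fun x => (r1 x, c1 x)) (List.ofFn fun x => (r2 x, c2 x))
        (List.ofFn fun x => (r3 x, c3 x)) +
  e * TL t (List.ofFn fun x => (c1 x, c2 x, c3 x)) (List.ofFn fun x => (w2 x, w1 x, w3 x))
        (List.ofFn fun x => (r1 x, c1 x)) (List.ofFn fun x => (r2 x, c2 x))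
        (List.ofFn fun x => (r3 x, c3 x))

theorem tw_TT (t : Bool) (e : ℤ) {n : ℕ} (r1 c1 r2 c2 r3 c3 w1 w2 w3 : Fin n → ℕ) :
    tw t e r1 c1 r2 c2 r3 c3 w1 w2 w3 = TT t e r1 c1 r2 c2 r3 c3 w1 w2 w3 := by
  unfold tw TT
  rw [trs_TL, trs_TL]

end Pool.Agent.H374
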