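import Mathlib
import Pool.Graph.R_pool_sql_team_seeded_620a6dc7.Helper139_Saxl.Defs
import Pool.Graph.R_pool_sql_team_seeded_620a6dc7.Helper139_Saxl.Conf
import Pool.Graph.R_pool_sql_team_seeded_620a6dc7.Helper139_Saxl.Fam
import Pool.Graph.R_pool_sql_team_seeded_620a6dc7.Helper139_Saxl.J13
import Pool.Graph.R_pool_sql_team_seeded_620a6dc7.Helper139_Saxl.J16
import Pool.Graph.R_pool_sql_team_seeded_620a6dc7.Helper139_Saxl.J18
import Pool.Graph.R_pool_sql_team_seeded_620a6dc7.Helper139_Saxl.J19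
import Pool.Graph.R_pool_sql_team_seeded_620a6dc7.Helper139_Saxl.J23
import Pool.Agent.H374.A02
import Pool.Agent.H374.A09
import Pool.Agent.H374.A11

set_option autoImplicit false

/-! Configurations of bands, with signs. -/

namespace Pool.Agent.H374

open Finset Pool.Saxl

theorem trs_false {Ω : Type} [Fintype Ω] [DecidableEq Ω] (r1 c1 r2 c2 r3 c3 w1 w2 w3 : Ω → ℕ) :
    trs false r1 c1 r2 c2 r3 c3 w1 w2 w3 = tri r1 c1 r2 c2 r3 c3 w1 w2 w3 := by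
  unfold trs tri ch
  simp

theorem tri_factor {A B : Type} [Fintype A] [DecidableEq A] [Fintype B] [DecidableEq B]
    (r1A c1A r2A c2A r3A c3A : A → ℕ) (r1B c1B r2B c2B r3B c3B : B → ℕ) (κ : ℕ)
    (hr1 : ∀ x, r1A x < 2) (hr2 : ∀ x, r2A x < 2)
    (hA : ∀ x, κ ≤ c1A x + c2A x) (hB : ∀ y, c1B y + c2B y < κ)
    (hAB : ∀ x y, c3A x = c3B y → r3B y < r3A x)
    (a1 a2 a3 : A → ℕ) (b1 b2 b3 : B → ℕ) (ha1 : ∀ x, a1 x < 2) (ha2 : ∀ x, a2 x < 2)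
    (hb3 : ∑ y, b3 y ≤ ∑ y, r3B y) :
    tri (Sum.elim r1A (fun y => r1B y + 2)) (Sum.elim c1A c1B)
        (Sum.elim r2A (fun y => r2B y + 2)) (Sum.elim c2A c2B)
        (Sum.elim r3A r3B) (Sum.elim c3A c3B) (Sum.elim a1 (fun y => b1 y + 2))
        (Sum.elim a2 (fun y => b2 y + 2)) (Sum.elim a3 b3) =
      tri r1A c1A r2A c2A r3A c3A a1 a2 a3 * tri r1B c1B r2B c2B r3B c3B b1 b2 b3 := by
  unfold tri
  rw [sum_perm_sum, Finset.sum_mul_sum]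
  · refine Finset.sum_congr rfl fun gA _ => Finset.sum_congr rfl fun gB _ => ?_
    rw [sx13_split _ _ _ _ _ _ ha1, sx13_split _ _ _ _ _ _ ha2]
    have e : (Sum.elim a3 b3 ∘ (Equiv.sumCongr gA gB)) = Sum.elim (a3 ∘ gA) (b3 ∘ gB) := by
      funext x
      rcases x with x | x <;> simp
    rw [e, pt_factor _ _ _ _ _ _ hAB]
    · ring
    · have e1 : ∑ y, (b3 ∘ gB) y = ∑ y, b3 y := Equiv.sum_comp gB b3
      rw [e1]
      exact hb3
  · intro g hg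
    by_contra h0
    apply hg
    intro a
    refine sx13_preserve r1A c1A r2A c2A r1B c1B r2B c2B κ hr1 hr2 hA hB a1 a2 b1 b2 ha1 ha2 g
      ?_ ?_ a
    · intro h; apply h0; rw [h, zero_mul, zero_mul]
    · intro h; apply h0; rw [h, mul_zero, zero_mul]

theorem step_s {A B : Type} [Fintype A] [DecidableEq A] [Fintype B] [DecidableEq B]
    (r1A c1A r2A c2A r3A c3A : A → ℕ) (r1B c1B r2B c2B r3B c3B : B → ℕ) (κ : ℕ)
    (hr1 : ∀ x, r1A x < 2) (hr2 : ∀ x, r2A x < 2)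
    (hA : ∀ x, κ ≤ c1A x + c2A x) (hB : ∀ y, c1B y + c2B y < κ)
    (hAB : ∀ x y, c3A x = c3B y → r3B y < r3A x) (e s : ℤ) (he : e * e = 1) (hs : s * s = 1)
    (hlocA : ∃ a1 a2 a3 : A → ℕ, tw false s r1A c1A r2A c2A r3A c3A a1 a2 a3 ≠ 0)
    (hlocB : ∃ b1 b2 b3 : B → ℕ, tw false (e * s) r1B c1B r2B c2B r3B c3B b1 b2 b3 ≠ 0) :
    ∃ w1 w2 w3 : A ⊕ B → ℕ,
      tw false e (Sum.elim r1A (fun y => r1B y + 2)) (Sum.elim c1A c1B)
        (Sum.elim r2A (fun y => r2B y + 2)) (Sum.elim c2A c2B)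
        (Sum.elim r3A r3B) (Sum.elim c3A c3B) w1 w2 w3 ≠ 0 := by
  obtain ⟨a1, a2, a3, ha⟩ := hlocA
  obtain ⟨b1, b2, b3, hb⟩ := hlocB
  have ha12 : (∀ x, a1 x < 2) ∧ ∀ x, a2 x < 2 := by
    by_cases h1 : trs false r1A c1A r2A c2A r3A c3A a1 a2 a3 = 0
    · have h2 : trs false r1A c1A r2A c2A r3A c3A a2 a1 a3 ≠ 0 := by
        intro h2
        apply ha
        unfold tw
        rw [h1, h2]
        ring
      obtain ⟨p1, p2, p3, hp1, hp2, hp3⟩ := trs_word3 h2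
      exact ⟨fun x => by rw [hp2]; exact hr2 _, fun x => by rw [hp1]; exact hr1 _⟩
    · obtain ⟨p1, p2, p3, hp1, hp2, hp3⟩ := trs_word3 h1
      exact ⟨fun x => by rw [hp1]; exact hr1 _, fun x => by rw [hp2]; exact hr2 _⟩
  obtain ⟨ha1, ha2⟩ := ha12
  obtain ⟨q3, hq3⟩ := tw_word3 hb
  have hb3 : ∑ y, b3 y ≤ ∑ y, r3B y := by
    rw [hq3]
    exact (Equiv.sum_comp q3 r3B).le
  by_contra hcon
  push Not at hcon
  have h1 := hcon (Sum.elim a1 (fun y => b1 y + 2)) (Sum.elim a2 (fun y => b2 y + 2))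
    (Sum.elim a3 b3)
  have h2 := hcon (Sum.elim a1 (fun y => b2 y + 2)) (Sum.elim a2 (fun y => b1 y + 2))
    (Sum.elim a3 b3)
  unfold tw at h1 h2 ha hb
  simp only [trs_false] at h1 h2 ha hb
  rw [tri_factor r1A c1A r2A c2A r3A c3A r1B c1B r2B c2B r3B c3B κ hr1 hr2 hA hB hAB a1 a2 a3
      b1 b2 b3 ha1 ha2 hb3,
    tri_factor r1A c1A r2A c2A r3A c3A r1B c1B r2B c2B r3B c3B κ hr1 hr2 hA hB hAB a2 a1 a3
      b2 b1 b3 ha2 ha1 hb3] at h1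
  rw [tri_factor r1A c1A r2A c2A r3A c3A r1B c1B r2B c2B r3B c3B κ hr1 hr2 hA hB hAB a1 a2 a3
      b2 b1 b3 ha1 ha2 hb3,
    tri_factor r1A c1A r2A c2A r3A c3A r1B c1B r2B c2B r3B c3B κ hr1 hr2 hA hB hAB a2 a1 a3
      b1 b2 b3 ha2 ha1 hb3] at h2
  have h3 := mul_ne_zero ha hb
  apply h3
  linear_combination h1 + s * e * h2 +
    (e * tri r1A c1A r2A c2A r3A c3A a2 a1 a3 * tri r1B c1B r2B c2B r3B c3B b2 b1 b3) * hs -
    (s * tri r1A c1A r2A c2A r3A c3A a2 a1 a3 * tri r1B c1B r2B c2B r3B c3B b1 b2 b3) * he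

/-- the vector of the configuration `L` has a component of shape `mu` and of sign `e` -/
def PVs (e : ℤ) (L : List ℕ) (mu : ℕ → ℕ) : Prop :=
  ∃ r3 c3 : Om L → ℕ, IsStd r3 c3 mu ∧
    ∃ w1 w2 w3 : Om L → ℕ, tw false e (omR L) (omA L) (omR L) (omB L) r3 c3 w1 w2 w3 ≠ 0

theorem PVs_cons (x : ℕ) (L : List ℕ) (hL : Bands (x :: L)) (mu nu : ℕ → ℕ)
    (hnu : IsPart nu (bandSum L)) (hmu : IsPart mu (bandSum (x :: L))) (h4 : Skew4 mu nu)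
    (h : ∀ e : ℤ, e * e = 1 → PVs e L nu) (e : ℤ) (he : e * e = 1) : PVs e (x :: L) mu := by
  have hx : 1 ≤ x := by
    cases L with
    | nil => exact hL
    | cons y L' =>
      have h1 : y + 2 ≤ x := hL.1
      omega
  obtain ⟨m, rfl⟩ : ∃ m, x = m + 1 := ⟨x - 1, by omega⟩
  have hmu' : IsPart mu ((2 * m + 1) + bandSum L) := hmu
  obtain ⟨r3A, c3A, hmono, hstep, hfour, hinj, hin, hsur⟩ :=
    skew_enum mu nu (bandSum L) ((2 * m + 1) + bandSum L) hnu hmu' h4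
      (range ((2 * m + 1) + bandSum L)) (2 * m + 1)
      (sx18_size mu nu (bandSum L) (2 * m + 1) hnu hmu' fun i => (h4 i).1)
  obtain ⟨a1, a2, a3, ha⟩ := local1 m r3A c3A hmono hstep hfour
  have hs : ∃ s : ℤ, s * s = 1 ∧ tw false s (fun s : Fin (2 * m + 1) => s.1 % 2)
      (fun s => s.1 / 2) (fun s : Fin (2 * m + 1) => s.1 % 2) (fun s => m - (s.1 + 1) / 2) r3A c3A
      a1 a2 a3 ≠ 0 := by
    by_contra hcon
    push Not at hcon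
    have h1 := hcon 1 (by norm_num)
    have h2 := hcon (-1) (by norm_num)
    unfold tw at h1 h2
    simp only [trs_false] at h1 h2
    apply ha
    linarith
  obtain ⟨s, hss, hsA⟩ := hs
  obtain ⟨r3B, c3B, hB, b1, b2, b3, hb⟩ := h (e * s) (by
    have : e * s * (e * s) = (e * e) * (s * s) := by ring
    rw [this, he, hss]
    norm_num)
  obtain ⟨hAB, hstd⟩ := sx18_std mu nu (bandSum L) _ hnu hmu' (fun i => (h4 i).1) r3A c3A r3B c3B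
    hB hinj (fun s => (hin s).2) (fun i j hj h1 h2 => hsur i j (Finset.mem_range.2 hj) h1 h2)
  obtain ⟨w1, w2, w3, hw⟩ := step_s (fun s : Fin (2 * m + 1) => s.1 % 2) (fun s => s.1 / 2)
    (fun s : Fin (2 * m + 1) => s.1 % 2) (fun s => m - (s.1 + 1) / 2) r3A c3A
    (omR L) (omA L) (omR L) (omB L) r3B c3B (m - 1)
    (fun s => Nat.mod_lt _ (by norm_num)) (fun s => Nat.mod_lt _ (by norm_num))
    (fun s => by have := s.2; omega)
    (fun y => by have := om_lt (m + 1) L hL y; omega)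
    hAB e s he hss ⟨a1, a2, a3, hsA⟩ ⟨b1, b2, b3, hb⟩
  refine ⟨(Sum.elim r3A r3B : Fin (2 * m + 1) ⊕ Om L → ℕ),
    (Sum.elim c3A c3B : Fin (2 * m + 1) ⊕ Om L → ℕ), hstd, w1, w2, w3, ?_⟩
  rw [sx18_omR, sx18_omA, sx18_omB]
  exact hw

theorem SS_of_tabs {Ω : Type} [Fintype Ω] [DecidableEq Ω] {e : ℤ} {lam mu : ℕ → ℕ}
    {r1 c1 r2 c2 r3 c3 w1 w2 w3 : Ω → ℕ} (h1 : IsTab r1 c1 lam) (h2 : IsTab r2 c2 lam)
    (h3 : IsTab r3 c3 mu) (h : tw false e r1 c1 r2 c2 r3 c3 w1 w2 w3 ≠ 0) : SS e lam mu := by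
  obtain ⟨f⟩ : Nonempty (Fin (Fintype.card Ω) ≃ Ω) := ⟨(Fintype.equivFin Ω).symm⟩
  refine ⟨Fintype.card Ω, r1 ∘ f, c1 ∘ f, r2 ∘ f, c2 ∘ f, r3 ∘ f, c3 ∘ f, h1.comp f, h2.comp f,
    h3.comp f, w1 ∘ f, w2 ∘ f, w3 ∘ f, ?_⟩
  rw [tw_equiv]
  exact h

theorem SS_of_PVs (e : ℤ) (k : ℕ) (mu : ℕ → ℕ) (h : PVs e (sBands k) mu) : SS e (rho k) mu := by
  obtain ⟨r3, c3, h3, w1, w2, w3, hw⟩ := h
  obtain ⟨h1, h2⟩ := isTab_om (sBands k) (sx23_bands k)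
  rw [sx23_shape'] at h1 h2
  exact SS_of_tabs h1 h2 h3.toIsTab hw

/-- a criterion for tableaux which can be checked -/
theorem isTab_dec {n : ℕ} (N : ℕ) (r c : Fin n → ℕ) (lam : ℕ → ℕ)
    (h1 : ∀ x y, r x = r y → c x = c y → x = y)
    (h2 : ∀ x, ∀ i, i < r x → ∃ y, c y = c x ∧ r y = i)
    (h3 : ∀ i, i < N → (univ.filter fun x => r x = i).card = lam i)
    (h4 : ∀ x, r x < N) (h5 : ∀ i, N ≤ i → lam i = 0) : IsTab r c lam := by
  refine ⟨h1, h2, fun i => ?_⟩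
  by_cases hi : i < N
  · exact h3 i hi
  · rw [h5 i (not_lt.1 hi), Finset.card_eq_zero, Finset.filter_eq_empty_iff]
    intro x _ hx
    have := h4 x
    omega

theorem PVs_of_fin {e : ℤ} {L : List ℕ} {mu : ℕ → ℕ} {n : ℕ} (f : Fin n ≃ Om L)
    {r1 c1 c2 r3 c3 w1 w2 w3 : Fin n → ℕ} (hr : omR L ∘ f = r1) (hA : omA L ∘ f = c1)
    (hB : omB L ∘ f = c2) (h3 : IsTab r3 c3 mu) (hlt : ∀ x, c3 x < mu (r3 x))
    (h : TT false e r1 c1 r1 c2 r3 c3 w1 w2 w3 ≠ 0) : PVs e L mu := by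
  refine ⟨r3 ∘ f.symm, c3 ∘ f.symm, ⟨h3.comp f.symm, fun x => hlt _⟩, w1 ∘ f.symm, w2 ∘ f.symm,
    w3 ∘ f.symm, ?_⟩
  rw [← tw_equiv false e f]
  have key : ∀ w : Fin n → ℕ, (w ∘ f.symm) ∘ f = w := by
    intro w
    funext x
    simp
  rw [key, key, key, key, key, hr, hA, hB, tw_TT]
  exact h

end Pool.Agent.H374
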