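import Mathlib
import Pool.Graph.R_pool_sql_team_seeded_620a6dc7.Helper139_Saxl.Defs
import Pool.Graph.R_pool_sql_team_seeded_620a6dc7.Helper139_Saxl.Conf
import Pool.Agent.H374.A12

set_option autoImplicit false

/-! Small cases, by evaluation. -/

namespace Pool.Agent.H374

open Finset Pool.Saxl

/-- the ground set of the bands `3, 1` -/
def f31 : Fin 6 ≃ Om [3, 1] :=
  (finSumFinEquiv (m := 5) (n := 1)).symm.trans
    (Equiv.sumCongr (Equiv.refl _) (Equiv.sumEmpty (Fin 1) Empty).symm)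

/-- the ground set of the bands `4, 2` -/
def f42 : Fin 10 ≃ Om [4, 2] :=
  (finSumFinEquiv (m := 7) (n := 3)).symm.trans
    (Equiv.sumCongr (Equiv.refl _) (Equiv.sumEmpty (Fin 3) Empty).symm)

/-- a shape given by a list -/
def ls (L : List ℕ) : ℕ → ℕ := fun i => L.getD i 0

theorem PVs31 (e : ℤ) (he : e * e = 1) : PVs e [3, 1] (rho 3) := by
  have he' : e = 1 ∨ e = -1 := by
    have : (e - 1) * (e + 1) = 0 := by linear_combination he
    rcases mul_eq_zero.1 this with h | h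
    · left; linarith
    · right; linarith
  have hr : omR [3, 1] ∘ f31 = ![0,1,0,1,0,2] := by
    funext x
    fin_cases x <;> rfl
  have hA : omA [3, 1] ∘ f31 = ![0,0,1,1,2,0] := by
    funext x
    fin_cases x <;> rfl
  have hB : omB [3, 1] ∘ f31 = ![2,1,1,0,0,0] := by
    funext x
    fin_cases x <;> rfl
  have h3 : IsTab (![1,2,0,1,0,0] : Fin 6 → ℕ) ![0,0,1,1,2,0] (rho 3) :=
    isTab_dec 3 _ _ _ (by decide +kernel) (by decide +kernel) (by decide +kernel)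
      (by decide +kernel) (by intro i hi; unfold rho; omega)
  rcases he' with rfl | rfl
  · exact PVs_of_fin f31 hr hA hB h3 (by decide +kernel)
      (w1 := ![2,0,0,1,0,1]) (w2 := ![2,0,0,0,1,1]) (w3 := ![1,1,0,0,0,2]) (by decide +kernel)
  · exact PVs_of_fin f31 hr hA hB h3 (by decide +kernel)
      (w1 := ![0,2,1,1,0,0]) (w2 := ![0,2,0,1,1,0]) (w3 := ![1,1,0,0,2,0]) (by decide +kernel)

theorem PVs42_aux {e : ℤ} {mu : ℕ → ℕ} {r3 c3 w1 w2 w3 : Fin 10 → ℕ} (h3 : IsTab r3 c3 mu)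
    (hlt : ∀ x, c3 x < mu (r3 x))
    (h : TT false e ![0,1,0,1,0,1,0,2,3,2] ![0,0,1,1,2,2,3,0,0,1] ![0,1,0,1,0,1,0,2,3,2]
      ![3,2,2,1,1,0,0,1,0,0] r3 c3 w1 w2 w3 ≠ 0) : PVs e [4, 2] mu := by
  have hr : omR [4, 2] ∘ f42 = ![0,1,0,1,0,1,0,2,3,2] := by
    funext x
    fin_cases x <;> rfl
  have hA : omA [4, 2] ∘ f42 = ![0,0,1,1,2,2,3,0,0,1] := by
    funext x
    fin_cases x <;> rfl
  have hB : omB [4, 2] ∘ f42 = ![3,2,2,1,1,0,0,1,0,0] := by
    funext x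
    fin_cases x <;> rfl
  exact PVs_of_fin f42 hr hA hB h3 hlt h

theorem PVs42 (e : ℤ) (he : e * e = 1) : PVs e [4, 2] (rho 4) := by
  have he' : e = 1 ∨ e = -1 := by
    have : (e - 1) * (e + 1) = 0 := by linear_combination he
    rcases mul_eq_zero.1 this with h | h
    · left; linarith
    · right; linarith
  have h3 : IsTab (![2,3,1,2,0,1,0,0,1,0] : Fin 10 → ℕ) ![0,0,1,1,2,2,3,0,0,1] (rho 4) :=
    isTab_dec 4 _ _ _ (by decide +kernel) (by decide +kernel) (by decide +kernel)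
      (by decide +kernel) (by intro i hi; unfold rho; omega)
  rcases he' with rfl | rfl
  · exact PVs42_aux h3 (by decide +kernel) (w1 := ![0,1,1,0,0,0,1,3,2,2])
      (w2 := ![0,1,1,0,0,0,1,2,2,3]) (w3 := ![1,1,2,2,0,3,0,1,0,0]) (by decide +kernel)
  · exact PVs42_aux h3 (by decide +kernel) (w1 := ![1,0,0,1,1,0,0,3,2,2])
      (w2 := ![0,0,0,1,0,1,1,2,3,2]) (w3 := ![1,2,0,3,2,1,0,0,0,1]) (by decide +kernel)

theorem SS4_1 : SS 1 (rho 4) (ls [3, 3, 3, 1]) := by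
  have h3 : IsTab (![2,3,1,2,0,1,2,0,1,0] : Fin 10 → ℕ) ![0,0,1,1,2,2,2,0,0,1]
      (ls [3, 3, 3, 1]) :=
    isTab_dec 4 _ _ _ (by decide +kernel) (by decide +kernel) (by decide +kernel)
      (by decide +kernel) (by intro i hi; unfold ls; simp [hi])
  exact SS_of_PVs 1 4 _ (PVs42_aux h3 (by decide +kernel) (w1 := ![1,0,1,0,0,1,0,3,2,2])
      (w2 := ![0,0,0,1,1,1,0,2,2,3]) (w3 := ![1,0,2,1,2,3,2,0,1,0]) (by decide +kernel))

theorem SS4_2 : SS 1 (rho 4) (ls [3, 3, 2, 2]) := by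
  have h3 : IsTab (![2,3,1,2,3,0,1,0,1,0] : Fin 10 → ℕ) ![0,0,1,1,1,2,2,0,0,1]
      (ls [3, 3, 2, 2]) :=
    isTab_dec 4 _ _ _ (by decide +kernel) (by decide +kernel) (by decide +kernel)
      (by decide +kernel) (by intro i hi; unfold ls; simp [hi])
  exact SS_of_PVs 1 4 _ (PVs42_aux h3 (by decide +kernel) (w1 := ![0,0,0,1,0,1,1,3,2,2])
      (w2 := ![0,0,1,0,0,1,1,2,2,3]) (w3 := ![1,2,3,3,0,1,2,0,1,0]) (by decide +kernel))

theorem SS4_3 : SS 1 (rho 4) (ls [3, 3, 2, 1, 1]) := by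
  have h3 : IsTab (![2,3,4,1,2,0,1,0,1,0] : Fin 10 → ℕ) ![0,0,0,1,1,2,2,0,0,1]
      (ls [3, 3, 2, 1, 1]) :=
    isTab_dec 5 _ _ _ (by decide +kernel) (by decide +kernel) (by decide +kernel)
      (by decide +kernel) (by intro i hi; unfold ls; simp [hi])
  exact SS_of_PVs 1 4 _ (PVs42_aux h3 (by decide +kernel) (w1 := ![1,0,1,0,0,1,0,3,2,2])
      (w2 := ![0,0,0,0,1,1,1,2,3,2]) (w3 := ![2,0,1,2,4,3,1,0,0,1]) (by decide +kernel))

theorem SS4_4 : SS 1 (rho 4) (ls [2, 2, 2, 2, 2]) := by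
  have h3 : IsTab (![2,3,4,1,2,3,4,0,1,0] : Fin 10 → ℕ) ![0,0,0,1,1,1,1,0,0,1]
      (ls [2, 2, 2, 2, 2]) :=
    isTab_dec 5 _ _ _ (by decide +kernel) (by decide +kernel) (by decide +kernel)
      (by decide +kernel) (by intro i hi; unfold ls; simp [hi])
  exact SS_of_PVs 1 4 _ (PVs42_aux h3 (by decide +kernel) (w1 := ![1,1,0,0,0,0,1,3,2,2])
      (w2 := ![0,0,1,0,0,1,1,2,3,2]) (w3 := ![2,3,3,1,4,2,4,0,0,1]) (by decide +kernel))

theorem SS4_5 : SS 1 (rho 4) (ls [2, 2, 2, 2, 1, 1]) := by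
  have h3 : IsTab (![2,3,4,5,1,2,3,0,1,0] : Fin 10 → ℕ) ![0,0,0,0,1,1,1,0,0,1]
      (ls [2, 2, 2, 2, 1, 1]) :=
    isTab_dec 6 _ _ _ (by decide +kernel) (by decide +kernel) (by decide +kernel)
      (by decide +kernel) (by intro i hi; unfold ls; simp [hi])
  exact SS_of_PVs 1 4 _ (PVs42_aux h3 (by decide +kernel) (w1 := ![0,0,1,1,1,0,0,2,3,2])
      (w2 := ![0,1,0,1,0,1,0,2,2,3]) (w3 := ![2,3,3,4,2,5,1,1,0,0]) (by decide +kernel))

/-- the base for the shapes with two columns -/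
theorem YV3 : YV (-1) 3 0 6 (tc 3 6) := by
  have h1 : IsTab (![0,1,0,1,0,2] : Fin 6 → ℕ) ![0,0,1,1,2,0] (rho 3) :=
    isTab_dec 3 _ _ _ (by decide +kernel) (by decide +kernel) (by decide +kernel)
      (by decide +kernel) (by intro i hi; unfold rho; omega)
  have h2 : IsTab (![0,0,1,1,0,2] : Fin 6 → ℕ) ![2,1,1,0,0,0] (rho 3) :=
    isTab_dec 3 _ _ _ (by decide +kernel) (by decide +kernel) (by decide +kernel)
      (by decide +kernel) (by intro i hi; unfold rho; omega)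
  have h3 : IsTab (![0,2,1,1,2,0] : Fin 6 → ℕ) ![1,1,0,1,0,0] (tc 3 6) :=
    isTab_dec 3 _ _ _ (by decide +kernel) (by decide +kernel) (by decide +kernel)
      (by decide +kernel) (by intro i hi; unfold tc; rw [if_neg (by omega), if_neg (by omega)])
  refine ⟨6, _, _, _, _, _, _, h1, h2, h3, ![0,1,2,1,0,0], ![0,0,1,2,0,1], ![0,1,0,1,2,2], ?_,
    fun x hx => by omega, ?_⟩
  · rw [tw_TT]
    decide +kernel
  · refine le_trans Finset.card_image_le ?_
    refine le_trans (Finset.card_le_univ _) ?_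
    simp

end Pool.Agent.H374
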