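import Mathlib
import Pool.Graph.R_pool_sql_team_seeded_620a6dc7.Helper139_Saxl.Defs
import Pool.Graph.R_pool_sql_team_seeded_620a6dc7.Helper139_Saxl.Conf
import Pool.Graph.R_pool_sql_team_seeded_620a6dc7.Helper139_Saxl.Fam
import Pool.Graph.R_pool_sql_team_seeded_620a6dc7.Helper139_Saxl.J04
import Pool.Graph.R_pool_sql_team_seeded_620a6dc7.Helper139_Saxl.J23
import Pool.Graph.R_pool_sql_team_seeded_620a6dc7.Helper139_Saxl.J24
import Pool.Agent.H374.A13

set_option autoImplicit false

/-! Chains of bands which end in a fixed shape. -/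

namespace Pool.Agent.H374

open Finset Pool.Saxl

/-- the level and the position of the `N`-th addition -/
def Mf (W N c : ℕ) : ℕ := N / W + if c < N % W then 1 else 0

theorem Mf_succ (W N c : ℕ) (hc : c < W) : Mf W (N + 1) c = Mf W N c + if c = N % W then 1 else 0 := by
  have hW : 0 < W := by omega
  have h1 := Nat.div_add_mod N W
  have h2 := Nat.mod_lt N hW
  unfold Mf
  by_cases h : N % W + 1 < W
  · have e1 : (N + 1) / W = N / W := by
      have e3 : W * (N / W + 1) = W * (N / W) + W := by ring
      rw [Nat.div_eq_of_lt_le]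
      · rw [mul_comm]
        omega
      · rw [mul_comm]
        omega
    have e2 : (N + 1) % W = N % W + 1 := by
      have h3 := Nat.div_add_mod (N + 1) W
      rw [e1] at h3
      omega
    rw [e1, e2]
    split_ifs <;> omega
  · have e0 : N + 1 = W * (N / W + 1) := by
      have : W * (N / W + 1) = W * (N / W) + W := by ring
      omega
    have e1 : (N + 1) / W = N / W + 1 := by
      rw [e0, Nat.mul_div_cancel_left _ hW]
    have e2 : (N + 1) % W = 0 := by
      rw [e0, Nat.mul_mod_right]
    rw [e1, e2]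
    split_ifs <;> omega

theorem exists_clamp (W : ℕ) (lo hi : ℕ → ℕ) (S : ℕ)
    (h1 : ∑ c ∈ range W, lo c ≤ S) (h2 : S ≤ ∑ c ∈ range W, hi c) :
    ∃ (L : ℕ) (M : ℕ → ℕ), Antitone M ∧ (∀ c, L ≤ M c ∧ M c ≤ L + 1) ∧
      ∑ c ∈ range W, max (lo c) (min (M c) (hi c)) = S := by
  rcases Nat.eq_zero_or_pos W with rfl | hW
  · refine ⟨0, fun _ => 0, fun _ _ _ => le_rfl, fun c => ⟨le_rfl, Nat.zero_le _⟩, ?_⟩
    simp at h1 h2 ⊢
    omega
  set Gf : ℕ → ℕ := fun N => ∑ c ∈ range W, max (lo c) (min (Mf W N c) (hi c)) with hG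
  have hG0 : Gf 0 = ∑ c ∈ range W, lo c := by
    rw [hG]
    refine Finset.sum_congr rfl fun c _ => ?_
    simp [Mf]
  have hGB : S ≤ Gf (W * ∑ c ∈ range W, hi c) := by
    refine h2.trans ?_
    rw [hG]
    refine Finset.sum_le_sum fun c hc => ?_
    have h3 := Finset.single_le_sum (f := hi) (fun _ _ => Nat.zero_le _) hc
    have h4 : Mf W (W * ∑ c ∈ range W, hi c) c = ∑ c ∈ range W, hi c := by
      unfold Mf
      rw [Nat.mul_div_cancel_left _ hW, Nat.mul_mod_right]
      simp
    rw [h4, min_eq_right h3]
    exact le_max_right _ _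
  have hstep : ∀ N, Gf (N + 1) ≤ Gf N + 1 := by
    intro N
    have h5 : ∑ c ∈ range W, (if c = N % W then 1 else 0) = 1 := by
      rw [Finset.sum_ite_eq' (range W) (N % W) (fun _ => 1), if_pos (Finset.mem_range.2
        (Nat.mod_lt N hW))]
    calc Gf (N + 1) ≤ ∑ c ∈ range W, (max (lo c) (min (Mf W N c) (hi c)) +
          if c = N % W then 1 else 0) := by
          rw [hG]
          refine Finset.sum_le_sum fun c hc => ?_
          rw [Mf_succ W N c (Finset.mem_range.1 hc)]
          split_ifs <;> omega
      _ = Gf N + 1 := by rw [Finset.sum_add_distrib, h5]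
  have hex : ∃ N, S ≤ Gf N := ⟨_, hGB⟩
  classical
  set N := Nat.find hex with hN
  have hN1 : S ≤ Gf N := Nat.find_spec hex
  have hN2 : Gf N = S := by
    rcases Nat.eq_zero_or_pos N with h0 | h0
    · rw [h0] at hN1 ⊢
      rw [hG0] at hN1 ⊢
      omega
    · have h6 : ¬ S ≤ Gf (N - 1) := Nat.find_min hex (by omega)
      have h7 := hstep (N - 1)
      rw [show N - 1 + 1 = N by omega] at h7
      omega
  refine ⟨N / W, Mf W N, ?_, ?_, hN2⟩
  · intro c c' hcc
    unfold Mf
    split_ifs <;> omega
  · intro c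
    unfold Mf
    split_ifs <;> omega

/-- the number of boxes of the staircase -/
def Dn (k : ℕ) : ℕ := bandSum (sBands k)

theorem Dn_succ (k : ℕ) : Dn (k + 2) = Dn k + (2 * k + 3) := by
  unfold Dn
  rw [sBands, bandSum]
  omega

theorem Dn_eq (k : ℕ) : Dn k = k * (k + 1) / 2 := by
  have := sx23_bandSum k
  unfold Dn
  omega

theorem skew4_cj {h h' : ℕ → ℕ} {n n' : ℕ} (hp : IsPart h n) (hp' : IsPart h' n')
    (hc : ∀ c, h' c ≤ h c ∧ h c ≤ h' c + 4) : Skew4 (cj h) (cj h') := by
  intro i
  constructor
  · apply le_of_forall_lt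
    intro c hcc
    rw [lt_cj_iff _ _ hp'] at hcc
    rw [lt_cj_iff _ _ hp]
    exact hcc.trans_le (hc c).1
  · apply le_of_forall_lt
    intro c hcc
    rw [lt_cj_iff _ _ hp] at hcc
    rw [lt_cj_iff _ _ hp']
    have := (hc c).2
    omega

theorem chain_cols (t W : ℕ) (hρ : ∑ c ∈ range W, rho t c = Dn t)
    (hbase : ∀ e : ℤ, e * e = 1 → PVs e (sBands t) (rho t)) (r : ℕ) :
    ∀ h : ℕ → ℕ, Antitone h → (∀ c, W ≤ c → h c = 0) → (∀ c, rho t c ≤ h c) →
      ∑ c ∈ range W, (h c - rho t c) + Dn t = Dn (t + 2 * r) →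
      (∀ j, j ≤ r → ∑ c ∈ range W, (h c - rho t c - 4 * j) + Dn t ≤ Dn (t + 2 * (r - j))) →
      ∀ e : ℤ, e * e = 1 → PVs e (sBands (t + 2 * r)) (cj h) := by
  induction r with
  | zero =>
    intro h _ hz hle hsum _ e he
    have h1 : ∑ c ∈ range W, (h c - rho t c) = 0 := by
      rw [Nat.mul_zero, Nat.add_zero] at hsum
      omega
    rw [Finset.sum_eq_zero_iff] at h1
    have h2 : h = rho t := by
      funext c
      by_cases hc : c < W
      · have := h1 c (Finset.mem_range.2 hc)
        have := hle c
        omega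
      · have := hz c (not_lt.1 hc)
        have := hle c
        omega
    rw [h2, cj_rho]
    exact hbase e he
  | succ r ih =>
    intro h hanti hz hle hsum hU
    have hD := Dn_succ (t + 2 * r)
    have hD' : Dn (t + 2 * (r + 1)) = Dn (t + 2 * r) + (2 * (t + 2 * r) + 3) := by
      rw [← hD]
      congr 1
    have hU1 := hU 1 (by omega)
    have e1 : r + 1 - 1 = r := by omega
    rw [e1] at hU1
    simp only [mul_one] at hU1
    obtain ⟨L, M, hM, hML, hMs⟩ := exists_clamp W (fun c => h c - rho t c - 4)
      (fun c => h c - rho t c) (Dn (t + 2 * r) - Dn t) (by omega) (by omega)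
    set f : ℕ → ℕ := fun c => max (h c - rho t c - 4) (min (M c) (h c - rho t c)) with hf
    have hfs : ∑ c ∈ range W, f c + Dn t = Dn (t + 2 * r) := by
      have : ∑ c ∈ range W, f c = Dn (t + 2 * r) - Dn t := hMs
      omega
    set h' : ℕ → ℕ := fun c => rho t c + f c with hh'
    have h'f : ∀ c, h' c - rho t c = f c := fun c => by
      rw [hh']
      show rho t c + f c - rho t c = f c
      omega
    have ha' : Antitone h' := by
      intro c c' hcc
      have i1 := hanti hcc
      have i2 := hM hcc
      have i3 : rho t c' ≤ rho t c := by unfold rho; omega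
      have i4 := hle c
      have i5 := hle c'
      rw [hh', hf]
      simp only
      omega
    have hz' : ∀ c, W ≤ c → h' c = 0 := by
      intro c hc
      have i1 := hz c hc
      have i4 := hle c
      rw [hh', hf]
      simp only
      omega
    have hle' : ∀ c, rho t c ≤ h' c := fun c => Nat.le_add_right _ _
    have hbd : ∀ c, h' c ≤ h c ∧ h c ≤ h' c + 4 := by
      intro c
      have i4 := hle c
      rw [hh', hf]
      simp only
      omega
    have hsum' : ∑ c ∈ range W, (h' c - rho t c) + Dn t = Dn (t + 2 * r) := by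
      simp only [h'f]
      exact hfs
    have hU' : ∀ j, j ≤ r → ∑ c ∈ range W, (h' c - rho t c - 4 * j) + Dn t ≤
        Dn (t + 2 * (r - j)) := by
      intro j hj
      simp only [h'f]
      by_cases hL : L + 1 ≤ 4 * j
      · have h1 := hU (j + 1) (by omega)
        have e2 : r + 1 - (j + 1) = r - j := by omega
        rw [e2] at h1
        refine le_trans (Nat.add_le_add_right (Finset.sum_le_sum fun c _ => ?_) _) h1
        have i1 := hML c
        rw [hf]
        simp only
        omega
      · have h1 := hU j (by omega)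
        have h2 : ∑ c ∈ range W, (f c - 4 * j) + ∑ c ∈ range W, (h c - rho t c) =
            ∑ c ∈ range W, f c + ∑ c ∈ range W, (h c - rho t c - 4 * j) := by
          rw [← Finset.sum_add_distrib, ← Finset.sum_add_distrib]
          refine Finset.sum_congr rfl fun c _ => ?_
          have i1 := hML c
          rw [hf]
          simp only
          omega
        have h3 := Dn_succ (t + 2 * (r - j))
        have e3 : t + 2 * (r - j) + 2 = t + 2 * (r + 1 - j) := by omega
        rw [e3] at h3
        omega
    have hp : IsPart h (Dn (t + 2 * (r + 1))) := by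
      refine sx24_isPart h W _ hanti hz ?_
      have : ∑ c ∈ range W, h c = ∑ c ∈ range W, (h c - rho t c) + ∑ c ∈ range W, rho t c := by
        rw [← Finset.sum_add_distrib]
        refine Finset.sum_congr rfl fun c _ => ?_
        have i4 := hle c
        omega
      omega
    have hp' : IsPart h' (Dn (t + 2 * r)) := by
      refine sx24_isPart h' W _ ha' hz' ?_
      have : ∑ c ∈ range W, h' c = ∑ c ∈ range W, f c + ∑ c ∈ range W, rho t c := by
        rw [← Finset.sum_add_distrib]
        refine Finset.sum_congr rfl fun c _ => ?_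
        rw [hh']
        simp only
        omega
      omega
    intro e he
    have hb := sx23_bands (t + 2 * (r + 1))
    have e4 : sBands (t + 2 * (r + 1)) = (t + 2 * r + 2) :: sBands (t + 2 * r) := rfl
    rw [e4] at hb ⊢
    refine PVs_cons (t + 2 * r + 2) (sBands (t + 2 * r)) hb (cj h) (cj h')
      (isPart_cj h' _ hp') ?_ (skew4_cj hp hp' hbd) (ih h' ha' hz' hle' hsum' hU') e he
    have := isPart_cj h _ hp
    exact this

end Pool.Agent.H374
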