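import Mathlib

set_option autoImplicit false

/-! Arithmetic for the chains of bands. -/

namespace Pool.Agent.H374

theorem main_ge {k j d Q Tk Td U s : ℕ} (hj : 1 ≤ j) (hd : k = d + 2 * j)
    (hT : 2 * Tk = k * (k + 1)) (hTd : 2 * Td = d * (d + 1)) (hQ : k ≤ 2 * Q)
    (hU : U + s + 4 * j * Q ≤ Tk) : U + s ≤ Td := by
  have h1 : j * k ≤ j * (2 * Q) := Nat.mul_le_mul_left j hQ
  have h2 : j ≤ j * j := Nat.le_mul_of_pos_left j hj
  subst hd
  nlinarith

theorem main_le {k j d Q a Tk Td U s : ℕ} (hj : 1 ≤ j) (hd : k = d + 2 * j)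
    (hT : 2 * Tk = k * (k + 1)) (hTd : 2 * Td = d * (d + 1)) (hQ : 2 * Q ≤ k)
    (ha : k + 1 = a + 4 * j) (hU : U + s ≤ Q * a) : U + s ≤ Td := by
  have h1 : 2 * Q * a ≤ k * a := Nat.mul_le_mul_right a hQ
  have h2 : j ≤ j * j := Nat.le_mul_of_pos_left j hj
  have h3 : k * (k + 1) = k * a + 4 * (j * k) := by rw [ha]; ring
  subst hd
  nlinarith

theorem quad3 {j d k Tk Td : ℕ} (hj : 1 ≤ j) (hd : k = d + 2 * j) (h7 : 2 * j + 1 ≤ d)
    (hT : 2 * Tk = k * (k + 1)) (hTd : 2 * Td = d * (d + 1)) :
    Tk + 2 * j + 1 ≤ (2 * j + 1) * Td := by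
  subst hd
  zify at *
  have t0 : (3 : ℤ) * d ≤ d * d := by nlinarith
  have t1 : (1 : ℤ) ≤ d * d - d - 3 - 2 * j := by linarith
  have t2 : (1 : ℤ) ≤ j * (d * d - d - 3 - 2 * j) := by nlinarith
  nlinarith

theorem arith3 (k j d h0 h1 h2 h3 q B H Tk Td : ℕ) (hk : k % 2 = 1) (hj : 1 ≤ j)
    (hd : k = d + 2 * j) (hd3 : 3 ≤ d) (hT : 2 * Tk = k * (k + 1)) (hTd : 2 * Td = d * (d + 1))
    (h01 : h1 ≤ h0) (h12 : h2 ≤ h1) (h23 : h3 ≤ h2) (hh : h0 ≤ k + 1)
    (hs : h0 + h1 + h2 + H = Tk) (hq : q + 4 ≤ k) (hB2 : B + 4 * j * q ≤ H)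
    (hB1 : ∀ b, h3 ≤ 4 * j + b → B ≤ b * q) :
    (h0 - 3 - 4 * j) + (h1 - 2 - 4 * j) + (h2 - 1 - 4 * j) + B + 6 ≤ Td := by
  have hTd6 : 2 * d ≤ Td := by
    have e1 : d * (d + 1) = d * d + d := by ring
    have e2 : 3 * d ≤ d * d := Nat.mul_le_mul_right d hd3
    omega
  by_cases c2 : h2 ≤ 4 * j
  · -- no box of the third column
    have hB : B = 0 := by
      have := hB1 0 (by omega)
      omega
    have e : (h0 - 3 - 4 * j) + (h1 - 2 - 4 * j) ≤ 2 * d - 6 := by omega
    omega
  · by_cases c1 : h1 ≤ 4 * j + 1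
    · have hB := hB1 1 (by omega)
      rw [one_mul] at hB
      by_cases ha : 4 * j + 3 ≤ k
      · omega
      · have ek : k = 4 * j + 1 := by omega
        have ed : d = 2 * j + 1 := by omega
        have h5 : j * B ≤ j * q := Nat.mul_le_mul_left j hB
        have e1 : (4 * j + 1) * (B + 3) = 4 * (j * B) + B + 12 * j + 3 := by ring
        have e2 : 4 * j * q = 4 * (j * q) := by ring
        have h7 : Tk = (4 * j + 1) * (2 * j + 1) := by
          rw [ek] at hT
          have : (4 * j + 1) * (4 * j + 1 + 1) = 2 * ((4 * j + 1) * (2 * j + 1)) := by ring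
          omega
        have h8 : (4 * j + 1) * (B + 3) ≤ (4 * j + 1) * (2 * j + 1) := by
          rw [← h7, e1]
          omega
        have h9 : B + 3 ≤ 2 * j + 1 := Nat.le_of_mul_le_mul_left h8 (by omega)
        have h11 : 2 * j + 4 ≤ Td := by
          rw [ed] at hTd
          have e3 : (2 * j + 1) * (2 * j + 1 + 1) = 4 * (j * j) + 6 * j + 2 := by ring
          have e4 : j ≤ j * j := Nat.le_mul_of_pos_left j hj
          omega
        omega
    · by_cases c0 : h0 ≤ 4 * j + 2
      · have hB := hB1 2 (by omega)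
        -- h0 = h1 = 4 j + 2
        obtain ⟨U, hU⟩ : ∃ U, U = (h0 - 3 - 4 * j) + (h1 - 2 - 4 * j) + (h2 - 1 - 4 * j) + B :=
          ⟨_, rfl⟩
        have hU1 : U ≤ 1 + 2 * q := by omega
        have hU2 : U + 12 * j + 5 + 4 * j * q ≤ Tk := by omega
        have h5 : j * U ≤ j * (1 + 2 * q) := Nat.mul_le_mul_left j hU1
        have h6 : (2 * j + 1) * U + 10 * j + 5 ≤ Tk := by
          have e1 : (2 * j + 1) * U = 2 * (j * U) + U := by ring
          have e2 : j * (1 + 2 * q) = j + 2 * (j * q) := by ring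
          have e3 : 4 * j * q = 4 * (j * q) := by ring
          omega
        have h7 : 2 * j + 1 ≤ d := by omega
        have h8 := quad3 hj hd h7 hT hTd
        have h9 : (2 * j + 1) * (U + 6) ≤ (2 * j + 1) * Td := by
          have e1 : (2 * j + 1) * (U + 6) = (2 * j + 1) * U + 12 * j + 6 := by ring
          omega
        have h10 : U + 6 ≤ Td := Nat.le_of_mul_le_mul_left h9 (by omega)
        omega
      · -- the main case
        rcases Nat.le_total k (2 * (q + 3)) with hQ | hQ
        · have := main_ge (Q := q + 3) (s := 6) (U := (h0 - 3 - 4 * j) + (h1 - 2 - 4 * j) +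
            (h2 - 1 - 4 * j) + B) hj hd hT hTd hQ (by
              have e : 4 * j * (q + 3) = 4 * j * q + 12 * j := by ring
              rw [e]
              omega)
          exact this
        · obtain ⟨a, ha⟩ : ∃ a, k + 1 = a + 4 * j := ⟨k + 1 - 4 * j, by omega⟩
          have hB := hB1 a (by omega)
          have := main_le (Q := q + 3) (s := 6) (U := (h0 - 3 - 4 * j) + (h1 - 2 - 4 * j) +
            (h2 - 1 - 4 * j) + B) hj hd hT hTd hQ ha (by
              have e : (q + 3) * a = a * q + 3 * a := by ring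
              rw [e]
              omega)
          exact this

theorem quad4 {j d k Tk Td : ℕ} (hj : 1 ≤ j) (hd : k = d + 2 * j) (hd4 : 4 ≤ d)
    (h7 : 2 * j + 2 ≤ d) (hT : 2 * Tk = k * (k + 1)) (hTd : 2 * Td = d * (d + 1)) :
    3 * Tk + 4 * j + 3 ≤ (4 * j + 3) * Td := by
  subst hd
  zify at *
  have t0 : (4 : ℤ) * d ≤ d * d := by nlinarith
  have t1 : (3 : ℤ) ≤ 2 * (d * d) - 4 * d - 6 * j - 7 := by linarith
  have t2 : (3 : ℤ) ≤ j * (2 * (d * d) - 4 * d - 6 * j - 7) := by nlinarith
  nlinarith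

theorem arith4 (k j d h0 h1 h2 h3 h4 q B H Tk Td : ℕ) (hk : k % 2 = 0) (hk6 : 6 ≤ k) (hj : 1 ≤ j)
    (hd : k = d + 2 * j) (hd4 : 4 ≤ d) (hT : 2 * Tk = k * (k + 1)) (hTd : 2 * Td = d * (d + 1))
    (h01 : h1 ≤ h0) (h12 : h2 ≤ h1) (h23 : h3 ≤ h2) (h34 : h4 ≤ h3) (hh : h0 ≤ k + 1)
    (hex : k = 6 → h2 ≤ 6)
    (hs : h0 + h1 + h2 + h3 + H = Tk) (hq : q + 5 ≤ k) (hB2 : B + 4 * j * q ≤ H)
    (hB1 : ∀ b, h4 ≤ 4 * j + b → B ≤ b * q) :
    (h0 - 4 - 4 * j) + (h1 - 3 - 4 * j) + (h2 - 2 - 4 * j) + (h3 - 1 - 4 * j) + B + 10 ≤ Td := by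
  have e0 : d * (d + 1) = d * d + d := by ring
  have hTd6 : 4 * d ≤ Td + 6 := by
    have e2 : 7 * d ≤ d * d + 12 := by
      zify
      nlinarith [sq_nonneg ((d : ℤ) - 4), (show (4 : ℤ) ≤ d by exact_mod_cast hd4)]
    omega
  have hTd5 : 5 ≤ d → 3 * d ≤ Td := by
    intro h5
    have e2 : 5 * d ≤ d * d := Nat.mul_le_mul_right d h5
    omega
  have hTd10 : 10 ≤ Td := by
    have e2 : 4 * d ≤ d * d := Nat.mul_le_mul_right d hd4
    omega
  have e3 : 4 * j * q = 4 * (j * q) := by ring
  have e4 : j ≤ j * j := Nat.le_mul_of_pos_left j hj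
  by_cases c3 : h3 ≤ 4 * j
  · have hB : B = 0 := by
      have := hB1 0 (by omega)
      omega
    by_cases ha : 4 * j + 3 ≤ k
    · omega
    · by_cases hd5 : 5 ≤ d
      · have := hTd5 hd5
        omega
      · have ed : d = 4 := by omega
        by_cases hk7 : k = 6
        · have := hex hk7
          omega
        · omega
  · by_cases c2 : h2 ≤ 4 * j + 1
    · have hB := hB1 1 (by omega)
      rw [one_mul] at hB
      have h5 : j * B ≤ j * q := Nat.mul_le_mul_left j hB
      by_cases ha : 4 * j + 4 ≤ k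
      · have := hTd5 (by omega)
        omega
      · have e1 : (4 * j + 1) * (B + 4) = 4 * (j * B) + B + 16 * j + 4 := by ring
        have h8 : (4 * j + 1) * (B + 4) ≤ Tk := by
          rw [e1]
          omega
        have hk' : k = 4 * j + 2 ∨ k = 4 * j := by omega
        rcases hk' with ek | ek
        · have ed : d = 2 * j + 2 := by omega
          have h7 : Tk < (4 * j + 1) * (2 * j + 3) := by
            rw [ek] at hT
            have e5 : (4 * j + 2) * (4 * j + 2 + 1) = 16 * (j * j) + 20 * j + 6 := by ring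
            have e6 : (4 * j + 1) * (2 * j + 3) = 8 * (j * j) + 14 * j + 3 := by ring
            omega
          have h9 : B + 4 < 2 * j + 3 := Nat.lt_of_mul_lt_mul_left (h8.trans_lt h7)
          have h11 : 2 * j + 8 ≤ Td := by
            rw [ed] at hTd
            have e5 : (2 * j + 2) * (2 * j + 2 + 1) = 4 * (j * j) + 10 * j + 6 := by ring
            omega
          omega
        · have ed : d = 2 * j := by omega
          have h7 : Tk = (4 * j + 1) * (2 * j) := by
            rw [ek] at hT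
            have e5 : 4 * j * (4 * j + 1) = 2 * ((4 * j + 1) * (2 * j)) := by ring
            omega
          have h9 : B + 4 ≤ 2 * j := Nat.le_of_mul_le_mul_left (h7 ▸ h8) (by omega)
          have h11 : 2 * j + 6 ≤ Td := by
            rw [ed] at hTd
            have e5 : 2 * j * (2 * j + 1) = 4 * (j * j) + 2 * j := by ring
            have e6 : 2 * j ≤ j * j := Nat.mul_le_mul_right j (by omega)
            omega
          omega
    · by_cases c1 : h1 ≤ 4 * j + 2
      · have hB := hB1 2 (by omega)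
        have h5 : j * B ≤ j * (2 * q) := Nat.mul_le_mul_left j hB
        have e5 : j * (2 * q) = 2 * (j * q) := by ring
        by_cases ha : 4 * j + 4 ≤ k
        · omega
        · have ek : k = 4 * j + 2 := by omega
          have ed : d = 2 * j + 2 := by omega
          obtain ⟨g, hg⟩ : ∃ g, h3 = 4 * j + 1 + g := ⟨h3 - (4 * j + 1), by omega⟩
          have h7 : Tk = (2 * j + 1) * (4 * j + 3) := by
            rw [ek] at hT
            have e5 : (4 * j + 2) * (4 * j + 2 + 1) = 2 * ((2 * j + 1) * (4 * j + 3)) := by ring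
            omega
          have h8 : (2 * j + 1) * (g + B + 7) ≤ (2 * j + 1) * (4 * j + 3) := by
            rw [← h7]
            have e6 : (2 * j + 1) * (g + B + 7) = 2 * (j * g) + 2 * (j * B) + 14 * j + g + B + 7 := by
              ring
            have e7 : j * g ≤ j * 1 := Nat.mul_le_mul_left j (by omega)
            rw [e6]
            omega
          have h9 : g + B + 7 ≤ 4 * j + 3 := Nat.le_of_mul_le_mul_left h8 (by omega)
          have h11 : 4 * j + 6 ≤ Td := by
            rw [ed] at hTd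
            have e5 : (2 * j + 2) * (2 * j + 2 + 1) = 4 * (j * j) + 10 * j + 6 := by ring
            omega
          omega
      · by_cases c0 : h0 ≤ 4 * j + 3
        · have hB := hB1 3 (by omega)
          have h5 : j * B ≤ j * (3 * q) := Nat.mul_le_mul_left j hB
          have e5 : j * (3 * q) = 3 * (j * q) := by ring
          obtain ⟨g, hg⟩ : ∃ g, h2 + h3 = 8 * j + 3 + g := ⟨h2 + h3 - (8 * j + 3), by omega⟩
          have hg3 : g ≤ 3 := by omega
          obtain ⟨U, hU⟩ : ∃ U, U = g + B := ⟨_, rfl⟩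
          have h8 := quad4 hj hd hd4 (by omega) hT hTd
          have h9 : (4 * j + 3) * (U + 10) ≤ (4 * j + 3) * Td := by
            refine le_trans ?_ h8
            have e6 : (4 * j + 3) * (U + 10) = 4 * (j * g) + 4 * (j * B) + 3 * g + 3 * B + 40 * j +
              30 := by
              rw [hU]
              ring
            have e7 : j * g ≤ j * 3 := Nat.mul_le_mul_left j hg3
            rw [e6]
            omega
          have h10 : U + 10 ≤ Td := Nat.le_of_mul_le_mul_left h9 (by omega)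
          omega
        · rcases Nat.le_total k (2 * (q + 4)) with hQ | hQ
          · have := main_ge (Q := q + 4) (s := 10) (U := (h0 - 4 - 4 * j) + (h1 - 3 - 4 * j) +
              (h2 - 2 - 4 * j) + (h3 - 1 - 4 * j) + B) hj hd hT hTd hQ (by
                have e : 4 * j * (q + 4) = 4 * j * q + 16 * j := by ring
                rw [e]
                omega)
            exact this
          · obtain ⟨a, ha⟩ : ∃ a, k + 1 = a + 4 * j := ⟨k + 1 - 4 * j, by omega⟩
            have hB := hB1 a (by omega)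
            have := main_le (Q := q + 4) (s := 10) (U := (h0 - 4 - 4 * j) + (h1 - 3 - 4 * j) +
              (h2 - 2 - 4 * j) + (h3 - 1 - 4 * j) + B) hj hd hT hTd hQ ha (by
                have e : (q + 4) * a = a * q + 4 * a := by ring
                rw [e]
                omega)
            exact this

end Pool.Agent.H374
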