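import Mathlib
import Pool.Graph.R_pool_sql_team_seeded_620a6dc7.Helper139_Saxl.Defs
import Pool.Graph.R_pool_sql_team_seeded_620a6dc7.Helper139_Saxl.J04
import Pool.Graph.R_pool_sql_team_seeded_620a6dc7.Helper139_Saxl.J24
import Pool.Agent.H374.A14
import Pool.Agent.H374.A15

set_option autoImplicit false

/-! Shapes which are contained in a rectangle with `k + 1` rows and `k - 1` columns. -/

namespace Pool.Agent.H374

open Finset Pool.Saxl

theorem tail_facts (h : ℕ → ℕ) (hanti : Antitone h) (t m j : ℕ) :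
    ∃ q B H : ℕ, B = ∑ x ∈ range m, (h (t + x) - 4 * j) ∧ H = ∑ x ∈ range m, h (t + x) ∧
      q ≤ m ∧ B + 4 * j * q ≤ H ∧ ∀ b, h t ≤ 4 * j + b → B ≤ b * q := by
  refine ⟨∑ x ∈ range m, (if 4 * j < h (t + x) then 1 else 0), _, _, rfl, rfl, ?_, ?_, ?_⟩
  · refine le_trans (Finset.sum_le_card_nsmul _ _ 1 fun x _ => ?_) (by simp)
    split_ifs <;> omega
  · rw [Finset.mul_sum, ← Finset.sum_add_distrib]
    refine Finset.sum_le_sum fun x _ => ?_
    split_ifs <;> omega
  · intro b hb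
    rw [Finset.mul_sum]
    refine Finset.sum_le_sum fun x _ => ?_
    have := hanti (Nat.le_add_right t x)
    split_ifs <;> omega

theorem tail_le_mul (h : ℕ → ℕ) (hanti : Antitone h) (t m b : ℕ) (hb : h t ≤ b) :
    ∑ x ∈ range m, h (t + x) ≤ m * b := by
  refine le_trans (Finset.sum_le_card_nsmul _ _ b fun x _ => ?_) (by simp)
  exact (hanti (Nat.le_add_right t x)).trans hb

theorem bands3 (k : ℕ) (hk : k % 2 = 1) (hk5 : 5 ≤ k) (h : ℕ → ℕ)
    (hp : IsPart h (k * (k + 1) / 2)) (h0 : h 0 ≤ k + 1) (hW : h (k - 1) = 0) (e : ℤ)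
    (he : e * e = 1) : PVs e (sBands k) (cj h) := by
  obtain ⟨m, hm⟩ : ∃ m, k = m + 4 := ⟨k - 4, by omega⟩
  have h01 : h 1 ≤ h 0 := hp.anti (by omega)
  have h12 : h 2 ≤ h 1 := hp.anti (by omega)
  have h23 : h 3 ≤ h 2 := hp.anti (by omega)
  have hz : ∀ c, 3 + m ≤ c → h c = 0 := by
    intro c hc
    have := hp.anti (show k - 1 ≤ c by omega)
    omega
  have hTk : 2 * (k * (k + 1) / 2) = k * (k + 1) := by
    have := sx23_bandSum k
    have := Dn_eq k
    unfold Dn at this
    omega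
  obtain ⟨Tk, hTk'⟩ : ∃ Tk, Tk = k * (k + 1) / 2 := ⟨_, rfl⟩
  rw [← hTk'] at hTk hp
  have hDk : Dn k = Tk := by rw [Dn_eq, hTk']
  have hsum : h 0 + h 1 + h 2 + ∑ x ∈ range m, h (3 + x) = Tk := by
    have h1 := sx24_sum h Tk (max Tk (3 + m)) hp (le_max_left _ _)
    have h2 : ∑ i ∈ range (max Tk (3 + m)), h i = ∑ i ∈ range (3 + m), h i := by
      symm
      refine Finset.sum_subset (Finset.range_subset_range.2 (le_max_right _ _)) ?_
      intro i _ hi
      exact hz i (by simpa using hi)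
    rw [h2, Finset.sum_range_add] at h1
    simp only [Finset.sum_range_succ, Finset.sum_range_zero, zero_add] at h1
    exact h1
  have hkk : k * (k + 1) = k * k + k := by ring
  have hk5k : 5 * k ≤ k * k := Nat.mul_le_mul_right k hk5
  have c2 : 1 ≤ h 2 := by
    by_contra hc
    have := tail_le_mul h hp.anti 3 m 0 (by omega)
    omega
  have c1 : 2 ≤ h 1 := by
    by_contra hc
    have := tail_le_mul h hp.anti 3 m 1 (by omega)
    omega
  have c0 : 3 ≤ h 0 := by
    by_contra hc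
    have := tail_le_mul h hp.anti 3 m 2 (by omega)
    omega
  have hle : ∀ c, rho 3 c ≤ h c := by
    intro c
    rcases c with _ | _ | _ | c
    · exact c0
    · exact c1
    · exact c2
    · unfold rho
      omega
  have hρ : ∑ c ∈ range (3 + m), rho 3 c = Dn 3 := by
    rw [Finset.sum_range_add]
    have : ∑ x ∈ range m, rho 3 (3 + x) = 0 := Finset.sum_eq_zero fun x _ => by
      unfold rho
      omega
    rw [this]
    rfl
  have hD3 : Dn 3 = 6 := rfl
  obtain ⟨r, hr⟩ : ∃ r, k = 3 + 2 * r := ⟨(k - 3) / 2, by omega⟩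
  have hsplit : ∀ j, ∑ c ∈ range (3 + m), (h c - rho 3 c - 4 * j) =
      (h 0 - 3 - 4 * j) + (h 1 - 2 - 4 * j) + (h 2 - 1 - 4 * j) +
        ∑ x ∈ range m, (h (3 + x) - 4 * j) := by
    intro j
    rw [Finset.sum_range_add]
    refine congrArg₂ (· + ·) ?_ (Finset.sum_congr rfl fun x _ => ?_)
    · simp only [Finset.sum_range_succ, Finset.sum_range_zero, zero_add]
      rfl
    · have : rho 3 (3 + x) = 0 := by
        unfold rho
        omega
      rw [this]
      rfl
  rw [hr]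
  refine chain_cols 3 (3 + m) hρ (fun e he => PVs31 e he) r h hp.anti hz hle ?_ ?_ e he
  · have h1 := hsplit 0
    simp only [Nat.mul_zero, Nat.sub_zero] at h1
    rw [h1, ← hr, hDk, hD3]
    omega
  · intro j hj
    rcases Nat.eq_zero_or_pos j with rfl | hj1
    · have h1 := hsplit 0
      simp only [Nat.mul_zero, Nat.sub_zero] at h1 ⊢
      rw [h1, ← hr, hDk, hD3]
      omega
    · obtain ⟨q, B, H, hB, hH, hq, hB2, hB1⟩ := tail_facts h hp.anti 3 m j
      rw [← hH] at hsum
      have hd : k = (3 + 2 * (r - j)) + 2 * j := by omega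
      have hTd : 2 * Dn (3 + 2 * (r - j)) = (3 + 2 * (r - j)) * (3 + 2 * (r - j) + 1) :=
        sx23_bandSum _
      have := arith3 k j (3 + 2 * (r - j)) (h 0) (h 1) (h 2) (h 3) q B H Tk _ hk hj1 hd (by omega)
        hTk hTd h01 h12 h23 h0 hsum (by omega) hB2 hB1
      rw [hsplit, ← hB, hD3]
      exact this

theorem bands4 (k : ℕ) (hk : k % 2 = 0) (hk6 : 6 ≤ k) (h : ℕ → ℕ)
    (hp : IsPart h (k * (k + 1) / 2)) (h0 : h 0 ≤ k + 1) (hW : h (k - 1) = 0)
    (hex : k = 6 → h 2 ≤ 6) (e : ℤ) (he : e * e = 1) : PVs e (sBands k) (cj h) := by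
  obtain ⟨m, hm⟩ : ∃ m, k = m + 5 := ⟨k - 5, by omega⟩
  have h01 : h 1 ≤ h 0 := hp.anti (by omega)
  have h12 : h 2 ≤ h 1 := hp.anti (by omega)
  have h23 : h 3 ≤ h 2 := hp.anti (by omega)
  have h34 : h 4 ≤ h 3 := hp.anti (by omega)
  have hz : ∀ c, 4 + m ≤ c → h c = 0 := by
    intro c hc
    have := hp.anti (show k - 1 ≤ c by omega)
    omega
  have hTk : 2 * (k * (k + 1) / 2) = k * (k + 1) := by
    have := sx23_bandSum k
    have := Dn_eq k
    unfold Dn at this
    omega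
  obtain ⟨Tk, hTk'⟩ : ∃ Tk, Tk = k * (k + 1) / 2 := ⟨_, rfl⟩
  rw [← hTk'] at hTk hp
  have hDk : Dn k = Tk := by rw [Dn_eq, hTk']
  have hsum : h 0 + h 1 + h 2 + h 3 + ∑ x ∈ range m, h (4 + x) = Tk := by
    have h1 := sx24_sum h Tk (max Tk (4 + m)) hp (le_max_left _ _)
    have h2 : ∑ i ∈ range (max Tk (4 + m)), h i = ∑ i ∈ range (4 + m), h i := by
      symm
      refine Finset.sum_subset (Finset.range_subset_range.2 (le_max_right _ _)) ?_
      intro i _ hi
      exact hz i (by simpa using hi)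
    rw [h2, Finset.sum_range_add] at h1
    simp only [Finset.sum_range_succ, Finset.sum_range_zero, zero_add] at h1
    exact h1
  have hkk : k * (k + 1) = k * k + k := by ring
  have hk5k : 6 * k ≤ k * k := Nat.mul_le_mul_right k hk6
  have c3 : 1 ≤ h 3 := by
    by_contra hc
    have := tail_le_mul h hp.anti 4 m 0 (by omega)
    by_cases hk7 : k = 6
    · have := hex hk7
      subst hk7
      omega
    · have : 8 * k ≤ k * k := Nat.mul_le_mul_right k (by omega)
      omega
  have c2 : 2 ≤ h 2 := by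
    by_contra hc
    have := tail_le_mul h hp.anti 4 m 1 (by omega)
    omega
  have c1 : 3 ≤ h 1 := by
    by_contra hc
    have := tail_le_mul h hp.anti 4 m 2 (by omega)
    omega
  have c0 : 4 ≤ h 0 := by
    by_contra hc
    have := tail_le_mul h hp.anti 4 m 3 (by omega)
    omega
  have hle : ∀ c, rho 4 c ≤ h c := by
    intro c
    rcases c with _ | _ | _ | _ | c
    · exact c0
    · exact c1
    · exact c2
    · exact c3
    · unfold rho
      omega
  have hρ : ∑ c ∈ range (4 + m), rho 4 c = Dn 4 := by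
    rw [Finset.sum_range_add]
    have : ∑ x ∈ range m, rho 4 (4 + x) = 0 := Finset.sum_eq_zero fun x _ => by
      unfold rho
      omega
    rw [this]
    rfl
  have hD4 : Dn 4 = 10 := rfl
  obtain ⟨r, hr⟩ : ∃ r, k = 4 + 2 * r := ⟨(k - 4) / 2, by omega⟩
  have hsplit : ∀ j, ∑ c ∈ range (4 + m), (h c - rho 4 c - 4 * j) =
      (h 0 - 4 - 4 * j) + (h 1 - 3 - 4 * j) + (h 2 - 2 - 4 * j) + (h 3 - 1 - 4 * j) +
        ∑ x ∈ range m, (h (4 + x) - 4 * j) := by
    intro j
    rw [Finset.sum_range_add]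
    refine congrArg₂ (· + ·) ?_ (Finset.sum_congr rfl fun x _ => ?_)
    · simp only [Finset.sum_range_succ, Finset.sum_range_zero, zero_add]
      rfl
    · have : rho 4 (4 + x) = 0 := by
        unfold rho
        omega
      rw [this]
      rfl
  rw [hr]
  refine chain_cols 4 (4 + m) hρ (fun e he => PVs42 e he) r h hp.anti hz hle ?_ ?_ e he
  · have h1 := hsplit 0
    simp only [Nat.mul_zero, Nat.sub_zero] at h1
    rw [h1, ← hr, hDk, hD4]
    omega
  · intro j hj
    rcases Nat.eq_zero_or_pos j with rfl | hj1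
    · have h1 := hsplit 0
      simp only [Nat.mul_zero, Nat.sub_zero] at h1 ⊢
      rw [h1, ← hr, hDk, hD4]
      omega
    · obtain ⟨q, B, H, hB, hH, hq, hB2, hB1⟩ := tail_facts h hp.anti 4 m j
      rw [← hH] at hsum
      have hd : k = (4 + 2 * (r - j)) + 2 * j := by omega
      have hTd : 2 * Dn (4 + 2 * (r - j)) = (4 + 2 * (r - j)) * (4 + 2 * (r - j) + 1) :=
        sx23_bandSum _
      have := arith4 k j (4 + 2 * (r - j)) (h 0) (h 1) (h 2) (h 3) (h 4) q B H Tk _ hk hk6 hj1 hd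
        (by omega) hTk hTd h01 h12 h23 h34 h0 hex hsum (by omega) hB2 hB1
      rw [hsplit, ← hB, hD4]
      exact this

/-- shapes in a small rectangle -/
theorem SS_box (k : ℕ) (hk5 : 5 ≤ k) (mu : ℕ → ℕ) (hmu : IsPart mu (k * (k + 1) / 2))
    (h0 : mu 0 < k) (h1 : cj mu 0 ≤ k + 1) (hex : k = 6 → cj mu 2 ≤ 6) (e : ℤ)
    (he : e * e = 1) : SS e (rho k) mu := by
  have hp := isPart_cj mu _ hmu
  have hW : cj mu (k - 1) = 0 := by
    by_contra hne
    have h2 : 0 < cj mu (k - 1) := Nat.pos_of_ne_zero hne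
    rw [lt_cj_iff mu _ hmu] at h2
    omega
  apply SS_of_PVs
  rw [← cj_cj mu _ hmu]
  rcases Nat.mod_two_eq_zero_or_one k with hk | hk
  · exact bands4 k hk (by omega) (cj mu) hp h1 hW hex e he
  · exact bands3 k hk hk5 (cj mu) hp h1 hW e he

end Pool.Agent.H374
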