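import Mathlib
import Pool.Graph.R_pool_sql_team_seeded_620a6dc7.Helper139_Saxl.Defs
import Pool.Graph.R_pool_sql_team_seeded_620a6dc7.Helper139_Saxl.J04
import Pool.Graph.R_pool_sql_team_seeded_620a6dc7.Helper139_Saxl.J24
import Pool.Agent.H374.A06
import Pool.Agent.H374.A14

set_option autoImplicit false

/-! Chains of strips for rule Y. -/

namespace Pool.Agent.H374

open Finset Pool.Saxl

theorem tri_two (k : ℕ) : 2 * (k * (k + 1) / 2) = k * (k + 1) := by
  have := sx23_bandSum k
  have := Dn_eq k
  unfold Dn at this
  omega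

theorem strip_part {kap kap' : ℕ → ℕ} {n z m : ℕ} (hk : IsPart kap n) (hs : HStrip kap kap')
    (hsum : ∑ i ∈ range n, kap' i + z = n) (hm : m + z = n) : IsPart kap' m := by
  refine sx24_isPart kap' n m (antitone_nat_of_succ_le fun i => (hs (i + 1)).1.trans (hs i).2) ?_
    (by omega)
  intro i hi
  have h1 := hk.zero i hi
  have h2 := (hs i).1
  omega

theorem tele {kap kap' a : ℕ → ℕ} (h : ∀ i, kap' i + a i = kap i + a (i + 1)) (N : ℕ) :
    ∑ i ∈ range N, kap' i + a 0 = ∑ i ∈ range N, kap i + a N := by
  induction N with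
  | zero => simp
  | succ N ih =>
    rw [Finset.sum_range_succ, Finset.sum_range_succ]
    have := h N
    omega

/-- removal of a strip, from the bottom -/
theorem strip_low {kap : ℕ → ℕ} {n z m : ℕ} (hk : IsPart kap n) (hz : z ≤ kap 0) (hm : m + z = n) :
    ∃ kap', IsPart kap' m ∧ HStrip kap kap' ∧
      ∀ i, kap' i + min z (kap i) = kap i + min z (kap (i + 1)) := by
  have hex : ∀ i, ∃ x, x + min z (kap i) = kap i + min z (kap (i + 1)) := by
    intro i
    exact ⟨kap i + min z (kap (i + 1)) - min z (kap i), by omega⟩
  choose kap' h using hex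
  have hs : HStrip kap kap' := by
    intro i
    have h1 := h i
    have h2 := hk.anti (Nat.le_succ i)
    have h3 : kap (i + 1) ≤ kap i := h2
    constructor <;> omega
  refine ⟨kap', strip_part hk hs ?_ hm, hs, h⟩
  have h1 := tele (a := fun i => min z (kap i)) h n
  have h2 := hk.zero n le_rfl
  have h3 := hk.sum
  rw [h2] at h1
  omega

/-- removal of a strip, from the bottom, such that all rows survive -/
theorem strip_low' {kap : ℕ → ℕ} {n z m : ℕ} (hk : IsPart kap n) (hz : z + 1 ≤ kap 0)
    (hm : m + z = n) :
    ∃ kap', IsPart kap' m ∧ HStrip kap kap' ∧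
      ∀ i, kap' i + min z (kap i - 1) = kap i + min z (kap (i + 1) - 1) := by
  have hex : ∀ i, ∃ x, x + min z (kap i - 1) = kap i + min z (kap (i + 1) - 1) := by
    intro i
    exact ⟨kap i + min z (kap (i + 1) - 1) - min z (kap i - 1), by omega⟩
  choose kap' h using hex
  have hs : HStrip kap kap' := by
    intro i
    have h1 := h i
    have h2 := hk.anti (Nat.le_succ i)
    have h3 : kap (i + 1) ≤ kap i := h2
    constructor <;> omega
  refine ⟨kap', strip_part hk hs ?_ hm, hs, h⟩
  have h1 := tele (a := fun i => min z (kap i - 1)) h n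
  have h2 := hk.zero n le_rfl
  have h3 := hk.sum
  rw [h2] at h1
  omega

/-- removal of a strip, from the top -/
theorem strip_top {kap : ℕ → ℕ} {n z m : ℕ} (hk : IsPart kap n) (hz : z ≤ kap 0) (hm : m + z = n) :
    ∃ kap', IsPart kap' m ∧ HStrip kap kap' ∧
      ∀ i, kap' i + min z (kap 0 - kap (i + 1)) = kap i + min z (kap 0 - kap i) := by
  have hex : ∀ i, ∃ x, x + min z (kap 0 - kap (i + 1)) = kap i + min z (kap 0 - kap i) := by
    intro i
    have h3 : kap (i + 1) ≤ kap i := hk.anti (Nat.le_succ i)
    exact ⟨kap i + min z (kap 0 - kap i) - min z (kap 0 - kap (i + 1)), by omega⟩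
  choose kap' h using hex
  have hs : HStrip kap kap' := by
    intro i
    have h1 := h i
    have h3 : kap (i + 1) ≤ kap i := hk.anti (Nat.le_succ i)
    have h4 : kap i ≤ kap 0 := hk.anti (Nat.zero_le i)
    constructor <;> omega
  refine ⟨kap', strip_part hk hs ?_ hm, hs, h⟩
  have h5 : ∀ i, kap i + min z (kap 0 - kap i) = kap' i + min z (kap 0 - kap (i + 1)) :=
    fun i => (h i).symm
  have h1 := tele (kap := kap') (kap' := kap) (a := fun i => min z (kap 0 - kap i)) h5 n
  have h2 := hk.zero n le_rfl
  have h3 := hk.sum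
  rw [h2] at h1
  omega

/-- sum of the first three rows -/
theorem three_rows {kap : ℕ → ℕ} {n : ℕ} (hk : IsPart kap n) :
    kap 0 + kap 1 + kap 2 ≤ n ∧ (kap 3 = 0 → kap 0 + kap 1 + kap 2 = n) := by
  have h1 := sx24_sum kap n (n + 3) hk (by omega)
  have h2 : n + 3 = 3 + n := by omega
  rw [h2, Finset.sum_range_add] at h1
  simp only [Finset.sum_range_succ, Finset.sum_range_zero, zero_add] at h1
  refine ⟨by omega, fun h3 => ?_⟩
  have h4 : ∑ x ∈ range n, kap (3 + x) = 0 := Finset.sum_eq_zero fun x _ => by
    have := hk.anti (Nat.le_add_right 3 x)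
    omega
  omega

/-- the shape `(4, 1, 1)` at level 3 -/
theorem good3 {kap : ℕ → ℕ} (h0 : kap 0 = 4) (h1 : kap 1 = 1) (hk : IsPart kap 6) : Good 3 kap := by
  obtain ⟨kap', hp, hs, hf⟩ := strip_top (z := 3) (m := 3) hk (by omega) (by omega)
  refine Good.step 2 kap kap' hk hs (Good.base 2 kap' hp ?_)
  have := hf 0
  rw [show (0 : ℕ) + 1 = 1 from rfl, h0, h1] at this
  omega

theorem claimY (j : ℕ) : 4 ≤ j → ∀ kap : ℕ → ℕ, IsPart kap (j * (j + 1) / 2) → 1 ≤ kap 2 →
    j + 2 ≤ kap 0 → ∃ kap', HStrip kap kap' ∧ Good (j - 1) kap' := by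
  induction j with
  | zero => intro h; omega
  | succ j ih =>
    intro hj kap hk hk2 hk0
    have e1 : j + 1 - 1 = j := by omega
    rw [e1]
    have hT := tri_succ j
    have hT2 := tri_two j
    obtain ⟨T, hTe⟩ : ∃ T, T = j * (j + 1) / 2 := ⟨_, rfl⟩
    have e2 : (j + 1) * (j + 1 + 1) / 2 = T + (j + 1) := by
      rw [hTe]
      exact hT
    rw [e2] at hk
    rw [← hTe] at hT2
    obtain ⟨t1, t2⟩ := three_rows hk
    have a01 : kap 1 ≤ kap 0 := hk.anti (by omega)
    have a12 : kap 2 ≤ kap 1 := hk.anti (by omega)
    have a23 : kap 3 ≤ kap 2 := hk.anti (by omega)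
    have e3 : j * (j + 1) = j * j + j := by ring
    -- how to finish by induction
    have hind : ∀ kap', IsPart kap' T → HStrip kap kap' → 1 ≤ kap' 2 → j + 2 ≤ kap' 0 → 4 ≤ j →
        ∃ kap', HStrip kap kap' ∧ Good j kap' := by
      intro kap' hp hs h2 h0 h4
      obtain ⟨kap'', hs', hG⟩ := ih h4 kap' (by rw [← hTe]; exact hp) h2 h0
      refine ⟨kap', hs, ?_⟩
      obtain ⟨i, hi⟩ : ∃ i, j = i + 1 := ⟨j - 1, by omega⟩
      subst hi
      refine Good.step i kap' kap'' ?_ hs' hG
      rw [hTe] at hp
      exact hp
    by_cases hS : kap 0 + kap 1 ≤ 2 * (j + 1)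
    · by_cases hA : kap 0 + 2 ≤ 2 * (j + 1)
      · -- the base
        obtain ⟨kap', hp, hs, hf⟩ := strip_top (z := j + 1) (m := T) hk (by omega) rfl
        refine ⟨kap', hs, Good.base j kap' (by rw [← hTe]; exact hp) ?_⟩
        have := hf 0
        rw [show (0 : ℕ) + 1 = 1 from rfl] at this
        omega
      · -- the hook
        have b0 : kap 0 = 2 * j + 1 := by omega
        have b1 : kap 1 = 1 := by omega
        obtain ⟨kap', hp, hs, hf⟩ := strip_top (z := j + 1) (m := T) hk (by omega) rfl
        have c0 : kap' 0 = j := by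
          have := hf 0
          rw [show (0 : ℕ) + 1 = 1 from rfl] at this
          omega
        obtain ⟨i, hi⟩ : ∃ i, j = i + 1 := ⟨j - 1, by omega⟩
        subst hi
        have hT' := tri_succ i
        have hp' : IsPart kap' (i * (i + 1) / 2 + (i + 1)) := by
          rw [← hT', ← hTe]
          exact hp
        obtain ⟨kap'', hp'', hs'', hf''⟩ := strip_low (z := i + 1) (m := i * (i + 1) / 2) hp'
          (by omega) rfl
        refine ⟨kap', hs, Good.step i kap' kap'' (by rw [hT']; exact hp') hs''
          (Good.base i kap'' hp'' ?_)⟩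
        have c1 : kap' 1 ≤ 1 := (hs 1).1.trans b1.le
        have := hf'' 0
        rw [show (0 : ℕ) + 1 = 1 from rfl] at this
        omega
    · by_cases hj4 : j = 3
      · -- level 4
        subst hj4
        have hT6 : T = 6 := by omega
        subst hT6
        have b2 : kap 2 = 1 := by omega
        have b3 : kap 3 = 0 := by
          by_contra hne
          have h1 := sx24_sum kap (6 + (3 + 1)) (6 + (3 + 1) + 4) hk (by omega)
          have h2 : 6 + (3 + 1) + 4 = 4 + 10 := by norm_num
          rw [h2, Finset.sum_range_add] at h1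
          simp only [Finset.sum_range_succ, Finset.sum_range_zero, zero_add] at h1
          omega
        have b01 := t2 b3
        set kap' : ℕ → ℕ := fun i => if i = 0 then 4 else if i = 1 then 1 else if i = 2 then 1 else 0
          with hkap'
        have hs : HStrip kap kap' := by
          intro i
          have hz : ∀ i, 3 ≤ i → kap i = 0 := fun i hi => by
            have := hk.anti hi
            omega
          rcases i with _ | _ | _ | i
          · exact ⟨by show 4 ≤ kap 0; omega, by show kap 1 ≤ 4; omega⟩
          · exact ⟨by show 1 ≤ kap 1; omega, by show kap 2 ≤ 1; omega⟩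
          · exact ⟨by show 1 ≤ kap 2; omega, by show kap 3 ≤ 1; omega⟩
          · exact ⟨Nat.zero_le _, by show kap (i + 3 + 1) ≤ 0; rw [hz _ (by omega)]⟩
        have hp : IsPart kap' 6 := strip_part (n := 10) (z := 4) hk hs (by decide) (by norm_num)
        exact ⟨kap', hs, good3 rfl rfl hp⟩
      · by_cases hS2 : 2 * (j + 1) + 2 ≤ kap 0 + kap 1
        · obtain ⟨kap', hp, hs, hf⟩ := strip_low' (z := j + 1) (m := T) hk (by omega) rfl
          have c0 := hf 0
          have c2 := hf 2
          rw [show (0 : ℕ) + 1 = 1 from rfl] at c0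
          exact hind kap' hp hs (by omega) (by omega) (by omega)
        · by_cases h3 : 1 ≤ kap 3
          · obtain ⟨kap', hp, hs, hf⟩ := strip_low (z := j + 1) (m := T) hk (by omega) rfl
            have c0 := hf 0
            have c2 := (hs 2).2
            rw [show (0 : ℕ) + 1 = 1 from rfl] at c0
            exact hind kap' hp hs (h3.trans c2) (by omega) (by omega)
          · -- the shape `(7, 4, 4)`
            have b3 : kap 3 = 0 := by omega
            have b01 := t2 b3
            have hj5 : j = 4 := by
              by_contra hne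
              have : 5 * j ≤ j * j := Nat.mul_le_mul_right j (by omega)
              omega
            subst hj5
            have hT10 : T = 10 := by omega
            subst hT10
            set kap' : ℕ → ℕ := fun i => if i = 0 then 5 else if i = 1 then 4 else
              if i = 2 then 1 else 0 with hkap'
            have hz : ∀ i, 3 ≤ i → kap i = 0 := fun i hi => by
              have := hk.anti hi
              omega
            have hs : HStrip kap kap' := by
              intro i
              rcases i with _ | _ | _ | i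
              · exact ⟨by show 5 ≤ kap 0; omega, by show kap 1 ≤ 5; omega⟩
              · exact ⟨by show 4 ≤ kap 1; omega, by show kap 2 ≤ 4; omega⟩
              · exact ⟨by show 1 ≤ kap 2; omega, by show kap 3 ≤ 1; omega⟩
              · exact ⟨Nat.zero_le _, by show kap (i + 3 + 1) ≤ 0; rw [hz _ (by omega)]⟩
            have hp : IsPart kap' 10 :=
              strip_part (n := 15) (z := 5) hk hs (by decide) (by norm_num)
            set kap'' : ℕ → ℕ := fun i => if i = 0 then 4 else if i = 1 then 1 else
              if i = 2 then 1 else 0 with hkap''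
            have hs' : HStrip kap' kap'' := by
              intro i
              rcases i with _ | _ | _ | i
              · exact ⟨by show 4 ≤ 5; omega, by show 4 ≤ 4; omega⟩
              · exact ⟨by show 1 ≤ 4; omega, by show 1 ≤ 1; omega⟩
              · exact ⟨by show 1 ≤ 1; omega, by show 0 ≤ 1; omega⟩
              · exact ⟨Nat.zero_le _, by show 0 ≤ 0; omega⟩
            have hp' : IsPart kap'' 6 :=
              strip_part (n := 10) (z := 4) hp hs' (by decide) (by norm_num)
            exact ⟨kap', hs, Good.step 3 kap' kap'' hp hs' (good3 rfl rfl hp')⟩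

end Pool.Agent.H374
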