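import Mathlib
import Pool.Graph.R_pool_sql_team_seeded_620a6dc7.Helper139_Saxl.Defs
import Pool.Graph.R_pool_sql_team_seeded_620a6dc7.Helper139_Saxl.J04
import Pool.Graph.R_pool_sql_team_seeded_620a6dc7.Helper139_Saxl.J24
import Pool.Agent.H374.A10
import Pool.Agent.H374.A16
import Pool.Agent.H374.A17

set_option autoImplicit false

/-! The symmetric square of the staircase: all shapes. -/

namespace Pool.Agent.H374

open Finset Pool.Saxl

theorem vstrip_tc {b n b' n' : ℕ} (h1 : b' ≤ b) (h2 : n' + b ≤ n + b') (h3 : b + b' ≤ n') :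
    VStrip (tc b n) (tc b' n') := by
  intro i
  unfold tc
  constructor
  · split_ifs <;> omega
  · split_ifs <;> omega

theorem YV_two (i : ℕ) : ∀ b, 3 ≤ b → 2 * b ≤ (i + 5) * (i + 6) / 2 →
    YV (-1) (i + 5) (i + 2) 6 (tc b ((i + 5) * (i + 6) / 2)) := by
  induction i with
  | zero =>
    intro b hb h2b
    have e5 : (0 + 5) * (0 + 6) / 2 = 15 := by norm_num
    rw [e5] at h2b ⊢
    have h4 : YV (-1) 4 1 6 (tc 3 10) := by
      refine YV_step (-1) 3 0 6 (tc 3 10) (tc 3 6) (isPart_tc (by norm_num)) ?_ YV3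
      exact vstrip_tc (by norm_num) (by norm_num) (by norm_num)
    refine YV_step (-1) 4 1 6 (tc b 15) (tc 3 10) (isPart_tc (by omega)) ?_ h4
    exact vstrip_tc hb (by omega) (by omega)
  | succ i ih =>
    intro b hb h2b
    have hT := tri_succ (i + 5)
    have hT2 := tri_two (i + 5)
    have e1 : (i + 1 + 5) * (i + 1 + 6) / 2 = (i + 5 + 1) * (i + 5 + 2) / 2 := by
      congr 1
    obtain ⟨T, hTe⟩ : ∃ T, T = (i + 5) * (i + 6) / 2 := ⟨_, rfl⟩
    have e2 : (i + 5) * (i + 5 + 1) / 2 = T := by rw [hTe]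
    have hT15 : 15 + i * 5 ≤ T := by
      rw [e2] at hT2
      have e3 : (i + 5) * (i + 5 + 1) = i * i + 11 * i + 30 := by ring
      omega
    rw [e1, hT, e2] at h2b ⊢
    rw [← hTe] at ih
    have e4 : T + (i + 5 + 1) = (i + 5 + 1) * (i + 5 + 2) / 2 := by rw [hT, e2]
    by_cases hc : b ≤ i + 9
    · refine YV_step (-1) (i + 5) (i + 2) 6 _ (tc 3 T) ?_ ?_ (ih 3 le_rfl (by omega))
      · rw [← e4]
        exact isPart_tc h2b
      · exact vstrip_tc hb (by omega) (by omega)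
    · refine YV_step (-1) (i + 5) (i + 2) 6 _ (tc (b - (i + 6)) T) ?_ ?_
        (ih (b - (i + 6)) (by omega) (by omega))
      · rw [← e4]
        exact isPart_tc h2b
      · exact vstrip_tc (by omega) (by omega) (by omega)

theorem SS_two (k b : ℕ) (hk : 5 ≤ k) (hb : 3 ≤ b) (h2b : 2 * b ≤ k * (k + 1) / 2) (eps : ℤ) :
    SS eps (rho k) (tc b (k * (k + 1) / 2)) := by
  obtain ⟨i, rfl⟩ : ∃ i, k = i + 5 := ⟨k - 5, by omega⟩
  have := YV_two i b hb h2b
  exact SS_of_YV (-1) (i + 5) (i + 2) 6 _ this (Or.inr ⟨rfl, by omega⟩) eps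

theorem eq_tc {mu : ℕ → ℕ} {n : ℕ} (hmu : IsPart mu n) (h : mu 0 ≤ 2) :
    2 * cj mu 1 ≤ n ∧ mu = tc (cj mu 1) n := by
  have hp := isPart_cj mu n hmu
  have h2 : cj mu 2 = 0 := by
    by_contra hne
    have h3 : 0 < cj mu 2 := Nat.pos_of_ne_zero hne
    rw [lt_cj_iff mu n hmu] at h3
    omega
  have h3 : cj mu 3 = 0 := by
    have : cj mu 3 ≤ cj mu 2 := hp.anti (by omega)
    omega
  have h4 := (three_rows hp).2 h3
  have h5 : cj mu 1 ≤ cj mu 0 := hp.anti (by omega)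
  refine ⟨by omega, ?_⟩
  funext i
  have h6 : mu i ≤ mu 0 := hmu.anti (Nat.zero_le i)
  have h7 := lt_cj_iff mu n hmu i 0
  have h8 := lt_cj_iff mu n hmu i 1
  unfold tc
  by_cases c1 : i < cj mu 1
  · have := h8.1 c1
    rw [if_pos c1]
    omega
  · have h9 : ¬ 1 < mu i := fun h => c1 (h8.2 h)
    rw [if_neg c1]
    by_cases c0 : i < cj mu 0
    · have := h7.1 c0
      rw [if_pos (by omega)]
      omega
    · have h10 : ¬ 0 < mu i := fun h => c0 (h7.2 h)
      rw [if_neg (by omega)]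
      omega

theorem SS_zero (mu : ℕ → ℕ) (hmu : IsPart mu 0) : SS 1 (rho 0) mu := by
  have h0 : mu = fun _ => 0 := by
    funext i
    exact hmu.zero i (Nat.zero_le i)
  have h1 : rho 0 = fun _ => 0 := by
    funext i
    simp [rho]
  rw [h0, h1]
  have hT : IsTab (fun _ : Fin 0 => 0) (fun _ : Fin 0 => 0) (fun _ => 0) := by
    refine ⟨fun x => x.elim0, fun x => x.elim0, fun i => ?_⟩
    simp
  refine ⟨0, _, _, _, _, _, _, hT, hT, hT, fun _ => 0, fun _ => 0, fun _ => 0, ?_⟩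
  rw [tw_TT]
  decide

end Pool.Agent.H374
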