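import Mathlib
import Pool.Graph.R_pool_sql_team_seeded_620a6dc7.Helper139_Saxl.Defs
import Pool.Graph.R_pool_sql_team_seeded_620a6dc7.Helper139_Saxl.J04
import Pool.Graph.R_pool_sql_team_seeded_620a6dc7.Helper139_Saxl.J24
import Pool.Agent.H374.A18

set_option autoImplicit false

/-! The symmetric square of the staircase: all shapes. -/

namespace Pool.Agent.H374

open Finset Pool.Saxl

theorem cj_zero_le {mu nu : ℕ → ℕ} {n m : ℕ} (hmu : IsPart mu n) (hnu : IsPart nu m)
    (h : ∀ i, nu i ≤ mu i) : cj nu 0 ≤ cj mu 0 := by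
  apply le_of_forall_lt
  intro i hi
  rw [lt_cj_iff nu m hnu] at hi
  rw [lt_cj_iff mu n hmu]
  exact hi.trans_le (h i)

/-- the shapes with at least `k` columns -/
theorem SS_H (k : ℕ) (mu : ℕ → ℕ) (hmu : IsPart mu ((k + 1) * (k + 2) / 2)) (h : k + 1 ≤ mu 0) :
    ∃ nu, IsPart nu (k * (k + 1) / 2) ∧ HStrip mu nu ∧
      (∀ i, nu i + min (k + 1) (mu i) = mu i + min (k + 1) (mu (i + 1))) ∧
      (SS 1 (rho k) nu → SS 1 (rho (k + 1)) mu) := by
  have hmu' := hmu
  rw [tri_succ] at hmu'
  obtain ⟨nu, hp, hs, hf⟩ := strip_low hmu' h rfl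
  exact ⟨nu, hp, hs, hf, fun hS => SS_step 1 k mu nu hmu hs hS⟩

theorem cj_tc_zero {n : ℕ} (hn : 1 ≤ n) : cj (tc 0 n) 0 = n := by
  have hp : IsPart (tc 0 n) n := isPart_tc (by omega)
  apply le_antisymm
  · apply le_of_forall_lt
    intro i hi
    rw [lt_cj_iff _ _ hp] at hi
    unfold tc at hi
    by_contra hc
    rw [if_neg (by omega), if_neg (by omega)] at hi
    omega
  · have : n - 1 < cj (tc 0 n) 0 := by
      rw [lt_cj_iff _ _ hp]
      unfold tc
      rw [if_neg (by omega), if_pos (by omega)]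
      omega
    omega

/-- shapes with at most two columns, when there are few exceptions -/
theorem SS_le2 (k : ℕ) (hk : 3 ≤ k) (mu : ℕ → ℕ) (hmu : IsPart mu (k * (k + 1) / 2))
    (h0 : mu 0 ≤ 2) (hex : ¬ (k % 4 = 2 ∧ mu = tc 0 (k * (k + 1) / 2)))
    (h3 : ∀ b, 3 < b → 2 * b ≤ k * (k + 1) / 2 → SS 1 (rho k) (tc b (k * (k + 1) / 2)))
    (h32 : k % 4 = 2 → SS 1 (rho k) (tc 3 (k * (k + 1) / 2))) : SS 1 (rho k) mu := by
  obtain ⟨h1, h2⟩ := eq_tc hmu h0
  rw [h2]
  by_cases hb : 3 < cj mu 1
  · exact h3 _ hb h1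
  · by_cases hk4 : k % 4 = 2
    · have hb0 : cj mu 1 ≠ 0 := by
        intro hb0
        rw [hb0] at h2
        exact hex ⟨hk4, h2⟩
      by_cases hb2 : cj mu 1 ≤ 2
      · exact special2 k _ hk hk4 (by omega) hb2
      · have : cj mu 1 = 3 := by omega
        rw [this]
        exact h32 hk4
    · by_cases hb0 : cj mu 1 = 0
      · rw [hb0]
        exact special0 k (by omega) hk4
      · exact special3 k _ hk hk4 (by omega) (by omega)

/-- the large staircases -/
theorem SS_large (k : ℕ) (hk : 5 ≤ k + 1)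
    (ih : ∀ nu : ℕ → ℕ, IsPart nu (k * (k + 1) / 2) →
      ¬ (k % 4 = 2 ∧ nu = tc 0 (k * (k + 1) / 2)) → SS 1 (rho k) nu)
    (mu : ℕ → ℕ) (hmu : IsPart mu ((k + 1) * (k + 2) / 2))
    (hex : ¬ ((k + 1) % 4 = 2 ∧ mu = tc 0 ((k + 1) * (k + 2) / 2))) :
    SS 1 (rho (k + 1)) mu := by
  have hp := isPart_cj mu _ hmu
  by_cases hl : cj mu 0 ≤ k + 2
  · by_cases h0 : k + 1 ≤ mu 0
    · obtain ⟨nu, hnu, hs, -, hS⟩ := SS_H k mu hmu h0
      refine hS (ih nu hnu ?_)
      rintro ⟨-, h1⟩
      have h2 := cj_zero_le hmu hnu fun i => (hs i).1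
      have hT2 := tri_two k
      have e3 : k * (k + 1) = k * k + k := by ring
      have e4 : 4 * k ≤ k * k := Nat.mul_le_mul_right k (by omega)
      rw [h1, cj_tc_zero (by omega)] at h2
      omega
    · by_cases h6 : k + 1 = 6 → cj mu 2 ≤ 6
      · exact SS_box (k + 1) hk mu hmu (by omega) hl h6 1 (by norm_num)
      · push Not at h6
        obtain ⟨hk6, h7⟩ := h6
        have hk5 : k = 5 := by omega
        subst hk5
        have hp' : IsPart (cj mu) 21 := hp
        have a01 : cj mu 1 ≤ cj mu 0 := hp.anti (by omega)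
        have a12 : cj mu 2 ≤ cj mu 1 := hp.anti (by omega)
        obtain ⟨kap, hkap, hs, hf⟩ := strip_low' (z := 6) (m := 15) hp' (by omega) rfl
        have c0 := hf 0
        have c2 := hf 2
        rw [show (0 : ℕ) + 1 = 1 from rfl] at c0
        have t1 := (three_rows hp').1
        obtain ⟨kap', hs', hG⟩ := claimY 5 (by norm_num) kap hkap (by omega) (by omega)
        exact SS_of_good 1 5 mu kap hmu hs (Good.step 4 kap kap' hkap hs' hG)
  · by_cases h2 : 3 ≤ mu 0
    · have h3 : 1 ≤ cj mu 2 := by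
        have : 0 < cj mu 2 := (lt_cj_iff mu _ hmu 0 2).2 h2
        exact this
      obtain ⟨kap', hs', hG⟩ := claimY (k + 1) (by omega) (cj mu) hp h3 (by omega)
      exact SS_of_good 1 k mu kap' hmu hs' hG
    · refine SS_le2 (k + 1) (by omega) mu hmu (by omega) hex ?_ ?_
      · intro b hb h2b
        exact SS_two (k + 1) b hk (by omega) h2b 1
      · intro h4
        refine SS_two (k + 1) 3 hk le_rfl ?_ 1
        have hT2 := tri_two (k + 1)
        have e3 : (k + 1) * (k + 1 + 1) = k * k + 3 * k + 2 := by ring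
        have e4 : 4 * k ≤ k * k := Nat.mul_le_mul_right k (by omega)
        omega

theorem SS_one (mu : ℕ → ℕ) (hmu : IsPart mu 1) : SS 1 (rho 1) mu := by
  have h1 : mu 0 = 1 := by
    have := hmu.sum
    simpa using this
  obtain ⟨nu, hnu, -, -, hS⟩ := SS_H 0 mu hmu (by omega)
  exact hS (SS_zero nu hnu)

theorem isPart_pos {mu : ℕ → ℕ} {n : ℕ} (h : IsPart mu n) (hn : 1 ≤ n) : 1 ≤ mu 0 := by
  by_contra hc
  have h1 : ∑ i ∈ range n, mu i = 0 := Finset.sum_eq_zero fun i _ => by
    have := h.anti (Nat.zero_le i)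
    omega
  rw [h.sum] at h1
  omega

theorem SS_k2 (mu : ℕ → ℕ) (hmu : IsPart mu 3) (hex : mu ≠ tc 0 3) : SS 1 (rho 2) mu := by
  by_cases h0 : 2 ≤ mu 0
  · obtain ⟨nu, hnu, -, -, hS⟩ := SS_H 1 mu hmu h0
    exact hS (SS_one nu hnu)
  · exfalso
    apply hex
    obtain ⟨h1, h2⟩ := eq_tc hmu (by omega)
    have : cj mu 1 = 0 := by
      by_contra hne
      have h3 : 0 < cj mu 1 := Nat.pos_of_ne_zero hne
      rw [lt_cj_iff mu 3 hmu] at h3
      omega
    rw [this] at h2
    exact h2

theorem SS_k3 (mu : ℕ → ℕ) (hmu : IsPart mu 6) : SS 1 (rho 3) mu := by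
  by_cases h0 : 3 ≤ mu 0
  · obtain ⟨nu, hnu, hs, hf, hS⟩ := SS_H 2 mu hmu h0
    have hf0 := hf 0
    rw [show (0 : ℕ) + 1 = 1 from rfl] at hf0
    obtain ⟨t1, t2⟩ := three_rows hmu
    have a12 : mu 2 ≤ mu 1 := hmu.anti (by omega)
    have a23 : mu 3 ≤ mu 2 := hmu.anti (by omega)
    by_cases h1 : nu = tc 0 3
    · -- the shape `(3, 1, 1, 1)`
      have b0 : nu 0 = 1 := by rw [h1]; rfl
      have c0 : mu 0 = 3 := by omega
      have c1 : mu 1 = 1 := by omega
      have hp := isPart_cj mu 6 hmu
      have d3 : cj mu 3 = 0 := by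
        by_contra hne
        have h3 : 0 < cj mu 3 := Nat.pos_of_ne_zero hne
        rw [lt_cj_iff mu 6 hmu] at h3
        omega
      have d1 : cj mu 1 = 1 := by
        apply le_antisymm
        · by_contra hne
          have h3 : 1 < cj mu 1 := by omega
          rw [lt_cj_iff mu 6 hmu] at h3
          omega
        · exact (lt_cj_iff mu 6 hmu 0 1).2 (by omega)
      have d2 : cj mu 2 = 1 := by
        apply le_antisymm
        · have := hp.anti (show 1 ≤ 2 by omega)
          omega
        · exact (lt_cj_iff mu 6 hmu 0 2).2 (by omega)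
      have d0 := (three_rows hp).2 d3
      obtain ⟨kap, hk, hs', hf'⟩ := strip_top (z := 3) (m := 3) hp (by omega) rfl
      refine SS_of_good 1 2 mu kap hmu hs' (Good.base 2 kap hk ?_)
      have := hf' 0
      rw [show (0 : ℕ) + 1 = 1 from rfl] at this
      omega
    · exact hS (SS_k2 nu hnu h1)
  · refine SS_le2 3 le_rfl mu hmu (by omega) (by omega) ?_ (by omega)
    intro b hb h2b
    have : 2 * b ≤ 6 := h2b
    omega

theorem ls_ext {mu : ℕ → ℕ} {n : ℕ} (hmu : IsPart mu n) (L : List ℕ)
    (h : ∀ i, i < L.length → mu i = L.getD i 0) (hz : mu L.length = 0) : mu = ls L := by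
  funext i
  unfold ls
  by_cases hi : i < L.length
  · exact h i hi
  · have h1 := hmu.anti (not_lt.1 hi)
    rw [List.getD_eq_default _ _ (not_lt.1 hi)]
    omega

theorem SS_k4 (mu : ℕ → ℕ) (hmu : IsPart mu 10) : SS 1 (rho 4) mu := by
  by_cases h0 : 4 ≤ mu 0
  · obtain ⟨nu, hnu, -, -, hS⟩ := SS_H 3 mu hmu h0
    exact hS (SS_k3 nu hnu)
  · by_cases h2 : 3 ≤ mu 0
    · have hp := isPart_cj mu 10 hmu
      have d3 : cj mu 3 = 0 := by
        by_contra hne
        have h3 : 0 < cj mu 3 := Nat.pos_of_ne_zero hne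
        rw [lt_cj_iff mu 10 hmu] at h3
        omega
      have d2 : 1 ≤ cj mu 2 := (lt_cj_iff mu 10 hmu 0 2).2 (by omega)
      have d0 := (three_rows hp).2 d3
      have a01 : cj mu 1 ≤ cj mu 0 := hp.anti (by omega)
      have a12 : cj mu 2 ≤ cj mu 1 := hp.anti (by omega)
      by_cases c2 : cj mu 2 = 1
      · by_cases c1 : cj mu 1 ≤ 4
        · set kap' : ℕ → ℕ := fun i => if i = 0 then 4 else if i = 1 then 1 else
            if i = 2 then 1 else 0 with hkap'
          have hs : HStrip (cj mu) kap' := by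
            intro i
            have hz : ∀ i, 3 ≤ i → cj mu i = 0 := fun i hi => by
              have := hp.anti hi
              omega
            rcases i with _ | _ | _ | i
            · exact ⟨by show 4 ≤ cj mu 0; omega, by show cj mu 1 ≤ 4; omega⟩
            · exact ⟨by show 1 ≤ cj mu 1; omega, by show cj mu 2 ≤ 1; omega⟩
            · exact ⟨by show 1 ≤ cj mu 2; omega, by show cj mu 3 ≤ 1; omega⟩
            · exact ⟨Nat.zero_le _, by show cj mu (i + 3 + 1) ≤ 0; rw [hz _ (by omega)]⟩
          have hq : IsPart kap' 6 := strip_part (n := 10) (z := 4) hp hs (by decide) (by norm_num)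
          exact SS_of_good 1 3 mu kap' hmu hs (good3 rfl rfl hq)
        · exfalso
          omega
      · by_cases c0 : cj mu 0 = 6
        · obtain ⟨kap, hk, hs', hf'⟩ := strip_top (z := 4) (m := 6) hp (by omega) rfl
          refine SS_of_good 1 3 mu kap hmu hs' (Good.base 3 kap hk ?_)
          have := hf' 0
          rw [show (0 : ℕ) + 1 = 1 from rfl] at this
          omega
        · -- three shapes are left
          have key : ∀ i, (mu i = (if i < cj mu 0 then 1 else 0) + (if i < cj mu 1 then 1 else 0) +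
              if i < cj mu 2 then 1 else 0) := by
            intro i
            have h5 := lt_cj_iff mu 10 hmu i 0
            have h6 := lt_cj_iff mu 10 hmu i 1
            have h7 := lt_cj_iff mu 10 hmu i 2
            have h8 : mu i ≤ mu 0 := hmu.anti (Nat.zero_le i)
            by_cases e0 : i < cj mu 0 <;> by_cases e1 : i < cj mu 1 <;>
              by_cases e2 : i < cj mu 2 <;> simp only [e0, e1, e2, if_true, if_false] <;>
              simp only [e0, e1, e2, true_iff, false_iff] at h5 h6 h7 <;> omega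
          have hcases : (cj mu 0 = 5 ∧ cj mu 1 = 3 ∧ cj mu 2 = 2) ∨
              (cj mu 0 = 4 ∧ cj mu 1 = 4 ∧ cj mu 2 = 2) ∨
              (cj mu 0 = 4 ∧ cj mu 1 = 3 ∧ cj mu 2 = 3) := by omega
          rcases hcases with ⟨b0, b1, b2⟩ | ⟨b0, b1, b2⟩ | ⟨b0, b1, b2⟩
          · have : mu = ls [3, 3, 2, 1, 1] := by
              funext i
              rw [key i, b0, b1, b2]
              rcases i with _ | _ | _ | _ | _ | i
              all_goals rfl
            rw [this]
            exact SS4_3
          · have : mu = ls [3, 3, 2, 2] := by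
              funext i
              rw [key i, b0, b1, b2]
              rcases i with _ | _ | _ | _ | i
              all_goals rfl
            rw [this]
            exact SS4_2
          · have : mu = ls [3, 3, 3, 1] := by
              funext i
              rw [key i, b0, b1, b2]
              rcases i with _ | _ | _ | _ | i
              all_goals rfl
            rw [this]
            exact SS4_1
    · refine SS_le2 4 (by norm_num) mu hmu (by omega) (by omega) ?_ (by omega)
      intro b hb h2b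
      have h3 : 2 * b ≤ 10 := h2b
      have hb' : b = 4 ∨ b = 5 := by omega
      have e10 : 4 * (4 + 1) / 2 = 10 := by norm_num
      rw [e10]
      rcases hb' with rfl | rfl
      · have : tc 4 10 = ls [2, 2, 2, 2, 1, 1] := by
          funext i
          rcases i with _ | _ | _ | _ | _ | _ | i
          all_goals rfl
        rw [this]
        exact SS4_5
      · have : tc 5 10 = ls [2, 2, 2, 2, 2] := by
          funext i
          rcases i with _ | _ | _ | _ | _ | i
          all_goals rfl
        rw [this]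
        exact SS4_4

/-- the symmetric square of the staircase -/
theorem SS_all (k : ℕ) (mu : ℕ → ℕ) (hmu : IsPart mu (k * (k + 1) / 2))
    (hex : ¬ (k % 4 = 2 ∧ mu = tc 0 (k * (k + 1) / 2))) : SS 1 (rho k) mu := by
  induction k generalizing mu with
  | zero => exact SS_zero mu hmu
  | succ k ih =>
    by_cases hk : 5 ≤ k + 1
    · exact SS_large k hk ih mu hmu hex
    · have hk' : k = 0 ∨ k = 1 ∨ k = 2 ∨ k = 3 := by omega
      rcases hk' with rfl | rfl | rfl | rfl
      · exact SS_one mu hmu
      · exact SS_k2 mu hmu fun h => hex ⟨rfl, h⟩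
      · exact SS_k3 mu hmu
      · exact SS_k4 mu hmu

end Pool.Agent.H374
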