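import Mathlib

set_option autoImplicit false

/-! The bialternant formula. -/

namespace Pool.Agent.H374

open Finset

section bialt

variable {n : ℕ}

/-- the ring of polynomials -/
abbrev Rn (n : ℕ) : Type := MvPolynomial (Fin n) ℤ

/-- the geometric series -/
noncomputable def Gs (a : Rn n) : PowerSeries (Rn n) := PowerSeries.mk fun r => a ^ r

/-- a linear factor -/
noncomputable def Ls (a : Rn n) : PowerSeries (Rn n) := 1 - PowerSeries.C a * PowerSeries.X

theorem Gs_Ls (a : Rn n) : Gs a * Ls a = 1 := by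
  ext r
  unfold Gs Ls
  rw [mul_sub, mul_one, map_sub]
  rcases r with _ | r
  · rw [← mul_assoc, PowerSeries.coeff_zero_mul_X]
    simp
  · rw [← mul_assoc, PowerSeries.coeff_succ_mul_X, mul_comm, PowerSeries.coeff_C_mul]
    simp [PowerSeries.coeff_one, pow_succ, mul_comm]

/-- the generating function of the complete homogeneous polynomials -/
noncomputable def Hs (n : ℕ) : PowerSeries (Rn n) := ∏ j : Fin n, Gs (MvPolynomial.X j)

/-- the product of the other linear factors -/
noncomputable def Es (k : Fin n) : PowerSeries (Rn n) := ∏ j ∈ univ.erase k, Ls (MvPolynomial.X j)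

theorem Hs_Es (k : Fin n) : Hs n * Es k = Gs (MvPolynomial.X k) := by
  unfold Hs Es
  rw [← Finset.mul_prod_erase univ _ (Finset.mem_univ k), mul_assoc, ← Finset.prod_mul_distrib]
  simp only [Gs_Ls, Finset.prod_const_one, mul_one]

theorem coeff_Ls_prod (s : Finset (Fin n)) : ∀ t, s.card < t →
    PowerSeries.coeff t (∏ j ∈ s, Ls (MvPolynomial.X j : Rn n)) = 0 := by
  classical
  induction s using Finset.induction_on with
  | empty =>
    intro t ht
    rw [Finset.prod_empty, PowerSeries.coeff_one, if_neg]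
    rw [Finset.card_empty] at ht
    omega
  | insert a s ha ih =>
    intro t ht
    rw [Finset.prod_insert ha]
    rw [Finset.card_insert_of_notMem ha] at ht
    unfold Ls
    rw [sub_mul, one_mul, map_sub]
    obtain ⟨t', rfl⟩ : ∃ t', t = t' + 1 := ⟨t - 1, by omega⟩
    have h1 := ih (t' + 1) (by omega)
    have h2 := ih t' (by omega)
    unfold Ls at h1 h2
    rw [h1, mul_assoc, PowerSeries.coeff_C_mul, mul_comm PowerSeries.X,
      PowerSeries.coeff_succ_mul_X, h2]
    simp

/-- the complete homogeneous polynomial of an integral degree -/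
noncomputable def hZ (n : ℕ) (a : ℤ) : Rn n :=
  if 0 ≤ a then PowerSeries.coeff a.toNat (Hs n) else 0

theorem conv (l : ℕ) (k : Fin n) :
    ∑ j : Fin n, hZ n ((l : ℤ) - ((n : ℤ) - 1 - (j.val : ℤ))) *
      PowerSeries.coeff (n - 1 - j.val) (Es k) = (MvPolynomial.X k : Rn n) ^ l := by
  have hn : 0 < n := by
    have := k.2
    omega
  have h0 : (MvPolynomial.X k : Rn n) ^ l = PowerSeries.coeff l (Hs n * Es k) := by
    rw [Hs_Es]
    unfold Gs
    rw [PowerSeries.coeff_mk]
  rw [h0, PowerSeries.coeff_mul]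
  have hE : ∀ t, n ≤ t → PowerSeries.coeff t (Es k) = 0 := by
    intro t ht
    apply coeff_Ls_prod
    rw [Finset.card_erase_of_mem (Finset.mem_univ k), Finset.card_univ, Fintype.card_fin]
    omega
  -- both sides as sums over `range`
  have h1 : ∑ p ∈ antidiagonal l, PowerSeries.coeff p.1 (Hs n) * PowerSeries.coeff p.2 (Es k) =
      ∑ t ∈ range (l + 1), hZ n ((l : ℤ) - t) * PowerSeries.coeff t (Es k) := by
    rw [Finset.Nat.sum_antidiagonal_eq_sum_range_succ (fun i j => PowerSeries.coeff i (Hs n) *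
      PowerSeries.coeff j (Es k)), ← Finset.sum_range_reflect]
    refine Finset.sum_congr rfl fun t ht => ?_
    rw [Finset.mem_range] at ht
    unfold hZ
    rw [if_pos (by omega)]
    have e1 : l + 1 - 1 - t = ((l : ℤ) - t).toNat := by omega
    have e2 : l - (l + 1 - 1 - t) = t := by omega
    rw [e2, e1]
  have h2 : ∑ j : Fin n, hZ n ((l : ℤ) - ((n : ℤ) - 1 - (j.val : ℤ))) *
      PowerSeries.coeff (n - 1 - j.val) (Es k) =
      ∑ t ∈ range n, hZ n ((l : ℤ) - t) * PowerSeries.coeff t (Es k) := by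
    rw [← Finset.sum_range_reflect, ← Fin.sum_univ_eq_sum_range (fun t =>
      hZ n ((l : ℤ) - ((n - 1 - t : ℕ) : ℤ)) * PowerSeries.coeff (n - 1 - t) (Es k))]
    refine Finset.sum_congr rfl fun j _ => ?_
    congr 2
    have := j.2
    omega
  rw [h1, h2]
  have h3 : ∀ m, ∑ t ∈ range m, hZ n ((l : ℤ) - t) * PowerSeries.coeff t (Es k) =
      ∑ t ∈ range m, if t < n ∧ t ≤ l then hZ n ((l : ℤ) - t) * PowerSeries.coeff t (Es k)
        else 0 := by
    intro m
    refine Finset.sum_congr rfl fun t _ => ?_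
    by_cases ht : t < n
    · by_cases ht' : t ≤ l
      · rw [if_pos ⟨ht, ht'⟩]
      · rw [if_neg (fun h => ht' h.2)]
        unfold hZ
        rw [if_neg (by omega), zero_mul]
    · rw [if_neg (fun h => ht h.1), hE t (by omega), mul_zero]
  rw [h3, h3 (l + 1), ← Finset.sum_filter, ← Finset.sum_filter]
  refine Finset.sum_congr ?_ fun _ _ => rfl
  ext t
  simp only [Finset.mem_filter, Finset.mem_range]
  omega

/-- the Jacobi-Trudi matrix -/
noncomputable def Am (l : Fin n → ℕ) : Matrix (Fin n) (Fin n) (Rn n) :=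
  Matrix.of fun i j => hZ n ((l i : ℤ) - ((n : ℤ) - 1 - (j.val : ℤ)))

/-- the matrix of the elementary symmetric polynomials -/
noncomputable def Bm : Matrix (Fin n) (Fin n) (Rn n) :=
  Matrix.of fun j k => PowerSeries.coeff (n - 1 - j.val) (Es k)

/-- the alternant -/
noncomputable def Vm (l : Fin n → ℕ) : Matrix (Fin n) (Fin n) (Rn n) :=
  Matrix.of fun i k => (MvPolynomial.X k : Rn n) ^ l i

theorem Am_Bm (l : Fin n → ℕ) : Am l * Bm = Vm l := by
  ext1 i k
  rw [Matrix.mul_apply]
  exact conv (l i) k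

theorem hZ_zero : hZ n 0 = 1 := by
  unfold hZ
  rw [if_pos le_rfl, Int.toNat_zero]
  unfold Hs Gs
  rw [PowerSeries.coeff_zero_eq_constantCoeff_apply, map_prod]
  refine Finset.prod_eq_one fun j _ => ?_
  rw [← PowerSeries.coeff_zero_eq_constantCoeff_apply, PowerSeries.coeff_mk, pow_zero]

theorem hZ_neg {a : ℤ} (h : a < 0) : hZ n a = 0 := by
  unfold hZ
  rw [if_neg (by omega)]

theorem det_Am_delta : (Am (fun i : Fin n => n - 1 - i.val)).det = 1 := by
  rw [Matrix.det_of_isUpperTriangular]
  · refine Finset.prod_eq_one fun i _ => ?_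
    unfold Am
    rw [Matrix.of_apply]
    have := i.2
    have e : (((n - 1 - i.val : ℕ) : ℤ) - ((n : ℤ) - 1 - (i.val : ℤ))) = 0 := by omega
    rw [e, hZ_zero]
  · intro i j hij
    show hZ n (((n - 1 - i.val : ℕ) : ℤ) - ((n : ℤ) - 1 - (j.val : ℤ))) = 0
    apply hZ_neg
    have h1 : j.val < i.val := hij
    have := i.2
    omega

/-- the bialternant formula -/
theorem bialternant (l : Fin n → ℕ) :
    (Vm (fun i : Fin n => n - 1 - i.val)).det * (Am l).det = (Vm l).det := by
  have h1 := congrArg Matrix.det (Am_Bm l)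
  have h2 := congrArg Matrix.det (Am_Bm (fun i : Fin n => n - 1 - i.val))
  rw [Matrix.det_mul] at h1 h2
  rw [det_Am_delta, one_mul] at h2
  rw [← h1, ← h2]
  ring

end bialt

end Pool.Agent.H374
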