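import Mathlib
import Pool.Agent.H374.A20

set_option autoImplicit false

/-! The norm of the Jacobi-Trudi class functions. -/

namespace Pool.Agent.H374

open Finset

section burn

variable {n : ℕ}

/-- the content of a word -/
noncomputable def cnt {ι : Type} [DecidableEq ι] (F : Fin n → ι) : ι →₀ ℕ :=
  ∑ x, Finsupp.single (F x) 1

theorem cnt_apply {ι : Type} [DecidableEq ι] (F : Fin n → ι) (a : ι) :
    cnt F a = (univ.filter fun x => F x = a).card := by
  unfold cnt
  rw [Finsupp.finsetSum_apply]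
  simp only [Finsupp.single_apply]
  rw [Finset.sum_boole]
  rfl

theorem cnt_comp {ι : Type} [DecidableEq ι] (F : Fin n → ι) (g : Equiv.Perm (Fin n)) :
    cnt (F ∘ g) = cnt F := by
  unfold cnt
  exact Equiv.sum_comp g (fun x => Finsupp.single (F x) 1)

theorem cnt_exists_perm {ι : Type} [DecidableEq ι] (F F' : Fin n → ι) (h : cnt F = cnt F') :
    ∃ g : Equiv.Perm (Fin n), F = F' ∘ g := by
  have h2 : ∀ c, Nonempty ({x // F x = c} ≃ {x // F' x = c}) := by
    intro c
    apply Fintype.card_eq.mp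
    rw [Fintype.card_subtype, Fintype.card_subtype, ← cnt_apply, ← cnt_apply, h]
  refine ⟨Equiv.ofFiberEquiv (fun c => (h2 c).some), ?_⟩
  funext x
  exact (Equiv.ofFiberEquiv_map (fun c => (h2 c).some) x).symm

theorem cnt_mem {ι : Type} [Fintype ι] [DecidableEq ι] (F : Fin n → ι) :
    cnt F ∈ finsuppAntidiag (univ : Finset ι) n := by
  rw [mem_finsuppAntidiag]
  refine ⟨?_, Finset.subset_univ _⟩
  simp only [cnt_apply]
  rw [← Finset.card_eq_sum_card_fiberwise (f := F) (t := univ) (fun x _ => by simp)]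
  simp

theorem cnt_surj {ι : Type} [Fintype ι] [DecidableEq ι] (m : ι →₀ ℕ)
    (hm : m ∈ finsuppAntidiag (univ : Finset ι) n) : ∃ F : Fin n → ι, cnt F = m := by
  rw [mem_finsuppAntidiag] at hm
  have hcard : Fintype.card (Fin n) = Fintype.card (Σ a : ι, Fin (m a)) := by
    rw [Fintype.card_fin, Fintype.card_sigma]
    simp only [Fintype.card_fin]
    exact hm.1.symm
  have e := Fintype.equivOfCardEq hcard
  refine ⟨fun x => (e x).1, ?_⟩
  ext a
  rw [cnt_apply]
  have h1 : (univ.filter fun x => (e x).1 = a).card =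
      (univ.filter fun y : (Σ a : ι, Fin (m a)) => y.1 = a).card := by
    refine Finset.card_equiv e fun x => ?_
    simp
  rw [h1]
  have h2 : (univ.filter fun y : (Σ a : ι, Fin (m a)) => y.1 = a) =
      (univ : Finset (Fin (m a))).map ⟨fun i => (⟨a, i⟩ : Σ a : ι, Fin (m a)),
        sigma_mk_injective (β := fun b : ι => Fin (m b)) (i := a)⟩ := by
    ext ⟨b, i⟩
    simp only [Finset.mem_filter, Finset.mem_univ, true_and, Finset.mem_map,
      Function.Embedding.coeFn_mk]
    constructor
    · rintro rfl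
      exact ⟨i, rfl⟩
    · rintro ⟨i', h⟩
      exact (congrArg Sigma.fst h).symm
  rw [h2, Finset.card_map, Finset.card_univ, Fintype.card_fin]

/-- counting fixed words -/
theorem burnside {ι : Type} [Fintype ι] [DecidableEq ι] {M : Type} [CommRing M]
    (φ : (ι →₀ ℕ) → M) :
    ∑ g : Equiv.Perm (Fin n), ∑ F : Fin n → ι, (if ∀ x, F (g x) = F x then φ (cnt F) else 0) =
      (n.factorial : M) * ∑ m ∈ finsuppAntidiag (univ : Finset ι) n, φ m := by
  rw [Finset.sum_comm, Finset.mul_sum,
    ← Finset.sum_fiberwise_of_maps_to (fun F _ => cnt_mem F) (s := univ)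
      (t := finsuppAntidiag (univ : Finset ι) n)]
  refine Finset.sum_congr rfl fun m hm => ?_
  obtain ⟨F0, hF0⟩ := cnt_surj m hm
  -- the number of permutations which fix a word
  have h1 : ∀ F ∈ univ.filter (fun F : Fin n → ι => cnt F = m),
      ∑ g : Equiv.Perm (Fin n), (if ∀ x, F (g x) = F x then φ (cnt F) else 0) =
      ∑ g : Equiv.Perm (Fin n), (if F0 ∘ g = F then φ m else 0) := by
    intro F hF
    rw [Finset.mem_filter] at hF
    obtain ⟨h, hh⟩ := cnt_exists_perm F F0 (by rw [hF.2, hF0])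
    rw [← Equiv.sum_comp (Equiv.mulLeft h) (fun g : Equiv.Perm (Fin n) =>
      if F0 ∘ g = F then φ m else 0)]
    refine Finset.sum_congr rfl fun g _ => ?_
    rw [hF.2]
    have h3 : (∀ x, F (g x) = F x) ↔ F0 ∘ (Equiv.mulLeft h g : Equiv.Perm (Fin n)) = F := by
      constructor
      · intro h4
        funext x
        have := h4 x
        rw [hh] at this ⊢
        exact this
      · intro h4 x
        have := congrFun h4 x
        rw [hh] at this ⊢
        exact this
    simp only [h3]
  rw [Finset.sum_congr rfl h1, Finset.sum_comm]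
  have h2 : ∀ g : Equiv.Perm (Fin n),
      ∑ F ∈ univ.filter (fun F : Fin n → ι => cnt F = m), (if F0 ∘ g = F then φ m else 0) = φ m := by
    intro g
    rw [Finset.sum_ite_eq, if_pos]
    rw [Finset.mem_filter]
    exact ⟨Finset.mem_univ _, by rw [cnt_comp, hF0]⟩
  rw [Finset.sum_congr rfl fun g _ => h2 g, Finset.sum_const, Finset.card_univ,
    Fintype.card_perm, Fintype.card_fin, nsmul_eq_mul]

/-- the number of fixed words of a given content -/
def fx (a : Fin n → ℤ) (g : Equiv.Perm (Fin n)) : ℕ :=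
  (univ.filter (fun f : Fin n → Fin n =>
    (∀ i : Fin n, (((univ.filter (fun x : Fin n => f x = i)).card : ℕ) : ℤ) = a i) ∧
      ∀ x : Fin n, f (g x) = f x)).card

/-- the generating function of the fixed words -/
noncomputable def pg (g : Equiv.Perm (Fin n)) : Rn n :=
  ∑ f : Fin n → Fin n, if ∀ x, f (g x) = f x then ∏ x, MvPolynomial.X (f x) else 0

theorem prod_cnt {ι : Type} [Fintype ι] [DecidableEq ι] {M : Type} [CommMonoid M] (F : Fin n → ι)
    (w : ι → M) : ∏ x, w (F x) = ∏ a, w a ^ cnt F a := by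
  rw [← Finset.prod_fiberwise univ F (fun x => w (F x))]
  refine Finset.prod_congr rfl fun a _ => ?_
  rw [cnt_apply, ← Finset.prod_const]
  refine Finset.prod_congr rfl fun x hx => ?_
  rw [Finset.mem_filter] at hx
  rw [hx.2]

theorem hZ_nat (r : ℕ) : hZ n (r : ℤ) =
    ∑ l ∈ finsuppAntidiag (univ : Finset (Fin n)) r, ∏ j, (MvPolynomial.X j : Rn n) ^ l j := by
  unfold hZ
  rw [if_pos (by omega), Int.toNat_natCast]
  unfold Hs
  rw [PowerSeries.coeff_prod]
  refine Finset.sum_congr rfl fun l _ => ?_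
  refine Finset.prod_congr rfl fun j _ => ?_
  unfold Gs
  rw [PowerSeries.coeff_mk]

theorem prod_h (α : Fin n → ℕ) (hα : ∑ i, α i = n) :
    ∏ i, hZ n (α i : ℤ) = ∑ m ∈ finsuppAntidiag (univ : Finset (Fin n × Fin n)) n,
      if ∀ i, ∑ j, m (i, j) = α i then ∏ p : Fin n × Fin n, (MvPolynomial.X p.2 : Rn n) ^ m p
        else 0 := by
  simp only [hZ_nat]
  rw [Finset.prod_univ_sum, ← Finset.sum_filter]
  refine Finset.sum_nbij' (fun L => Finsupp.equivFunOnFinite.symm fun p : Fin n × Fin n =>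
      L p.1 p.2) (fun m i => Finsupp.equivFunOnFinite.symm fun j => m (i, j)) ?_ ?_ ?_ ?_ ?_
  · intro L hL
    rw [Fintype.mem_piFinset] at hL
    simp only [mem_finsuppAntidiag] at hL
    rw [Finset.mem_filter, mem_finsuppAntidiag]
    refine ⟨⟨?_, Finset.subset_univ _⟩, ?_⟩
    · rw [Fintype.sum_prod_type]
      simp only [Finsupp.equivFunOnFinite_symm_apply_apply]
      exact Eq.trans (Finset.sum_congr rfl fun i _ => (hL i).1) hα
    · intro i
      simp only [Finsupp.equivFunOnFinite_symm_apply_apply]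
      exact (hL i).1
  · intro m hm
    rw [Finset.mem_filter, mem_finsuppAntidiag] at hm
    rw [Fintype.mem_piFinset]
    intro i
    rw [mem_finsuppAntidiag]
    refine ⟨?_, Finset.subset_univ _⟩
    simp only [Finsupp.equivFunOnFinite_symm_apply_apply]
    exact hm.2 i
  · intro L _
    funext i
    ext j
    simp only [Finsupp.equivFunOnFinite_symm_apply_apply]
  · intro m _
    ext p
    simp only [Finsupp.equivFunOnFinite_symm_apply_apply]
  · intro L _
    rw [Fintype.prod_prod_type]
    simp only [Finsupp.equivFunOnFinite_symm_apply_apply]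

theorem W_nat (α : Fin n → ℕ) (hα : ∑ i, α i = n) :
    ∑ g : Equiv.Perm (Fin n), (fx (fun i => (α i : ℤ)) g : Rn n) * pg g =
      (n.factorial : Rn n) * ∏ i, hZ n (α i : ℤ) := by
  rw [prod_h α hα, ← burnside]
  refine Finset.sum_congr rfl fun g _ => ?_
  rw [← (Equiv.arrowProdEquivProdArrow (Fin n) (fun _ => Fin n) (fun _ => Fin n)).symm.sum_comp,
    Fintype.sum_prod_type]
  unfold fx pg
  rw [Finset.card_filter, Nat.cast_sum, Finset.sum_mul_sum]
  refine Finset.sum_congr rfl fun f _ => Finset.sum_congr rfl fun f' _ => ?_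
  have h1 : ∀ x, (Equiv.arrowProdEquivProdArrow (Fin n) (fun _ => Fin n)
      (fun _ => Fin n)).symm (f, f') x = (f x, f' x) := fun x => rfl
  set F := (Equiv.arrowProdEquivProdArrow (Fin n) (fun _ => Fin n)
      (fun _ => Fin n)).symm (f, f') with hF
  have h2 : (∀ x, F (g x) = F x) ↔ (∀ x, f (g x) = f x) ∧ ∀ x, f' (g x) = f' x := by
    simp only [h1, Prod.mk.injEq]
    exact forall_and
  have h3 : (∀ i, ∑ j, cnt F (i, j) = α i) ↔
      ∀ i, (((univ.filter fun x => f x = i).card : ℕ) : ℤ) = (α i : ℤ) := by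
    refine forall_congr' fun i => ?_
    have h4 : ∑ j, cnt F (i, j) = (univ.filter fun x => f x = i).card := by
      simp only [cnt_apply, h1]
      rw [Finset.card_eq_sum_card_fiberwise (f := f') (t := univ) (fun x _ => by simp)]
      refine Finset.sum_congr rfl fun j _ => ?_
      rw [Finset.filter_filter]
      congr 1
      ext x
      simp
    rw [h4]
    exact Nat.cast_inj.symm
  have h5 : ∏ p : Fin n × Fin n, (MvPolynomial.X p.2 : Rn n) ^ cnt F p =
      ∏ x, MvPolynomial.X (f' x) := by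
    rw [← prod_cnt F (fun p => (MvPolynomial.X p.2 : Rn n))]
    simp only [h1]
  simp only [h2, h3, h5]
  by_cases c1 : ∀ x, f (g x) = f x
  · by_cases c2 : ∀ x, f' (g x) = f' x
    · by_cases c3 : ∀ i, (((univ.filter fun x => f x = i).card : ℕ) : ℤ) = (α i : ℤ)
      · rw [if_pos ⟨c3, c1⟩, if_pos c2, if_pos ⟨c1, c2⟩, if_pos c3]
        simp
      · rw [if_neg (fun h => c3 h.1), if_neg c3, if_pos c2, if_pos ⟨c1, c2⟩]
        simp
    · have a2 : ¬ ((∀ x, f (g x) = f x) ∧ ∀ x, f' (g x) = f' x) := fun h => c2 h.2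
      rw [if_neg c2, if_neg a2, mul_zero]
  · have a1 : ¬ ((∀ i, (((univ.filter fun x => f x = i).card : ℕ) : ℤ) = (α i : ℤ)) ∧
        ∀ x, f (g x) = f x) := fun h => c1 h.2
    have a2 : ¬ ((∀ x, f (g x) = f x) ∧ ∀ x, f' (g x) = f' x) := fun h => c1 h.1
    rw [if_neg a1, if_neg a2, Nat.cast_zero, zero_mul]

theorem W_eq (a : Fin n → ℤ) (ha : ∑ i, a i = n) :
    ∑ g : Equiv.Perm (Fin n), (fx a g : Rn n) * pg g =
      (n.factorial : Rn n) * ∏ i, hZ n (a i) := by
  by_cases h : ∀ i, 0 ≤ a i
  · have e : a = fun i => (((a i).toNat : ℕ) : ℤ) := by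
      funext i
      have := h i
      omega
    rw [e]
    refine W_nat (fun i => (a i).toNat) ?_
    have h1 : ((∑ i, (a i).toNat : ℕ) : ℤ) = n := by
      push_cast
      rw [← ha]
      refine Finset.sum_congr rfl fun i _ => ?_
      have := h i
      omega
    exact_mod_cast h1
  · push Not at h
    obtain ⟨i, hi⟩ := h
    have h1 : ∀ g, fx a g = 0 := by
      intro g
      unfold fx
      rw [Finset.card_eq_zero, Finset.filter_eq_empty_iff]
      rintro f - ⟨h2, -⟩
      have := h2 i
      omega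
    rw [Finset.prod_eq_zero (Finset.mem_univ i) (hZ_neg hi), mul_zero]
    refine Finset.sum_eq_zero fun g _ => ?_
    rw [h1]
    simp

theorem mono_eq (e : Fin n → ℕ) : ∏ i, (MvPolynomial.X i : Rn n) ^ e i =
    MvPolynomial.monomial (Finsupp.equivFunOnFinite.symm e) 1 := by
  rw [MvPolynomial.monomial_eq, MvPolynomial.C_1, one_mul, Finsupp.prod_fintype]
  · rfl
  · intro i
    rw [pow_zero]

theorem coeff_pg (e : Fin n →₀ ℕ) (g : Equiv.Perm (Fin n)) :
    MvPolynomial.coeff e (pg g) = (univ.filter (fun f : Fin n → Fin n =>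
      (∀ i, (univ.filter fun x => f x = i).card = e i) ∧ ∀ x, f (g x) = f x)).card := by
  unfold pg
  rw [MvPolynomial.coeff_sum, Finset.card_filter]
  push_cast
  refine Finset.sum_congr rfl fun f _ => ?_
  by_cases h1 : ∀ x, f (g x) = f x
  · rw [if_pos h1, prod_cnt f (fun i => (MvPolynomial.X i : Rn n)), mono_eq,
      MvPolynomial.coeff_monomial]
    have h2 : (Finsupp.equivFunOnFinite.symm ⇑(cnt f) : Fin n →₀ ℕ) = cnt f := by
      ext i
      simp
    rw [h2]
    by_cases h3 : cnt f = e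
    · rw [if_pos h3, if_pos ⟨fun i => by rw [← cnt_apply, h3], h1⟩]
    · rw [if_neg h3, if_neg]
      rintro ⟨h4, -⟩
      apply h3
      ext i
      rw [cnt_apply]
      exact h4 i
  · rw [if_neg h1, if_neg (fun h => h1 h.2), MvPolynomial.coeff_zero]

/-- the class function of Jacobi-Trudi -/
def JT (lam : Fin n → ℕ) (g : Equiv.Perm (Fin n)) : ℤ :=
  ∑ σ : Equiv.Perm (Fin n), (Equiv.Perm.sign σ : ℤ) *
    (fx (fun i => ((lam i : ℕ) : ℤ) - ((i.val : ℕ) : ℤ) + (((σ i).val : ℕ) : ℤ)) g : ℤ)

/-- the exponents -/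
def lexp (lam : Fin n → ℕ) : Fin n → ℕ := fun i => lam i + (n - 1 - i.val)

theorem frob (lam : Fin n → ℕ) (g : Equiv.Perm (Fin n)) :
    MvPolynomial.coeff (Finsupp.equivFunOnFinite.symm (lexp lam))
      ((Vm (fun i : Fin n => n - 1 - i.val)).det * pg g) = JT lam g := by
  rw [Matrix.det_apply, Finset.sum_mul, MvPolynomial.coeff_sum]
  unfold JT
  refine Finset.sum_congr rfl fun σ _ => ?_
  have h1 : ∏ i, Vm (fun i : Fin n => n - 1 - i.val) (σ i) i =
      MvPolynomial.monomial (Finsupp.equivFunOnFinite.symm fun i : Fin n => n - 1 - (σ i).val)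
        (1 : ℤ) := by
    rw [← mono_eq]
    rfl
  rw [h1]
  have h2 : (Equiv.Perm.sign σ • MvPolynomial.monomial
      (Finsupp.equivFunOnFinite.symm fun i : Fin n => n - 1 - (σ i).val) (1 : ℤ) : Rn n) * pg g =
      MvPolynomial.C ((Equiv.Perm.sign σ : ℤ)) * (MvPolynomial.monomial
      (Finsupp.equivFunOnFinite.symm fun i : Fin n => n - 1 - (σ i).val) (1 : ℤ) * pg g) := by
    rw [← mul_assoc]
    congr 1
    rw [Units.smul_def, MvPolynomial.C_mul_monomial, mul_one]
    rw [← Int.cast_smul_eq_zsmul ℤ, MvPolynomial.smul_monomial]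
    simp
  rw [h2, MvPolynomial.coeff_C_mul]
  congr 1
  rw [MvPolynomial.coeff_monomial_mul']
  by_cases hle : (Finsupp.equivFunOnFinite.symm fun i : Fin n => n - 1 - (σ i).val) ≤
      (Finsupp.equivFunOnFinite.symm (lexp lam) : Fin n →₀ ℕ)
  · rw [if_pos hle, one_mul, coeff_pg]
    unfold fx
    congr 2
    refine Finset.filter_congr fun f _ => ?_
    refine and_congr_left fun _ => forall_congr' fun i => ?_
    have h3 := hle i
    rw [Finsupp.tsub_apply]
    simp only [Finsupp.equivFunOnFinite_symm_apply_apply] at h3 ⊢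
    unfold lexp at h3 ⊢
    have h4 := i.2
    have h5 := (σ i).2
    omega
  · rw [if_neg hle]
    symm
    unfold fx
    rw [Nat.cast_eq_zero, Finset.card_eq_zero, Finset.filter_eq_empty_iff]
    rintro f - ⟨h3, -⟩
    apply hle
    intro i
    have h4 := h3 i
    simp only [Finsupp.equivFunOnFinite_symm_apply_apply]
    unfold lexp
    have h5 := i.2
    have h6 := (σ i).2
    beta_reduce at h4 ⊢
    omega

theorem coeff_Vm (l : Fin n → ℕ) (hl : Function.Injective l) :
    MvPolynomial.coeff (Finsupp.equivFunOnFinite.symm l) (Vm l).det = 1 := by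
  rw [Matrix.det_apply, MvPolynomial.coeff_sum, Finset.sum_eq_single 1]
  · rw [Equiv.Perm.sign_one, one_smul]
    have h1 : ∏ i, Vm l ((1 : Equiv.Perm (Fin n)) i) i =
        MvPolynomial.monomial (Finsupp.equivFunOnFinite.symm l) (1 : ℤ) := by
      rw [← mono_eq]
      rfl
    rw [h1, MvPolynomial.coeff_monomial, if_pos rfl]
  · intro σ _ hσ
    have h1 : ∏ i, Vm l (σ i) i =
        MvPolynomial.monomial (Finsupp.equivFunOnFinite.symm (l ∘ σ)) (1 : ℤ) := by
      rw [← mono_eq]
      rfl
    rw [h1, Units.smul_def, MvPolynomial.coeff_smul, MvPolynomial.coeff_monomial, if_neg, smul_zero]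
    intro h2
    apply hσ
    ext i
    have h3 := DFunLike.congr_fun h2 i
    simp only [Finsupp.equivFunOnFinite_symm_apply_apply, Function.comp_apply] at h3
    rw [hl h3]
    rfl
  · intro h
    exact absurd (Finset.mem_univ _) h

/-- the norm -/
theorem JT_norm (lam : Fin n → ℕ) (ha : Antitone lam) (hs : ∑ i, lam i = n) :
    ∑ g : Equiv.Perm (Fin n), JT lam g * JT lam g = n.factorial := by
  have hl : Function.Injective (lexp lam) := by
    intro i j hij
    unfold lexp at hij
    have h1 := i.2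
    have h2 := j.2
    rcases lt_trichotomy i j with h | h | h
    · have h3 := ha h.le
      have h4 : i.val < j.val := h
      omega
    · exact h
    · have h3 := ha h.le
      have h4 : j.val < i.val := h
      omega
  have hsum : ∀ σ : Equiv.Perm (Fin n),
      ∑ i, (((lam i : ℕ) : ℤ) - ((i.val : ℕ) : ℤ) + (((σ i).val : ℕ) : ℤ)) = n := by
    intro σ
    rw [Finset.sum_add_distrib, Finset.sum_sub_distrib,
      Equiv.sum_comp σ (fun i : Fin n => (((i.val : ℕ) : ℤ)))]
    have : ((∑ i, lam i : ℕ) : ℤ) = n := by rw [hs]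
    push_cast at this
    rw [this]
    ring
  have hA : (Am (lexp lam)).det = ∑ σ : Equiv.Perm (Fin n), ((Equiv.Perm.sign σ : ℤ) : Rn n) *
      ∏ i, hZ n (((lam i : ℕ) : ℤ) - ((i.val : ℕ) : ℤ) + (((σ i).val : ℕ) : ℤ)) := by
    rw [← Matrix.det_transpose, Matrix.det_apply']
    refine Finset.sum_congr rfl fun σ _ => ?_
    congr 1
    refine Finset.prod_congr rfl fun i _ => ?_
    show hZ n (((lexp lam i : ℕ) : ℤ) - ((n : ℤ) - 1 - ((σ i).val : ℤ))) = _
    congr 1
    unfold lexp
    have := i.2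
    omega
  have h1 : (n.factorial : Rn n) * (Vm (lexp lam)).det =
      ∑ g : Equiv.Perm (Fin n), MvPolynomial.C (JT lam g) *
        ((Vm (fun i : Fin n => n - 1 - i.val)).det * pg g) := by
    rw [← bialternant, hA]
    have h2 : ∀ g, MvPolynomial.C (JT lam g) * ((Vm (fun i : Fin n => n - 1 - i.val)).det * pg g) =
        ∑ σ : Equiv.Perm (Fin n), (Vm (fun i : Fin n => n - 1 - i.val)).det *
          (((Equiv.Perm.sign σ : ℤ) : Rn n) * ((fx (fun i => ((lam i : ℕ) : ℤ) -
            ((i.val : ℕ) : ℤ) + (((σ i).val : ℕ) : ℤ)) g : Rn n) * pg g)) := by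
      intro g
      unfold JT
      rw [map_sum, Finset.sum_mul]
      refine Finset.sum_congr rfl fun σ _ => ?_
      rw [map_mul]
      simp only [eq_intCast, map_natCast]
      ring
    rw [Finset.sum_congr rfl fun g _ => h2 g, Finset.sum_comm]
    rw [Finset.mul_sum, Finset.mul_sum]
    refine Finset.sum_congr rfl fun σ _ => ?_
    rw [← Finset.mul_sum, ← Finset.mul_sum, W_eq _ (hsum σ)]
    ring
  have h3 := congrArg (MvPolynomial.coeff (Finsupp.equivFunOnFinite.symm (lexp lam))) h1
  rw [MvPolynomial.coeff_sum] at h3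
  simp only [MvPolynomial.coeff_C_mul, frob] at h3
  rw [← h3]
  have h4 : (n.factorial : Rn n) = MvPolynomial.C ((n.factorial : ℕ) : ℤ) := by simp
  rw [h4, MvPolynomial.coeff_C_mul, coeff_Vm _ hl, mul_one]

end burn

end Pool.Agent.H374
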