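import Mathlib
import Pool.Agent.H374.A04
import Pool.Agent.H374.A21
import Pool.Graph.R_pool_sql_team_seeded_620a6dc7.Helper139_Saxl.J35
import Pool.Graph.R_pool_sql_team_seeded_620a6dc7.Helper139_Saxl.J36

set_option autoImplicit false

/-! Projections and traces. -/

namespace Pool.Agent.H374

open Finset Pool.Saxl

section psd

variable {W : Type} [Fintype W]

theorem psd_nonneg (R : W → W → ℤ) (c : ℤ) (hc : 0 < c) (hs : ∀ x y, R x y = R y x)
    (h2 : ∀ x y, ∑ z, R x z * R z y = c * R x y) (x : W) : 0 ≤ R x x := by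
  have h : 0 ≤ c * R x x := by
    rw [← h2]
    refine Finset.sum_nonneg fun z _ => ?_
    rw [hs z x]
    exact mul_self_nonneg _
  exact nonneg_of_mul_nonneg_right h hc

theorem psd_minor (R : W → W → ℤ) (c : ℤ) (hc : 0 < c) (hs : ∀ x y, R x y = R y x)
    (h2 : ∀ x y, ∑ z, R x z * R z y = c * R x y) (x y : W) :
    R x y ^ 2 ≤ R x x * R y y := by
  have h := Finset.sum_mul_sq_le_sq_mul_sq univ (fun z => R x z) (fun z => R y z)
  have e : ∀ a b, ∑ z, R a z * R b z = c * R a b := by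
    intro a b
    rw [← h2]
    refine Finset.sum_congr rfl fun z _ => ?_
    rw [hs z b]
  simp only [sq] at h
  rw [e, e, e] at h
  have h3 : (c * c) * (R x y ^ 2) ≤ (c * c) * (R x x * R y y) := by
    linarith
  exact le_of_mul_le_mul_left h3 (mul_pos hc hc)

theorem psd_trace (R : W → W → ℤ) (c : ℤ) (hc : 0 < c) (hs : ∀ x y, R x y = R y x)
    (h2 : ∀ x y, ∑ z, R x z * R z y = c * R x y) (hne : ∃ x y, R x y ≠ 0) :
    c ≤ ∑ x, R x x := by
  obtain ⟨w, v, hwv⟩ := hne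
  have hpos : 0 < R w w := by
    have h1 := psd_minor R c hc hs h2 w v
    have h3 := psd_nonneg R c hc hs h2 w
    rcases h3.lt_or_eq with h | h
    · exact h
    · exfalso
      rw [← h, zero_mul] at h1
      have := pow_eq_zero_iff (two_ne_zero) |>.1 (le_antisymm h1 (sq_nonneg _))
      exact hwv this
  have h4 : c * R w w ≤ (∑ x, R x x) * R w w := by
    rw [← h2, Finset.sum_mul]
    refine Finset.sum_le_sum fun z _ => ?_
    rw [hs w z]
    have := psd_minor R c hc hs h2 z w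
    linarith [this, sq (R z w)]
  exact le_of_mul_le_mul_right h4 hpos

theorem psd_zero (R : W → W → ℤ) (c : ℤ) (hc : 0 < c) (hs : ∀ x y, R x y = R y x)
    (h2 : ∀ x y, ∑ z, R x z * R z y = c * R x y) (ht : ∑ x, R x x < c) : ∀ x y, R x y = 0 := by
  by_contra hcon
  push Not at hcon
  have := psd_trace R c hc hs h2 hcon
  omega

end psd

section char

variable {n : ℕ}

/-- the trace of a permutation on the image of the kernel -/
def XX (r c : Fin n → ℕ) (g : Equiv.Perm (Fin n)) : ℤ :=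
  ∑ v : Fin n → Fin n, kp r c (vl v ∘ g) (vl v)

theorem XX_inv (r c : Fin n → ℕ) (g : Equiv.Perm (Fin n)) : XX r c g⁻¹ = XX r c g := by
  unfold XX
  have h := sum_words_comp (fun v => kp r c (v ∘ (g⁻¹ : Equiv.Perm (Fin n))) v) g
  rw [← h]
  refine Finset.sum_congr rfl fun v _ => ?_
  have e1 : (vl v ∘ g) ∘ (g⁻¹ : Equiv.Perm (Fin n)) = vl v := by funext x; simp
  rw [e1, kp_symm]

/-- the projection -/
noncomputable def Pr (r c : Fin n → ℕ) (C : ℤ) : FW n →ₗ[ℂ] FW n where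
  toFun f := fun w => (C : ℂ)⁻¹ * ∑ v : Fin n → Fin n, (kp r c (vl w) (vl v) : ℂ) * f v
  map_add' f f' := by
    funext w
    simp only [Pi.add_apply, mul_add, Finset.sum_add_distrib]
  map_smul' a f := by
    funext w
    simp only [Pi.smul_apply, smul_eq_mul, RingHom.id_apply, Finset.mul_sum]
    refine Finset.sum_congr rfl fun v _ => ?_
    ring

theorem Pr_apply (r c : Fin n → ℕ) (C : ℤ) (f : FW n) (w : Fin n → Fin n) :
    Pr r c C f w = (C : ℂ)⁻¹ * ∑ v : Fin n → Fin n, (kp r c (vl w) (vl v) : ℂ) * f v := rfl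

theorem Pr_mem {r c : Fin n → ℕ} {lam : ℕ → ℕ} (hT : IsTab r c lam) (C : ℤ) (f : FW n) :
    Pr r c C f ∈ spe n lam := by
  have h : Pr r c C f = ∑ v : Fin n → Fin n, ((C : ℂ)⁻¹ * f v) •
      (fun w : Fin n → Fin n => ((kp r c (vl v) (vl w) : ℤ) : ℂ)) := by
    funext w
    rw [Pr_apply, Finset.sum_apply, Finset.mul_sum]
    refine Finset.sum_congr rfl fun v _ => ?_
    rw [Pi.smul_apply, smul_eq_mul, kp_symm]
    ring
  rw [h]
  exact Submodule.sum_mem _ fun v _ => Submodule.smul_mem _ _ (kp_mem hT (vl v))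

theorem Pr_wact (r c : Fin n → ℕ) (C : ℤ) (g : Equiv.Perm (Fin n)) (f : FW n) :
    Pr r c C (wact n g f) = wact n g (Pr r c C f) := by
  funext w
  rw [sx31_wact, Pr_apply, Pr_apply]
  congr 1
  refine Fintype.sum_equiv (Equiv.arrowCongr g.symm (Equiv.refl (Fin n))) _ _ fun v => ?_
  have e1 : (Equiv.arrowCongr g.symm (Equiv.refl (Fin n))) v = v ∘ g := rfl
  rw [e1]
  have e2 : vl (w ∘ g) = vl w ∘ g := rfl
  have e3 : vl (v ∘ g) = vl v ∘ g := rfl
  rw [e2, e3, kp_comp]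
  rfl

theorem Pr_ev {r c : Fin n → ℕ} {C : ℤ} (hC : 0 < C)
    (h : ∀ w : Fin n → ℕ, ∑ v : Fin n → Fin n, kp r c w (vl v) * pt r c (vl v) = C * pt r c w) :
    Pr r c C (ev r c) = ev r c := by
  funext w
  rw [Pr_apply]
  have h1 : ∑ v : Fin n → Fin n, (kp r c (vl w) (vl v) : ℂ) * ev r c v =
      (C : ℂ) * ev r c w := by
    have := h (vl w)
    unfold ev
    exact_mod_cast this
  rw [h1, ← mul_assoc, inv_mul_cancel₀, one_mul]
  exact_mod_cast hC.ne'

theorem Pr_id {r c : Fin n → ℕ} {lam : ℕ → ℕ} (hT : IsTab r c lam) {C : ℤ} (hC : 0 < C)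
    (h : ∀ w : Fin n → ℕ, ∑ v : Fin n → Fin n, kp r c w (vl v) * pt r c (vl v) = C * pt r c w)
    {f : FW n} (hf : f ∈ spe n lam) : Pr r c C f = f := by
  unfold spe at hf
  induction hf using Submodule.span_induction with
  | mem x hx =>
    obtain ⟨r', c', hrc, rfl⟩ := hx
    obtain ⟨k, hk⟩ := sx31_trans hT hrc
    rw [hk, Pr_wact, Pr_ev hC h]
  | zero => rw [map_zero]
  | add x y _ _ hx hy => rw [map_add, hx, hy]
  | smul a x _ hx => rw [map_smul, hx]

theorem trace_FW (T : FW n →ₗ[ℂ] FW n) : LinearMap.trace ℂ (FW n) T =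
    ∑ v : Fin n → Fin n, T (Pi.single v 1) v := by
  rw [LinearMap.trace_eq_matrix_trace ℂ (Pi.basisFun ℂ (Fin n → Fin n))]
  unfold Matrix.trace
  refine Finset.sum_congr rfl fun v _ => ?_
  rw [Matrix.diag_apply, LinearMap.toMatrix_apply]
  simp

theorem char_XX {r c : Fin n → ℕ} {lam : ℕ → ℕ} (hT : IsTab r c lam) {C : ℤ} (hC : 0 < C)
    (h : ∀ w : Fin n → ℕ, ∑ v : Fin n → Fin n, kp r c w (vl v) * pt r c (vl v) = C * pt r c w)
    (g : Equiv.Perm (Fin n)) : (XX r c g : ℂ) = (C : ℂ) * (Sp n lam).character g := by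
  have hC0 : (C : ℂ) ≠ 0 := by exact_mod_cast hC.ne'
  let P' : FW n →ₗ[ℂ] spe n lam := (Pr r c C).codRestrict (spe n lam) (Pr_mem hT C)
  let I : spe n lam →ₗ[ℂ] FW n := (spe n lam).subtype
  have h1 : sx35_A n lam g = P' ∘ₗ (wact n g ∘ₗ I) := by
    ext1 f
    apply Subtype.ext
    change wact n g (f : FW n) = Pr r c C (wact n g (f : FW n))
    rw [Pr_id hT hC h (spe_stable n lam g _ f.2)]
  rw [sx35_char, h1, LinearMap.trace_comp_comm', trace_FW]
  have h2 : ∀ v : Fin n → Fin n, ((wact n g ∘ₗ I) ∘ₗ P') (Pi.single v 1) v =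
      (C : ℂ)⁻¹ * (kp r c (vl v ∘ g) (vl v) : ℂ) := by
    intro v
    change Pr r c C (Pi.single v 1) (v ∘ g) = _
    rw [Pr_apply, Finset.sum_eq_single v]
    · rw [Pi.single_eq_same, mul_one]
      rfl
    · intro u _ hu
      rw [Pi.single_eq_of_ne hu, mul_zero]
    · intro hh
      exact absurd (Finset.mem_univ _) hh
  rw [Finset.sum_congr rfl fun v _ => h2 v, ← Finset.mul_sum, ← mul_assoc, mul_inv_cancel₀ hC0,
    one_mul]
  unfold XX
  push_cast
  rfl

theorem XX_norm {r c : Fin n → ℕ} {lam : ℕ → ℕ} (hl : IsPart lam n) (hT : IsTab r c lam) {C : ℤ}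
    (hC : 0 < C)
    (h : ∀ w : Fin n → ℕ, ∑ v : Fin n → Fin n, kp r c w (vl v) * pt r c (vl v) = C * pt r c w) :
    ∑ g : Equiv.Perm (Fin n), XX r c g * XX r c g = C * C * n.factorial := by
  have h1 := sx36_orth n lam lam hl hl
  rw [if_pos rfl] at h1
  have h2 : ((∑ g : Equiv.Perm (Fin n), XX r c g * XX r c g : ℤ) : ℂ) =
      ((C * C * n.factorial : ℤ) : ℂ) := by
    rw [Int.cast_sum]
    have h3 : ∀ g : Equiv.Perm (Fin n), ((XX r c g * XX r c g : ℤ) : ℂ) =
        ((C : ℂ) * C) * ((Sp n lam).character g * (Sp n lam).character g⁻¹) := by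
      intro g
      rw [Int.cast_mul]
      have : (XX r c g : ℂ) * (XX r c g : ℂ) = (XX r c g : ℂ) * (XX r c g⁻¹ : ℂ) := by
        rw [XX_inv]
      rw [this, char_XX hT hC h, char_XX hT hC h]
      ring
    rw [Finset.sum_congr rfl fun g _ => h3 g, ← Finset.mul_sum, h1]
    rw [Nat.card_eq_fintype_card, Fintype.card_perm, Fintype.card_fin]
    push_cast
    ring
  exact_mod_cast h2

theorem XX_conj {r c r' c' : Fin n → ℕ} {lam : ℕ → ℕ} (hl : IsPart lam n) (hT : IsTab r c lam)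
    (hT' : IsTab r' c' (cj lam)) {C C' : ℤ} (hC : 0 < C) (hC' : 0 < C')
    (h : ∀ w : Fin n → ℕ, ∑ v : Fin n → Fin n, kp r c w (vl v) * pt r c (vl v) = C * pt r c w)
    (h' : ∀ w : Fin n → ℕ, ∑ v : Fin n → Fin n, kp r' c' w (vl v) * pt r' c' (vl v) =
      C' * pt r' c' w) (g : Equiv.Perm (Fin n)) :
    C * XX r' c' g = C' * ((Equiv.Perm.sign g : ℤ) * XX r c g) := by
  have h1 := Sp_conj n lam hl g
  have h2 : ((C * XX r' c' g : ℤ) : ℂ) = ((C' * ((Equiv.Perm.sign g : ℤ) * XX r c g) : ℤ) : ℂ) := by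
    push_cast
    rw [char_XX hT hC h, char_XX hT' hC' h', h1]
    ring
  exact_mod_cast h2

end char

end Pool.Agent.H374
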