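import Mathlib
import Pool.Agent.H374.A22

set_option autoImplicit false

/-! The Jacobi-Trudi class functions are the characters of the Specht modules. -/

namespace Pool.Agent.H374

open Finset Pool.Saxl

section jt

variable {n : ℕ}

/-- symmetrised over the stabiliser of a word -/
def Rf (r c : Fin n → ℕ) (f w v : Fin n → Fin n) : ℤ :=
  ∑ g : Equiv.Perm (Fin n), if ∀ x, f (g x) = f x then kp r c (vl w ∘ g) (vl v) else 0

/-- the order of the stabiliser of a word -/
def St (f : Fin n → Fin n) : ℤ :=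
  ∑ g : Equiv.Perm (Fin n), if ∀ x, f (g x) = f x then 1 else 0

theorem app_inv (k : Equiv.Perm (Fin n)) (x : Fin n) : k ((k⁻¹ : Equiv.Perm (Fin n)) x) = x := by
  simp

theorem fix_inv (f : Fin n → Fin n) (g : Equiv.Perm (Fin n)) :
    (∀ x, f ((g⁻¹ : Equiv.Perm (Fin n)) x) = f x) ↔ ∀ x, f (g x) = f x := by
  constructor
  · intro h x
    have := h (g x)
    simpa using this.symm
  · intro h x
    have := h (g⁻¹ x)
    simpa using this.symm

theorem Rf_symm (r c : Fin n → ℕ) (f w v : Fin n → Fin n) : Rf r c f w v = Rf r c f v w := by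
  unfold Rf
  apply Fintype.sum_equiv (Equiv.inv (Equiv.Perm (Fin n)))
  intro g
  have e : (∀ x, f ((Equiv.inv (Equiv.Perm (Fin n)) g) x) = f x) ↔ ∀ x, f (g x) = f x :=
    fix_inv f g
  simp only [e]
  split_ifs
  · rw [kp_symm, kp_comp_right]
    rfl
  · rfl

theorem Rf_sq {r c : Fin n → ℕ} {C : ℤ}
    (h : ∀ w : Fin n → ℕ, ∑ v : Fin n → Fin n, kp r c w (vl v) * pt r c (vl v) = C * pt r c w)
    (f w u : Fin n → Fin n) :
    ∑ z : Fin n → Fin n, Rf r c f w z * Rf r c f z u = (C * St f) * Rf r c f w u := by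
  have h1 : ∀ z : Fin n → Fin n, Rf r c f w z * Rf r c f z u =
      ∑ g : Equiv.Perm (Fin n), ∑ k : Equiv.Perm (Fin n),
        (if ∀ x, f (g x) = f x then (1 : ℤ) else 0) * (if ∀ x, f (k x) = f x then (1 : ℤ) else 0) *
          (kp r c (vl w ∘ g) (vl z) * kp r c (vl u ∘ k.symm) (vl z)) := by
    intro z
    unfold Rf
    rw [Finset.sum_mul_sum]
    refine Finset.sum_congr rfl fun g _ => Finset.sum_congr rfl fun k _ => ?_
    have e1 : kp r c (vl z ∘ k) (vl u) = kp r c (vl u ∘ k.symm) (vl z) := by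
      rw [kp_symm, kp_comp_right]
    rw [e1]
    split_ifs <;> ring
  have h2 : ∀ g k : Equiv.Perm (Fin n),
      ∑ z : Fin n → Fin n, kp r c (vl w ∘ g) (vl z) * kp r c (vl u ∘ k.symm) (vl z) =
        C * kp r c (vl w ∘ (g * k : Equiv.Perm (Fin n))) (vl u) := by
    intro g k
    rw [kp_kp h, kp_comp_right]
    rfl
  calc ∑ z : Fin n → Fin n, Rf r c f w z * Rf r c f z u
      = ∑ g : Equiv.Perm (Fin n), ∑ k : Equiv.Perm (Fin n),
        (if ∀ x, f (g x) = f x then (1 : ℤ) else 0) * (if ∀ x, f (k x) = f x then (1 : ℤ) else 0) *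
          (C * kp r c (vl w ∘ (g * k : Equiv.Perm (Fin n))) (vl u)) := by
        rw [Finset.sum_congr rfl fun z _ => h1 z, Finset.sum_comm]
        refine Finset.sum_congr rfl fun g _ => ?_
        rw [Finset.sum_comm]
        refine Finset.sum_congr rfl fun k _ => ?_
        rw [← Finset.mul_sum, h2]
    _ = ∑ k : Equiv.Perm (Fin n), (if ∀ x, f (k x) = f x then (1 : ℤ) else 0) *
          (C * Rf r c f w u) := by
        rw [Finset.sum_comm]
        refine Finset.sum_congr rfl fun k _ => ?_
        by_cases hk : ∀ x, f (k x) = f x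
        · rw [if_pos hk, one_mul]
          unfold Rf
          rw [Finset.mul_sum]
          apply Fintype.sum_equiv (Equiv.mulRight k)
          intro g
          have e : (∀ x, f ((Equiv.mulRight k g : Equiv.Perm (Fin n)) x) = f x) ↔
              ∀ x, f (g x) = f x := by
            have e' : (Equiv.mulRight k g : Equiv.Perm (Fin n)) = g * k := rfl
            rw [e']
            constructor
            · intro hh x
              have h3 := hh (k⁻¹ x)
              have h4 := hk (k⁻¹ x)
              rw [Equiv.Perm.mul_apply] at h3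
              rw [app_inv] at h3 h4
              rw [h3, ← h4]
            · intro hh x
              rw [Equiv.Perm.mul_apply, hh, hk]
          simp only [e]
          split_ifs
          · rw [mul_one, one_mul]
            rfl
          · ring
        · simp only [if_neg hk, mul_zero, zero_mul, Finset.sum_const_zero]
    _ = (C * St f) * Rf r c f w u := by
        rw [← Finset.sum_mul]
        unfold St
        ring

theorem pt_colperm (r c w : Fin n → ℕ) (σ : Equiv.Perm (Fin n)) (hσ : ∀ x, c (σ x) = c x) :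
    pt r c (w ∘ σ) = (Equiv.Perm.sign σ : ℤ) * pt r c w := by
  rw [pt_sg_one, pt_sg_one, sg_comp_left]
  congr 2
  funext x
  have := hσ (σ.symm x)
  simpa using this.symm

theorem Rf_ne {r c : Fin n → ℕ} {f w v : Fin n → Fin n} (hne : Rf r c f w v ≠ 0) :
    ∃ h : Equiv.Perm (Fin n), ∀ x y, f (h x) = f (h y) → c x = c y → x = y := by
  have h1 : Rf r c f w v = ∑ h : Equiv.Perm (Fin n), pt r c (vl v ∘ h) *
      ∑ g : Equiv.Perm (Fin n), if ∀ x, f (g x) = f x then pt r c ((vl w ∘ g) ∘ h) else 0 := by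
    unfold Rf kp
    simp only [Finset.mul_sum]
    rw [Finset.sum_comm]
    refine Finset.sum_congr rfl fun g _ => ?_
    split_ifs
    · refine Finset.sum_congr rfl fun h _ => ?_
      ring
    · simp
  rw [h1] at hne
  obtain ⟨h, -, hh⟩ := Finset.exists_ne_zero_of_sum_ne_zero hne
  refine ⟨h, fun x y hxy hc => ?_⟩
  by_contra hne'
  apply hh
  have h2 : ∑ g : Equiv.Perm (Fin n), (if ∀ x, f (g x) = f x then pt r c ((vl w ∘ g) ∘ h) else 0) =
      - ∑ g : Equiv.Perm (Fin n), (if ∀ x, f (g x) = f x then pt r c ((vl w ∘ g) ∘ h) else 0) := by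
    rw [← Finset.sum_neg_distrib]
    set T : Equiv.Perm (Fin n) := Equiv.swap (h x) (h y) with hT
    have hTf : ∀ z, f (T z) = f z := by
      intro z
      rw [hT, Equiv.swap_apply_def]
      split_ifs with h3 h4
      · rw [h3, hxy]
      · rw [h4, hxy]
      · rfl
    apply Fintype.sum_equiv (Equiv.mulRight T)
    intro g
    have e : (∀ x, f ((Equiv.mulRight T g : Equiv.Perm (Fin n)) x) = f x) ↔
        ∀ x, f (g x) = f x := by
      have e' : (Equiv.mulRight T g : Equiv.Perm (Fin n)) = g * T := rfl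
      rw [e']
      constructor
      · intro hh x
        have h3 := hh (T⁻¹ x)
        have h4 := hTf (T⁻¹ x)
        rw [Equiv.Perm.mul_apply] at h3
        rw [app_inv] at h3 h4
        rw [h3, ← h4]
      · intro hh x
        rw [Equiv.Perm.mul_apply, hh, hTf]
    simp only [e]
    split_ifs
    · have e1 : (vl w ∘ (Equiv.mulRight T g : Equiv.Perm (Fin n))) ∘ h =
          ((vl w ∘ g) ∘ h) ∘ Equiv.swap x y := by
        funext z
        change vl w (g (T (h z))) = vl w (g (h (Equiv.swap x y z)))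
        congr 2
        rw [hT, Equiv.swap_apply_def, Equiv.swap_apply_def]
        by_cases c1 : z = x
        · rw [if_pos (congrArg h c1), if_pos c1]
        · by_cases c2 : z = y
          · rw [if_neg (fun hz => c1 (h.injective hz)), if_pos (congrArg h c2), if_neg c1,
              if_pos c2]
          · rw [if_neg (fun hz => c1 (h.injective hz)), if_neg (fun hz => c2 (h.injective hz)),
              if_neg c1, if_neg c2]
      rw [e1, pt_colperm _ _ _ (Equiv.swap x y), Equiv.Perm.sign_swap hne']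
      · simp
      · intro z
        rw [Equiv.swap_apply_def]
        split_ifs with h3 h4
        · rw [h3, hc]
        · rw [h4, hc]
        · rfl
    · simp
  have h3 : ∑ g : Equiv.Perm (Fin n),
      (if ∀ x, f (g x) = f x then pt r c ((vl w ∘ g) ∘ h) else 0) = 0 := by omega
  rw [h3, mul_zero]

theorem Rf_dom {r c : Fin n → ℕ} {lam : ℕ → ℕ} (hT : IsTab r c lam) {f w v : Fin n → Fin n}
    (hne : Rf r c f w v ≠ 0) (s : ℕ) :
    (univ.filter fun x => (f x : ℕ) < s).card ≤ ∑ i ∈ range s, lam i := by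
  obtain ⟨h, hh⟩ := Rf_ne hne
  have h1 : (univ.filter fun x => (f x : ℕ) < s).card =
      (univ.filter fun x => (f (h x) : ℕ) < s).card := by
    symm
    refine Finset.card_equiv h fun x => ?_
    simp
  rw [h1, ← sx31_count r lam hT.card s]
  rw [Finset.card_eq_sum_card_fiberwise (f := c) (t := univ.image c)
      (fun x _ => Finset.mem_coe.2 (Finset.mem_image_of_mem c (Finset.mem_univ x)))]
  rw [Finset.card_eq_sum_card_fiberwise (s := univ.filter fun x => r x < s) (f := c)
      (t := univ.image c)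
      (fun x _ => Finset.mem_coe.2 (Finset.mem_image_of_mem c (Finset.mem_univ x)))]
  refine Finset.sum_le_sum fun i _ => ?_
  rw [Finset.filter_filter, Finset.filter_filter]
  exact sx31_col_le hT (w := fun x => (f (h x) : ℕ)) (fun x y e1 e2 => hh x y (Fin.ext e1) e2) i s

theorem St_pos (f : Fin n → Fin n) : 0 < St f := by
  unfold St
  refine Finset.sum_pos' (fun g _ => ?_) ⟨1, Finset.mem_univ _, ?_⟩
  · split_ifs <;> norm_num
  · rw [if_pos (show ∀ x, f ((1 : Equiv.Perm (Fin n)) x) = f x from fun x => rfl)]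
    norm_num

theorem Rf_self {r c : Fin n → ℕ} {lam : ℕ → ℕ} (hT : IsTab r c lam)
    {f : Fin n → Fin n} (hf : ∃ h : Equiv.Perm (Fin n), vl f = r ∘ h) : Rf r c f f f ≠ 0 := by
  have h1 : Rf r c f f f = St f * kp r c (vl f) (vl f) := by
    unfold Rf St
    rw [Finset.sum_mul]
    refine Finset.sum_congr rfl fun g _ => ?_
    split_ifs with h
    · have : vl f ∘ g = vl f := by
        funext x
        change ((f (g x) : Fin n) : ℕ) = (f x : ℕ)
        rw [h]
      rw [this, one_mul]
    · rw [zero_mul]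
  obtain ⟨h, hh⟩ := hf
  rw [h1, hh, kp_comp]
  refine mul_ne_zero (St_pos f).ne' ?_
  have : 0 < kp r c r r := by
    unfold kp
    refine Finset.sum_pos' (fun g _ => mul_self_nonneg _) ⟨1, Finset.mem_univ _, ?_⟩
    have h2 : pt r c (r ∘ (1 : Equiv.Perm (Fin n))) = 1 := by
      have := pt_self hT.inj
      simpa using this
    rw [h2]
    norm_num
  exact this.ne'

theorem fx_XX (r c : Fin n → ℕ) (a : Fin n → ℤ) :
    ∑ g : Equiv.Perm (Fin n), (fx a g : ℤ) * XX r c g =
      ∑ f ∈ univ.filter (fun f : Fin n → Fin n => ∀ i : Fin n,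
        (((univ.filter (fun x : Fin n => f x = i)).card : ℕ) : ℤ) = a i), ∑ v, Rf r c f v v := by
  have h1 : ∀ g : Equiv.Perm (Fin n), (fx a g : ℤ) * XX r c g =
      ∑ f ∈ univ.filter (fun f : Fin n → Fin n => ∀ i : Fin n,
        (((univ.filter (fun x : Fin n => f x = i)).card : ℕ) : ℤ) = a i), ∑ v : Fin n → Fin n,
        if ∀ x, f (g x) = f x then kp r c (vl v ∘ g) (vl v) else 0 := by
    intro g
    unfold fx XX
    rw [Finset.card_filter]
    push_cast
    rw [Finset.sum_mul, Finset.sum_filter]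
    refine Finset.sum_congr rfl fun f _ => ?_
    by_cases c1 : ∀ i : Fin n, (((univ.filter (fun x : Fin n => f x = i)).card : ℕ) : ℤ) = a i
    · by_cases c2 : ∀ x, f (g x) = f x
      · rw [if_pos ⟨c1, c2⟩, if_pos c1, one_mul]
        refine Finset.sum_congr rfl fun v _ => ?_
        rw [if_pos c2]
      · rw [if_neg (fun h => c2 h.2), if_pos c1, zero_mul]
        symm
        refine Finset.sum_eq_zero fun v _ => ?_
        rw [if_neg c2]
    · rw [if_neg (fun h => c1 h.1), if_neg c1, zero_mul]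
  rw [Finset.sum_congr rfl fun g _ => h1 g, Finset.sum_comm]
  refine Finset.sum_congr rfl fun f _ => ?_
  rw [Finset.sum_comm]
  rfl

theorem count_lt (f : Fin n → Fin n) (s : ℕ) (a : Fin n → ℤ)
    (hf : ∀ i : Fin n, (((univ.filter (fun x : Fin n => f x = i)).card : ℕ) : ℤ) = a i) :
    ((univ.filter fun x => (f x : ℕ) < s).card : ℤ) =
      ∑ i ∈ univ.filter (fun i : Fin n => i.val < s), a i := by
  rw [Finset.card_eq_sum_card_fiberwise (f := f) (t := univ.filter (fun i : Fin n => i.val < s))]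
  · push_cast
    refine Finset.sum_congr rfl fun i hi => ?_
    rw [← hf i, Finset.filter_filter]
    congr 2
    ext x
    rw [Finset.mem_filter] at hi
    simp only [Finset.mem_filter, Finset.mem_univ, true_and]
    constructor
    · rintro ⟨_, h⟩
      exact h
    · intro h
      exact ⟨by rw [h]; exact hi.2, h⟩
  · intro x hx
    rw [Finset.mem_coe, Finset.mem_filter] at hx ⊢
    exact ⟨Finset.mem_univ _, hx.2⟩

theorem fx_XX_zero {r c : Fin n → ℕ} {lam : ℕ → ℕ} (hT : IsTab r c lam) (a : Fin n → ℤ) (s : ℕ)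
    (hs : ((∑ i ∈ range s, lam i : ℕ) : ℤ) < ∑ i ∈ univ.filter (fun i : Fin n => i.val < s), a i) :
    ∑ g : Equiv.Perm (Fin n), (fx a g : ℤ) * XX r c g = 0 := by
  rw [fx_XX]
  refine Finset.sum_eq_zero fun f hf => Finset.sum_eq_zero fun v _ => ?_
  rw [Finset.mem_filter] at hf
  by_contra hne
  have h1 := Rf_dom hT hne s
  have h2 := count_lt f s a hf.2
  rw [← h2] at hs
  omega

theorem fx_XX_ge {r c : Fin n → ℕ} {lam : ℕ → ℕ} (hl : IsPart lam n) (hT : IsTab r c lam) {C : ℤ}
    (hC : 0 < C)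
    (h : ∀ w : Fin n → ℕ, ∑ v : Fin n → Fin n, kp r c w (vl v) * pt r c (vl v) = C * pt r c w) :
    C * n.factorial ≤ ∑ g : Equiv.Perm (Fin n), (fx (fun i => ((lam i : ℕ) : ℤ)) g : ℤ) *
      XX r c g := by
  rw [fx_XX]
  have hr := sx31_row_lt hl hT
  obtain ⟨ρ, hρ⟩ := exists_vl hr
  have hρc : ∀ i : Fin n, (univ.filter (fun x : Fin n => ρ x = i)).card = lam i := by
    intro i
    rw [← hT.card i]
    congr 1
    ext x
    simp only [Finset.mem_filter, Finset.mem_univ, true_and]
    rw [← congrFun hρ x]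
    exact Fin.ext_iff
  have h1 : ∀ f ∈ univ.filter (fun f : Fin n → Fin n => ∀ i : Fin n,
      (((univ.filter (fun x : Fin n => f x = i)).card : ℕ) : ℤ) = ((lam i : ℕ) : ℤ)),
      C * St f ≤ ∑ v, Rf r c f v v := by
    intro f hf
    rw [Finset.mem_filter] at hf
    refine psd_trace (Rf r c f) (C * St f) (mul_pos hC (St_pos f)) (Rf_symm r c f)
      (Rf_sq h f) ⟨f, f, Rf_self hT ?_⟩
    have hc : cnt f = cnt ρ := by
      ext i
      rw [cnt_apply, cnt_apply, hρc]
      exact_mod_cast hf.2 i
    obtain ⟨g, hg⟩ := cnt_exists_perm f ρ hc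
    refine ⟨g, ?_⟩
    rw [← hρ, hg]
    rfl
  refine le_trans ?_ (Finset.sum_le_sum h1)
  rw [← Finset.mul_sum]
  refine mul_le_mul_of_nonneg_left (le_of_eq ?_) hC.le
  -- the number of pairs
  have h2 := burnside (n := n) (M := ℤ) (fun m : Fin n →₀ ℕ => if m = cnt ρ then 1 else 0)
  rw [Finset.sum_ite_eq' , if_pos (cnt_mem ρ), mul_one] at h2
  rw [← h2, Finset.sum_filter]
  unfold St
  rw [Finset.sum_comm]
  refine Finset.sum_congr rfl fun f _ => ?_
  have h3 : (∀ i : Fin n, (((univ.filter (fun x : Fin n => f x = i)).card : ℕ) : ℤ) =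
      ((lam i : ℕ) : ℤ)) ↔ cnt f = cnt ρ := by
    constructor
    · intro hh
      ext i
      rw [cnt_apply, cnt_apply, hρc]
      exact_mod_cast hh i
    · intro hh i
      rw [← cnt_apply, hh, cnt_apply, hρc]
  simp only [h3]
  by_cases h4 : cnt f = cnt ρ
  · simp only [if_pos h4]
  · simp only [if_neg h4]
    simp

theorem sum_pos_of_ne (σ : Equiv.Perm (Fin n)) (hσ : σ ≠ 1) : ∃ s : ℕ, s ≤ n ∧
    0 < ∑ i ∈ univ.filter (fun i : Fin n => i.val < s), (((σ i).val : ℤ) - (i.val : ℤ)) := by
  have hex : ∃ i, ∃ hi : i < n, σ ⟨i, hi⟩ ≠ ⟨i, hi⟩ := by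
    by_contra hcon
    push Not at hcon
    apply hσ
    ext i
    rw [hcon i.1 i.2]
    rfl
  classical
  set i := Nat.find hex with hi
  obtain ⟨hin, hne⟩ := Nat.find_spec hex
  have hmin : ∀ j : Fin n, j.val < i → σ j = j := by
    intro j hj
    have := Nat.find_min hex hj
    push Not at this
    exact this j.2
  refine ⟨i + 1, hin, ?_⟩
  have h1 : (univ.filter (fun j : Fin n => j.val < i + 1)) =
      insert (⟨i, hin⟩ : Fin n) (univ.filter (fun j : Fin n => j.val < i)) := by
    ext j
    simp only [Finset.mem_filter, Finset.mem_univ, true_and, Finset.mem_insert, Fin.ext_iff]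
    omega
  rw [h1, Finset.sum_insert (by simp)]
  have h2 : ∑ j ∈ univ.filter (fun j : Fin n => j.val < i), (((σ j).val : ℤ) - (j.val : ℤ)) = 0 := by
    refine Finset.sum_eq_zero fun j hj => ?_
    rw [Finset.mem_filter] at hj
    rw [hmin j hj.2]
    ring
  rw [h2, add_zero]
  have h3 : i ≤ (σ ⟨i, hin⟩).val := by
    by_contra hlt
    push Not at hlt
    have := hmin _ hlt
    have h4 := σ.injective this
    rw [h4] at hlt
    exact lt_irrefl _ hlt
  have h5 : (σ ⟨i, hin⟩).val ≠ i := fun h6 => hne (Fin.ext h6)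
  show (0 : ℤ) < ((σ ⟨i, hin⟩).val : ℤ) - (i : ℤ)
  omega

/-- The Jacobi-Trudi class function is the character. -/
theorem JT_eq {r c : Fin n → ℕ} {lam : ℕ → ℕ} (hl : IsPart lam n) (hT : IsTab r c lam) {C : ℤ}
    (hC : 0 < C)
    (h : ∀ w : Fin n → ℕ, ∑ v : Fin n → Fin n, kp r c w (vl v) * pt r c (vl v) = C * pt r c w)
    (g : Equiv.Perm (Fin n)) : C * JT (fun i : Fin n => lam i) g = XX r c g := by
  have hs : ∑ i : Fin n, lam i = n := by
    rw [Fin.sum_univ_eq_sum_range (fun i => lam i) n]
    exact hl.sum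
  have ha : Antitone (fun i : Fin n => lam i) := fun i j hij => hl.anti hij
  have h1 := JT_norm (fun i : Fin n => lam i) ha hs
  have h2 := XX_norm hl hT hC h
  have h3 : C * n.factorial ≤ ∑ g : Equiv.Perm (Fin n), JT (fun i : Fin n => lam i) g *
      XX r c g := by
    refine (fx_XX_ge hl hT hC h).trans (le_of_eq ?_)
    have e0 : ∑ g : Equiv.Perm (Fin n), JT (fun i : Fin n => lam i) g * XX r c g =
        ∑ σ : Equiv.Perm (Fin n), (Equiv.Perm.sign σ : ℤ) * ∑ g : Equiv.Perm (Fin n),
          (fx (fun i : Fin n => ((lam i : ℕ) : ℤ) - ((i.val : ℕ) : ℤ) +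
            (((σ i).val : ℕ) : ℤ)) g : ℤ) * XX r c g := by
      unfold JT
      simp only [Finset.sum_mul, Finset.mul_sum]
      rw [Finset.sum_comm]
      refine Finset.sum_congr rfl fun σ _ => Finset.sum_congr rfl fun g _ => ?_
      rw [mul_assoc]
    rw [e0]
    symm
    rw [Finset.sum_eq_single (1 : Equiv.Perm (Fin n))]
    · rw [Equiv.Perm.sign_one, Units.val_one, one_mul]
      refine Finset.sum_congr rfl fun g _ => ?_
      simp
    · intro σ _ hσ
      obtain ⟨s, hsn, hpos⟩ := sum_pos_of_ne σ hσ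
      have h4 := fx_XX_zero hT (fun i : Fin n => ((lam i : ℕ) : ℤ) - ((i.val : ℕ) : ℤ) +
        (((σ i).val : ℕ) : ℤ)) s (by
          have e1 : ∀ i ∈ univ.filter (fun i : Fin n => i.val < s), ((lam i : ℕ) : ℤ) -
              ((i.val : ℕ) : ℤ) + (((σ i).val : ℕ) : ℤ) = ((lam i : ℕ) : ℤ) +
              ((((σ i).val : ℕ) : ℤ) - ((i.val : ℕ) : ℤ)) := fun i _ => by ring
          rw [Finset.sum_congr rfl e1, Finset.sum_add_distrib]
          have e2 : ((∑ i ∈ range s, lam i : ℕ) : ℤ) =
              ∑ i ∈ univ.filter (fun i : Fin n => i.val < s), ((lam i : ℕ) : ℤ) := by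
            push_cast
            symm
            refine Finset.sum_bij (fun (i : Fin n) _ => i.val) ?_ ?_ ?_ ?_
            · intro i hi
              rw [Finset.mem_filter] at hi
              exact Finset.mem_range.2 hi.2
            · intro i _ j _ hij
              exact Fin.ext hij
            · intro i hi
              rw [Finset.mem_range] at hi
              exact ⟨⟨i, lt_of_lt_of_le hi hsn⟩, by simp [hi], rfl⟩
            · intro i _
              rfl
          rw [e2]
          linarith)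
      rw [h4, mul_zero]
    · intro hh
      exact absurd (Finset.mem_univ _) hh
  have h5 : ∑ g : Equiv.Perm (Fin n), (C * JT (fun i : Fin n => lam i) g - XX r c g) ^ 2 ≤ 0 := by
    have e1 : ∑ g : Equiv.Perm (Fin n), (C * JT (fun i : Fin n => lam i) g - XX r c g) ^ 2 =
        (C * C) * ∑ g : Equiv.Perm (Fin n), JT (fun i : Fin n => lam i) g *
          JT (fun i : Fin n => lam i) g - (2 * C) * ∑ g : Equiv.Perm (Fin n),
          JT (fun i : Fin n => lam i) g * XX r c g + ∑ g : Equiv.Perm (Fin n),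
          XX r c g * XX r c g := by
      rw [Finset.mul_sum, Finset.mul_sum, ← Finset.sum_sub_distrib, ← Finset.sum_add_distrib]
      refine Finset.sum_congr rfl fun g _ => ?_
      ring
    rw [e1, h1, h2]
    have h6 : C * (C * n.factorial) ≤ C * ∑ g : Equiv.Perm (Fin n),
        JT (fun i : Fin n => lam i) g * XX r c g := mul_le_mul_of_nonneg_left h3 hC.le
    linarith
  have h7 : ∑ g : Equiv.Perm (Fin n), (C * JT (fun i : Fin n => lam i) g - XX r c g) ^ 2 = 0 :=
    le_antisymm h5 (Finset.sum_nonneg fun g _ => sq_nonneg _)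
  have h8 := (Finset.sum_eq_zero_iff_of_nonneg fun g _ => sq_nonneg _).1 h7 g (Finset.mem_univ _)
  have h9 := pow_eq_zero_iff (two_ne_zero) |>.1 h8
  linarith

end jt

end Pool.Agent.H374
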