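import Mathlib
import Pool.Agent.H374.A23

set_option autoImplicit false

/-! The symmetric square. -/

namespace Pool.Agent.H374

open Finset Pool.Saxl

section sqr

variable {n : ℕ}

/-- words -/
abbrev Wd (n : ℕ) : Type := Fin n → Fin n

theorem kp_conv {r c : Fin n → ℕ} {C : ℤ}
    (h : ∀ w : Fin n → ℕ, ∑ v : Fin n → Fin n, kp r c w (vl v) * pt r c (vl v) = C * pt r c w)
    (w u : Fin n → ℕ) (g k : Equiv.Perm (Fin n)) :
    ∑ z : Fin n → Fin n, kp r c (w ∘ g) (vl z) * kp r c (vl z ∘ k) u =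
      C * kp r c (w ∘ (g * k : Equiv.Perm (Fin n))) u := by
  have h1 : ∀ z : Fin n → Fin n, kp r c (w ∘ g) (vl z) * kp r c (vl z ∘ k) u =
      kp r c (w ∘ g) (vl z) * kp r c (u ∘ k.symm) (vl z) := by
    intro z
    congr 1
    rw [kp_symm, kp_comp_right]
  rw [Finset.sum_congr rfl fun z _ => h1 z, kp_kp h, kp_comp_right]
  rfl

theorem kp_invol (r c w v : Fin n → ℕ) (g : Equiv.Perm (Fin n)) :
    kp r c (w ∘ (g⁻¹ : Equiv.Perm (Fin n))) v = kp r c (v ∘ g) w := by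
  rw [kp_symm r c (v ∘ g) w, kp_comp_right]
  rfl

/-- the invariant kernel on triples -/
def AA (R C r3 c3 : Fin n → ℕ) (v u : Wd n × Wd n × Wd n) : ℤ :=
  ∑ g : Equiv.Perm (Fin n), kp R C (vl v.1 ∘ g) (vl u.1) * kp R C (vl v.2.1 ∘ g) (vl u.2.1) *
    kp r3 c3 (vl v.2.2 ∘ g) (vl u.2.2)

/-- exchange of the first two words -/
def tau3 (v : Wd n × Wd n × Wd n) : Wd n × Wd n × Wd n := (v.2.1, v.1, v.2.2)

/-- the kernel of the symmetric square -/
def QQ (R C r3 c3 : Fin n → ℕ) (v u : Wd n × Wd n × Wd n) : ℤ :=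
  AA R C r3 c3 v u + AA R C r3 c3 v (tau3 u)

theorem tau3_tau3 (v : Wd n × Wd n × Wd n) : tau3 (tau3 v) = v := rfl

theorem AA_symm (R C r3 c3 : Fin n → ℕ) (v u : Wd n × Wd n × Wd n) :
    AA R C r3 c3 v u = AA R C r3 c3 u v := by
  unfold AA
  apply Fintype.sum_equiv (Equiv.inv (Equiv.Perm (Fin n)))
  intro g
  have e : (Equiv.inv (Equiv.Perm (Fin n))) g = g⁻¹ := rfl
  rw [e, kp_invol, kp_invol, kp_invol]

theorem AA_tau (R C r3 c3 : Fin n → ℕ) (v u : Wd n × Wd n × Wd n) :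
    AA R C r3 c3 (tau3 v) (tau3 u) = AA R C r3 c3 v u := by
  unfold AA tau3
  refine Finset.sum_congr rfl fun g _ => ?_
  rw [mul_comm (kp R C (vl v.2.1 ∘ g) (vl u.2.1))]

theorem AA_tau' (R C r3 c3 : Fin n → ℕ) (v u : Wd n × Wd n × Wd n) :
    AA R C r3 c3 v (tau3 u) = AA R C r3 c3 (tau3 v) u := by
  rw [← AA_tau, tau3_tau3]

theorem QQ_symm (R C r3 c3 : Fin n → ℕ) (v u : Wd n × Wd n × Wd n) :
    QQ R C r3 c3 v u = QQ R C r3 c3 u v := by
  unfold QQ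
  rw [AA_symm R C r3 c3 v u, AA_tau' R C r3 c3 v u, AA_symm R C r3 c3 (tau3 v) u]

theorem AA_sq {R C r3 c3 : Fin n → ℕ} {C1 C3 : ℤ}
    (h : ∀ w : Fin n → ℕ, ∑ v : Fin n → Fin n, kp R C w (vl v) * pt R C (vl v) = C1 * pt R C w)
    (h3 : ∀ w : Fin n → ℕ, ∑ v : Fin n → Fin n, kp r3 c3 w (vl v) * pt r3 c3 (vl v) =
      C3 * pt r3 c3 w) (v u : Wd n × Wd n × Wd n) :
    ∑ z, AA R C r3 c3 v z * AA R C r3 c3 z u =
      (C1 * C1 * C3 * n.factorial) * AA R C r3 c3 v u := by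
  rw [Fintype.sum_prod_type]
  simp only [Fintype.sum_prod_type]
  have e0 : ∀ z1 z2 z3 : Wd n, AA R C r3 c3 v (z1, z2, z3) * AA R C r3 c3 (z1, z2, z3) u =
      (∑ g : Equiv.Perm (Fin n), (fun (g : Equiv.Perm (Fin n)) (z : Wd n) =>
          kp R C (vl v.1 ∘ g) (vl z)) g z1 *
        (fun (g : Equiv.Perm (Fin n)) (z : Wd n) => kp R C (vl v.2.1 ∘ g) (vl z)) g z2 *
        (fun (g : Equiv.Perm (Fin n)) (z : Wd n) => kp r3 c3 (vl v.2.2 ∘ g) (vl z)) g z3) *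
      (∑ k : Equiv.Perm (Fin n), (fun (k : Equiv.Perm (Fin n)) (z : Wd n) =>
          kp R C (vl z ∘ k) (vl u.1)) k z1 *
        (fun (k : Equiv.Perm (Fin n)) (z : Wd n) => kp R C (vl z ∘ k) (vl u.2.1)) k z2 *
        (fun (k : Equiv.Perm (Fin n)) (z : Wd n) => kp r3 c3 (vl z ∘ k) (vl u.2.2)) k z3) :=
    fun z1 z2 z3 => rfl
  simp only [e0]
  rw [triple]
  simp only [kp_conv h, kp_conv h3]
  have e1 : ∀ g : Equiv.Perm (Fin n), ∑ k : Equiv.Perm (Fin n),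
      C1 * kp R C (vl v.1 ∘ (g * k : Equiv.Perm (Fin n))) (vl u.1) *
        (C1 * kp R C (vl v.2.1 ∘ (g * k : Equiv.Perm (Fin n))) (vl u.2.1)) *
        (C3 * kp r3 c3 (vl v.2.2 ∘ (g * k : Equiv.Perm (Fin n))) (vl u.2.2)) =
      (C1 * C1 * C3) * AA R C r3 c3 v u := by
    intro g
    unfold AA
    rw [Finset.mul_sum]
    apply Fintype.sum_equiv (Equiv.mulLeft g)
    intro k
    have e : (Equiv.mulLeft g) k = g * k := rfl
    rw [e]
    ring
  rw [Finset.sum_congr rfl fun g _ => e1 g, Finset.sum_const, Finset.card_univ,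
    Fintype.card_perm, Fintype.card_fin, nsmul_eq_mul]
  ring

/-- the exchange as an equivalence -/
def tau3e : (Wd n × Wd n × Wd n) ≃ (Wd n × Wd n × Wd n) :=
  ⟨tau3, tau3, tau3_tau3, tau3_tau3⟩

theorem QQ_sq {R C r3 c3 : Fin n → ℕ} {C1 C3 : ℤ}
    (h : ∀ w : Fin n → ℕ, ∑ v : Fin n → Fin n, kp R C w (vl v) * pt R C (vl v) = C1 * pt R C w)
    (h3 : ∀ w : Fin n → ℕ, ∑ v : Fin n → Fin n, kp r3 c3 w (vl v) * pt r3 c3 (vl v) =
      C3 * pt r3 c3 w) (v u : Wd n × Wd n × Wd n) :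
    ∑ z, QQ R C r3 c3 v z * QQ R C r3 c3 z u =
      (2 * (C1 * C1 * C3 * n.factorial)) * QQ R C r3 c3 v u := by
  have h1 := AA_sq h h3 v u
  have h2 := AA_sq h h3 v (tau3 u)
  have h4 : ∑ z, AA R C r3 c3 v (tau3 z) * AA R C r3 c3 z u =
      ∑ z, AA R C r3 c3 v z * AA R C r3 c3 z (tau3 u) := by
    apply Fintype.sum_equiv tau3e
    intro z
    have e : (tau3e z : Wd n × Wd n × Wd n) = tau3 z := rfl
    rw [e, AA_tau]
  have h5 : ∑ z, AA R C r3 c3 v (tau3 z) * AA R C r3 c3 z (tau3 u) =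
      ∑ z, AA R C r3 c3 v z * AA R C r3 c3 z u := by
    apply Fintype.sum_equiv tau3e
    intro z
    have e : (tau3e z : Wd n × Wd n × Wd n) = tau3 z := rfl
    rw [e, AA_tau' R C r3 c3 z u]
  calc ∑ z, QQ R C r3 c3 v z * QQ R C r3 c3 z u
      = ∑ z, AA R C r3 c3 v z * AA R C r3 c3 z u +
        ∑ z, AA R C r3 c3 v z * AA R C r3 c3 z (tau3 u) +
        (∑ z, AA R C r3 c3 v (tau3 z) * AA R C r3 c3 z u +
        ∑ z, AA R C r3 c3 v (tau3 z) * AA R C r3 c3 z (tau3 u)) := by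
        rw [← Finset.sum_add_distrib, ← Finset.sum_add_distrib, ← Finset.sum_add_distrib]
        refine Finset.sum_congr rfl fun z _ => ?_
        unfold QQ
        ring
    _ = _ := by
        rw [h4, h5, h1, h2]
        unfold QQ
        ring

theorem kp_sq_tr {R C : Fin n → ℕ} {C1 : ℤ}
    (h : ∀ w : Fin n → ℕ, ∑ v : Fin n → Fin n, kp R C w (vl v) * pt R C (vl v) = C1 * pt R C w)
    (g : Equiv.Perm (Fin n)) :
    ∑ v1 : Wd n, ∑ v2 : Wd n, kp R C (vl v1 ∘ g) (vl v2) * kp R C (vl v2 ∘ g) (vl v1) =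
      C1 * XX R C (g * g) := by
  simp only [kp_conv h]
  unfold XX
  rw [Finset.mul_sum]

theorem QQ_tr {R C r3 c3 : Fin n → ℕ} {C1 : ℤ}
    (h : ∀ w : Fin n → ℕ, ∑ v : Fin n → Fin n, kp R C w (vl v) * pt R C (vl v) = C1 * pt R C w) :
    ∑ v, QQ R C r3 c3 v v = ∑ g : Equiv.Perm (Fin n),
      (XX R C g * XX R C g + C1 * XX R C (g * g)) * XX r3 c3 g := by
  unfold QQ
  rw [Finset.sum_add_distrib]
  simp only [add_mul]
  rw [Finset.sum_add_distrib]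
  congr 1
  · unfold AA
    rw [Finset.sum_comm]
    refine Finset.sum_congr rfl fun g _ => ?_
    simp only [Fintype.sum_prod_type]
    unfold XX
    simp only [← Finset.mul_sum, ← Finset.sum_mul]
  · unfold AA
    rw [Finset.sum_comm]
    refine Finset.sum_congr rfl fun g _ => ?_
    simp only [Fintype.sum_prod_type]
    rw [← kp_sq_tr h]
    unfold XX tau3
    simp only [← Finset.mul_sum, ← Finset.sum_mul]

theorem isPart_uniq {mu : ℕ → ℕ} {a b : ℕ} (h : IsPart mu a) (h' : IsPart mu b) : a = b := by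
  wlog hab : a ≤ b with H
  · exact (H h' h (by omega)).symm
  have h1 := h'.sum
  obtain ⟨d, rfl⟩ := Nat.exists_eq_add_of_le hab
  rw [Finset.sum_range_add, h.sum] at h1
  have : ∑ i ∈ range d, mu (a + i) = 0 :=
    Finset.sum_eq_zero fun i _ => h.zero _ (by omega)
  omega

theorem pt_trans {R C r c : Fin n → ℕ} {lam : ℕ → ℕ} (hR : IsTab R C lam) (hT : IsTab r c lam) :
    ∃ g : Equiv.Perm (Fin n), ∀ u : Wd n, pt r c (vl u) = pt R C (vl u ∘ g) := by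
  obtain ⟨g, hg⟩ := sx31_trans hR hT
  refine ⟨g, fun u => ?_⟩
  have h1 := congrFun hg u
  rw [sx31_wact] at h1
  unfold ev at h1
  exact_mod_cast h1

theorem kp_pt {R C r c : Fin n → ℕ} {lam : ℕ → ℕ} (hR : IsTab R C lam) (hT : IsTab r c lam)
    {C1 : ℤ}
    (h : ∀ w : Fin n → ℕ, ∑ v : Fin n → Fin n, kp R C w (vl v) * pt R C (vl v) = C1 * pt R C w)
    (w : Wd n) : ∑ u : Wd n, kp R C (vl w) (vl u) * pt r c (vl u) = C1 * pt r c (vl w) := by
  obtain ⟨g, hg⟩ := pt_trans hR hT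
  rw [hg w, ← h (vl w ∘ g), ← sum_words_comp (fun v => kp R C (vl w ∘ g) v * pt R C v) g]
  refine Finset.sum_congr rfl fun u _ => ?_
  rw [hg u, kp_comp]

theorem QQ_ne {R C r3 c3 : Fin n → ℕ} {lam mu : ℕ → ℕ} {C1 C3 : ℤ} (hC1 : 0 < C1) (hC3 : 0 < C3)
    (hR : IsTab R C lam) (hT : IsTab r3 c3 mu)
    (h : ∀ w : Fin n → ℕ, ∑ v : Fin n → Fin n, kp R C w (vl v) * pt R C (vl v) = C1 * pt R C w)
    (h3 : ∀ w : Fin n → ℕ, ∑ v : Fin n → Fin n, kp r3 c3 w (vl v) * pt r3 c3 (vl v) =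
      C3 * pt r3 c3 w) (hS : SS 1 lam mu) : ∃ v u, QQ R C r3 c3 v u ≠ 0 := by
  by_contra hcon
  push Not at hcon
  obtain ⟨m, r1, c1, r2, c2, s3, d3, t1, t2, t3, w1, w2, w3, hw⟩ := hS
  have hnm : m = n := by
    have a1 := t3.isPart
    have a2 := hT.isPart
    rw [Fintype.card_fin] at a1 a2
    exact isPart_uniq a1 a2
  subst hnm
  have p1 := t1.isPart
  have p2 := t2.isPart
  have p3 := t3.isPart
  rw [Fintype.card_fin] at p1 p2 p3
  have hb1 := sx31_row_lt p1 t1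
  have hb2 := sx31_row_lt p2 t2
  have hb3 := sx31_row_lt p3 t3
  have hww : (∀ x, w1 x < m) ∧ (∀ x, w2 x < m) ∧ ∀ x, w3 x < m := by
    by_cases h' : trs false r1 c1 r2 c2 s3 d3 w1 w2 w3 = 0
    · by_cases h'' : trs false r1 c1 r2 c2 s3 d3 w2 w1 w3 = 0
      · exfalso
        apply hw
        unfold tw
        rw [h', h'']
        ring
      · obtain ⟨g1, g2, g3, e1, e2, e3⟩ := trs_word3 h''
        exact ⟨fun x => by rw [e2]; exact hb2 _, fun x => by rw [e1]; exact hb1 _,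
          fun x => by rw [e3]; exact hb3 _⟩
    · obtain ⟨g1, g2, g3, e1, e2, e3⟩ := trs_word3 h'
      exact ⟨fun x => by rw [e1]; exact hb1 _, fun x => by rw [e2]; exact hb2 _,
        fun x => by rw [e3]; exact hb3 _⟩
  obtain ⟨v1, hv1⟩ := exists_vl hww.1
  obtain ⟨v2, hv2⟩ := exists_vl hww.2.1
  obtain ⟨v3, hv3⟩ := exists_vl hww.2.2
  have key : ∀ a b c : Wd m, ∑ u : Wd m × Wd m × Wd m, AA R C r3 c3 (a, b, c) u *
      (pt r1 c1 (vl u.1) * pt r2 c2 (vl u.2.1) * pt s3 d3 (vl u.2.2)) =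
      (C1 * C1 * C3) * trs false r1 c1 r2 c2 s3 d3 (vl a) (vl b) (vl c) := by
    intro a b c
    unfold AA trs
    simp only [Finset.sum_mul]
    rw [Finset.sum_comm, Finset.mul_sum]
    refine Finset.sum_congr rfl fun g _ => ?_
    simp only [Fintype.sum_prod_type]
    have f1 := kp_pt hR t1 h (a ∘ g)
    have f2 := kp_pt hR t2 h (b ∘ g)
    have f3 := kp_pt hT t3 h3 (c ∘ g)
    have g1 : vl (a ∘ g) = vl a ∘ g := rfl
    have g2 : vl (b ∘ g) = vl b ∘ g := rfl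
    have g3 : vl (c ∘ g) = vl c ∘ g := rfl
    rw [g1] at f1
    rw [g2] at f2
    rw [g3] at f3
    have e1 : ∀ x y z : Wd m, kp R C (vl a ∘ g) (vl x) * kp R C (vl b ∘ g) (vl y) *
        kp r3 c3 (vl c ∘ g) (vl z) * (pt r1 c1 (vl x) * pt r2 c2 (vl y) * pt s3 d3 (vl z)) =
        (kp R C (vl a ∘ g) (vl x) * pt r1 c1 (vl x)) *
        ((kp R C (vl b ∘ g) (vl y) * pt r2 c2 (vl y)) *
        (kp r3 c3 (vl c ∘ g) (vl z) * pt s3 d3 (vl z))) := fun x y z => by ring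
    simp only [e1, ← Finset.mul_sum, ← Finset.sum_mul]
    rw [f1, f2, f3]
    simp only [ch, Bool.false_eq_true, if_false]
    ring
  apply hw
  have h5 : ∑ u : Wd m × Wd m × Wd m, QQ R C r3 c3 (v1, v2, v3) u *
      (pt r1 c1 (vl u.1) * pt r2 c2 (vl u.2.1) * pt s3 d3 (vl u.2.2)) = 0 := by
    refine Finset.sum_eq_zero fun u _ => ?_
    rw [hcon, zero_mul]
  have h6 : ∀ u, QQ R C r3 c3 (v1, v2, v3) u = AA R C r3 c3 (v1, v2, v3) u +
      AA R C r3 c3 (v2, v1, v3) u := by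
    intro u
    unfold QQ
    rw [AA_tau' R C r3 c3 (v1, v2, v3) u]
    rfl
  simp only [h6, add_mul, Finset.sum_add_distrib] at h5
  rw [key, key, hv1, hv2, hv3] at h5
  have h7 : (C1 * C1 * C3) * tw false 1 r1 c1 r2 c2 s3 d3 w1 w2 w3 = 0 := by
    unfold tw
    linarith
  rcases mul_eq_zero.1 h7 with h8 | h8
  · exact absurd h8 (mul_pos (mul_pos hC1 hC1) hC3).ne'
  · exact h8

/-- the multiplicity is positive -/
theorem pos_of_SS {k : ℕ} (hn : n = k * (k + 1) / 2) {mu : ℕ → ℕ} (hmu : IsPart mu n)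
    (hS : SS 1 (rho k) mu) :
    0 < ∑ g : Equiv.Perm (Fin n), (JT (fun i : Fin n => rho k i) g ^ 2 +
      JT (fun i : Fin n => rho k i) (g * g)) * JT (fun i : Fin n => mu i) g := by
  have hp : IsPart (rho k) n := by rw [hn]; exact isPart_rho k
  obtain ⟨R, C, hR⟩ := exists_tab (rho k) n hp
  obtain ⟨r3, c3, hT⟩ := exists_tab mu n hmu
  obtain ⟨C1, hC1, h⟩ := kp_proj hR.toIsTab
  obtain ⟨C3, hC3, h3⟩ := kp_proj hT.toIsTab
  have hc : 0 < 2 * (C1 * C1 * C3 * n.factorial) := by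
    have : (0 : ℤ) < n.factorial := by exact_mod_cast n.factorial_pos
    positivity
  have h4 := psd_trace (QQ R C r3 c3) _ hc (QQ_symm R C r3 c3) (QQ_sq h h3)
    (QQ_ne hC1 hC3 hR.toIsTab hT.toIsTab h h3 hS)
  rw [QQ_tr h] at h4
  have h5 : ∑ g : Equiv.Perm (Fin n), (XX R C g * XX R C g + C1 * XX R C (g * g)) * XX r3 c3 g =
      (C1 * C1 * C3) * ∑ g : Equiv.Perm (Fin n), (JT (fun i : Fin n => rho k i) g ^ 2 +
      JT (fun i : Fin n => rho k i) (g * g)) * JT (fun i : Fin n => mu i) g := by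
    rw [Finset.mul_sum]
    refine Finset.sum_congr rfl fun g _ => ?_
    rw [← JT_eq hp hR.toIsTab hC1 h g, ← JT_eq hp hR.toIsTab hC1 h (g * g),
      ← JT_eq hmu hT.toIsTab hC3 h3 g]
    ring
  rw [h5] at h4
  have h6 : 0 < (C1 * C1 * C3) * ∑ g : Equiv.Perm (Fin n), (JT (fun i : Fin n => rho k i) g ^ 2 +
      JT (fun i : Fin n => rho k i) (g * g)) * JT (fun i : Fin n => mu i) g := lt_of_lt_of_le hc h4
  exact pos_of_mul_pos_right h6 (mul_pos (mul_pos hC1 hC1) hC3).le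

end sqr

end Pool.Agent.H374
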