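import Mathlib
import Pool.Agent.H374.A10
import Pool.Agent.H374.A24

set_option autoImplicit false

/-! The sign character is not in the symmetric square when `k % 4 = 2`. -/

namespace Pool.Agent.H374

open Finset Pool.Saxl

section excl

variable {n : ℕ}

theorem double {ι ι' κ : Type} [Fintype ι] [Fintype ι'] [Fintype κ]
    (a b : ι → κ → ℤ) (a' b' : ι' → κ → ℤ) :
    ∑ v1, ∑ v2, (∑ g, a g v1 * b g v2) * (∑ h, a' h v1 * b' h v2) =
      ∑ g, ∑ h, (∑ v, a g v * a' h v) * (∑ v, b g v * b' h v) := by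
  have e1 : ∀ g h, (∑ v, a g v * a' h v) * (∑ v, b g v * b' h v) =
      ∑ v1, ∑ v2, (a g v1 * b g v2) * (a' h v1 * b' h v2) := by
    intro g h
    rw [Finset.sum_mul_sum]
    refine Finset.sum_congr rfl fun v1 _ => Finset.sum_congr rfl fun v2 _ => ?_
    ring
  simp only [e1]
  simp only [Finset.sum_mul_sum]
  calc _ = ∑ p : κ × κ, ∑ q : ι × ι',
        (a q.1 p.1 * b q.1 p.2) * (a' q.2 p.1 * b' q.2 p.2) := by
        simp only [Fintype.sum_prod_type]
    _ = ∑ q : ι × ι', ∑ p : κ × κ,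
        (a q.1 p.1 * b q.1 p.2) * (a' q.2 p.1 * b' q.2 p.2) :=
        Finset.sum_comm
    _ = _ := by simp only [Fintype.sum_prod_type]

/-- the sign-twisted kernel on pairs -/
def DD (R C : Fin n → ℕ) (v u : Wd n × Wd n) : ℤ :=
  ∑ g : Equiv.Perm (Fin n), ((Equiv.Perm.sign g : ℤ) * kp R C (vl v.1 ∘ g) (vl u.1)) *
    kp R C (vl v.2 ∘ g) (vl u.2)

theorem DD_symm (R C : Fin n → ℕ) (v u : Wd n × Wd n) : DD R C v u = DD R C u v := by
  unfold DD
  apply Fintype.sum_equiv (Equiv.inv (Equiv.Perm (Fin n)))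
  intro g
  have e : (Equiv.inv (Equiv.Perm (Fin n))) g = g⁻¹ := rfl
  rw [e, kp_invol, kp_invol, Equiv.Perm.sign_inv]

theorem DD_sq {R C : Fin n → ℕ} {C1 : ℤ}
    (h : ∀ w : Fin n → ℕ, ∑ v : Fin n → Fin n, kp R C w (vl v) * pt R C (vl v) = C1 * pt R C w)
    (v u : Wd n × Wd n) :
    ∑ z, DD R C v z * DD R C z u = (C1 * C1 * n.factorial) * DD R C v u := by
  rw [Fintype.sum_prod_type]
  have e0 : ∀ z1 z2 : Wd n, DD R C v (z1, z2) * DD R C (z1, z2) u =
      (∑ g : Equiv.Perm (Fin n), (fun (g : Equiv.Perm (Fin n)) (z : Wd n) =>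
          (Equiv.Perm.sign g : ℤ) * kp R C (vl v.1 ∘ g) (vl z)) g z1 *
        (fun (g : Equiv.Perm (Fin n)) (z : Wd n) => kp R C (vl v.2 ∘ g) (vl z)) g z2) *
      (∑ k : Equiv.Perm (Fin n), (fun (k : Equiv.Perm (Fin n)) (z : Wd n) =>
          (Equiv.Perm.sign k : ℤ) * kp R C (vl z ∘ k) (vl u.1)) k z1 *
        (fun (k : Equiv.Perm (Fin n)) (z : Wd n) => kp R C (vl z ∘ k) (vl u.2)) k z2) :=
    fun z1 z2 => rfl
  simp only [e0]
  rw [double]
  have e1 : ∀ g k : Equiv.Perm (Fin n), (∑ z : Wd n, (Equiv.Perm.sign g : ℤ) *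
      kp R C (vl v.1 ∘ g) (vl z) * ((Equiv.Perm.sign k : ℤ) * kp R C (vl z ∘ k) (vl u.1))) *
      (∑ z : Wd n, kp R C (vl v.2 ∘ g) (vl z) * kp R C (vl z ∘ k) (vl u.2)) =
      (C1 * C1) * (((Equiv.Perm.sign (g * k : Equiv.Perm (Fin n)) : ℤ) *
        kp R C (vl v.1 ∘ (g * k : Equiv.Perm (Fin n))) (vl u.1)) *
        kp R C (vl v.2 ∘ (g * k : Equiv.Perm (Fin n))) (vl u.2)) := by
    intro g k
    have f1 : ∀ z : Wd n, (Equiv.Perm.sign g : ℤ) *
        kp R C (vl v.1 ∘ g) (vl z) * ((Equiv.Perm.sign k : ℤ) * kp R C (vl z ∘ k) (vl u.1)) =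
        ((Equiv.Perm.sign g : ℤ) * (Equiv.Perm.sign k : ℤ)) *
        (kp R C (vl v.1 ∘ g) (vl z) * kp R C (vl z ∘ k) (vl u.1)) := fun z => by ring
    rw [Finset.sum_congr rfl fun z _ => f1 z, ← Finset.mul_sum, kp_conv h, kp_conv h,
      Equiv.Perm.sign_mul, Units.val_mul]
    ring
  simp only [e1]
  have e2 : ∀ g : Equiv.Perm (Fin n), ∑ k : Equiv.Perm (Fin n),
      (C1 * C1) * (((Equiv.Perm.sign (g * k : Equiv.Perm (Fin n)) : ℤ) *
        kp R C (vl v.1 ∘ (g * k : Equiv.Perm (Fin n))) (vl u.1)) *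
        kp R C (vl v.2 ∘ (g * k : Equiv.Perm (Fin n))) (vl u.2)) =
      (C1 * C1) * DD R C v u := by
    intro g
    unfold DD
    rw [Finset.mul_sum]
    apply Fintype.sum_equiv (Equiv.mulLeft g)
    intro k
    rfl
  rw [Finset.sum_congr rfl fun g _ => e2 g, Finset.sum_const, Finset.card_univ,
    Fintype.card_perm, Fintype.card_fin, nsmul_eq_mul]
  ring

theorem DD_tr (R C : Fin n → ℕ) :
    ∑ v, DD R C v v = ∑ g : Equiv.Perm (Fin n), (Equiv.Perm.sign g : ℤ) * (XX R C g * XX R C g) := by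
  unfold DD
  rw [Finset.sum_comm]
  refine Finset.sum_congr rfl fun g _ => ?_
  simp only [Fintype.sum_prod_type]
  unfold XX
  simp only [← Finset.mul_sum, ← Finset.sum_mul]
  ring

theorem DD_tr' {R C : Fin n → ℕ} {C1 : ℤ}
    (h : ∀ w : Fin n → ℕ, ∑ v : Fin n → Fin n, kp R C w (vl v) * pt R C (vl v) = C1 * pt R C w) :
    ∑ v : Wd n × Wd n, DD R C v (v.2, v.1) =
      ∑ g : Equiv.Perm (Fin n), (Equiv.Perm.sign g : ℤ) * (C1 * XX R C (g * g)) := by
  unfold DD
  rw [Finset.sum_comm]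
  refine Finset.sum_congr rfl fun g _ => ?_
  simp only [Fintype.sum_prod_type]
  rw [← kp_sq_tr h]
  simp only [mul_assoc, ← Finset.mul_sum]

/-- the invariant vector -/
def ss (R C : Fin n → ℕ) (v : Wd n × Wd n) : ℤ := sg R C (vl v.1) (vl v.2)

theorem DD_ss {R C : Fin n → ℕ} {C1 : ℤ} {τ : Equiv.Perm (Fin n)}
    (h : ∀ w : Fin n → ℕ, ∑ v : Fin n → Fin n, kp R C w (vl v) * pt R C (vl v) = C1 * pt R C w)
    (hτ1 : C = R ∘ τ) (hτ2 : R = C ∘ τ) (v : Wd n × Wd n) :
    ∑ u, DD R C v u * ss R C u = (C1 * C1 * n.factorial) * ss R C v := by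
  unfold DD ss
  simp only [Finset.sum_mul]
  rw [Finset.sum_comm]
  have e1 : ∀ g : Equiv.Perm (Fin n), ∑ u : Wd n × Wd n, (((Equiv.Perm.sign g : ℤ) *
      kp R C (vl v.1 ∘ g) (vl u.1)) * kp R C (vl v.2 ∘ g) (vl u.2)) * sg R C (vl u.1) (vl u.2) =
      (C1 * C1) * sg R C (vl v.1) (vl v.2) := by
    intro g
    rw [Fintype.sum_prod_type, Finset.sum_comm]
    have f1 : ∀ u2 : Wd n, ∑ u1 : Wd n, (((Equiv.Perm.sign g : ℤ) *
        kp R C (vl v.1 ∘ g) (vl u1)) * kp R C (vl v.2 ∘ g) (vl u2)) * sg R C (vl u1) (vl u2) =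
        (Equiv.Perm.sign g : ℤ) * (C1 * (Equiv.Perm.sign τ : ℤ)) *
        (kp R C (vl v.2 ∘ g) (vl u2) * sg R C (vl u2) (vl v.1 ∘ g)) := by
      intro u2
      have f2 := kp_sg h (vl v.1 ∘ g) (vl u2)
      rw [sg_swap hτ1 hτ2 (vl u2) (vl v.1 ∘ g)] at f2
      have f3 : ∀ u1 : Wd n, (((Equiv.Perm.sign g : ℤ) *
        kp R C (vl v.1 ∘ g) (vl u1)) * kp R C (vl v.2 ∘ g) (vl u2)) * sg R C (vl u1) (vl u2) =
        ((Equiv.Perm.sign g : ℤ) * kp R C (vl v.2 ∘ g) (vl u2)) *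
        (kp R C (vl v.1 ∘ g) (vl u1) * sg R C (vl u1) (vl u2)) := fun u1 => by ring
      rw [Finset.sum_congr rfl fun u1 _ => f3 u1, ← Finset.mul_sum, f2]
      ring
    rw [Finset.sum_congr rfl fun u2 _ => f1 u2, ← Finset.mul_sum, kp_sg h]
    rw [sg_swap hτ1 hτ2 (vl v.1 ∘ g) (vl v.2 ∘ g), sg_comp]
    have q1 := sgn_mul_self g
    have q2 := sgn_mul_self τ
    linear_combination (C1 * C1 * sg R C (vl v.1) (vl v.2)) * ((Equiv.Perm.sign τ : ℤ) *
      (Equiv.Perm.sign τ : ℤ)) * q1 + (C1 * C1 * sg R C (vl v.1) (vl v.2)) * q2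
  rw [Finset.sum_congr rfl fun g _ => e1 g, Finset.sum_const, Finset.card_univ,
    Fintype.card_perm, Fintype.card_fin, nsmul_eq_mul]
  ring

/-- a rank-one kernel -/
theorem rank_one {W : Type} [Fintype W] (D : W → W → ℤ) (c : ℤ) (hc : 0 < c)
    (hs : ∀ x y, D x y = D y x) (h2 : ∀ x y, ∑ z, D x z * D z y = c * D x y) (s : W → ℤ)
    (h3 : ∀ x, ∑ y, D x y * s y = c * s x) (ht : ∑ x, D x x = c) (hN : 0 < ∑ x, s x * s x) :
    ∀ x y, (∑ x, s x * s x) * D x y = c * (s x * s y) := by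
  set N : ℤ := ∑ x, s x * s x with hNd
  have h4 : ∀ x, ∑ y, s y * D y x = c * s x := by
    intro x
    rw [← h3 x]
    refine Finset.sum_congr rfl fun y _ => ?_
    rw [hs y x]
    ring
  have key := psd_zero (fun x y => N * D x y - c * (s x * s y)) (N * c) (mul_pos hN hc)
    (fun x y => by rw [hs x y]; ring)
    (by
      intro x y
      have e : ∀ z, (N * D x z - c * (s x * s z)) * (N * D z y - c * (s z * s y)) =
          N * N * (D x z * D z y) - (N * c * s y) * (D x z * s z) - (N * c * s x) *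
          (s z * D z y) + (c * c * s x * s y) * (s z * s z) := fun z => by ring
      rw [Finset.sum_congr rfl fun z _ => e z, Finset.sum_add_distrib, Finset.sum_sub_distrib,
        Finset.sum_sub_distrib, ← Finset.mul_sum, ← Finset.mul_sum, ← Finset.mul_sum,
        ← Finset.mul_sum, h2, h3, h4, ← hNd]
      ring)
    (by
      have e : ∑ x, (N * D x x - c * (s x * s x)) = 0 := by
        rw [Finset.sum_sub_distrib, ← Finset.mul_sum, ← Finset.mul_sum, ht, ← hNd]
        ring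
      rw [e]
      exact mul_pos hN hc)
  intro x y
  have := key x y
  linarith

theorem col_const {mu : ℕ → ℕ} {r c : Fin n → ℕ} (hT : IsTab r c mu)
    (hmu : ∀ i, i < n → mu i = 1) (hp : IsPart mu n) (x y : Fin n) : c x = c y := by
  have hr := sx31_row_lt hp hT
  have hn : 0 < n := lt_of_le_of_lt (Nat.zero_le _) (hr x)
  have huniq : ∀ a b : Fin n, r a = r b → a = b := by
    intro a b hab
    have h1 := hT.card (r a)
    rw [hmu _ (hr a), Finset.card_eq_one] at h1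
    obtain ⟨z, hz⟩ := h1
    have ha : a ∈ univ.filter (fun x => r x = r a) := by simp
    have hb : b ∈ univ.filter (fun x => r x = r a) := by simp [hab]
    rw [hz, Finset.mem_singleton] at ha hb
    rw [ha, hb]
  obtain ⟨z, hz⟩ : ∃ z, r z = n - 1 := by
    have h1 := hT.card (n - 1)
    rw [hmu _ (by omega), Finset.card_eq_one] at h1
    obtain ⟨z, hz⟩ := h1
    have : z ∈ univ.filter (fun x => r x = n - 1) := by rw [hz]; simp
    rw [Finset.mem_filter] at this
    exact ⟨z, this.2⟩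
  have key : ∀ a, c a = c z := by
    intro a
    by_cases ha : r a < r z
    · obtain ⟨b, hb1, hb2⟩ := hT.down z (r a) ha
      rw [← hb1, huniq b a hb2]
    · have := hr a
      have h2 : r a = r z := by omega
      rw [huniq a z h2]
  rw [key x, key y]

theorem JT_sign {mu : ℕ → ℕ} (hp : IsPart mu n) (hmu : ∀ i, i < n → mu i = 1)
    (g : Equiv.Perm (Fin n)) : JT (fun i : Fin n => mu i) g = (Equiv.Perm.sign g : ℤ) := by
  obtain ⟨r, c, hT⟩ := exists_tab mu n hp
  obtain ⟨C3, hC3, h3⟩ := kp_proj hT.toIsTab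
  have hc := col_const hT.toIsTab hmu hp
  have hpt : ∀ (w : Fin n → ℕ) (σ : Equiv.Perm (Fin n)),
      pt r c (w ∘ σ) = (Equiv.Perm.sign σ : ℤ) * pt r c w :=
    fun w σ => pt_colperm r c w σ fun x => hc _ _
  have hXX : ∀ g : Equiv.Perm (Fin n), XX r c g = (Equiv.Perm.sign g : ℤ) * XX r c 1 := by
    intro g
    unfold XX
    rw [Finset.mul_sum]
    refine Finset.sum_congr rfl fun v _ => ?_
    unfold kp
    rw [Finset.mul_sum]
    refine Finset.sum_congr rfl fun k _ => ?_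
    simp only [hpt, Equiv.Perm.sign_one, Units.val_one]
    ring
  have h1 : 0 ≤ XX r c 1 := by
    unfold XX
    refine Finset.sum_nonneg fun v _ => ?_
    unfold kp
    exact Finset.sum_nonneg fun k _ => mul_self_nonneg _
  have h2 := XX_norm hp hT.toIsTab hC3 h3
  have h4 : ∀ g : Equiv.Perm (Fin n), XX r c g * XX r c g = XX r c 1 * XX r c 1 := by
    intro g
    rw [hXX g]
    have q1 := sgn_mul_self g
    linear_combination (XX r c 1 * XX r c 1) * q1
  rw [Finset.sum_congr rfl fun g _ => h4 g, Finset.sum_const, Finset.card_univ,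
    Fintype.card_perm, Fintype.card_fin, nsmul_eq_mul] at h2
  have hf : (0 : ℤ) < n.factorial := by exact_mod_cast n.factorial_pos
  have h5 : XX r c 1 * XX r c 1 = C3 * C3 := by
    have : (n.factorial : ℤ) * (XX r c 1 * XX r c 1) = (n.factorial : ℤ) * (C3 * C3) := by
      rw [h2]
      ring
    exact mul_left_cancel₀ hf.ne' this
  have h6 : XX r c 1 = C3 := by
    have := mul_self_eq_mul_self_iff.1 h5
    rcases this with h | h
    · exact h
    · omega
  have h7 := JT_eq hp hT.toIsTab hC3 h3 g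
  rw [hXX g, h6, mul_comm (Equiv.Perm.sign g : ℤ)] at h7
  exact mul_left_cancel₀ hC3.ne' h7

/-- the excluded case -/
theorem excl {k : ℕ} (hk : k % 4 = 2) (hn : n = k * (k + 1) / 2) {mu : ℕ → ℕ}
    (hp : IsPart mu n) (hmu : ∀ i, i < n → mu i = 1) :
    ∑ g : Equiv.Perm (Fin n), (JT (fun i : Fin n => rho k i) g ^ 2 +
      JT (fun i : Fin n => rho k i) (g * g)) * JT (fun i : Fin n => mu i) g = 0 := by
  have hpr : IsPart (rho k) n := by rw [hn]; exact isPart_rho k
  obtain ⟨R, C, τ, hR, hτ1, hτ2⟩ := exists_ref k n hn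
  obtain ⟨C1, hC1, h⟩ := kp_proj hR.toIsTab
  have hs := sign_tau hR hτ1 hτ2
  rw [eta_neg hk] at hs
  have hf : (0 : ℤ) < n.factorial := by exact_mod_cast n.factorial_pos
  have hc : 0 < C1 * C1 * n.factorial := mul_pos (mul_pos hC1 hC1) hf
  -- the self-conjugate shape
  have hX : ∀ g : Equiv.Perm (Fin n), XX R C g = (Equiv.Perm.sign g : ℤ) * XX R C g := by
    intro g
    have h1 := XX_conj (r' := R) (c' := C) hpr hR.toIsTab (by rw [cj_rho]; exact hR.toIsTab)
      hC1 hC1 h h g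
    exact mul_left_cancel₀ hC1.ne' h1
  have ht : ∑ v, DD R C v v = C1 * C1 * n.factorial := by
    rw [DD_tr, ← XX_norm hpr hR.toIsTab hC1 h]
    refine Finset.sum_congr rfl fun g _ => ?_
    linear_combination (-(XX R C g)) * hX g
  have hN : 0 < ∑ v : Wd n × Wd n, ss R C v * ss R C v := by
    have hb := sx31_row_lt hpr hR.toIsTab
    have hbC : ∀ x, C x < n := fun x => by rw [hτ1]; exact hb _
    obtain ⟨a, ha⟩ := exists_vl hb
    obtain ⟨b, hb'⟩ := exists_vl hbC
    refine Finset.sum_pos' (fun v _ => mul_self_nonneg _) ⟨(a, b), Finset.mem_univ _, ?_⟩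
    have h1 := sg_of R C hR.inj 1
    have h2 : ss R C (a, b) = 1 := by
      unfold ss
      rw [ha, hb']
      simpa using h1
    rw [h2]
    norm_num
  have hrk := rank_one (DD R C) _ hc (DD_symm R C) (DD_sq h) (ss R C) (DD_ss h hτ1 hτ2) ht hN
  have htr' : ∑ v : Wd n × Wd n, DD R C v (v.2, v.1) = - (C1 * C1 * n.factorial) := by
    have h1 : (∑ v : Wd n × Wd n, ss R C v * ss R C v) *
        ∑ v : Wd n × Wd n, DD R C v (v.2, v.1) =
        (∑ v : Wd n × Wd n, ss R C v * ss R C v) * (- (C1 * C1 * n.factorial)) := by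
      rw [Finset.mul_sum]
      simp only [hrk]
      have h2 : ∀ v : Wd n × Wd n, C1 * C1 * n.factorial * (ss R C v * ss R C (v.2, v.1)) =
          (ss R C v * ss R C v) * (- (C1 * C1 * n.factorial)) := by
        intro v
        have h3 : ss R C (v.2, v.1) = - ss R C v := by
          unfold ss
          rw [sg_swap hτ1 hτ2 (vl v.1) (vl v.2), hs]
          ring
        rw [h3]
        ring
      rw [Finset.sum_congr rfl fun v _ => h2 v, ← Finset.sum_mul]
    exact mul_left_cancel₀ hN.ne' h1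
  rw [DD_tr' h] at htr'
  rw [DD_tr] at ht
  have h5 : (C1 * C1) * ∑ g : Equiv.Perm (Fin n), (JT (fun i : Fin n => rho k i) g ^ 2 +
      JT (fun i : Fin n => rho k i) (g * g)) * JT (fun i : Fin n => mu i) g =
      ∑ g : Equiv.Perm (Fin n), (Equiv.Perm.sign g : ℤ) * (XX R C g * XX R C g) +
      ∑ g : Equiv.Perm (Fin n), (Equiv.Perm.sign g : ℤ) * (C1 * XX R C (g * g)) := by
    rw [Finset.mul_sum, ← Finset.sum_add_distrib]
    refine Finset.sum_congr rfl fun g _ => ?_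
    rw [JT_sign hp hmu g, ← JT_eq hpr hR.toIsTab hC1 h g, ← JT_eq hpr hR.toIsTab hC1 h (g * g)]
    ring
  rw [ht, htr'] at h5
  have h6 : (C1 * C1) * ∑ g : Equiv.Perm (Fin n), (JT (fun i : Fin n => rho k i) g ^ 2 +
      JT (fun i : Fin n => rho k i) (g * g)) * JT (fun i : Fin n => mu i) g = 0 := by
    rw [h5]
    ring
  rcases mul_eq_zero.1 h6 with h7 | h7
  · exact absurd h7 (mul_pos hC1 hC1).ne'
  · exact h7

end excl

end Pool.Agent.H374
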