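import Mathlib
import Pool.Agent.H374.A19
import Pool.Agent.H374.A25

set_option autoImplicit false

/-! The main theorem. -/

namespace Pool.Agent.H374

open Finset Pool.Saxl

theorem main (k : ℕ) (n : ℕ) (hn : n = k * (k + 1) / 2)
    (χ : (Fin n → ℕ) → Equiv.Perm (Fin n) → ℤ)
    (hχ : ∀ (lam : Fin n → ℕ) (g : Equiv.Perm (Fin n)),
      χ lam g = ∑ σ : Equiv.Perm (Fin n), ((Equiv.Perm.sign σ : ℤˣ) : ℤ) *
        ((Finset.univ.filter (fun f : Fin n → Fin n =>
            (∀ i : Fin n, (((Finset.univ.filter (fun x : Fin n => f x = i)).card : ℕ) : ℤ)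
                = ((lam i : ℕ) : ℤ) - ((i.val : ℕ) : ℤ) + (((σ i).val : ℕ) : ℤ)) ∧
            ∀ x : Fin n, f (g x) = f x)).card : ℤ))
    (lam : Fin n → ℕ) (ha : Antitone lam) (hs : ∑ i, lam i = n) :
    0 < ∑ g : Equiv.Perm (Fin n),
          (χ (fun i => k - i.val) g ^ 2 + χ (fun i => k - i.val) (g * g)) * χ lam g
        ↔ ¬ (k % 4 = 2 ∧ lam = fun _ => 1) := by
  have hχ' : ∀ (lam : Fin n → ℕ) (g : Equiv.Perm (Fin n)), χ lam g = JT lam g := hχ
  set mu : ℕ → ℕ := fun i => if h : i < n then lam ⟨i, h⟩ else 0 with hmu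
  have hmui : ∀ i : Fin n, mu i = lam i := by
    intro i
    rw [hmu]
    simp
  have hp : IsPart mu n := by
    refine ⟨?_, ?_, ?_⟩
    · intro i j hij
      rw [hmu]
      by_cases hj : j < n
      · have hi : i < n := lt_of_le_of_lt hij hj
        simp only [dif_pos hj, dif_pos hi]
        exact ha (show (⟨i, hi⟩ : Fin n) ≤ ⟨j, hj⟩ from hij)
      · simp only [dif_neg hj]
        exact Nat.zero_le _
    · intro i hi
      rw [hmu]
      exact dif_neg (by omega)
    · rw [← Fin.sum_univ_eq_sum_range (fun i => mu i) n]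
      simp only [hmui]
      exact hs
  have e1 : (fun i : Fin n => mu i) = lam := funext hmui
  have e2 : (fun i : Fin n => rho k i) = fun i : Fin n => k - i.val := rfl
  simp only [hχ']
  constructor
  · rintro h ⟨hk, hl⟩
    have h1 := excl hk hn hp (fun i hi => by
      have := hmui ⟨i, hi⟩
      rw [hl] at this
      exact this)
    rw [e1, e2] at h1
    rw [h1] at h
    exact lt_irrefl _ h
  · intro h
    have hp' : IsPart mu (k * (k + 1) / 2) := by rw [← hn]; exact hp
    have h1 := SS_all k mu hp' (by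
      rintro ⟨hk, hm⟩
      apply h
      refine ⟨hk, ?_⟩
      funext i
      rw [← hmui i, hm, ← hn]
      unfold tc
      rw [if_neg (Nat.not_lt_zero _), if_pos (by rw [Nat.sub_zero]; exact i.2)])
    have h2 := pos_of_SS hn hp h1
    rw [e1, e2] at h2
    exact h2

end Pool.Agent.H374
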