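import Mathlib

/-!
Numbers and a family of index pairs, taken from the library modules on two families.
-/

set_option autoImplicit false
set_option linter.unusedVariables false
set_option linter.unusedSectionVars false

namespace Pool.Agent.H374.TF

open Finset

/-- the rank of the contraction -/
def s : ℕ → ℕ → ℕ
  | 0, _ => 0
  | 1, _ => 0
  | (n + 2), a => (if 2 ≤ a then n.choose (a - 2) else 0) + 2 * s n (a - 1)



namespace N1

theorem s_zero (n : ℕ) : s n 0 = 0 := by
  induction n using Nat.strong_induction_on with
  | _ n ih =>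
    match n with
    | 0 => rfl
    | 1 => rfl
    | (n + 2) =>
      rw [s]
      simp [ih n (by omega)]

theorem num_aux (c : ℕ) : ∀ b : ℕ, c + 2 ≤ b →
    (c + 2 + b - 2).choose c =
      (∑ i ∈ Icc 2 (c + 2), 2 ^ (i - 2) * (c + 2 + b - 2 * i).choose (c + 2 - i))
        + s (c + 2 + b - 2) c := by
  induction c with
  | zero =>
    intro b hb
    rw [s_zero]
    simp
  | succ c ih =>
    intro b hb
    obtain ⟨b', rfl⟩ : ∃ b', b = b' + 1 := ⟨b - 1, by omega⟩
    have ih' := ih b' (by omega)
    have e1 : c + 1 + 2 + (b' + 1) - 2 = (c + b') + 2 := by omega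
    have e2 : c + 2 + b' - 2 = c + b' := by omega
    rw [e2] at ih'
    rw [e1]
    have hsum : (∑ i ∈ Icc 2 (c + 1 + 2), 2 ^ (i - 2) * (c + 1 + 2 + (b' + 1) - 2 * i).choose (c + 1 + 2 - i))
        = (c + b').choose (c + 1)
          + 2 * ∑ i ∈ Icc 2 (c + 2), 2 ^ (i - 2) * (c + 2 + b' - 2 * i).choose (c + 2 - i) := by
      have h1 : Icc 2 (c + 1 + 2) = insert 2 ((Icc 2 (c + 2)).image (· + 1)) := by
        ext x
        simp only [mem_Icc, mem_insert, mem_image]
        constructor
        · intro hx
          by_cases h : x = 2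
          · exact Or.inl h
          · exact Or.inr ⟨x - 1, by omega, by omega⟩
        · rintro (h | ⟨y, hy, rfl⟩)
          · omega
          · omega
      rw [h1, sum_insert, sum_image, mul_sum]
      · congr 1
        · have : c + 1 + 2 + (b' + 1) - 2 * 2 = c + b' := by omega
          rw [this]
          simp
        · apply sum_congr rfl
          intro i hi
          rw [mem_Icc] at hi
          have t1 : i + 1 - 2 = (i - 2) + 1 := by omega
          have t2 : c + 1 + 2 + (b' + 1) - 2 * (i + 1) = c + 2 + b' - 2 * i := by omega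
          have t3 : c + 1 + 2 - (i + 1) = c + 2 - i := by omega
          rw [t1, t2, t3, pow_succ]
          ring
      · intro x _ y _ h
        simpa using h
      · simp only [mem_image, mem_Icc, not_exists, not_and]
        intro x hx
        omega
    rw [hsum]
    rw [s]
    have hc : c + 1 - 1 = c := by omega
    rw [hc]
    rcases c with _ | c
    · simp only [zero_add] at *
      have : (b' + 2).choose 1 = b' + 2 := by simp
      rw [this]
      simp only [Nat.choose_zero_right, Nat.choose_one_right] at ih' ⊢
      simp only [show ¬ (2 ≤ 1) by omega, if_false, zero_add]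
      omega
    · have : 2 ≤ c + 1 + 1 := by omega
      rw [if_pos this]
      have t4 : c + 1 + 1 - 2 = c := by omega
      rw [t4]
      have p1 : (c + 1 + b' + 2).choose (c + 1 + 1)
          = (c + 1 + b').choose (c + 1 + 1) + 2 * (c + 1 + b').choose (c + 1)
            + (c + 1 + b').choose c := by
        rw [Nat.choose_succ_succ' (c + 1 + b' + 1) (c + 1),
          Nat.choose_succ_succ' (c + 1 + b') (c + 1), Nat.choose_succ_succ' (c + 1 + b') c]
        ring
      rw [p1]
      omega

theorem num (a b : ℕ) (h2 : 2 ≤ a) (hab : a ≤ b) :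
    (a + b - 2).choose (a - 2) =
      (∑ i ∈ Icc 2 a, 2 ^ (i - 2) * (a + b - 2 * i).choose (a - i)) + s (a + b - 2) (a - 2) := by
  obtain ⟨c, rfl⟩ : ∃ c, a = c + 2 := ⟨a - 2, by omega⟩
  have := num_aux c b hab
  simpa using this

end N1

export N1 (num)





namespace N2

theorem family_s0 : ∀ n, s n 0 = 0
  | 0 => rfl
  | 1 => rfl
  | (n + 2) => by
    have h := family_s0 n
    simp [s, h]

theorem family_empty {α : Type} [DecidableEq α] (n a : ℕ) (Y : Finset α) (h : s n a = 0) :
    ∃ (t : Finset α → ZMod 2) (J : Type) (_ : Fintype J) (_ : DecidableEq J) (R C : J → Finset α),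
      Fintype.card J = s n a ∧
      (∀ j, R j ⊆ Y ∧ C j ⊆ Y ∧ (R j).card = a ∧ (C j).card + 2 = a) ∧
      (∀ i j, (if C j ⊆ R i then t (R i \ C j) else 0) = if i = j then 1 else 0) ∧
      (∀ e, ¬ e ⊆ Y → t e = 0) :=
  ⟨fun _ => 0, Empty, inferInstance, inferInstance, fun j => j.elim, fun j => j.elim,
    by rw [h]; rfl, fun j => j.elim, fun j => j.elim, fun _ _ => rfl⟩

theorem family_aux {α : Type} [DecidableEq α] : ∀ (n a : ℕ) (Y : Finset α), Y.card = n →
    ∃ (t : Finset α → ZMod 2) (J : Type) (_ : Fintype J) (_ : DecidableEq J) (R C : J → Finset α),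
      Fintype.card J = s n a ∧
      (∀ j, R j ⊆ Y ∧ C j ⊆ Y ∧ (R j).card = a ∧ (C j).card + 2 = a) ∧
      (∀ i j, (if C j ⊆ R i then t (R i \ C j) else 0) = if i = j then 1 else 0) ∧
      (∀ e, ¬ e ⊆ Y → t e = 0)
  | 0, a, Y, _ => family_empty 0 a Y rfl
  | 1, a, Y, _ => family_empty 1 a Y rfl
  | (n + 2), a, Y, hY => by
    by_cases ha : 2 ≤ a
    swap
    · apply family_empty
      have h0 : a - 1 = 0 := by omega
      simp [s, ha, h0, family_s0 n]
    obtain ⟨p, Y1, hp, hYp, hY1⟩ := Finset.card_eq_succ.1 hY
    obtain ⟨q, Y0, hq, hYq, hY0⟩ := Finset.card_eq_succ.1 hY1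
    have hqp : q ≠ p := by
      rintro rfl
      exact hp (by rw [← hYq]; exact mem_insert_self _ _)
    have hp0 : p ∉ Y0 := fun h => hp (by rw [← hYq]; exact mem_insert_of_mem h)
    obtain ⟨t0, J0, fJ, dJ, R0, C0, hcard, h1, h2, h3⟩ := family_aux n (a - 1) Y0 hY0
    obtain ⟨t, ht⟩ : ∃ t : Finset α → ZMod 2, ∀ e, t e = if e = {p, q} then 1 else t0 e :=
      ⟨_, fun _ => rfl⟩
    have hsub : Y0 ⊆ Y := by
      rw [← hYp, ← hYq]
      exact (subset_insert _ _).trans (subset_insert _ _)
    have hpY : p ∈ Y := by rw [← hYp]; exact mem_insert_self _ _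
    have hqY : q ∈ Y := by rw [← hYp, ← hYq]; exact mem_insert_of_mem (mem_insert_self _ _)
    have tp : ∀ e, p ∉ e → t e = t0 e := by
      intro e he
      rw [ht, if_neg]
      rintro rfl
      exact he (mem_insert_self _ _)
    have tq : ∀ e, q ∉ e → t e = t0 e := by
      intro e he
      rw [ht, if_neg]
      rintro rfl
      exact he (mem_insert_of_mem (mem_singleton_self _))
    have t1 : ∀ e, p ∉ e → q ∈ e → t e = 0 := by
      intro e he he'
      rw [tp e he]
      exact h3 e fun h => hq (h he')
    have t2 : ∀ e, q ∉ e → p ∈ e → t e = 0 := by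
      intro e he he'
      rw [tq e he]
      exact h3 e fun h => hp0 (h he')
    have hA : ∀ A : {A // A ∈ powersetCard (a - 2) Y0}, A.1 ⊆ Y0 ∧ A.1.card = a - 2 ∧
        p ∉ A.1 ∧ q ∉ A.1 := by
      intro A
      obtain ⟨h4, h5⟩ := mem_powersetCard.1 A.2
      exact ⟨h4, h5, fun h => hp0 (h4 h), fun h => hq (h4 h)⟩
    have hRp : ∀ j, p ∉ R0 j := fun j h => hp0 ((h1 j).1 h)
    have hRq : ∀ j, q ∉ R0 j := fun j h => hq ((h1 j).1 h)
    have hCp : ∀ j, p ∉ C0 j := fun j h => hp0 ((h1 j).2.1 h)
    have hCq : ∀ j, q ∉ C0 j := fun j h => hq ((h1 j).2.1 h)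
    let iA : Fintype {A // A ∈ powersetCard (a - 2) Y0} := Finset.fintypeCoeSort _
    let i0 : Fintype (J0 ⊕ J0) := @instFintypeSum J0 J0 fJ fJ
    let i1 : Fintype ({A // A ∈ powersetCard (a - 2) Y0} ⊕ (J0 ⊕ J0)) :=
      @instFintypeSum _ (J0 ⊕ J0) iA i0
    have e1 : @Fintype.card _ i1 = @Fintype.card {A // A ∈ powersetCard (a - 2) Y0} iA +
      @Fintype.card (J0 ⊕ J0) i0 := @Fintype.card_sum _ _ iA i0
    have e3 : @Fintype.card {A // A ∈ powersetCard (a - 2) Y0} iA = (powersetCard (a - 2) Y0).card :=
      Fintype.card_coe _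
    have e2 : @Fintype.card _ i0 = Fintype.card J0 + Fintype.card J0 :=
      @Fintype.card_sum J0 J0 fJ fJ
    refine ⟨t, {A // A ∈ powersetCard (a - 2) Y0} ⊕ (J0 ⊕ J0), i1, inferInstance,
      Sum.elim (fun A => insert p (insert q A.1))
        (Sum.elim (fun j => insert p (R0 j)) (fun j => insert q (R0 j))),
      Sum.elim (fun A => A.1)
        (Sum.elim (fun j => insert p (C0 j)) (fun j => insert q (C0 j))), ?_, ?_, ?_, ?_⟩
    · rw [e1, e2, e3, hcard, card_powersetCard, hY0]
      simp only [s, if_pos ha]
      ring
    · rintro (A | j | j)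
      · obtain ⟨h4, h5, h6, h7⟩ := hA A
        refine ⟨?_, h4.trans hsub, ?_, ?_⟩
        · simp only [Sum.elim_inl]
          exact insert_subset hpY (insert_subset hqY (h4.trans hsub))
        · simp only [Sum.elim_inl]
          rw [card_insert_of_notMem (by simp [hqp.symm, h6]), card_insert_of_notMem h7, h5]
          omega
        · simp only [Sum.elim_inl]
          omega
      · obtain ⟨h4, h5, h6, h7⟩ := h1 j
        refine ⟨?_, ?_, ?_, ?_⟩
        · exact insert_subset hpY (h4.trans hsub)
        · exact insert_subset hpY (h5.trans hsub)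
        · simp only [Sum.elim_inr, Sum.elim_inl]
          rw [card_insert_of_notMem (hRp j), h6]; omega
        · simp only [Sum.elim_inr, Sum.elim_inl]
          rw [card_insert_of_notMem (hCp j)]; omega
      · obtain ⟨h4, h5, h6, h7⟩ := h1 j
        refine ⟨?_, ?_, ?_, ?_⟩
        · exact insert_subset hqY (h4.trans hsub)
        · exact insert_subset hqY (h5.trans hsub)
        · simp only [Sum.elim_inr]
          rw [card_insert_of_notMem (hRq j), h6]; omega
        · simp only [Sum.elim_inr]
          rw [card_insert_of_notMem (hCq j)]; omega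
    · have key : ∀ (r : α) (i j : J0), r ∉ R0 i → r ∉ C0 j →
          ((insert r (C0 j) ⊆ insert r (R0 i)) ↔ C0 j ⊆ R0 i) ∧
          insert r (R0 i) \ insert r (C0 j) = R0 i \ C0 j := by
        intro r i j hr hr'
        constructor
        · constructor
          · intro h x hx
            rcases mem_insert.1 (h (mem_insert_of_mem hx)) with h' | h'
            · exact absurd (h' ▸ hx) hr'
            · exact h'
          · exact fun h => insert_subset_insert _ h
        · ext x
          simp only [mem_sdiff, mem_insert, not_or]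
          constructor
          · rintro ⟨h | h, h', h''⟩
            · exact absurd h h'
            · exact ⟨h, h''⟩
          · rintro ⟨h, h'⟩
            exact ⟨Or.inr h, fun h'' => hr (h'' ▸ h), h'⟩
      rintro (A | i | i) (B | j | j)
      · simp only [Sum.elim_inl]
        obtain ⟨a1, a2, a3, a4⟩ := hA A
        obtain ⟨b1, b2, b3, b4⟩ := hA B
        by_cases hAB : A = B
        · subst hAB
          rw [if_pos ((subset_insert _ _).trans (subset_insert _ _)), if_pos rfl, ht, if_pos]
          ext x
          simp only [mem_sdiff, mem_insert, mem_singleton]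
          constructor
          · rintro ⟨h | h | h, h'⟩
            · exact Or.inl h
            · exact Or.inr h
            · exact absurd h h'
          · rintro (h | h)
            · exact ⟨Or.inl h, h ▸ a3⟩
            · exact ⟨Or.inr (Or.inl h), h ▸ a4⟩
        · rw [if_neg, if_neg (fun h => hAB (Sum.inl_injective h))]
          intro h
          apply hAB
          apply Subtype.ext
          symm
          apply eq_of_subset_of_card_le
          · intro x hx
            rcases mem_insert.1 (h hx) with h' | h'
            · exact absurd (h' ▸ hx) b3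
            · rcases mem_insert.1 h' with h'' | h''
              · exact absurd (h'' ▸ hx) b4
              · exact h''
          · rw [a2, b2]
      · simp only [Sum.elim_inl, Sum.elim_inr]
        obtain ⟨a1, a2, a3, a4⟩ := hA A
        simp only [reduceCtorEq, if_false]
        split_ifs with h
        · apply t1
          · simp
          · rw [mem_sdiff]
            refine ⟨mem_insert_of_mem (mem_insert_self _ _), ?_⟩
            simp [hqp, hCq j]
        · rfl
      · simp only [Sum.elim_inl, Sum.elim_inr]
        obtain ⟨a1, a2, a3, a4⟩ := hA A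
        simp only [reduceCtorEq, if_false]
        split_ifs with h
        · apply t2
          · simp
          · rw [mem_sdiff]
            refine ⟨mem_insert_self _ _, ?_⟩
            simp [hqp.symm, hCp j]
        · rfl
      · simp only [Sum.elim_inl, Sum.elim_inr]
        obtain ⟨b1, b2, b3, b4⟩ := hA B
        simp only [reduceCtorEq, if_false]
        split_ifs with h
        · apply t2
          · simp [hqp, hRq i]
          · rw [mem_sdiff]
            exact ⟨mem_insert_self _ _, b3⟩
        · rfl
      · simp only [Sum.elim_inl, Sum.elim_inr]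
        obtain ⟨k1, k2⟩ := key p i j (hRp i) (hCp j)
        rw [k2]
        have h4 := h2 i j
        rw [tp _ (fun h => hRp i (mem_sdiff.1 h).1)]
        simp only [k1]
        rw [h4]
        simp
      · simp only [Sum.elim_inl, Sum.elim_inr]
        simp only [Sum.inr.injEq, reduceCtorEq, if_false]
        rw [if_neg]
        intro h
        have h4 := h (mem_insert_self q (C0 j))
        simp [hqp, hRq i] at h4
      · simp only [Sum.elim_inl, Sum.elim_inr]
        obtain ⟨b1, b2, b3, b4⟩ := hA B
        simp only [reduceCtorEq, if_false]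
        split_ifs with h
        · apply t1
          · simp [hqp.symm, hRp i]
          · rw [mem_sdiff]
            exact ⟨mem_insert_self _ _, b4⟩
        · rfl
      · simp only [Sum.elim_inl, Sum.elim_inr]
        simp only [Sum.inr.injEq, reduceCtorEq, if_false]
        rw [if_neg]
        intro h
        have h4 := h (mem_insert_self p (C0 j))
        simp [hqp.symm, hRp i] at h4
      · simp only [Sum.elim_inr]
        obtain ⟨k1, k2⟩ := key q i j (hRq i) (hCq j)
        rw [k2]
        have h4 := h2 i j
        rw [tp _ (fun h => hRp i (mem_sdiff.1 h).1)]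
        simp only [k1]
        rw [h4]
        simp
    · intro e he
      rw [ht, if_neg]
      · exact h3 e fun h => he (h.trans hsub)
      · rintro rfl
        exact he (insert_subset hpY (singleton_subset_iff.2 hqY))

theorem family {α : Type} [DecidableEq α] (n : ℕ) : ∀ (a : ℕ) (Y : Finset α), Y.card = n →
    ∃ (t : Finset α → ZMod 2) (J : Type) (_ : Fintype J) (_ : DecidableEq J) (R C : J → Finset α),
      Fintype.card J = s n a ∧
      (∀ j, R j ⊆ Y ∧ C j ⊆ Y ∧ (R j).card = a ∧ (C j).card + 2 = a) ∧
      (∀ i j, (if C j ⊆ R i then t (R i \ C j) else 0) = if i = j then 1 else 0) ∧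
      (∀ e, ¬ e ⊆ Y → t e = 0) := by
  intro a Y hY
  exact family_aux n a Y hY

end N2

export N2 (family)



end Pool.Agent.H374.TF
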