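import Mathlib
import Pool.Agent.H374.TF0

set_option autoImplicit false
set_option linter.unusedVariables false
set_option linter.unusedSectionVars false

namespace Pool.Agent.H374.TF

open Finset MvPolynomial

section core

variable {F : Type} [Field F] {α : Type} [Fintype α] [DecidableEq α]

/-- exponent vector of a set -/
noncomputable def ind {γ : Type} (U : Finset γ) : γ →₀ ℕ := Finsupp.indicator U (fun _ _ => 1)

theorem ind_apply {γ : Type} [DecidableEq γ] (U : Finset γ) (l : γ) :
    ind U l = if l ∈ U then 1 else 0 := by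
  classical
  simp [ind, Finsupp.indicator_apply]

theorem ind_inj {γ : Type} {U V : Finset γ} (h : ind U = ind V) : U = V := by
  classical
  ext l
  have := DFunLike.congr_fun h l
  rw [ind_apply, ind_apply] at this
  by_cases h1 : l ∈ U <;> by_cases h2 : l ∈ V <;> simp_all

theorem ind_degree (U : Finset α) : (ind U).degree = U.card := by
  rw [Finsupp.degree_eq_sum]
  simp [ind_apply]

/-- the quadratic form with matrix `t` -/
noncomputable def om (t : α → α → F) : MvPolynomial α F := ∑ l, ∑ m, C (t l m) * X l * X m

theorem om_hom (t : α → α → F) : (om t).IsHomogeneous 2 := by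
  unfold om
  refine IsHomogeneous.sum _ _ _ fun l _ => IsHomogeneous.sum _ _ _ fun m _ => ?_
  have := ((isHomogeneous_C α (t l m)).mul (isHomogeneous_X F l)).mul (isHomogeneous_X F m)
  simpa using this

theorem kill_mono (κ : MvPolynomial α F →ₗ[F] F) (hκ : ∀ l f, κ (X l ^ 2 * f) = 0)
    (w : MvPolynomial α F) (s : α →₀ ℕ) (c : F) (l : α) (hl : 2 ≤ s l) :
    κ (w * monomial s c) = 0 := by
  have h1 : (monomial s c : MvPolynomial α F) = X l ^ 2 * monomial (s - Finsupp.single l 2) c := by
    rw [X_pow_eq_monomial, monomial_mul, one_mul]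
    congr 1
    rw [add_tsub_cancel_of_le]
    rw [Finsupp.single_le_iff]
    exact hl
  have : w * monomial s c = X l ^ 2 * (w * monomial (s - Finsupp.single l 2) c) := by
    rw [h1]; ring
  rw [this, hκ]

theorem expand (κ : MvPolynomial α F →ₗ[F] F) (hκ : ∀ l f, κ (X l ^ 2 * f) = 0)
    (w : MvPolynomial α F) (d : ℕ) (z : MvPolynomial α F) (hz : z.IsHomogeneous d) :
    κ (w * z) = ∑ U ∈ powersetCard d (univ : Finset α),
      κ (w * monomial (ind U) 1) * coeff (ind U) z := by
  have key : ∀ s : α →₀ ℕ, ∀ c : F, s.degree = d → κ (w * monomial s c) =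
      ∑ U ∈ powersetCard d (univ : Finset α),
        κ (w * monomial (ind U) 1) * coeff (ind U) (monomial s c) := by
    intro s c hs
    by_cases h : ∃ l, 2 ≤ s l
    · obtain ⟨l, hl⟩ := h
      rw [kill_mono κ hκ w s c l hl]
      symm
      apply sum_eq_zero
      intro U _
      rw [coeff_monomial, if_neg, mul_zero]
      intro h
      rw [h, ind_apply] at hl
      split_ifs at hl <;> omega
    · push Not at h
      have hs' : s = ind s.support := by
        ext l
        rw [ind_apply]
        have := h l
        split_ifs with h'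
        · rw [Finsupp.mem_support_iff] at h'
          omega
        · rw [Finsupp.notMem_support_iff] at h'
          exact h'
      have hcard : s.support.card = d := by
        rw [← ind_degree, ← hs', hs]
      rw [sum_eq_single s.support]
      · rw [← hs', coeff_monomial, if_pos rfl]
        have : (monomial s c : MvPolynomial α F) = c • monomial s 1 := by
          rw [smul_monomial, smul_eq_mul, mul_one]
        rw [this, mul_smul_comm, map_smul, smul_eq_mul, mul_comm]
      · intro U _ hU
        rw [coeff_monomial, if_neg, mul_zero]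
        intro h
        rw [hs'] at h
        exact hU (ind_inj h).symm
      · intro h
        exact absurd (mem_powersetCard.2 ⟨subset_univ _, hcard⟩) h
  have e1 : κ (w * z) = ∑ s ∈ z.support, κ (w * monomial s (coeff s z)) := by
    conv_lhs => rw [z.as_sum, mul_sum, map_sum]
  rw [e1, sum_congr rfl (fun s hs => key s _ ?_), sum_comm]
  · refine sum_congr rfl fun U _ => ?_
    rw [← mul_sum]
    congr 1
    conv_rhs => rw [z.as_sum, coeff_sum]
  · rw [mem_support_iff] at hs
    have := hz hs
    rw [← this, Finsupp.degree_eq_weight_one]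
    rfl

theorem sq_zero [CharP F 2] (κ : MvPolynomial α F →ₗ[F] F) (hκ : ∀ l f, κ (X l ^ 2 * f) = 0)
    (t : α → α → F) (g : MvPolynomial α F) : κ (om t * (om t * g)) = 0 := by
  have h : om t * (om t * g) = ∑ l, ∑ m, X l ^ 2 * (C (t l m) ^ 2 * X m ^ 2 * g) := by
    have h1 : om t ^ 2 = ∑ l, ∑ m, (C (t l m) * X l * X m) ^ 2 := by
      unfold om
      rw [sum_pow_char 2]
      refine sum_congr rfl fun l _ => ?_
      rw [sum_pow_char 2]
    have h2 : om t * (om t * g) = om t ^ 2 * g := by ring
    rw [h2, h1, sum_mul]
    refine sum_congr rfl fun l _ => ?_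
    rw [sum_mul]
    refine sum_congr rfl fun m _ => ?_
    ring
  rw [h, map_sum]
  refine sum_eq_zero fun l _ => ?_
  rw [map_sum]
  exact sum_eq_zero fun m _ => hκ l _

theorem coeff_om_mul (t : α → α → F) (U C' : Finset α) :
    coeff (ind U) (om t * monomial (ind C') 1) =
      ∑ l, ∑ m, if Finsupp.single l 1 + Finsupp.single m 1 + ind C' = ind U then t l m else 0 := by
  unfold om
  rw [sum_mul, coeff_sum]
  refine sum_congr rfl fun l _ => ?_
  rw [sum_mul, coeff_sum]
  refine sum_congr rfl fun m _ => ?_
  have : C (t l m) * X l * X m * monomial (ind C') 1 =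
      monomial (Finsupp.single l 1 + Finsupp.single m 1 + ind C') (t l m) := by
    rw [X, X, C_mul_monomial, monomial_mul, monomial_mul]
    simp
  rw [this, coeff_monomial]

omit [Fintype α] in
theorem char1 (U C' : Finset α) (l m : α)
    (h : Finsupp.single l 1 + Finsupp.single m 1 + ind C' = ind U) :
    C' ⊆ U ∧ l ∈ U \ C' ∧ m ∈ U \ C' ∧ l ≠ m := by
  have h' : ∀ x, (if l = x then 1 else 0) + (if m = x then 1 else 0) + (if x ∈ C' then 1 else 0) =
      (if x ∈ U then 1 else 0) := by
    intro x
    have := DFunLike.congr_fun h x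
    simpa [ind_apply, Finsupp.single_apply] using this
  refine ⟨?_, ?_, ?_, ?_⟩
  · intro x hx
    have := h' x
    rw [if_pos hx] at this
    by_contra h1
    rw [if_neg h1] at this
    omega
  · have := h' l
    rw [if_pos rfl] at this
    rw [mem_sdiff]
    constructor
    · by_contra h1
      rw [if_neg h1] at this
      omega
    · intro h1
      rw [if_pos h1] at this
      split_ifs at this <;> omega
  · have := h' m
    rw [if_pos (rfl : m = m)] at this
    rw [mem_sdiff]
    constructor
    · by_contra h1
      rw [if_neg h1] at this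
      omega
    · intro h1
      rw [if_pos h1] at this
      split_ifs at this <;> omega
  · rintro rfl
    have := h' l
    rw [if_pos rfl] at this
    split_ifs at this <;> omega

omit [Fintype α] in
theorem char2 (U C' : Finset α) (p q : α) (hC : C' ⊆ U) (hpq : p ≠ q) (h : U \ C' = {p, q}) :
    Finsupp.single p 1 + Finsupp.single q 1 + ind C' = ind U := by
  ext x
  have h1 : x ∈ U \ C' ↔ x = p ∨ x = q := by rw [h]; simp
  rw [mem_sdiff] at h1
  have h2 : x ∈ C' → x ∈ U := fun h => hC h
  simp only [Finsupp.add_apply, ind_apply, Finsupp.single_apply]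
  by_cases a1 : p = x
  · subst a1
    have a2 := h1.2 (Or.inl rfl)
    simp [a2.1, a2.2, hpq.symm]
  · by_cases a3 : q = x
    · subst a3
      have a2 := h1.2 (Or.inr rfl)
      simp [a2.1, a2.2, hpq]
    · by_cases a4 : x ∈ C'
      · simp [a1, a3, a4, h2 a4]
      · have : x ∉ U := by
          intro h5
          rcases h1.1 ⟨h5, a4⟩ with h6 | h6
          · exact a1 h6.symm
          · exact a3 h6.symm
        simp [a1, a3, a4, this]

theorem coeff_t0 [CharP F 2] (t0 : Finset α → ZMod 2) (r : α → α → Prop) [DecidableRel r]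
    (hr1 : ∀ p q, p ≠ q → r p q ∨ r q p) (hr2 : ∀ p q, r p q → ¬ r q p) (R C' : Finset α)
    (hc : C'.card + 2 = R.card) :
    coeff (ind R) (om (fun l m => if r l m then (ZMod.castHom (dvd_refl 2) F) (t0 {l, m}) else 0) *
      monomial (ind C') 1) = (ZMod.castHom (dvd_refl 2) F) (if C' ⊆ R then t0 (R \ C') else 0) := by
  rw [coeff_om_mul]
  by_cases hC : C' ⊆ R
  · rw [if_pos hC]
    have hcard : (R \ C').card = 2 := by
      have := card_sdiff_add_card_eq_card hC
      omega
    have main : ∀ p q, p ≠ q → r p q → R \ C' = {p, q} →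
        (∑ l, ∑ m, if Finsupp.single l 1 + Finsupp.single m 1 + ind C' = ind R then
          (if r l m then (ZMod.castHom (dvd_refl 2) F) (t0 {l, m}) else 0) else 0) =
        (ZMod.castHom (dvd_refl 2) F) (t0 (R \ C')) := by
      intro p q hpq hr hR
      have hu : ∀ l m, Finsupp.single l 1 + Finsupp.single m 1 + ind C' = ind R → r l m →
          l = p ∧ m = q := by
        intro l m h1 h2
        obtain ⟨b1, b2, b3, b4⟩ := char1 R C' l m h1
        rw [hR, mem_insert, mem_singleton] at b2 b3
        rcases b2 with rfl | rfl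
        · rcases b3 with rfl | rfl
          · exact absurd rfl b4
          · exact ⟨rfl, rfl⟩
        · rcases b3 with rfl | rfl
          · exact absurd h2 (hr2 _ _ hr)
          · exact absurd rfl b4
      rw [sum_eq_single p, sum_eq_single q]
      · rw [if_pos (char2 R C' p q hC hpq hR), if_pos hr, hR]
      · intro m _ hm
        split_ifs with h1 h2
        · exact absurd (hu p m h1 h2).2 hm
        · rfl
        · rfl
      · intro h
        exact absurd (mem_univ _) h
      · intro l _ hl
        apply sum_eq_zero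
        intro m _
        split_ifs with h1 h2
        · exact absurd (hu l m h1 h2).1 hl
        · rfl
        · rfl
      · intro h
        exact absurd (mem_univ _) h
    obtain ⟨p, q, hpq, hR⟩ := card_eq_two.1 hcard
    rcases hr1 p q hpq with h | h
    · exact main p q hpq h hR
    · exact main q p hpq.symm h (by rw [hR, pair_comm])
  · rw [if_neg hC, map_zero]
    apply sum_eq_zero
    intro l _
    apply sum_eq_zero
    intro m _
    rw [if_neg]
    intro h
    exact hC (char1 R C' l m h).1

theorem perturb [Infinite F] {ι J : Type} [Fintype ι] [DecidableEq ι] [Fintype J] [DecidableEq J]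
    (M M1 : Matrix ι ι F) (N : Matrix J J F) (hM : M.det ≠ 0) :
    ∃ u : F, (M + u • M1).det ≠ 0 ∧ (N + u • (1 : Matrix J J F)).det ≠ 0 := by
  let p : Polynomial F := (M.map Polynomial.C + (Polynomial.X : Polynomial F) • M1.map Polynomial.C).det
  have hp : ∀ u, p.eval u = (M + u • M1).det := by
    intro u
    have := RingHom.map_det (Polynomial.evalRingHom u)
      (M.map Polynomial.C + (Polynomial.X : Polynomial F) • M1.map Polynomial.C)
    rw [Polynomial.coe_evalRingHom] at this
    rw [this]
    congr 1
    ext i j
    simp [RingHom.mapMatrix_apply]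
    exact mul_comm _ _
  let q : Polynomial F := (-N).charpoly
  have hq : ∀ u, q.eval u = (N + u • (1 : Matrix J J F)).det := by
    intro u
    rw [Matrix.eval_charpoly]
    have e : Matrix.scalar J u - -N = N + u • (1 : Matrix J J F) := by
      rw [sub_neg_eq_add, add_comm, Matrix.scalar_apply, Matrix.smul_one_eq_diagonal]
    rw [e]
  have hp0 : p ≠ 0 := by
    intro h
    apply hM
    have := hp 0
    rw [h] at this
    simpa using this.symm
  have hq0 : q ≠ 0 := (Matrix.charpoly_monic _).ne_zero
  by_contra hcon
  push Not at hcon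
  apply mul_ne_zero hp0 hq0
  apply Polynomial.funext
  intro u
  rw [Polynomial.eval_mul, Polynomial.eval_zero, hp, hq]
  by_cases h : (M + u • M1).det = 0
  · rw [h, zero_mul]
  · rw [hcon u h, mul_zero]

theorem om_add (t t1 : α → α → F) (u : F) :
    om (fun l m => t l m + u * t1 l m) = om t + C u * om t1 := by
  unfold om
  rw [mul_sum, ← sum_add_distrib]
  refine sum_congr rfl fun l _ => ?_
  rw [mul_sum, ← sum_add_distrib]
  refine sum_congr rfl fun m _ => ?_
  rw [C_add, C_mul]
  ring

theorem core [Infinite F] [CharP F 2] (n d : ℕ) (hn : Fintype.card α = n) {ι : Type} [Fintype ι]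
    [DecidableEq ι] (κ : ι → MvPolynomial α F →ₗ[F] F)
    (hκ : ∀ i l f, κ i (X l ^ 2 * f) = 0)
    (z : ι → MvPolynomial α F) (hz : ∀ i, (z i).IsHomogeneous d)
    (t : α → α → F)
    (hdet : (Matrix.of fun i j => κ i (om t * z j)).det ≠ 0) :
    Fintype.card ι + s n d ≤ n.choose d := by
  classical
  obtain ⟨t0, J, fJ, dJ, R, C', hJ, h1, h2, h3⟩ := family n d (univ : Finset α) (by simpa using hn)
  obtain ⟨r, hr1, hr2⟩ : ∃ r : α → α → Prop, (∀ p q, p ≠ q → r p q ∨ r q p) ∧
      (∀ p q, r p q → ¬ r q p) := by
    refine ⟨WellOrderingRel, fun p q hpq => ?_, fun p q h h' => ?_⟩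
    · rcases trichotomous_of (WellOrderingRel : α → α → Prop) p q with h | h | h
      · exact Or.inl h
      · exact absurd h hpq
      · exact Or.inr h
    · exact asymm_of (WellOrderingRel : α → α → Prop) h h'
  let t1 : α → α → F := fun l m => if r l m then (ZMod.castHom (dvd_refl 2) F) (t0 {l, m}) else 0
  let M : Matrix ι ι F := Matrix.of fun i j => κ i (om t * z j)
  let M1 : Matrix ι ι F := Matrix.of fun i j => κ i (om t1 * z j)
  let N : Matrix J J F := Matrix.of fun i j => coeff (ind (R i)) (om t * monomial (ind (C' j)) 1)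
  have hN1 : ∀ i j, coeff (ind (R i)) (om t1 * monomial (ind (C' j)) 1) =
      (1 : Matrix J J F) i j := by
    intro i j
    rw [coeff_t0 t0 r hr1 hr2 (R i) (C' j) (by rw [(h1 i).2.2.1, (h1 j).2.2.2]), h2 i j,
      Matrix.one_apply]
    split_ifs <;> simp
  obtain ⟨u, hu1, hu2⟩ := perturb M M1 N hdet
  obtain ⟨tt, htt⟩ : ∃ tt : α → α → F, om tt = om t + C u * om t1 := ⟨_, om_add t t1 u⟩
  let Rm : Matrix ι {U // U ∈ powersetCard d (univ : Finset α)} F :=
    Matrix.of fun i U => κ i (om tt * monomial (ind U.1) 1)
  let Cm : Matrix {U // U ∈ powersetCard d (univ : Finset α)} ι F :=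
    Matrix.of fun U j => coeff (ind U.1) (z j)
  let Wm : Matrix {U // U ∈ powersetCard d (univ : Finset α)} J F :=
    Matrix.of fun U j => coeff (ind U.1) (om tt * monomial (ind (C' j)) 1)
  have hM : M + u • M1 = Rm * Cm := by
    ext i j
    rw [Matrix.mul_apply]
    have e1 : (M + u • M1) i j = κ i (om tt * z j) := by
      rw [htt, add_mul, map_add, mul_assoc, C_mul', map_smul]
      rfl
    rw [e1, expand (κ i) (hκ i) (om tt) d (z j) (hz j)]
    exact (sum_coe_sort (powersetCard d (univ : Finset α))
      (fun U => κ i (om tt * monomial (ind U) 1) * coeff (ind U) (z j))).symm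
  have hW : Rm * Wm = 0 := by
    ext i j
    rw [Matrix.mul_apply, Matrix.zero_apply]
    have e1 := expand (κ i) (hκ i) (om tt) d (om tt * monomial (ind (C' j)) 1) (by
      have e2 : d = 2 + (C' j).card := by
        have := (h1 j).2.2.2
        omega
      rw [e2]
      exact (om_hom tt).mul (isHomogeneous_monomial _ (ind_degree _)))
    rw [sq_zero (κ i) (hκ i)] at e1
    rw [e1]
    exact sum_coe_sort (powersetCard d (univ : Finset α))
      (fun U => κ i (om tt * monomial (ind U) 1) *
        coeff (ind U) (om tt * monomial (ind (C' j)) 1))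
  have hN : N + u • (1 : Matrix J J F) = Wm.submatrix
      (fun i => ⟨R i, mem_powersetCard.2 ⟨subset_univ _, (h1 i).2.2.1⟩⟩) id := by
    ext i j
    rw [Matrix.submatrix_apply]
    change _ = coeff (ind (R i)) (om tt * monomial (ind (C' j)) 1)
    rw [htt, add_mul, coeff_add, mul_assoc, coeff_C_mul, hN1]
    rfl
  have k1 := Matrix.rank_add_rank_le_card_of_mul_eq_zero hW
  have k2 : Fintype.card ι ≤ Rm.rank := by
    rw [← Matrix.rank_of_det_ne_zero hu1, hM]
    exact Matrix.rank_mul_le_left _ _
  have k3 : Fintype.card J ≤ Wm.rank := by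
    rw [← Matrix.rank_of_det_ne_zero hu2, hN]
    exact Matrix.rank_submatrix_le _ _ _
  have k4 : Fintype.card {U // U ∈ powersetCard d (univ : Finset α)} = n.choose d := by
    rw [Fintype.card_coe, card_powersetCard, card_univ, hn]
  omega

end core

end Pool.Agent.H374.TF
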