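import Mathlib
import Pool.Agent.H374.TF1

set_option autoImplicit false
set_option linter.unusedVariables false
set_option linter.unusedSectionVars false

namespace Pool.Agent.H374.TF

open Finset MvPolynomial

section construct

variable {F : Type} [Field F] {β : Type} [DecidableEq β]

/-- linear form with coefficients `g` on the finite set `A` -/
noncomputable def lf {γ : Type} (g : γ → F) (A : Finset γ) : MvPolynomial γ F :=
  ∑ x ∈ A, C (g x) * X x

theorem lf_hom {γ : Type} (g : γ → F) (A : Finset γ) : (lf g A).IsHomogeneous 1 := by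
  unfold lf
  refine IsHomogeneous.sum _ _ _ fun l _ => ?_
  have := (isHomogeneous_C γ (g l)).mul (isHomogeneous_X F l)
  simpa using this

theorem lf_vars (g : β → F) (A : Finset β) (x : β) (hx : x ∈ (lf g A).vars) : g x ≠ 0 := by
  have hx := (vars_sum_subset _ _) hx
  rw [mem_biUnion] at hx
  obtain ⟨y, hy, hx⟩ := hx
  by_cases h : g y = 0
  · rw [h, C_0, zero_mul, vars_0] at hx
    simp at hx
  · rw [vars_C_mul _ h, vars_X, mem_singleton] at hx
    subst hx
    exact h

theorem coeff_sq (A : Finset β) (x : β) (h : MvPolynomial β F) : coeff (ind A) (X x ^ 2 * h) = 0 := by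
  rw [X_pow_eq_monomial, coeff_monomial_mul', if_neg]
  intro h
  have := h x
  rw [ind_apply, Finsupp.single_eq_same] at this
  split_ifs at this <;> omega

theorem coeff_lf_sq [CharP F 2] (g : β → F) (A : Finset β) (h : MvPolynomial β F) :
    coeff (ind A) (lf g A ^ 2 * h) = 0 := by
  unfold lf
  rw [sum_pow_char 2, sum_mul, coeff_sum]
  apply sum_eq_zero
  intro x _
  have : (C (g x) * X x : MvPolynomial β F) ^ 2 * h = X x ^ 2 * (C (g x) ^ 2 * h) := by ring
  rw [this, coeff_sq]

variable {α : Type} [Fintype α] [DecidableEq α]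

/-- substitution of the linear forms on `A` -/
noncomputable def phi (ℓ : α → β → F) (A : Finset β) : MvPolynomial α F →ₐ[F] MvPolynomial β F :=
  aeval (fun l => lf (ℓ l) A)

/-- the top squarefree coefficient after substitution -/
noncomputable def kap (ℓ : α → β → F) (A : Finset β) : MvPolynomial α F →ₗ[F] F :=
  (lcoeff F (ind A)).comp (phi ℓ A).toLinearMap

theorem kap_apply (ℓ : α → β → F) (A : Finset β) (f : MvPolynomial α F) :
    kap ℓ A f = coeff (ind A) (phi ℓ A f) := rfl

theorem kap_sq [CharP F 2] (ℓ : α → β → F) (A : Finset β) (l : α) (f : MvPolynomial α F) :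
    kap ℓ A (X l ^ 2 * f) = 0 := by
  rw [kap_apply, map_mul, map_pow]
  have : phi ℓ A (X l) = lf (ℓ l) A := by
    unfold phi
    rw [aeval_X]
  rw [this, coeff_lf_sq]

theorem phi_lf (ℓ : α → β → F) (A : Finset β) (c : α → F) :
    phi ℓ A (lf c univ) = lf (fun y => ∑ l, c l * ℓ l y) A := by
  unfold phi lf
  rw [map_sum]
  simp only [map_mul, aeval_X, aeval_C, algebraMap_eq, map_sum, sum_mul, mul_sum]
  rw [sum_comm]
  refine sum_congr rfl fun x _ => sum_congr rfl fun l _ => ?_
  ring

/-- the bilinear form on the ground set -/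
def gg (ℓ : α → β → F) (t : α → α → F) (x y : β) : F := ∑ l, ∑ m, t l m * (ℓ l x * ℓ m y)

theorem phi_om (ℓ : α → β → F) (A : Finset β) (t : α → α → F) :
    phi ℓ A (om t) = ∑ x ∈ A, ∑ y ∈ A, C (gg ℓ t x y) * (X x * X y) := by
  have h1 : phi ℓ A (om t) = ∑ l, ∑ m, ∑ x ∈ A, ∑ y ∈ A,
      C (t l m * (ℓ l x * ℓ m y)) * (X x * X y) := by
    unfold phi om lf
    rw [map_sum]
    refine sum_congr rfl fun l _ => ?_
    rw [map_sum]
    refine sum_congr rfl fun m _ => ?_
    rw [map_mul, map_mul, aeval_X, aeval_X, aeval_C, algebraMap_eq, mul_assoc, sum_mul_sum,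
      mul_sum]
    refine sum_congr rfl fun x _ => ?_
    rw [mul_sum]
    refine sum_congr rfl fun y _ => ?_
    rw [C_mul, C_mul]
    ring
  rw [h1]
  unfold gg
  simp only [map_sum, sum_mul]
  have e1 : ∀ l : α, (∑ m, ∑ x ∈ A, ∑ y ∈ A,
      (C (t l m * (ℓ l x * ℓ m y)) * (X x * X y) : MvPolynomial β F)) =
      ∑ x ∈ A, ∑ y ∈ A, ∑ m, C (t l m * (ℓ l x * ℓ m y)) * (X x * X y) := by
    intro l
    rw [sum_comm]
    exact sum_congr rfl fun x _ => sum_comm
  rw [sum_congr rfl fun l _ => e1 l, sum_comm]
  exact sum_congr rfl fun x _ => sum_comm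

theorem kap_om (ℓ : α → β → F) (A : Finset β) (t : α → α → F) (z : MvPolynomial α F) :
    kap ℓ A (om t * z) = ∑ x ∈ A, ∑ y ∈ A, gg ℓ t x y *
      coeff (ind A) (X x * X y * phi ℓ A z) := by
  rw [kap_apply, map_mul, phi_om, sum_mul, coeff_sum]
  refine sum_congr rfl fun x _ => ?_
  rw [sum_mul, coeff_sum]
  refine sum_congr rfl fun y _ => ?_
  rw [mul_assoc, coeff_C_mul]

theorem vanish (A D S : Finset β) (lam : β → β → F) (h : ∀ x ∈ D, ∀ y ∈ S, lam x y = 0) (x y : β)
    (hne : coeff (ind A) (X x * X y * ∏ w ∈ D, lf (lam w) A) ≠ 0) : A ∩ S ⊆ {x, y} := by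
  intro w hw
  rw [mem_inter] at hw
  have h1 : w ∈ (X x * X y * ∏ w ∈ D, lf (lam w) A : MvPolynomial β F).vars := by
    rw [mem_vars_iff_mem_support]
    refine ⟨ind A, mem_support_iff.2 hne, ?_⟩
    rw [Finsupp.mem_support_iff, ind_apply, if_pos hw.1]
    exact one_ne_zero
  have h2 := vars_mul _ _ h1
  rw [mem_union] at h2
  rcases h2 with h2 | h2
  · have h3 := vars_mul _ _ h2
    rw [vars_X, vars_X, mem_union, mem_singleton, mem_singleton] at h3
    rw [mem_insert, mem_singleton]
    exact h3
  · exfalso
    have h3 := vars_prod _ h2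
    rw [mem_biUnion] at h3
    obtain ⟨v, hv, h3⟩ := h3
    exact lf_vars _ _ _ h3 (h v hv w hw.2)

theorem ind_sum {γ : Type} [DecidableEq γ] (D : Finset γ) :
    ind D = ∑ x ∈ D, Finsupp.single x 1 := by
  ext y
  rw [ind_apply, Finsupp.finsetSum_apply]
  simp [Finsupp.single_apply]

theorem prod_X (D : Finset β) : (∏ x ∈ D, X x : MvPolynomial β F) = monomial (ind D) 1 := by
  rw [ind_sum, monomial_sum_one]
  rfl

theorem sum_eq_zero_of_pair (A : Finset β) [CharP F 2] (g q : β → β → F)
    (hq : ∀ x y, q x y = q y x) (hq0 : ∀ x, q x x = 0)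
    (h : ∀ x ∈ A, ∀ y ∈ A, x ≠ y → (g x y + g y x) * q x y = 0) :
    ∑ x ∈ A, ∑ y ∈ A, g x y * q x y = 0 := by
  rw [← sum_product']
  refine sum_involution (fun p _ => (p.2, p.1)) ?_ ?_ ?_ ?_
  · rintro ⟨x, y⟩ hp
    rw [mem_product] at hp
    by_cases hxy : x = y
    · subst hxy
      simp [hq0]
    · have := h x hp.1 y hp.2 hxy
      rw [add_mul] at this
      simp only
      rw [hq y x]
      exact this
  · rintro ⟨x, y⟩ hp hne heq
    simp only [Prod.mk.injEq] at heq
    apply hne
    simp only
    rw [heq.1, hq0, mul_zero]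
  · rintro ⟨x, y⟩ hp
    rw [mem_product] at hp ⊢
    exact ⟨hp.2, hp.1⟩
  · rintro ⟨x, y⟩ hp
    rfl

theorem dual [Infinite F] (n : ℕ) (hn : Fintype.card α = n) (Y : Finset β) (hY : Y.card = n)
    (ℓ : α → β → F) (hℓ : ∀ c : α → F, (∀ x ∈ Y, ∑ l, c l * ℓ l x = 0) → c = 0) :
    ∃ c : β → α → F, ∀ x ∈ Y, ∀ y ∈ Y, ∑ l, c x l * ℓ l y = if x = y then 1 else 0 := by
  classical
  let Φ : (α → F) →ₗ[F] ({y // y ∈ Y} → F) :=
    { toFun := fun c y => ∑ l, c l * ℓ l y.1
      map_add' := by
        intro c c'
        funext y
        simp only [Pi.add_apply, add_mul, sum_add_distrib]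
      map_smul' := by
        intro r c
        funext y
        simp only [Pi.smul_apply, smul_eq_mul, mul_sum, RingHom.id_apply, mul_assoc] }
  have hinj : Function.Injective Φ := by
    rw [injective_iff_map_eq_zero]
    intro c hc
    apply hℓ
    intro x hx
    exact congrFun hc ⟨x, hx⟩
  have hsurj : Function.Surjective Φ := by
    refine (LinearMap.injective_iff_surjective_of_finrank_eq_finrank ?_).1 hinj
    rw [Module.finrank_fintype_fun_eq_card, Module.finrank_fintype_fun_eq_card, hn,
      Fintype.card_coe, hY]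
  choose g hg using hsurj
  refine ⟨fun x => g (fun y => if x = y.1 then 1 else 0), ?_⟩
  intro x hx y hy
  exact congrFun (hg (fun y => if x = y.1 then 1 else 0)) ⟨y, hy⟩

theorem construct [Infinite F] [CharP F 2] {ι : Type} [Fintype ι] [LinearOrder ι]
    (n d : ℕ) (hn : Fintype.card α = n) (A B : ι → Finset β)
    (hAB : ∀ i, (A i ∪ B i).card = n) (hd : ∀ i, (A i \ B i).card = d)
    (h2 : ∀ i, (A i ∩ B i).card = 2)
    (ℓ : α → β → F) (t : α → α → F)
    (hℓ : ∀ i, ∀ c : α → F, (∀ x ∈ A i ∪ B i, ∑ l, c l * ℓ l x = 0) → c = 0)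
    (hg1 : ∀ i p q, A i ∩ B i = {p, q} → p ≠ q → gg ℓ t p q + gg ℓ t q p ≠ 0)
    (hg0 : ∀ x y, x ≠ y → (∀ k, ¬ {x, y} ⊆ A k ∩ B k) → gg ℓ t x y + gg ℓ t y x = 0)
    (hcond : ∀ i j k, i < j → ¬ (A i ∩ B j ⊆ A k ∩ B k)) :
    Fintype.card ι + s n d ≤ n.choose d := by
  classical
  have hdual := fun i => dual n hn (A i ∪ B i) (hAB i) ℓ (hℓ i)
  choose c hc using hdual
  let z : ι → MvPolynomial α F := fun j => ∏ x ∈ A j \ B j, lf (c j x) univ
  let lam : ι → β → β → F := fun j x y => ∑ l, c j x l * ℓ l y
  have hphi : ∀ i j, phi ℓ (A i) (z j) = ∏ x ∈ A j \ B j, lf (lam j x) (A i) := by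
    intro i j
    rw [map_prod]
    exact prod_congr rfl fun x _ => phi_lf ℓ (A i) (c j x)
  have hqs : ∀ i j x y, coeff (ind (A i)) (X x * X y * phi ℓ (A i) (z j)) =
      coeff (ind (A i)) (X y * X x * phi ℓ (A i) (z j)) := by
    intro i j x y
    rw [mul_comm (X x) (X y)]
  have hq0 : ∀ i j x, coeff (ind (A i)) (X x * X x * phi ℓ (A i) (z j)) = 0 := by
    intro i j x
    rw [← pow_two, coeff_sq]
  refine core n d hn (fun i => kap ℓ (A i)) (fun i => kap_sq ℓ (A i)) z ?_ t ?_
  · intro j
    have := IsHomogeneous.prod (A j \ B j) (fun x => lf (c j x) univ) (fun _ => 1)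
      (fun x _ => lf_hom _ _)
    rw [sum_const, smul_eq_mul, mul_one, hd j] at this
    exact this
  · have hoff : ∀ i j, i < j → kap ℓ (A i) (om t * z j) = 0 := by
      intro i j hij
      rw [kap_om]
      refine sum_eq_zero_of_pair (A i) (gg ℓ t)
        (fun x y => coeff (ind (A i)) (X x * X y * phi ℓ (A i) (z j))) (hqs i j) (hq0 i j) ?_
      intro x hx y hy hxy
      by_cases hg : gg ℓ t x y + gg ℓ t y x = 0
      · rw [hg, zero_mul]
      · have hk : ∃ k, {x, y} ⊆ A k ∩ B k := by
          by_contra hcon
          push Not at hcon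
          exact hg (hg0 x y hxy hcon)
        obtain ⟨k, hk⟩ := hk
        by_cases hq : coeff (ind (A i)) (X x * X y * phi ℓ (A i) (z j)) = 0
        · rw [hq, mul_zero]
        · exfalso
          rw [hphi] at hq
          have := vanish (A i) (A j \ B j) (B j) (lam j) (by
            intro w hw v hv
            rw [mem_sdiff] at hw
            have := hc j w (mem_union_left _ hw.1) v (mem_union_right _ hv)
            have hwv : w ≠ v := by
              intro h
              rw [h] at hw
              exact hw.2 hv
            rw [if_neg hwv] at this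
            exact this) x y hq
          exact hcond i j k hij (this.trans hk)
    have hdiag : ∀ i, kap ℓ (A i) (om t * z i) ≠ 0 := by
      intro i
      obtain ⟨p, q, hpq, hP⟩ := card_eq_two.1 (h2 i)
      have hz : phi ℓ (A i) (z i) = monomial (ind (A i \ B i)) 1 := by
        rw [hphi, ← prod_X]
        refine prod_congr rfl fun x hx => ?_
        rw [mem_sdiff] at hx
        unfold lf
        rw [sum_eq_single x]
        · have : lam i x x = 1 := by
            have := hc i x (mem_union_left _ hx.1) x (mem_union_left _ hx.1)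
            rw [if_pos rfl] at this
            exact this
          rw [this, C_1, one_mul]
        · intro y hy hyx
          have : lam i x y = 0 := by
            have := hc i x (mem_union_left _ hx.1) y (mem_union_left _ hy)
            rw [if_neg (fun h => hyx h.symm)] at this
            exact this
          rw [this, C_0, zero_mul]
        · intro h
          exact absurd hx.1 h
      have hco : ∀ x y, coeff (ind (A i)) (X x * X y * phi ℓ (A i) (z i)) =
          if Finsupp.single x 1 + Finsupp.single y 1 + ind (A i \ B i) = ind (A i)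
            then 1 else 0 := by
        intro x y
        rw [hz, X, X, monomial_mul, monomial_mul, coeff_monomial]
        simp
      have hsd : A i \ (A i \ B i) = {p, q} := by
        rw [sdiff_sdiff_right_self]
        exact hP
      have hpA : p ∈ A i ∧ q ∈ A i := by
        have h1 : p ∈ A i ∩ B i := by rw [hP]; simp
        have h2 : q ∈ A i ∩ B i := by rw [hP]; simp
        exact ⟨(mem_inter.1 h1).1, (mem_inter.1 h2).1⟩
      have hval : kap ℓ (A i) (om t * z i) = gg ℓ t p q + gg ℓ t q p := by
        rw [kap_om]
        have hone : ∀ x y, Finsupp.single x 1 + Finsupp.single y 1 + ind (A i \ B i) = ind (A i) ↔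
            (x = p ∧ y = q) ∨ (x = q ∧ y = p) := by
          intro x y
          constructor
          · intro h
            obtain ⟨b1, b2, b3, b4⟩ := char1 _ _ x y h
            rw [hsd, mem_insert, mem_singleton] at b2 b3
            rcases b2 with rfl | rfl
            · rcases b3 with rfl | rfl
              · exact absurd rfl b4
              · exact Or.inl ⟨rfl, rfl⟩
            · rcases b3 with rfl | rfl
              · exact Or.inr ⟨rfl, rfl⟩
              · exact absurd rfl b4
          · rintro (⟨rfl, rfl⟩ | ⟨rfl, rfl⟩)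
            · exact char2 _ _ _ _ sdiff_subset hpq hsd
            · exact char2 _ _ _ _ sdiff_subset hpq.symm (by rw [hsd, pair_comm])
        have hsum : ∀ x ∈ A i, (∑ y ∈ A i, gg ℓ t x y *
            coeff (ind (A i)) (X x * X y * phi ℓ (A i) (z i))) =
            (if x = p then gg ℓ t p q else 0) + (if x = q then gg ℓ t q p else 0) := by
          intro x hx
          have e1 : ∀ y ∈ A i, gg ℓ t x y *
            coeff (ind (A i)) (X x * X y * phi ℓ (A i) (z i)) =
              (if y = q then (if x = p then gg ℓ t p q else 0) else 0) +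
              (if y = p then (if x = q then gg ℓ t q p else 0) else 0) := by
            intro y hy
            rw [hco]
            by_cases c1 : x = p
            · subst c1
              by_cases c2 : y = q
              · subst c2
                rw [if_pos ((hone _ _).2 (Or.inl ⟨rfl, rfl⟩))]
                simp [hpq]
              · rw [if_neg]
                · simp [c2, hpq]
                · intro h
                  rcases (hone _ _).1 h with h | h
                  · exact c2 h.2
                  · exact hpq h.1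
            · by_cases c2 : x = q
              · subst c2
                by_cases c3 : y = p
                · subst c3
                  rw [if_pos ((hone _ _).2 (Or.inr ⟨rfl, rfl⟩))]
                  simp [hpq, hpq.symm]
                · rw [if_neg]
                  · simp [c3, c1]
                  · intro h
                    rcases (hone _ _).1 h with h | h
                    · exact c1 h.1
                    · exact c3 h.2
              · rw [if_neg]
                · simp [c1, c2]
                · intro h
                  rcases (hone _ _).1 h with h | h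
                  · exact c1 h.1
                  · exact c2 h.1
          rw [sum_congr rfl e1, sum_add_distrib, sum_ite_eq', sum_ite_eq', if_pos hpA.2,
            if_pos hpA.1]
        rw [sum_congr rfl hsum, sum_add_distrib, sum_ite_eq', sum_ite_eq', if_pos hpA.1,
          if_pos hpA.2]
      rw [hval]
      exact hg1 i p q hP hpq
    rw [Matrix.det_of_isLowerTriangular]
    · rw [prod_ne_zero_iff]
      intro i _
      exact hdiag i
    · intro i j hij
      exact hoff i j hij

end construct

end Pool.Agent.H374.TF
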