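import Mathlib
import Pool.Agent.H374.TF2

set_option autoImplicit false
set_option linter.unusedVariables false
set_option linter.unusedSectionVars false

namespace Pool.Agent.H374.TF

open Finset

section ext

variable {F : Type} [Field F] {β : Type} [DecidableEq β]

/-- restriction to a finite set -/
def rho (F : Type) [Field F] {β : Type} (Y : Finset β) : (β → F) →ₗ[F] ({y // y ∈ Y} → F) :=
  LinearMap.funLeft F F (fun y => y.1)

theorem rho_apply (Y : Finset β) (f : β → F) (y : {y // y ∈ Y}) : rho F Y f y = f y.1 := rfl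

theorem rho_surj (Y : Finset β) : Function.Surjective (rho F Y) :=
  LinearMap.funLeft_surjective_of_injective F F _ Subtype.val_injective

theorem li_iff (Y : Finset β) {κ : Type} [Fintype κ] (u : κ → β → F) :
    LinearIndependent F (fun v => rho F Y (u v)) ↔
      ∀ c : κ → F, (∀ x ∈ Y, ∑ v, c v * u v x = 0) → c = 0 := by
  rw [Fintype.linearIndependent_iff]
  constructor
  · intro h c hc
    funext v
    refine h c ?_ v
    funext y
    rw [Finset.sum_apply]
    exact hc y.1 y.2
  · intro h c hc v
    have := h c (fun x hx => by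
      have := congrFun hc ⟨x, hx⟩
      rw [Finset.sum_apply] at this
      exact this)
    rw [this]
    rfl

theorem extend [Infinite F] {ι : Type} [Finite ι] [Nonempty ι] (Y : ι → Finset β) (n : ℕ)
    (hY : ∀ i, (Y i).card = n) {V : Type} [Fintype V] [DecidableEq V] (u : V → β → F)
    (hu : ∀ i, LinearIndependent F (fun v => rho F (Y i) (u v))) :
    ∀ k, Fintype.card V ≤ k → k ≤ n → ∃ (ℓ : Fin k → β → F) (e : V → Fin k),
      (∀ v, ℓ (e v) = u v) ∧ ∀ i, LinearIndependent F (fun l => rho F (Y i) (ℓ l)) := by
  intro k hk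
  induction k, hk using Nat.le_induction with
  | base =>
    intro _
    refine ⟨fun l => u ((Fintype.equivFin V).symm l), Fintype.equivFin V, ?_, ?_⟩
    · intro v
      simp
    · intro i
      exact (hu i).comp _ (Fintype.equivFin V).symm.injective
  | succ k hk ih =>
    intro hkn
    obtain ⟨ℓ, e, he, hl⟩ := ih (by omega)
    have hex : ∃ f : β → F, ∀ i, rho F (Y i) f ∉
        Submodule.span F (Set.range (fun l => rho F (Y i) (ℓ l))) := by
      by_contra hcon
      push Not at hcon
      obtain ⟨i, hi⟩ := Subspace.exists_eq_top_of_iUnion_eq_univ (k := F) (E := β → F)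
        (p := fun i => (Submodule.span F (Set.range (fun l => rho F (Y i) (ℓ l)))).comap
          (rho F (Y i))) (by
          rw [Set.eq_univ_iff_forall]
          intro f
          obtain ⟨i, hi⟩ := hcon f
          exact Set.mem_iUnion.2 ⟨i, hi⟩)
      have htop : Submodule.span F (Set.range (fun l => rho F (Y i) (ℓ l))) = ⊤ := by
        rw [eq_top_iff]
        intro g _
        obtain ⟨f, rfl⟩ := rho_surj (Y i) g
        have : f ∈ (Submodule.span F (Set.range (fun l => rho F (Y i) (ℓ l)))).comap
          (rho F (Y i)) := by rw [hi]; trivial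
        exact this
      have h1 := finrank_range_le_card (R := F) (fun l => rho F (Y i) (ℓ l))
      rw [Set.finrank, htop, finrank_top, Module.finrank_fintype_fun_eq_card, Fintype.card_coe,
        hY i, Fintype.card_fin] at h1
      omega
    obtain ⟨f, hf⟩ := hex
    refine ⟨Fin.cons f ℓ, fun v => (e v).succ, ?_, ?_⟩
    · intro v
      rw [Fin.cons_succ]
      exact he v
    · intro i
      have : (fun l => rho F (Y i) ((Fin.cons f ℓ : Fin (k + 1) → β → F) l)) =
          Fin.cons (rho F (Y i) f) (fun l => rho F (Y i) (ℓ l)) := by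
        funext l
        refine Fin.cases ?_ (fun l => ?_) l
        · rfl
        · rfl
      rw [this, linearIndependent_finCons]
      exact ⟨hl i, hf i⟩

theorem assemble [Infinite F] [CharP F 2] {ι : Type} [Fintype ι] [LinearOrder ι] [Nonempty ι]
    (n d : ℕ) (A B : ι → Finset β)
    (hAB : ∀ i, (A i ∪ B i).card = n) (hd : ∀ i, (A i \ B i).card = d)
    (h2 : ∀ i, (A i ∩ B i).card = 2)
    {V : Type} [Fintype V] [DecidableEq V] (hV : Fintype.card V ≤ n) (u : V → β → F)
    (th : V → V → F)
    (hu : ∀ i, ∀ c : V → F, (∀ x ∈ A i ∪ B i, ∑ v, c v * u v x = 0) → c = 0)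
    (hg1 : ∀ i p q, A i ∩ B i = {p, q} → p ≠ q → gg u th p q + gg u th q p ≠ 0)
    (hg0 : ∀ x y, x ≠ y → (∀ k, ¬ {x, y} ⊆ A k ∩ B k) → gg u th x y + gg u th y x = 0)
    (hcond : ∀ i j k, i < j → ¬ (A i ∩ B j ⊆ A k ∩ B k)) :
    Fintype.card ι + s n d ≤ n.choose d := by
  obtain ⟨ℓ, e, he, hl⟩ := extend (F := F) (fun i => A i ∪ B i) n hAB u
    (fun i => (li_iff _ _).2 (hu i)) n hV le_rfl
  have hgg : ∀ x y, gg ℓ (fun l m => ∑ v, ∑ v', if e v = l then (if e v' = m then th v v' else 0)
      else 0) x y = gg u th x y := by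
    intro x y
    unfold gg
    simp only [sum_mul, ite_mul, zero_mul]
    have e1 : ∀ l m : Fin n, (∑ v, ∑ v', if e v = l then (if e v' = m then
        th v v' * (ℓ l x * ℓ m y) else 0) else 0) = ∑ v, if e v = l then (∑ v', if e v' = m then
          th v v' * (ℓ l x * ℓ m y) else 0) else 0 := by
      intro l m
      refine sum_congr rfl fun v _ => ?_
      split_ifs
      · rfl
      · simp
    calc _ = ∑ l, ∑ m, ∑ v, if e v = l then (∑ v', if e v' = m then
          th v v' * (ℓ l x * ℓ m y) else 0) else 0 :=
          sum_congr rfl fun l _ => sum_congr rfl fun m _ => e1 l m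
      _ = ∑ m, ∑ l, ∑ v, if e v = l then (∑ v', if e v' = m then
          th v v' * (ℓ l x * ℓ m y) else 0) else 0 := sum_comm
      _ = ∑ m, ∑ v, ∑ v', if e v' = m then th v v' * (ℓ (e v) x * ℓ m y) else 0 := by
          refine sum_congr rfl fun m _ => ?_
          rw [sum_comm]
          refine sum_congr rfl fun v _ => ?_
          rw [sum_ite_eq, if_pos (mem_univ _)]
      _ = ∑ v, ∑ v', th v v' * (ℓ (e v) x * ℓ (e v') y) := by
          rw [sum_comm]
          refine sum_congr rfl fun v _ => ?_
          rw [sum_comm]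
          refine sum_congr rfl fun v' _ => ?_
          rw [sum_ite_eq, if_pos (mem_univ _)]
      _ = _ := by
          simp only [he]
  exact construct n d (Fintype.card_fin n) A B hAB hd h2 ℓ _ (fun i => (li_iff _ _).1 (hl i))
    (fun i p q h1 h2 => by rw [hgg, hgg]; exact hg1 i p q h1 h2)
    (fun x y h1 h2 => by rw [hgg, hgg]; exact hg0 x y h1 h2) hcond

end ext

end Pool.Agent.H374.TF
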