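import Mathlib
import Pool.Agent.H374.TF3

set_option autoImplicit false
set_option linter.unusedVariables false
set_option linter.unusedSectionVars false

namespace Pool.Agent.H374.TF

open Finset

section alt

variable {F : Type} [Field F] [CharP F 2]

theorem char_two (a : F) : a + a = 0 := CharTwo.add_self_eq_zero a

/-- a quadratic form with symmetric matrix with zero diagonal vanishes in characteristic two -/
theorem quad_zero {V : Type} [Fintype V] [DecidableEq V] (A : V → V → F)
    (hs : ∀ a b, A a b = A b a) (hd : ∀ a, A a a = 0) (h : V → F) :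
    ∑ a, ∑ b, h a * A a b * h b = 0 := by
  have := sum_eq_zero_of_pair (F := F) (univ : Finset V) (fun a b => h a * h b) A hs hd (by
    intro x _ y _ _
    have : h x * h y + h y * h x = 0 := by
      rw [mul_comm (h y) (h x)]
      exact char_two _
    rw [this, zero_mul])
  rw [← this]
  refine sum_congr rfl fun a _ => sum_congr rfl fun b _ => ?_
  ring

theorem det_zero {V : Type} [Fintype V] [DecidableEq V] (A : Matrix V V F)
    (hs : ∀ a b, A a b = A b a)
    (hno : ∀ σ : Equiv.Perm V, (∀ a, σ (σ a) = a) → ¬ ∀ a, A (σ a) a ≠ 0) : A.det = 0 := by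
  have h1 : A.det = ∑ σ : Equiv.Perm V, ∏ a, A (σ a) a := by
    rw [Matrix.det_apply']
    refine sum_congr rfl fun σ _ => ?_
    have : ((Equiv.Perm.sign σ : ℤ) : F) = 1 := by
      rcases Int.units_eq_one_or (Equiv.Perm.sign σ) with h | h
      · rw [h]; simp
      · rw [h]
        simp only [Units.val_neg, Units.val_one, Int.cast_neg, Int.cast_one]
        exact CharTwo.neg_eq 1
    rw [this, one_mul]
  rw [h1]
  refine sum_involution (fun σ _ => σ⁻¹) ?_ ?_ ?_ ?_
  · intro σ _
    have : ∏ a, A ((σ⁻¹ : Equiv.Perm V) a) a = ∏ a, A (σ a) a := by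
      rw [← Equiv.prod_comp σ]
      refine prod_congr rfl fun a _ => ?_
      rw [show (σ⁻¹ : Equiv.Perm V) (σ a) = a from σ.symm_apply_apply a, hs]
    rw [this]
    exact char_two _
  · intro σ _ hne heq
    refine hno σ ?_ ?_
    · intro a
      have h2 : (σ⁻¹ : Equiv.Perm V) (σ a) = a := σ.symm_apply_apply a
      rw [heq] at h2
      exact h2
    · intro a ha
      exact hne (prod_eq_zero (mem_univ a) ha)
  · intro σ _
    exact mem_univ _
  · intro σ _
    exact inv_inv σ

theorem inv_symm {V : Type} [Fintype V] [DecidableEq V] (A : Matrix V V F)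
    (hs : ∀ a b, A a b = A b a) (hdet : A.det ≠ 0) (a b : V) : A⁻¹ a b = A⁻¹ b a := by
  have h1 : A.transpose = A := by
    ext a b
    rw [Matrix.transpose_apply, hs]
  have h2 : (A⁻¹).transpose = A⁻¹ := by
    rw [Matrix.transpose_nonsing_inv, h1]
  have := congrFun (congrFun h2 b) a
  rw [Matrix.transpose_apply] at this
  exact this

theorem inv_diag {V : Type} [Fintype V] [DecidableEq V] (A : Matrix V V F)
    (hs : ∀ a b, A a b = A b a) (hd : ∀ a, A a a = 0) (hdet : A.det ≠ 0) (a : V) :
    A⁻¹ a a = 0 := by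
  have hu : IsUnit A.det := isUnit_iff_ne_zero.2 hdet
  have h1 : A⁻¹ * A * A⁻¹ = A⁻¹ := by
    rw [Matrix.nonsing_inv_mul A hu, one_mul]
  have h2 := congrFun (congrFun h1 a) a
  rw [← h2, Matrix.mul_apply]
  have h3 := quad_zero (fun a b => A a b) hs hd (fun b => A⁻¹ a b)
  rw [← h3, sum_comm]
  refine sum_congr rfl fun b _ => ?_
  rw [Matrix.mul_apply, sum_mul]
  refine sum_congr rfl fun c _ => ?_
  rw [inv_symm A hs hdet b a]

theorem schur {β : Type} [DecidableEq β] (G : β → β → F) (hs : ∀ a b, G a b = G b a)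
    (hd : ∀ a, G a a = 0) {V : Type} [Fintype V] [DecidableEq V] (φ : V → β)
    (hdet : (Matrix.of fun a b => G (φ a) (φ b)).det ≠ 0)
    (hno : ∀ x y : β, x ≠ y → (∀ v, φ v ≠ x) → (∀ v, φ v ≠ y) →
      ∀ σ : Equiv.Perm (V ⊕ Fin 2), (∀ a, σ (σ a) = a) →
        ¬ ∀ a, G (Sum.elim φ ![x, y] (σ a)) (Sum.elim φ ![x, y] a) ≠ 0) (x y : β) :
    G x y = ∑ v, ∑ w, G x (φ v) * (Matrix.of fun a b => G (φ a) (φ b))⁻¹ v w * G (φ w) y := by
  obtain ⟨A, hA⟩ : ∃ A : Matrix V V F, A = Matrix.of fun a b => G (φ a) (φ b) := ⟨_, rfl⟩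
  rw [← hA] at hdet ⊢
  have hAs : ∀ a b, A a b = A b a := by
    intro a b
    rw [hA]
    exact hs _ _
  have hAd : ∀ a, A a a = 0 := by
    intro a
    rw [hA]
    exact hd _
  have hu : IsUnit A.det := isUnit_iff_ne_zero.2 hdet
  by_cases hx : ∃ v, φ v = x
  · obtain ⟨v0, rfl⟩ := hx
    have h1 : ∀ w, ∑ v, G (φ v0) (φ v) * A⁻¹ v w = if v0 = w then 1 else 0 := by
      intro w
      have := congrFun (congrFun (Matrix.mul_nonsing_inv A hu) v0) w
      rw [Matrix.mul_apply, Matrix.one_apply] at this
      rw [← this]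
      refine sum_congr rfl fun v _ => ?_
      rw [hA]
      rfl
    rw [sum_comm]
    have h2 : ∀ w, (∑ v, G (φ v0) (φ v) * A⁻¹ v w * G (φ w) y) =
        if v0 = w then G (φ w) y else 0 := by
      intro w
      rw [← sum_mul, h1 w]
      split_ifs <;> simp
    rw [sum_congr rfl fun w _ => h2 w, sum_ite_eq, if_pos (mem_univ _)]
  · push Not at hx
    by_cases hy : ∃ v, φ v = y
    · obtain ⟨v0, rfl⟩ := hy
      have h1 : ∀ v, ∑ w, A⁻¹ v w * G (φ w) (φ v0) = if v = v0 then 1 else 0 := by
        intro v
        have := congrFun (congrFun (Matrix.nonsing_inv_mul A hu) v) v0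
        rw [Matrix.mul_apply, Matrix.one_apply] at this
        rw [← this]
        refine sum_congr rfl fun w _ => ?_
        rw [hA]
        rfl
      have h2 : ∀ v, (∑ w, G x (φ v) * A⁻¹ v w * G (φ w) (φ v0)) =
          if v = v0 then G x (φ v) else 0 := by
        intro v
        simp only [mul_assoc]
        rw [← mul_sum, h1 v]
        split_ifs <;> simp
      rw [sum_congr rfl fun v _ => h2 v, sum_ite_eq', if_pos (mem_univ _)]
    · push Not at hy
      have hq : ∀ x, ∑ v, ∑ w, G x (φ v) * A⁻¹ v w * G (φ w) x = 0 := by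
        intro x
        rw [← quad_zero (fun a b => A⁻¹ a b) (inv_symm A hAs hdet) (inv_diag A hAs hAd hdet)
          (fun v => G x (φ v))]
        refine sum_congr rfl fun v _ => sum_congr rfl fun w _ => ?_
        rw [hs (φ w) x]
      by_cases hxy : x = y
      · subst hxy
        rw [hq, hd]
      · let B : Matrix V (Fin 2) F := Matrix.of fun v j => G (φ v) (![x, y] j)
        let C : Matrix (Fin 2) V F := Matrix.of fun j v => G (![x, y] j) (φ v)
        let D : Matrix (Fin 2) (Fin 2) F := Matrix.of fun j k => G (![x, y] j) (![x, y] k)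
        let _ : Invertible A := Matrix.invertibleOfIsUnitDet A hu
        have h1 : (Matrix.fromBlocks A B C D).det = 0 := by
          have e1 : Matrix.fromBlocks A B C D = Matrix.of fun a b =>
              G (Sum.elim φ ![x, y] a) (Sum.elim φ ![x, y] b) := by
            ext (a | a) (b | b)
            · rw [hA]; rfl
            · rfl
            · rfl
            · rfl
          rw [e1]
          apply det_zero
          · intro a b
            exact hs _ _
          · exact hno x y hxy hx hy
        rw [Matrix.det_fromBlocks₁₁] at h1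
        have h2 : (D - C * ⅟A * B).det = 0 := by
          rcases mul_eq_zero.1 h1 with h | h
          · exact absurd h hdet
          · exact h
        have hent : ∀ j k, (D - C * ⅟A * B) j k = G (![x, y] j) (![x, y] k) -
            ∑ v, ∑ w, G (![x, y] j) (φ v) * A⁻¹ v w * G (φ w) (![x, y] k) := by
          intro j k
          rw [Matrix.sub_apply, Matrix.mul_apply, Matrix.invOf_eq_nonsing_inv]
          have e2 : ∑ w, (C * A⁻¹) j w * B w k =
              ∑ v, ∑ w, G (![x, y] j) (φ v) * A⁻¹ v w * G (φ w) (![x, y] k) := by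
            rw [sum_comm]
            refine sum_congr rfl fun w _ => ?_
            rw [Matrix.mul_apply, sum_mul]
            rfl
          rw [e2]
          rfl
        rw [Matrix.det_fin_two, hent, hent, hent, hent] at h2
        simp only [Matrix.cons_val_zero, Matrix.cons_val_one] at h2
        rw [hd, hd, hq, hq] at h2
        have hsw : G y x - ∑ v, ∑ w, G y (φ v) * A⁻¹ v w * G (φ w) x =
            G x y - ∑ v, ∑ w, G x (φ v) * A⁻¹ v w * G (φ w) y := by
          rw [hs y x]
          congr 1
          rw [sum_comm]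
          refine sum_congr rfl fun v _ => sum_congr rfl fun w _ => ?_
          rw [hs y (φ w), hs (φ v) x, inv_symm A hAs hdet w v]
          ring
        rw [hsw] at h2
        have h3 : (G x y - ∑ v, ∑ w, G x (φ v) * A⁻¹ v w * G (φ w) y) ^ 2 = 0 := by
          rw [pow_two]
          linear_combination -h2
        exact sub_eq_zero.1 (pow_eq_zero_iff (two_ne_zero)|>.1 h3)

end alt

end Pool.Agent.H374.TF
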