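import Mathlib
import Pool.Agent.H374.TF4

set_option autoImplicit false
set_option linter.unusedVariables false
set_option linter.unusedSectionVars false

namespace Pool.Agent.H374.TF

open Finset

section fin

/-- two distinct points lying in a common set `P k` -/
def adj {β ι : Type} [DecidableEq β] (P : ι → Finset β) (x y : β) : Prop :=
  x ≠ y ∧ ∃ k, {x, y} ⊆ P k

theorem adj_symm {β ι : Type} [DecidableEq β] (P : ι → Finset β) (x y : β) :
    adj P x y ↔ adj P y x := by
  unfold adj
  rw [pair_comm x y]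
  constructor
  · rintro ⟨h1, h2⟩
    exact ⟨h1.symm, h2⟩
  · rintro ⟨h1, h2⟩
    exact ⟨h1.symm, h2⟩

theorem pair_eq {β : Type} [DecidableEq β] (e : Finset β) (he : e.card = 2) (x y : β) (hxy : x ≠ y)
    (h : {x, y} ⊆ e) : {x, y} = e :=
  eq_of_subset_of_card_le h (by rw [he, card_pair hxy])

variable {β ι : Type} [DecidableEq β]

/-- a fixed point free involution along the pairs gives many disjoint pairs -/
theorem many [DecidableEq ι] [Nonempty ι] (P : ι → Finset β) (hP : ∀ k, (P k).card = 2) {U : Type}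
    [Fintype U] [DecidableEq U] (φ : U → β) (hφ : Function.Injective φ) (σ : Equiv.Perm U)
    (hσ : ∀ a, σ (σ a) = a) (h : ∀ a, adj P (φ (σ a)) (φ a)) :
    ∃ K : Finset ι, Fintype.card U ≤ 2 * K.card ∧
      ∀ k ∈ K, ∀ l ∈ K, k ≠ l → Disjoint (P k) (P l) := by
  classical
  choose k hk using fun a => (h a).2
  have hk' : ∀ a, {φ (σ a), φ a} = P (k a) := fun a => pair_eq _ (hP _) _ _ (h a).1 (hk a)
  let Q : Finset (Finset β) := univ.image (fun a => P (k a))
  have hQ : ∀ e ∈ Q, ∃ a, P (k a) = e := by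
    intro e he
    obtain ⟨a, _, ha⟩ := mem_image.1 he
    exact ⟨a, ha⟩
  have hdis : ∀ e ∈ Q, ∀ e' ∈ Q, e ≠ e' → Disjoint e e' := by
    intro e he e' he' hne
    obtain ⟨a, rfl⟩ := hQ e he
    obtain ⟨b, rfl⟩ := hQ e' he'
    rw [← hk' a, ← hk' b] at hne ⊢
    rw [disjoint_left]
    intro x hx hx'
    rw [mem_insert, mem_singleton] at hx hx'
    apply hne
    rcases hx with rfl | rfl
    · rcases hx' with hx' | hx'
      · have := σ.injective (hφ hx')
        rw [this]
      · have := hφ hx'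
        rw [← this, hσ, pair_comm]
    · rcases hx' with hx' | hx'
      · have := hφ hx'
        rw [this, hσ, pair_comm]
      · have := hφ hx'
        rw [this]
  let f : Finset β → ι := fun e => if h : ∃ k, P k = e then h.choose else Classical.arbitrary ι
  have hf : ∀ e ∈ Q, P (f e) = e := by
    intro e he
    obtain ⟨a, ha⟩ := hQ e he
    have hex : ∃ k, P k = e := ⟨k a, ha⟩
    simp only [f, dif_pos hex]
    exact hex.choose_spec
  have hinj : Set.InjOn f (Q : Set (Finset β)) := by
    intro e he e' he' hee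
    rw [← hf e he, ← hf e' he', hee]
  refine ⟨Q.image f, ?_, ?_⟩
  · rw [card_image_of_injOn hinj]
    have h1 : (Q.biUnion id).card = ∑ e ∈ Q, (id e : Finset β).card := by
      apply card_biUnion
      intro e he e' he' hne
      exact hdis e he e' he' hne
    have h2 : ∑ e ∈ Q, (id e : Finset β).card = 2 * Q.card := by
      rw [sum_congr rfl (g := fun _ => 2), sum_const, smul_eq_mul, mul_comm]
      intro e he
      obtain ⟨a, rfl⟩ := hQ e he
      exact hP _
    rw [← h2, ← h1, ← card_univ, ← card_image_of_injective univ hφ]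
    apply card_le_card
    intro x hx
    obtain ⟨a, _, rfl⟩ := mem_image.1 hx
    rw [mem_biUnion]
    refine ⟨P (k a), mem_image_of_mem _ (mem_univ a), ?_⟩
    rw [← hk' a]
    simp
  · intro x hx y hy hne
    obtain ⟨e, he, rfl⟩ := mem_image.1 hx
    obtain ⟨e', he', rfl⟩ := mem_image.1 hy
    rw [hf e he, hf e' he']
    apply hdis e he e' he'
    intro h
    exact hne (by rw [h])

theorem det_matching {F : Type} [Field F] [DecidableEq ι] (P : ι → Finset β)
    (hP : ∀ k, (P k).card = 2)
    (K : Finset ι) (hK : ∀ k ∈ K, ∀ l ∈ K, k ≠ l → Disjoint (P k) (P l)) (G : β → β → F)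
    (hG1 : ∀ x y, x ≠ y → (∃ k ∈ K, {x, y} = P k) → G x y = 1)
    (hG0 : ∀ x y, ¬ (x ≠ y ∧ ∃ k ∈ K, {x, y} = P k) → G x y = 0) :
    (Matrix.of fun a b : {x // x ∈ K.biUnion P} => G a.1 b.1).det ≠ 0 := by
  classical
  intro hdet
  obtain ⟨v, hv, hM⟩ := Matrix.exists_mulVec_eq_zero_iff.2 hdet
  apply hv
  funext y
  obtain ⟨k, hk, hy⟩ := mem_biUnion.1 y.2
  obtain ⟨p, q, hpq, hPk⟩ := card_eq_two.1 (hP k)
  obtain ⟨x, hxy, hx⟩ : ∃ x, x ≠ y.1 ∧ {x, y.1} = P k := by
    rw [hPk] at hy ⊢
    rw [mem_insert, mem_singleton] at hy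
    rcases hy with h | h
    · exact ⟨q, by rw [h]; exact hpq.symm, by rw [h, pair_comm]⟩
    · exact ⟨p, by rw [h]; exact hpq, by rw [h]⟩
  have hxV : x ∈ K.biUnion P := mem_biUnion.2 ⟨k, hk, by rw [← hx]; simp⟩
  have h1 := congrFun hM ⟨x, hxV⟩
  rw [Matrix.mulVec, dotProduct, sum_eq_single y] at h1
  · have h2 : G x y.1 = 1 := hG1 x y.1 hxy ⟨k, hk, hx⟩
    simp only [Matrix.of_apply] at h1
    rw [h2, one_mul] at h1
    exact h1
  · intro z _ hz
    simp only [Matrix.of_apply]
    rw [hG0, zero_mul]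
    rintro ⟨hxz, k', hk', hz'⟩
    have hkk : k = k' := by
      by_contra hne
      have := hK k hk k' hk' hne
      rw [disjoint_left] at this
      exact this (a := x) (by rw [← hx]; simp) (by rw [← hz']; simp)
    subst hkk
    rw [← hx] at hz'
    have h3 : z.1 ∈ ({x, z.1} : Finset β) := by simp
    rw [hz', mem_insert, mem_singleton] at h3
    rcases h3 with h3 | h3
    · exact hxz h3.symm
    · exact hz (Subtype.ext h3)
  · intro h
    exact absurd (mem_univ _) h

theorem weights {F : Type} [Field F] [Infinite F] [Fintype ι] [DecidableEq ι] (P : ι → Finset β)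
    (hP : ∀ k, (P k).card = 2) (K : ι → Finset ι)
    (hK : ∀ i, ∀ k ∈ K i, ∀ l ∈ K i, k ≠ l → Disjoint (P k) (P l)) :
    ∃ G : β → β → F, (∀ x y, G x y = G y x) ∧ (∀ x y, G x y ≠ 0 ↔ adj P x y) ∧
      ∀ i, (Matrix.of fun a b : {x // x ∈ (K i).biUnion P} => G a.1 b.1).det ≠ 0 := by
  classical
  let Gp : β → β → MvPolynomial (Finset β) F := fun x y =>
    if adj P x y then MvPolynomial.X {x, y} else 0
  let Dp : ι → MvPolynomial (Finset β) F := fun i =>
    (Matrix.of fun a b : {x // x ∈ (K i).biUnion P} => Gp a.1 b.1).det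
  have heval : ∀ (w : Finset β → F) i, MvPolynomial.eval w (Dp i) =
      (Matrix.of fun a b : {x // x ∈ (K i).biUnion P} =>
        (fun x y => if adj P x y then w {x, y} else 0) a.1 b.1).det := by
    intro w i
    have := RingHom.map_det (MvPolynomial.eval w)
      (Matrix.of fun a b : {x // x ∈ (K i).biUnion P} => Gp a.1 b.1)
    rw [this]
    congr 1
    ext a b
    simp only [RingHom.mapMatrix_apply, Matrix.map_apply, Matrix.of_apply, Gp]
    split_ifs <;> simp
  have hDp : ∀ i, Dp i ≠ 0 := by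
    intro i h0
    have h1 := heval (fun e => if ∃ k ∈ K i, e = P k then 1 else 0) i
    rw [h0, map_zero] at h1
    refine det_matching P hP (K i) (hK i)
      (fun x y => if adj P x y then (if ∃ k ∈ K i, {x, y} = P k then (1 : F) else 0) else 0)
      ?_ ?_ h1.symm
    · intro x y hxy hk
      have : adj P x y := by
        obtain ⟨k, _, hk⟩ := hk
        exact ⟨hxy, k, by rw [hk]⟩
      rw [if_pos this, if_pos hk]
    · intro x y hn
      split_ifs with h1 h2
      · exact absurd ⟨h1.1, h2⟩ hn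
      · rfl
      · rfl
  have hne : (∏ i, Dp i) * ∏ k, (MvPolynomial.X (P k) : MvPolynomial (Finset β) F) ≠ 0 := by
    apply mul_ne_zero
    · rw [prod_ne_zero_iff]
      intro i _
      exact hDp i
    · rw [prod_ne_zero_iff]
      intro k _
      exact MvPolynomial.X_ne_zero _
  obtain ⟨w, hw⟩ : ∃ w, MvPolynomial.eval w
      ((∏ i, Dp i) * ∏ k, (MvPolynomial.X (P k) : MvPolynomial (Finset β) F)) ≠ 0 := by
    by_contra hcon
    push Not at hcon
    apply hne
    apply MvPolynomial.funext
    intro x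
    rw [hcon x, map_zero]
  rw [map_mul, map_prod, map_prod] at hw
  have hw1 := left_ne_zero_of_mul hw
  have hw2 := right_ne_zero_of_mul hw
  rw [prod_ne_zero_iff] at hw1 hw2
  refine ⟨fun x y => if adj P x y then w {x, y} else 0, ?_, ?_, ?_⟩
  · intro x y
    simp only
    rw [pair_comm x y]
    by_cases h : adj P x y
    · rw [if_pos h, if_pos ((adj_symm P x y).1 h)]
    · rw [if_neg h, if_neg (fun h' => h ((adj_symm P x y).2 h'))]
  · intro x y
    simp only
    split_ifs with h
    · refine ⟨fun _ => h, fun _ => ?_⟩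
      obtain ⟨hxy, k, hk⟩ := h
      rw [pair_eq _ (hP k) x y hxy hk]
      have := hw2 k (mem_univ k)
      rw [MvPolynomial.eval_X] at this
      exact this
    · simp [h]
  · intro i
    have := hw1 i (mem_univ i)
    rw [heval] at this
    exact this

theorem main_field {F : Type} [Field F] [Infinite F] [CharP F 2] [Fintype ι] [LinearOrder ι]
    [Nonempty ι] (n d m : ℕ) (A B : ι → Finset β)
    (hAB : ∀ i, (A i ∪ B i).card = n) (hd : ∀ i, (A i \ B i).card = d)
    (h2 : ∀ i, (A i ∩ B i).card = 2)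
    (hmax : ∀ K : Finset ι, (∀ k ∈ K, ∀ l ∈ K, k ≠ l → Disjoint (A k ∩ B k) (A l ∩ B l)) →
      K.card ≤ m)
    (hfull : ∀ i, ∃ K : Finset ι, K.card = m ∧
      (∀ k ∈ K, ∀ l ∈ K, k ≠ l → Disjoint (A k ∩ B k) (A l ∩ B l)) ∧
      ∀ k ∈ K, A k ∩ B k ⊆ A i ∪ B i)
    (hcond : ∀ i j k, i < j → ¬ (A i ∩ B j ⊆ A k ∩ B k)) :
    Fintype.card ι + s n d ≤ n.choose d := by
  classical
  choose K hKm hKd hKX using hfull
  obtain ⟨G, hGs, hGa, hGd⟩ := weights (F := F) (fun k => A k ∩ B k) h2 K hKd
  have hG0 : ∀ x, G x x = 0 := by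
    intro x
    by_contra h
    exact ((hGa x x).1 h).1 rfl
  have hVX : ∀ i, (K i).biUnion (fun k => A k ∩ B k) ⊆ A i ∪ B i := by
    intro i x hx
    obtain ⟨k, hk, hx⟩ := mem_biUnion.1 hx
    exact hKX i k hk hx
  have hVc : ∀ i, ((K i).biUnion (fun k => A k ∩ B k)).card = 2 * m := by
    intro i
    rw [card_biUnion (fun k hk l hl hne => hKd i k hk l hl hne), sum_congr rfl (g := fun _ => 2),
      sum_const, smul_eq_mul, hKm i, mul_comm]
    intro k _
    exact h2 k
  have hS : ∀ i x y, G x y = ∑ v : {x // x ∈ (K i).biUnion (fun k => A k ∩ B k)},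
      ∑ w : {x // x ∈ (K i).biUnion (fun k => A k ∩ B k)}, G x v.1 *
        (Matrix.of fun a b : {x // x ∈ (K i).biUnion (fun k => A k ∩ B k)} => G a.1 b.1)⁻¹ v w *
          G w.1 y := by
    intro i
    apply schur G hGs hG0 (fun v : {x // x ∈ (K i).biUnion (fun k => A k ∩ B k)} => v.1) (hGd i)
    intro x y hxy hx hy σ hσ hall
    have hinj : Function.Injective
        (Sum.elim (fun v : {x // x ∈ (K i).biUnion (fun k => A k ∩ B k)} => v.1) ![x, y]) := by
      rintro (a | a) (b | b) h
      · simp only [Sum.elim_inl] at h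
        rw [Subtype.ext h]
      · exfalso
        fin_cases b
        · exact hx a h
        · exact hy a h
      · exfalso
        fin_cases a
        · exact hx b h.symm
        · exact hy b h.symm
      · fin_cases a <;> fin_cases b
        · rfl
        · exact absurd h hxy
        · exact absurd h hxy.symm
        · rfl
    obtain ⟨K', h1, h3⟩ := many (fun k => A k ∩ B k) h2 _ hinj σ hσ
      (fun a => (hGa _ _).1 (hall a))
    have h4 := hmax K' h3
    rw [Fintype.card_sum, Fintype.card_coe, hVc, Fintype.card_fin] at h1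
    omega
  obtain ⟨i0⟩ := (inferInstance : Nonempty ι)
  obtain ⟨r, hr1, hr2⟩ : ∃ r : {x // x ∈ (K i0).biUnion (fun k => A k ∩ B k)} →
      {x // x ∈ (K i0).biUnion (fun k => A k ∩ B k)} → Prop, (∀ p q, p ≠ q → r p q ∨ r q p) ∧
      (∀ p q, r p q → ¬ r q p) := by
    refine ⟨WellOrderingRel, fun p q hpq => ?_, fun p q h h' => ?_⟩
    · rcases trichotomous_of (WellOrderingRel : {x // x ∈ (K i0).biUnion (fun k => A k ∩ B k)} →
          {x // x ∈ (K i0).biUnion (fun k => A k ∩ B k)} → Prop) p q with h | h | h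
      · exact Or.inl h
      · exact absurd h hpq
      · exact Or.inr h
    · exact asymm_of (WellOrderingRel : {x // x ∈ (K i0).biUnion (fun k => A k ∩ B k)} →
        {x // x ∈ (K i0).biUnion (fun k => A k ∩ B k)} → Prop) h h'
  obtain ⟨H, hH⟩ : ∃ H : Matrix {x // x ∈ (K i0).biUnion (fun k => A k ∩ B k)}
    {x // x ∈ (K i0).biUnion (fun k => A k ∩ B k)} F, H = (Matrix.of fun a b :
      {x // x ∈ (K i0).biUnion (fun k => A k ∩ B k)} => G a.1 b.1)⁻¹ := ⟨_, rfl⟩
  have hHs : ∀ a b, H a b = H b a := by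
    intro a b
    rw [hH]
    exact inv_symm _ (fun a b => hGs a.1 b.1) (hGd i0) a b
  have hHd : ∀ a, H a a = 0 := by
    intro a
    rw [hH]
    exact inv_diag _ (fun a b => hGs a.1 b.1) (fun a => hG0 a.1) (hGd i0) a
  have hth : ∀ v w, (if r v w then H v w else 0) + (if r w v then H w v else 0) = H v w := by
    intro v w
    by_cases hvw : v = w
    · subst hvw
      rw [hHd]
      simp
    · rcases hr1 v w hvw with h | h
      · rw [if_pos h, if_neg (hr2 v w h), add_zero]
      · rw [if_pos h, if_neg (hr2 w v h), zero_add, hHs]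
  have hgg : ∀ x y, gg (fun (v : {x // x ∈ (K i0).biUnion (fun k => A k ∩ B k)}) x => G x v.1)
      (fun v w => if r v w then H v w else 0) x y +
      gg (fun (v : {x // x ∈ (K i0).biUnion (fun k => A k ∩ B k)}) x => G x v.1)
      (fun v w => if r v w then H v w else 0) y x = G x y := by
    intro x y
    have e1 : gg (fun (v : {x // x ∈ (K i0).biUnion (fun k => A k ∩ B k)}) x => G x v.1)
      (fun v w => if r v w then H v w else 0) y x =
        ∑ v, ∑ w, (if r w v then H w v else 0) * (G x v.1 * G y w.1) := by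
      unfold gg
      rw [sum_comm]
      refine sum_congr rfl fun v _ => sum_congr rfl fun w _ => ?_
      rw [mul_comm (G y w.1)]
    rw [e1]
    unfold gg
    rw [← sum_add_distrib, hS i0 x y]
    refine sum_congr rfl fun v _ => ?_
    rw [← sum_add_distrib]
    refine sum_congr rfl fun w _ => ?_
    rw [← add_mul, hth, ← hH]
    change H v w * (G x v.1 * G y w.1) = G x v.1 * H v w * G w.1 y
    rw [hGs y w.1]
    ring
  refine assemble (F := F) n d A B hAB hd h2
    (V := {x // x ∈ (K i0).biUnion (fun k => A k ∩ B k)}) ?_ (fun v x => G x v.1)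
    (fun v w => if r v w then H v w else 0) ?_ ?_ ?_ hcond
  · rw [Fintype.card_coe, ← hAB i0]
    exact card_le_card (hVX i0)
  · intro i c hc
    apply Matrix.eq_zero_of_mulVec_eq_zero (hGd i0)
    funext v1
    rw [Matrix.mulVec, dotProduct, Pi.zero_apply]
    simp only [Matrix.of_apply]
    have e1 : ∀ v : {x // x ∈ (K i0).biUnion (fun k => A k ∩ B k)}, G v1.1 v.1 * c v =
        ∑ a : {x // x ∈ (K i).biUnion (fun k => A k ∩ B k)},
        ∑ b : {x // x ∈ (K i).biUnion (fun k => A k ∩ B k)}, G v1.1 a.1 *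
        (Matrix.of fun a b : {x // x ∈ (K i).biUnion (fun k => A k ∩ B k)} => G a.1 b.1)⁻¹ a b *
          (c v * G b.1 v.1) := by
      intro v
      rw [hS i v1.1 v.1, sum_mul]
      refine sum_congr rfl fun a _ => ?_
      rw [sum_mul]
      refine sum_congr rfl fun b _ => ?_
      ring
    rw [sum_congr rfl fun v _ => e1 v, sum_comm]
    apply sum_eq_zero
    intro a _
    rw [sum_comm]
    apply sum_eq_zero
    intro b _
    rw [← mul_sum, hc b.1 (hVX i b.2), mul_zero]
  · intro i p q hP hpq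
    rw [hgg]
    exact (hGa p q).2 ⟨hpq, i, hP.ge⟩
  · intro x y hxy hk
    rw [hgg]
    by_contra h
    obtain ⟨_, k, hk'⟩ := (hGa x y).1 h
    exact hk k hk'

end fin

end Pool.Agent.H374.TF
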