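import Mathlib
import Pool.Agent.H374.TF5

set_option autoImplicit false
set_option linter.unusedVariables false
set_option linter.unusedSectionVars false

namespace Pool.Agent.H374.TF

open Finset MvPolynomial

section construct2

variable {F : Type} [Field F] {β : Type} [DecidableEq β]

variable {α : Type} [Fintype α] [DecidableEq α]

theorem construct2 [Infinite F] [CharP F 2] {ι : Type} [Fintype ι] [LinearOrder ι]
    (n d : ℕ) (hn : Fintype.card α = n) (A B : ι → Finset β)
    (hAB : ∀ i, (A i ∪ B i).card = n) (hd : ∀ i, (A i \ B i).card = d)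
    (h2 : ∀ i, (A i ∩ B i).card = 2)
    (ℓ : α → β → F) (t : α → α → F)
    (hℓ : ∀ i, ∀ c : α → F, (∀ x ∈ A i ∪ B i, ∑ l, c l * ℓ l x = 0) → c = 0)
    (hg1 : ∀ i p q, A i ∩ B i = {p, q} → p ≠ q → gg ℓ t p q + gg ℓ t q p ≠ 0)
    (hvan : ∀ i j, i < j → ∀ x ∈ A i, ∀ y ∈ A i, x ≠ y → A i ∩ B j ⊆ {x, y} →
      gg ℓ t x y + gg ℓ t y x = 0) :
    Fintype.card ι + s n d ≤ n.choose d := by
  classical
  have hdual := fun i => dual n hn (A i ∪ B i) (hAB i) ℓ (hℓ i)
  choose c hc using hdual
  let z : ι → MvPolynomial α F := fun j => ∏ x ∈ A j \ B j, lf (c j x) univ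
  let lam : ι → β → β → F := fun j x y => ∑ l, c j x l * ℓ l y
  have hphi : ∀ i j, phi ℓ (A i) (z j) = ∏ x ∈ A j \ B j, lf (lam j x) (A i) := by
    intro i j
    rw [map_prod]
    exact prod_congr rfl fun x _ => phi_lf ℓ (A i) (c j x)
  have hqs : ∀ i j x y, coeff (ind (A i)) (X x * X y * phi ℓ (A i) (z j)) =
      coeff (ind (A i)) (X y * X x * phi ℓ (A i) (z j)) := by
    intro i j x y
    rw [mul_comm (X x) (X y)]
  have hq0 : ∀ i j x, coeff (ind (A i)) (X x * X x * phi ℓ (A i) (z j)) = 0 := by
    intro i j x
    rw [← pow_two, coeff_sq]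
  refine core n d hn (fun i => kap ℓ (A i)) (fun i => kap_sq ℓ (A i)) z ?_ t ?_
  · intro j
    have := IsHomogeneous.prod (A j \ B j) (fun x => lf (c j x) univ) (fun _ => 1)
      (fun x _ => lf_hom _ _)
    rw [sum_const, smul_eq_mul, mul_one, hd j] at this
    exact this
  · have hoff : ∀ i j, i < j → kap ℓ (A i) (om t * z j) = 0 := by
      intro i j hij
      rw [kap_om]
      refine sum_eq_zero_of_pair (A i) (gg ℓ t)
        (fun x y => coeff (ind (A i)) (X x * X y * phi ℓ (A i) (z j))) (hqs i j) (hq0 i j) ?_
      intro x hx y hy hxy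
      by_cases hg : gg ℓ t x y + gg ℓ t y x = 0
      · rw [hg, zero_mul]
      · by_cases hq : coeff (ind (A i)) (X x * X y * phi ℓ (A i) (z j)) = 0
        · rw [hq, mul_zero]
        · exfalso
          rw [hphi] at hq
          have := vanish (A i) (A j \ B j) (B j) (lam j) (by
            intro w hw v hv
            rw [mem_sdiff] at hw
            have := hc j w (mem_union_left _ hw.1) v (mem_union_right _ hv)
            have hwv : w ≠ v := by
              intro h
              rw [h] at hw
              exact hw.2 hv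
            rw [if_neg hwv] at this
            exact this) x y hq
          exact hg (hvan i j hij x hx y hy hxy this)
    have hdiag : ∀ i, kap ℓ (A i) (om t * z i) ≠ 0 := by
      intro i
      obtain ⟨p, q, hpq, hP⟩ := card_eq_two.1 (h2 i)
      have hz : phi ℓ (A i) (z i) = monomial (ind (A i \ B i)) 1 := by
        rw [hphi, ← prod_X]
        refine prod_congr rfl fun x hx => ?_
        rw [mem_sdiff] at hx
        unfold lf
        rw [sum_eq_single x]
        · have : lam i x x = 1 := by
            have := hc i x (mem_union_left _ hx.1) x (mem_union_left _ hx.1)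
            rw [if_pos rfl] at this
            exact this
          rw [this, C_1, one_mul]
        · intro y hy hyx
          have : lam i x y = 0 := by
            have := hc i x (mem_union_left _ hx.1) y (mem_union_left _ hy)
            rw [if_neg (fun h => hyx h.symm)] at this
            exact this
          rw [this, C_0, zero_mul]
        · intro h
          exact absurd hx.1 h
      have hco : ∀ x y, coeff (ind (A i)) (X x * X y * phi ℓ (A i) (z i)) =
          if Finsupp.single x 1 + Finsupp.single y 1 + ind (A i \ B i) = ind (A i)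
            then 1 else 0 := by
        intro x y
        rw [hz, X, X, monomial_mul, monomial_mul, coeff_monomial]
        simp
      have hsd : A i \ (A i \ B i) = {p, q} := by
        rw [sdiff_sdiff_right_self]
        exact hP
      have hpA : p ∈ A i ∧ q ∈ A i := by
        have h1 : p ∈ A i ∩ B i := by rw [hP]; simp
        have h2 : q ∈ A i ∩ B i := by rw [hP]; simp
        exact ⟨(mem_inter.1 h1).1, (mem_inter.1 h2).1⟩
      have hval : kap ℓ (A i) (om t * z i) = gg ℓ t p q + gg ℓ t q p := by
        rw [kap_om]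
        have hone : ∀ x y, Finsupp.single x 1 + Finsupp.single y 1 + ind (A i \ B i) = ind (A i) ↔
            (x = p ∧ y = q) ∨ (x = q ∧ y = p) := by
          intro x y
          constructor
          · intro h
            obtain ⟨b1, b2, b3, b4⟩ := char1 _ _ x y h
            rw [hsd, mem_insert, mem_singleton] at b2 b3
            rcases b2 with rfl | rfl
            · rcases b3 with rfl | rfl
              · exact absurd rfl b4
              · exact Or.inl ⟨rfl, rfl⟩
            · rcases b3 with rfl | rfl
              · exact Or.inr ⟨rfl, rfl⟩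
              · exact absurd rfl b4
          · rintro (⟨rfl, rfl⟩ | ⟨rfl, rfl⟩)
            · exact char2 _ _ _ _ sdiff_subset hpq hsd
            · exact char2 _ _ _ _ sdiff_subset hpq.symm (by rw [hsd, pair_comm])
        have hsum : ∀ x ∈ A i, (∑ y ∈ A i, gg ℓ t x y *
            coeff (ind (A i)) (X x * X y * phi ℓ (A i) (z i))) =
            (if x = p then gg ℓ t p q else 0) + (if x = q then gg ℓ t q p else 0) := by
          intro x hx
          have e1 : ∀ y ∈ A i, gg ℓ t x y *
            coeff (ind (A i)) (X x * X y * phi ℓ (A i) (z i)) =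
              (if y = q then (if x = p then gg ℓ t p q else 0) else 0) +
              (if y = p then (if x = q then gg ℓ t q p else 0) else 0) := by
            intro y hy
            rw [hco]
            by_cases c1 : x = p
            · subst c1
              by_cases c2 : y = q
              · subst c2
                rw [if_pos ((hone _ _).2 (Or.inl ⟨rfl, rfl⟩))]
                simp [hpq]
              · rw [if_neg]
                · simp [c2, hpq]
                · intro h
                  rcases (hone _ _).1 h with h | h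
                  · exact c2 h.2
                  · exact hpq h.1
            · by_cases c2 : x = q
              · subst c2
                by_cases c3 : y = p
                · subst c3
                  rw [if_pos ((hone _ _).2 (Or.inr ⟨rfl, rfl⟩))]
                  simp [hpq, hpq.symm]
                · rw [if_neg]
                  · simp [c3, c1]
                  · intro h
                    rcases (hone _ _).1 h with h | h
                    · exact c1 h.1
                    · exact c3 h.2
              · rw [if_neg]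
                · simp [c1, c2]
                · intro h
                  rcases (hone _ _).1 h with h | h
                  · exact c1 h.1
                  · exact c2 h.1
          rw [sum_congr rfl e1, sum_add_distrib, sum_ite_eq', sum_ite_eq', if_pos hpA.2,
            if_pos hpA.1]
        rw [sum_congr rfl hsum, sum_add_distrib, sum_ite_eq', sum_ite_eq', if_pos hpA.1,
          if_pos hpA.2]
      rw [hval]
      exact hg1 i p q hP hpq
    rw [Matrix.det_of_isLowerTriangular]
    · rw [prod_ne_zero_iff]
      intro i _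
      exact hdiag i
    · intro i j hij
      exact hoff i j hij

end construct2

section loc

variable {F : Type} [Field F] {β : Type} [DecidableEq β]

theorem exists_inj [Infinite F] (U : Finset β) :
    ∃ f : β → F, ∀ x ∈ U, ∀ y ∈ U, f x = f y → x = y := by
  classical
  let g : {x // x ∈ U} → F := fun x => Infinite.natEmbedding F (U.equivFin x)
  have hg : Function.Injective g := by
    intro x y h
    have h1 := (Infinite.natEmbedding F).injective h
    exact U.equivFin.injective (Fin.ext h1)
  refine ⟨fun x => if h : x ∈ U then g ⟨x, h⟩ else 0, ?_⟩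
  intro x hx y hy h
  simp only [dif_pos hx, dif_pos hy] at h
  exact congrArg Subtype.val (hg h)

theorem moment (n : ℕ) (f : β → F) (Z : Finset β) (hZ : Z.card = n)
    (hf : ∀ x ∈ Z, ∀ y ∈ Z, f x = f y → x = y) (c : Fin n → F)
    (hc : ∀ x ∈ Z, ∑ k, c k * f x ^ (k : ℕ) = 0) : c = 0 := by
  classical
  have h1 : (∑ k : Fin n, Polynomial.C (c k) * Polynomial.X ^ (k : ℕ)) = 0 := by
    apply Polynomial.eq_zero_of_degree_lt_of_eval_finset_eq_zero (Z.image f)
    · rw [card_image_of_injOn (fun x hx y hy h => hf x hx y hy h), hZ]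
      exact Polynomial.degree_sum_fin_lt _
    · intro y hy
      obtain ⟨x, hx, rfl⟩ := mem_image.1 hy
      rw [Polynomial.eval_finsetSum, ← hc x hx]
      refine sum_congr rfl fun k _ => ?_
      simp
  funext k
  have h2 := congrArg (fun p => Polynomial.coeff p (k : ℕ)) h1
  simp only [Polynomial.finsetSum_coeff, Polynomial.coeff_C_mul, Polynomial.coeff_X_pow,
    Polynomial.coeff_zero] at h2
  rw [sum_eq_single k] at h2
  · simpa using h2
  · intro j _ hj
    rw [if_neg, mul_zero]
    intro h
    exact hj (Fin.ext h.symm)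
  · intro h
    exact absurd (mem_univ _) h

theorem gg_double (n : ℕ) (ℓ : Fin n → β → F) (Y : Finset β) (t0 : β → β → F) (c : β → Fin n → F)
    (x y : β) :
    gg ℓ (fun k k' => ∑ u ∈ Y, ∑ w ∈ Y, t0 u w * (c u k * c w k')) x y =
      ∑ u ∈ Y, ∑ w ∈ Y, t0 u w * ((∑ k, c u k * ℓ k x) * (∑ k, c w k * ℓ k y)) := by
  unfold gg
  simp only [sum_mul, mul_sum]
  have e1 : ∀ k k' : Fin n, (∑ u ∈ Y, ∑ w ∈ Y, t0 u w * (c u k * c w k') * (ℓ k x * ℓ k' y)) =
      ∑ u ∈ Y, ∑ w ∈ Y, t0 u w * (c u k * ℓ k x * (c w k' * ℓ k' y)) := by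
    intro k k'
    refine sum_congr rfl fun u _ => sum_congr rfl fun w _ => ?_
    ring
  rw [sum_congr rfl fun k _ => sum_congr rfl fun k' _ => e1 k k']
  rw [sum_congr rfl fun k _ => sum_comm, sum_comm]
  refine sum_congr rfl fun u _ => ?_
  rw [sum_congr rfl fun k _ => sum_comm, sum_comm]
  refine sum_congr rfl fun w _ => ?_
  rw [sum_comm]

theorem local_field [Infinite F] [CharP F 2] {ι : Type} [Fintype ι] (n d : ℕ) (A B : ι → Finset β)
    (hAB : ∀ i, (A i ∪ B i).card = n) (hd : ∀ i, (A i \ B i).card = d)
    (h2 : ∀ i, (A i ∩ B i).card = 2)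
    (hcond : ∀ i j k, i ≠ j → ¬ (A i ∩ B j ⊆ A k ∩ B k))
    (Y : Finset β) (hY : Y.card = n) (ρ : β → ℕ) (hPY : ∀ i, A i ∩ B i ⊆ Y)
    (hρ : ∀ i, ∀ x ∈ A i \ Y, ∀ y ∈ B i \ Y, ρ x < ρ y) :
    Fintype.card ι + s n d ≤ n.choose d := by
  classical
  let key : ι → WithTop ℕ := fun i => (B i \ Y).inf (fun y => (ρ y : WithTop ℕ))
  let ordι : LinearOrder ι := LinearOrder.lift'
    (fun i => toLex (key i, (Fintype.equivFin ι) i)) (by
      intro i j h
      have h1 := congrArg (fun p => (ofLex p).2) h
      exact (Fintype.equivFin ι).injective h1)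
  have hkey : ∀ i j : ι, i < j → key i ≤ key j := by
    intro i j hij
    have h1 : toLex (key i, (Fintype.equivFin ι) i) < toLex (key j, (Fintype.equivFin ι) j) := hij
    rw [Prod.Lex.lt_iff] at h1
    rcases h1 with h1 | h1
    · exact h1.le
    · exact h1.1.le
  obtain ⟨f, hf⟩ := exists_inj (F := F) (Y ∪ univ.biUnion (fun i => A i ∪ B i))
  let ℓ : Fin n → β → F := fun k x => f x ^ (k : ℕ)
  have hℓ : ∀ i, ∀ c : Fin n → F, (∀ x ∈ A i ∪ B i, ∑ l, c l * ℓ l x = 0) → c = 0 := by
    intro i c hc
    refine moment n f (A i ∪ B i) (hAB i) ?_ c hc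
    intro x hx y hy h
    exact hf x (mem_union_right _ (mem_biUnion.2 ⟨i, mem_univ i, hx⟩)) y
      (mem_union_right _ (mem_biUnion.2 ⟨i, mem_univ i, hy⟩)) h
  obtain ⟨c, hc⟩ := dual n (Fintype.card_fin n) Y hY ℓ (fun c hc =>
    moment n f Y hY (fun x hx y hy h => hf x (mem_union_left _ hx) y (mem_union_left _ hy) h) c hc)
  let lam : β → β → F := fun u x => ∑ k, c u k * ℓ k x
  have hlam : ∀ u ∈ Y, ∀ x ∈ Y, lam u x = if u = x then 1 else 0 := hc
  obtain ⟨r, hr1, hr2⟩ : ∃ r : β → β → Prop, (∀ p q, p ≠ q → r p q ∨ r q p) ∧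
      (∀ p q, r p q → ¬ r q p) := by
    refine ⟨WellOrderingRel, fun p q hpq => ?_, fun p q h h' => ?_⟩
    · rcases trichotomous_of (WellOrderingRel : β → β → Prop) p q with h | h | h
      · exact Or.inl h
      · exact absurd h hpq
      · exact Or.inr h
    · exact asymm_of (WellOrderingRel : β → β → Prop) h h'
  let G : β → β → F := fun u w => if adj (fun k => A k ∩ B k) u w then 1 else 0
  let t0 : β → β → F := fun u w => if r u w then G u w else 0
  have hGs : ∀ u w, G u w = G w u := by
    intro u w
    simp only [G]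
    by_cases h : adj (fun k => A k ∩ B k) u w
    · rw [if_pos h, if_pos ((adj_symm _ _ _).1 h)]
    · rw [if_neg h, if_neg (fun h' => h ((adj_symm _ _ _).2 h'))]
  have hG0 : ∀ u, G u u = 0 := by
    intro u
    simp only [G]
    rw [if_neg]
    intro h
    exact h.1 rfl
  have hth : ∀ v w, t0 v w + t0 w v = G v w := by
    intro v w
    simp only [t0]
    by_cases hvw : v = w
    · subst hvw
      rw [hG0]
      simp
    · rcases hr1 v w hvw with h | h
      · rw [if_pos h, if_neg (hr2 v w h), add_zero]
      · rw [if_pos h, if_neg (hr2 w v h), zero_add, hGs]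
  let t : Fin n → Fin n → F := fun k k' => ∑ u ∈ Y, ∑ w ∈ Y, t0 u w * (c u k * c w k')
  have hh : ∀ x y, gg ℓ t x y + gg ℓ t y x = ∑ u ∈ Y, ∑ w ∈ Y, G u w * (lam u x * lam w y) := by
    intro x y
    have e1 := gg_double n ℓ Y t0 c x y
    have e2 := gg_double n ℓ Y t0 c y x
    have e3 : gg ℓ t y x = ∑ u ∈ Y, ∑ w ∈ Y, t0 w u * (lam u x * lam w y) := by
      refine e2.trans ?_
      rw [sum_comm]
      refine sum_congr rfl fun u _ => sum_congr rfl fun w _ => ?_
      rw [mul_comm (∑ k, c w k * ℓ k y)]
    have e4 : gg ℓ t x y = ∑ u ∈ Y, ∑ w ∈ Y, t0 u w * (lam u x * lam w y) := e1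
    rw [e3, e4, ← sum_add_distrib]
    refine sum_congr rfl fun u _ => ?_
    rw [← sum_add_distrib]
    refine sum_congr rfl fun w _ => ?_
    rw [← add_mul, hth]
  have hh1 : ∀ x y, y ∈ Y → gg ℓ t x y + gg ℓ t y x = ∑ u ∈ Y, G u y * lam u x := by
    intro x y hy
    rw [hh]
    refine sum_congr rfl fun u _ => ?_
    rw [sum_eq_single y]
    · rw [hlam y hy y hy, if_pos rfl, mul_one]
    · intro w hw hwy
      rw [hlam w hw y hy, if_neg hwy, mul_zero, mul_zero]
    · intro h
      exact absurd hy h
  have hh2 : ∀ x y, x ∈ Y → y ∈ Y → gg ℓ t x y + gg ℓ t y x = G x y := by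
    intro x y hx hy
    rw [hh1 x y hy, sum_eq_single x]
    · rw [hlam x hx x hx, if_pos rfl, mul_one]
    · intro u hu hux
      rw [hlam u hu x hx, if_neg hux, mul_zero]
    · intro h
      exact absurd hx h
  have hh3 : ∀ x y, y ∈ Y → (∀ k, y ∉ A k ∩ B k) → gg ℓ t x y + gg ℓ t y x = 0 := by
    intro x y hy hk
    rw [hh1 x y hy]
    apply sum_eq_zero
    intro u _
    simp only [G]
    rw [if_neg, zero_mul]
    rintro ⟨_, k, hk'⟩
    exact hk k (hk' (by simp))
  refine construct2 n d (Fintype.card_fin n) A B hAB hd h2 ℓ t hℓ ?_ ?_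
  · intro i p q hP hpq
    have hp : p ∈ Y := hPY i (by rw [hP]; simp)
    have hq : q ∈ Y := hPY i (by rw [hP]; simp)
    rw [hh2 p q hp hq]
    simp only [G]
    rw [if_pos ⟨hpq, i, hP.ge⟩]
    exact one_ne_zero
  · intro i j hij x hx y hy hxy hsub
    have hne : i ≠ j := ne_of_lt hij
    have hout : ∀ z ∈ A i ∩ B j, z ∈ Y := by
      intro z hz
      by_contra hzY
      rw [mem_inter] at hz
      have h3 : key j ≤ (ρ z : WithTop ℕ) := Finset.inf_le (mem_sdiff.2 ⟨hz.2, hzY⟩)
      have h4 : (ρ z : WithTop ℕ) < key i := by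
        rw [Finset.lt_inf_iff (WithTop.coe_lt_top _)]
        intro w hw
        exact WithTop.coe_lt_coe.2 (hρ i z (mem_sdiff.2 ⟨hz.1, hzY⟩) w hw)
      exact absurd (hkey i j hij) (not_le.2 (lt_of_le_of_lt h3 h4))
    have hsingle : ∀ x y, x ∉ Y → A i ∩ B j ⊆ {x, y} → gg ℓ t x y + gg ℓ t y x = 0 := by
      intro x y hx hsub
      have hsub' : A i ∩ B j ⊆ {y} := by
        intro z hz
        have h5 := hsub hz
        rw [mem_insert] at h5
        rcases h5 with h5 | h5
        · exact absurd (h5 ▸ hout z hz) hx
        · exact h5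
      by_cases hy : y ∈ Y
      · by_cases hk : ∀ k, y ∉ A k ∩ B k
        · exact hh3 x y hy hk
        · push Not at hk
          obtain ⟨k, hk⟩ := hk
          exact absurd (hsub'.trans (singleton_subset_iff.2 hk)) (hcond i j k hne)
      · exfalso
        apply hcond i j i hne
        intro z hz
        have h5 := mem_singleton.1 (hsub' hz)
        exact absurd (h5 ▸ hout z hz) hy
    by_cases hxY : x ∈ Y
    · by_cases hyY : y ∈ Y
      · rw [hh2 x y hxY hyY]
        simp only [G]
        rw [if_neg]
        rintro ⟨_, k, hk⟩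
        exact hcond i j k hne (hsub.trans hk)
      · rw [add_comm]
        exact hsingle y x hyY (by rw [pair_comm]; exact hsub)
    · exact hsingle x y hxY hsub

end loc

end Pool.Agent.H374.TF
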