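import Mathlib
import Pool.Agent.H374.TF6

set_option autoImplicit false
set_option linter.unusedVariables false
set_option linter.unusedSectionVars false

namespace Pool.Agent.H374.TF

open Finset

section uni

variable {F : Type} [Field F] {β : Type} [DecidableEq β]

theorem assemble2 [Infinite F] [CharP F 2] {ι : Type} [Fintype ι] [LinearOrder ι] [Nonempty ι]
    (n d : ℕ) (A B : ι → Finset β)
    (hAB : ∀ i, (A i ∪ B i).card = n) (hd : ∀ i, (A i \ B i).card = d)
    (h2 : ∀ i, (A i ∩ B i).card = 2)
    {V : Type} [Fintype V] [DecidableEq V] (hV : Fintype.card V ≤ n) (u : V → β → F)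
    (th : V → V → F)
    (hu : ∀ i, ∀ c : V → F, (∀ x ∈ A i ∪ B i, ∑ v, c v * u v x = 0) → c = 0)
    (hg1 : ∀ i p q, A i ∩ B i = {p, q} → p ≠ q → gg u th p q + gg u th q p ≠ 0)
    (hvan : ∀ i j, i < j → ∀ x ∈ A i, ∀ y ∈ A i, x ≠ y → A i ∩ B j ⊆ {x, y} →
      gg u th x y + gg u th y x = 0) :
    Fintype.card ι + s n d ≤ n.choose d := by
  obtain ⟨ℓ, e, he, hl⟩ := extend (F := F) (fun i => A i ∪ B i) n hAB u
    (fun i => (li_iff _ _).2 (hu i)) n hV le_rfl
  have hgg : ∀ x y, gg ℓ (fun l m => ∑ v, ∑ v', if e v = l then (if e v' = m then th v v' else 0)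
      else 0) x y = gg u th x y := by
    intro x y
    unfold gg
    simp only [sum_mul, ite_mul, zero_mul]
    have e1 : ∀ l m : Fin n, (∑ v, ∑ v', if e v = l then (if e v' = m then
        th v v' * (ℓ l x * ℓ m y) else 0) else 0) = ∑ v, if e v = l then (∑ v', if e v' = m then
          th v v' * (ℓ l x * ℓ m y) else 0) else 0 := by
      intro l m
      refine sum_congr rfl fun v _ => ?_
      split_ifs
      · rfl
      · simp
    calc _ = ∑ l, ∑ m, ∑ v, if e v = l then (∑ v', if e v' = m then
          th v v' * (ℓ l x * ℓ m y) else 0) else 0 :=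
          sum_congr rfl fun l _ => sum_congr rfl fun m _ => e1 l m
      _ = ∑ m, ∑ l, ∑ v, if e v = l then (∑ v', if e v' = m then
          th v v' * (ℓ l x * ℓ m y) else 0) else 0 := sum_comm
      _ = ∑ m, ∑ v, ∑ v', if e v' = m then th v v' * (ℓ (e v) x * ℓ m y) else 0 := by
          refine sum_congr rfl fun m _ => ?_
          rw [sum_comm]
          refine sum_congr rfl fun v _ => ?_
          rw [sum_ite_eq, if_pos (mem_univ _)]
      _ = ∑ v, ∑ v', th v v' * (ℓ (e v) x * ℓ (e v') y) := by
          rw [sum_comm]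
          refine sum_congr rfl fun v _ => ?_
          rw [sum_comm]
          refine sum_congr rfl fun v' _ => ?_
          rw [sum_ite_eq, if_pos (mem_univ _)]
      _ = _ := by
          simp only [he]
  exact construct2 n d (Fintype.card_fin n) A B hAB hd h2 ℓ _ (fun i => (li_iff _ _).1 (hl i))
    (fun i p q h1 h2 => by rw [hgg, hgg]; exact hg1 i p q h1 h2)
    (fun i j h1 x hx y hy h2 h3 => by rw [hgg, hgg]; exact hvan i j h1 x hx y hy h2 h3)


/-- coefficient vectors whose combination vanishes on `Z` -/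
def Kr {V : Type} [Fintype V] (u : V → β → F) (Z : Finset β) : Submodule F (V → F) where
  carrier := {c | ∀ x ∈ Z, ∑ v, c v * u v x = 0}
  zero_mem' := by
    intro x _
    simp
  add_mem' := by
    intro c c' h h' x hx
    simp only [Pi.add_apply, add_mul, sum_add_distrib]
    rw [h x hx, h' x hx, add_zero]
  smul_mem' := by
    intro r c h x hx
    simp only [Pi.smul_apply, smul_eq_mul, mul_assoc]
    rw [← mul_sum, h x hx, mul_zero]

theorem mem_Kr {V : Type} [Fintype V] (u : V → β → F) (Z : Finset β) (c : V → F) :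
    c ∈ Kr u Z ↔ ∀ x ∈ Z, ∑ v, c v * u v x = 0 := Iff.rfl

theorem avoid [Infinite F] {ι V : Type} [Finite ι] [Fintype V] [DecidableEq V]
    (c : ι → V → F) (hc : ∀ i, c i ≠ 0) : ∃ w : V → F, ∀ i, ∑ v, c i v * w v ≠ 0 := by
  classical
  by_contra hcon
  push Not at hcon
  obtain ⟨i, hi⟩ := Subspace.exists_eq_top_of_iUnion_eq_univ (k := F) (E := V → F)
    (p := fun i => Kr (fun v (_ : Unit) => c i v) {()}) (by
      rw [Set.eq_univ_iff_forall]
      intro w
      obtain ⟨i, hi⟩ := hcon w
      refine Set.mem_iUnion.2 ⟨i, ?_⟩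
      intro x _
      rw [← hi]
      exact sum_congr rfl fun v _ => mul_comm _ _)
  apply hc i
  funext v
  have h1 : (Pi.single v 1 : V → F) ∈ Kr (fun v (_ : Unit) => c i v) {()} := by
    rw [hi]
    trivial
  have h2 := h1 () (mem_singleton_self _)
  simpa [Pi.single_apply] using h2

theorem stage_aux [Infinite F] {ι V : Type} [Finite ι] [Fintype V] [DecidableEq V]
    (X : ι → Finset β) (Y : Finset β) (u : V → β → F)
    (hk : ∀ i, Module.finrank F (Kr u (X i ∩ Y)) ≤ (X i \ Y).card) (Z : Finset β)
    (hZ : Disjoint Z Y) :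
    ∃ u' : V → β → F, (∀ v, ∀ x ∈ Y, u' v x = u v x) ∧
      ∀ i, Module.finrank F (Kr u' (X i ∩ (Y ∪ Z))) + (X i ∩ Z).card ≤ (X i \ Y).card ∨
        Kr u' (X i ∩ (Y ∪ Z)) = ⊥ := by
  classical
  induction Z using Finset.induction_on with
  | empty =>
    refine ⟨u, fun _ _ _ => rfl, fun i => Or.inl ?_⟩
    rw [union_empty, inter_empty, card_empty, add_zero]
    exact hk i
  | insert z Z hz ih =>
    rw [disjoint_insert_left] at hZ
    obtain ⟨u', hu1, hu2⟩ := ih hZ.2
    have hex : ∀ i : {i // Kr u' (X i ∩ (Y ∪ Z)) ≠ ⊥},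
        ∃ c ∈ Kr u' (X i.1 ∩ (Y ∪ Z)), c ≠ 0 := by
      intro i
      exact (Submodule.ne_bot_iff _).1 i.2
    choose c hc1 hc2 using hex
    obtain ⟨w, hw⟩ := avoid c hc2
    let u'' : V → β → F := fun v x => if x = z then w v else u' v x
    have hsame : ∀ x, x ≠ z → ∀ v, u'' v x = u' v x := by
      intro x hx v
      simp only [u'']
      rw [if_neg hx]
    have hzz : ∀ v, u'' v z = w v := by
      intro v
      simp only [u'', if_true]
    refine ⟨u'', ?_, ?_⟩
    · intro v x hx
      have : x ≠ z := fun h => hZ.1 (h ▸ hx)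
      rw [hsame x this v, hu1 v x hx]
    · intro i
      have hle : Kr u'' (X i ∩ (Y ∪ insert z Z)) ≤ Kr u' (X i ∩ (Y ∪ Z)) := by
        intro c' hc' x hx
        rw [mem_inter, mem_union] at hx
        have hxz : x ≠ z := by
          rintro rfl
          rcases hx.2 with h | h
          · exact hZ.1 h
          · exact hz h
        have h1 := hc' x (by
          rw [mem_inter, mem_union, mem_insert]
          exact ⟨hx.1, hx.2.imp id Or.inr⟩)
        rw [← h1]
        exact sum_congr rfl fun v _ => by rw [hsame x hxz v]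
      by_cases hbot : Kr u' (X i ∩ (Y ∪ Z)) = ⊥
      · right
        rw [hbot] at hle
        exact le_bot_iff.1 hle
      · rcases hu2 i with h | h
        · left
          by_cases hzX : z ∈ X i
          · have hlt : Kr u'' (X i ∩ (Y ∪ insert z Z)) < Kr u' (X i ∩ (Y ∪ Z)) := by
              refine lt_of_le_of_ne hle ?_
              intro heq
              have h3 := hc1 ⟨i, hbot⟩
              rw [← heq] at h3
              have h4 := h3 z (by
                rw [mem_inter, mem_union, mem_insert]
                exact ⟨hzX, Or.inr (Or.inl rfl)⟩)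
              apply hw ⟨i, hbot⟩
              rw [← h4]
              exact sum_congr rfl fun v _ => by rw [hzz v]
            have h5 := Submodule.finrank_lt_finrank_of_lt hlt
            have h6 : (X i ∩ insert z Z).card = (X i ∩ Z).card + 1 := by
              rw [inter_insert_of_mem hzX, card_insert_of_notMem]
              intro h
              exact hz (mem_inter.1 h).2
            omega
          · have h5 := Submodule.finrank_mono hle
            rw [inter_insert_of_notMem hzX]
            omega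
        · exact absurd h hbot

theorem stage [Infinite F] {ι V : Type} [Fintype ι] [Fintype V] [DecidableEq V]
    (X : ι → Finset β) (Y : Finset β) (u : V → β → F)
    (hk : ∀ i, Module.finrank F (Kr u (X i ∩ Y)) ≤ (X i \ Y).card) :
    ∃ u' : V → β → F, (∀ v, ∀ x ∈ Y, u' v x = u v x) ∧
      ∀ i, ∀ c : V → F, (∀ x ∈ X i, ∑ v, c v * u' v x = 0) → c = 0 := by
  classical
  obtain ⟨u', h1, h2⟩ := stage_aux X Y u hk (univ.biUnion X \ Y) sdiff_disjoint
  refine ⟨u', h1, fun i c hc => ?_⟩
  have e1 : X i ∩ (Y ∪ (univ.biUnion X \ Y)) = X i := by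
    apply inter_eq_left.2
    intro x hx
    rw [mem_union, mem_sdiff, mem_biUnion]
    by_cases hY : x ∈ Y
    · exact Or.inl hY
    · exact Or.inr ⟨⟨i, mem_univ i, hx⟩, hY⟩
  have e2 : X i ∩ (univ.biUnion X \ Y) = X i \ Y := by
    ext x
    rw [mem_inter, mem_sdiff, mem_sdiff, mem_biUnion]
    constructor
    · rintro ⟨h, _, h'⟩
      exact ⟨h, h'⟩
    · rintro ⟨h, h'⟩
      exact ⟨h, ⟨i, mem_univ i, h⟩, h'⟩
  have h3 := h2 i
  rw [e1, e2] at h3
  have h4 : Kr u' (X i) = ⊥ := by
    rcases h3 with h3 | h3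
    · apply Submodule.finrank_eq_zero.1
      omega
    · exact h3
  have h5 : c ∈ Kr u' (X i) := hc
  rw [h4] at h5
  exact (Submodule.mem_bot F).1 h5


theorem uni_field [Infinite F] [CharP F 2] {ι : Type} [Fintype ι] [LinearOrder ι]
    [Nonempty ι] (n d m : ℕ) (A B : ι → Finset β)
    (hAB : ∀ i, (A i ∪ B i).card = n) (hd : ∀ i, (A i \ B i).card = d)
    (h2 : ∀ i, (A i ∩ B i).card = 2)
    (Y : Finset β) (hPY : ∀ i, A i ∩ B i ⊆ Y)
    (hmax : ∀ K : Finset ι, (∀ k ∈ K, ∀ l ∈ K, k ≠ l → Disjoint (A k ∩ B k) (A l ∩ B l)) →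
      K.card ≤ m)
    (hfull : ∀ i, ∃ K : Finset ι, K.card = m ∧
      (∀ k ∈ K, ∀ l ∈ K, k ≠ l → Disjoint (A k ∩ B k) (A l ∩ B l)) ∧
      (K.biUnion (fun k => A k ∩ B k) \ (A i ∪ B i)).card ≤ ((A i ∪ B i) \ Y).card)
    (hcond : ∀ i j k, i < j → ¬ (A i ∩ B j ⊆ A k ∩ B k))
    (hout : ∀ i j, i < j → A i ∩ B j ⊆ Y) :
    Fintype.card ι + s n d ≤ n.choose d := by
  classical
  choose K hKm hKd hKX using hfull
  obtain ⟨G, hGs, hGa, hGd⟩ := weights (F := F) (fun k => A k ∩ B k) h2 K hKd
  have hG0 : ∀ x, G x x = 0 := by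
    intro x
    by_contra h
    exact ((hGa x x).1 h).1 rfl
  have hVY : ∀ i, (K i).biUnion (fun k => A k ∩ B k) ⊆ Y := by
    intro i x hx
    obtain ⟨k, hk, hx⟩ := mem_biUnion.1 hx
    exact hPY k hx
  have hVc : ∀ i, ((K i).biUnion (fun k => A k ∩ B k)).card = 2 * m := by
    intro i
    rw [card_biUnion (fun k hk l hl hne => hKd i k hk l hl hne), sum_congr rfl (g := fun _ => 2),
      sum_const, smul_eq_mul, hKm i, mul_comm]
    intro k _
    exact h2 k
  have hS : ∀ i x y, G x y = ∑ v : {x // x ∈ (K i).biUnion (fun k => A k ∩ B k)},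
      ∑ w : {x // x ∈ (K i).biUnion (fun k => A k ∩ B k)}, G x v.1 *
        (Matrix.of fun a b : {x // x ∈ (K i).biUnion (fun k => A k ∩ B k)} => G a.1 b.1)⁻¹ v w *
          G w.1 y := by
    intro i
    apply schur G hGs hG0 (fun v : {x // x ∈ (K i).biUnion (fun k => A k ∩ B k)} => v.1) (hGd i)
    intro x y hxy hx hy σ hσ hall
    have hinj : Function.Injective
        (Sum.elim (fun v : {x // x ∈ (K i).biUnion (fun k => A k ∩ B k)} => v.1) ![x, y]) := by
      rintro (a | a) (b | b) h
      · simp only [Sum.elim_inl] at h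
        rw [Subtype.ext h]
      · exfalso
        fin_cases b
        · exact hx a h
        · exact hy a h
      · exfalso
        fin_cases a
        · exact hx b h.symm
        · exact hy b h.symm
      · fin_cases a <;> fin_cases b
        · rfl
        · exact absurd h hxy
        · exact absurd h hxy.symm
        · rfl
    obtain ⟨K', h1, h3⟩ := many (fun k => A k ∩ B k) h2 _ hinj σ hσ
      (fun a => (hGa _ _).1 (hall a))
    have h4 := hmax K' h3
    rw [Fintype.card_sum, Fintype.card_coe, hVc, Fintype.card_fin] at h1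
    omega
  obtain ⟨i0⟩ := (inferInstance : Nonempty ι)
  -- a combination of the columns vanishing on the points of the `i`-th matching is trivial
  have hinj : ∀ i (c : {x // x ∈ (K i0).biUnion (fun k => A k ∩ B k)} → F),
      (∀ x ∈ (K i).biUnion (fun k => A k ∩ B k), ∑ v, c v * G x v.1 = 0) → c = 0 := by
    intro i c hc
    apply Matrix.eq_zero_of_mulVec_eq_zero (hGd i0)
    funext v1
    rw [Matrix.mulVec, dotProduct, Pi.zero_apply]
    simp only [Matrix.of_apply]
    have e1 : ∀ v : {x // x ∈ (K i0).biUnion (fun k => A k ∩ B k)}, G v1.1 v.1 * c v =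
        ∑ a : {x // x ∈ (K i).biUnion (fun k => A k ∩ B k)},
        ∑ b : {x // x ∈ (K i).biUnion (fun k => A k ∩ B k)}, G v1.1 a.1 *
        (Matrix.of fun a b : {x // x ∈ (K i).biUnion (fun k => A k ∩ B k)} => G a.1 b.1)⁻¹ a b *
          (c v * G b.1 v.1) := by
      intro v
      rw [hS i v1.1 v.1, sum_mul]
      refine sum_congr rfl fun a _ => ?_
      rw [sum_mul]
      refine sum_congr rfl fun b _ => ?_
      ring
    rw [sum_congr rfl fun v _ => e1 v, sum_comm]
    apply sum_eq_zero
    intro a _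
    rw [sum_comm]
    apply sum_eq_zero
    intro b _
    rw [← mul_sum, hc b.1 b.2, mul_zero]
  have hk : ∀ i, Module.finrank F (Kr (fun (v : {x // x ∈ (K i0).biUnion (fun k => A k ∩ B k)}) x =>
      G x v.1) ((A i ∪ B i) ∩ Y)) ≤ ((A i ∪ B i) \ Y).card := by
    intro i
    refine le_trans ?_ (hKX i)
    let T : Finset β := (K i).biUnion (fun k => A k ∩ B k) \ (A i ∪ B i)
    let Φ : Kr (fun (v : {x // x ∈ (K i0).biUnion (fun k => A k ∩ B k)}) x =>
      G x v.1) ((A i ∪ B i) ∩ Y) →ₗ[F] ({x // x ∈ T} → F) :=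
      { toFun := fun c x => ∑ v, c.1 v * G x.1 v.1
        map_add' := by
          intro c c'
          funext x
          simp only [Submodule.coe_add, Pi.add_apply, add_mul, sum_add_distrib]
        map_smul' := by
          intro r c
          funext x
          simp only [Submodule.coe_smul, Pi.smul_apply, smul_eq_mul, mul_sum, RingHom.id_apply,
            mul_assoc] }
    have hΦ : Function.Injective Φ := by
      rw [injective_iff_map_eq_zero]
      intro c hc
      apply Subtype.ext
      apply hinj i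
      intro x hx
      by_cases hxX : x ∈ A i ∪ B i
      · exact c.2 x (mem_inter.2 ⟨hxX, hVY i hx⟩)
      · exact congrFun hc ⟨x, mem_sdiff.2 ⟨hx, hxX⟩⟩
    have := LinearMap.finrank_le_finrank_of_injective hΦ
    rw [Module.finrank_fintype_fun_eq_card, Fintype.card_coe] at this
    exact this
  obtain ⟨u', hu1, hu2⟩ := stage (fun i => A i ∪ B i) Y _ hk
  obtain ⟨r, hr1, hr2⟩ : ∃ r : {x // x ∈ (K i0).biUnion (fun k => A k ∩ B k)} →
      {x // x ∈ (K i0).biUnion (fun k => A k ∩ B k)} → Prop, (∀ p q, p ≠ q → r p q ∨ r q p) ∧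
      (∀ p q, r p q → ¬ r q p) := by
    refine ⟨WellOrderingRel, fun p q hpq => ?_, fun p q h h' => ?_⟩
    · rcases trichotomous_of (WellOrderingRel : {x // x ∈ (K i0).biUnion (fun k => A k ∩ B k)} →
          {x // x ∈ (K i0).biUnion (fun k => A k ∩ B k)} → Prop) p q with h | h | h
      · exact Or.inl h
      · exact absurd h hpq
      · exact Or.inr h
    · exact asymm_of (WellOrderingRel : {x // x ∈ (K i0).biUnion (fun k => A k ∩ B k)} →
        {x // x ∈ (K i0).biUnion (fun k => A k ∩ B k)} → Prop) h h'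
  obtain ⟨H, hH⟩ : ∃ H : Matrix {x // x ∈ (K i0).biUnion (fun k => A k ∩ B k)}
    {x // x ∈ (K i0).biUnion (fun k => A k ∩ B k)} F, H = (Matrix.of fun a b :
      {x // x ∈ (K i0).biUnion (fun k => A k ∩ B k)} => G a.1 b.1)⁻¹ := ⟨_, rfl⟩
  have hHs : ∀ a b, H a b = H b a := by
    intro a b
    rw [hH]
    exact inv_symm _ (fun a b => hGs a.1 b.1) (hGd i0) a b
  have hHd : ∀ a, H a a = 0 := by
    intro a
    rw [hH]
    exact inv_diag _ (fun a b => hGs a.1 b.1) (fun a => hG0 a.1) (hGd i0) a
  have hth : ∀ v w, (if r v w then H v w else 0) + (if r w v then H w v else 0) = H v w := by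
    intro v w
    by_cases hvw : v = w
    · subst hvw
      rw [hHd]
      simp
    · rcases hr1 v w hvw with h | h
      · rw [if_pos h, if_neg (hr2 v w h), add_zero]
      · rw [if_pos h, if_neg (hr2 w v h), zero_add, hHs]
  have hh : ∀ x y, gg u' (fun v w => if r v w then H v w else 0) x y +
      gg u' (fun v w => if r v w then H v w else 0) y x =
        ∑ v, ∑ w, H v w * (u' v x * u' w y) := by
    intro x y
    have e1 : gg u' (fun v w => if r v w then H v w else 0) y x =
        ∑ v, ∑ w, (if r w v then H w v else 0) * (u' v x * u' w y) := by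
      unfold gg
      rw [sum_comm]
      refine sum_congr rfl fun v _ => sum_congr rfl fun w _ => ?_
      rw [mul_comm (u' w y)]
    rw [e1]
    unfold gg
    rw [← sum_add_distrib]
    refine sum_congr rfl fun v _ => ?_
    rw [← sum_add_distrib]
    refine sum_congr rfl fun w _ => ?_
    rw [← add_mul, hth]
  have hh2 : ∀ x y, x ∈ Y → y ∈ Y → gg u' (fun v w => if r v w then H v w else 0) x y +
      gg u' (fun v w => if r v w then H v w else 0) y x = G x y := by
    intro x y hx hy
    rw [hh, hS i0 x y]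
    refine sum_congr rfl fun v _ => sum_congr rfl fun w _ => ?_
    rw [hu1 v x hx, hu1 w y hy, ← hH, hGs w.1 y]
    ring
  have hh3 : ∀ x y, y ∈ Y → (∀ k, y ∉ A k ∩ B k) →
      gg u' (fun v w => if r v w then H v w else 0) x y +
      gg u' (fun v w => if r v w then H v w else 0) y x = 0 := by
    intro x y hy hk
    rw [hh]
    refine sum_eq_zero fun v _ => sum_eq_zero fun w _ => ?_
    have : G y w.1 = 0 := by
      by_contra h
      obtain ⟨_, k, hk'⟩ := (hGa y w.1).1 h
      exact hk k (hk' (by simp))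
    rw [hu1 w y hy, this, mul_zero, mul_zero]
  refine assemble2 (F := F) n d A B hAB hd h2
    (V := {x // x ∈ (K i0).biUnion (fun k => A k ∩ B k)}) ?_ u'
    (fun v w => if r v w then H v w else 0) hu2 ?_ ?_
  · rw [Fintype.card_coe]
    have h3 := card_sdiff_add_card_inter ((K i0).biUnion (fun k => A k ∩ B k)) (A i0 ∪ B i0)
    have h4 := card_sdiff_add_card_inter (A i0 ∪ B i0) Y
    have h5 : ((K i0).biUnion (fun k => A k ∩ B k) ∩ (A i0 ∪ B i0)).card ≤
        ((A i0 ∪ B i0) ∩ Y).card := by
      apply card_le_card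
      intro x hx
      rw [mem_inter] at hx
      exact mem_inter.2 ⟨hx.2, hVY i0 hx.1⟩
    have h6 := hKX i0
    have h7 := hAB i0
    omega
  · intro i p q hP hpq
    have hp : p ∈ Y := hPY i (by rw [hP]; simp)
    have hq : q ∈ Y := hPY i (by rw [hP]; simp)
    rw [hh2 p q hp hq]
    exact (hGa p q).2 ⟨hpq, i, hP.ge⟩
  · intro i j hij x hx y hy hxy hsub
    have hsingle : ∀ x y, x ∉ Y → A i ∩ B j ⊆ {x, y} →
        gg u' (fun v w => if r v w then H v w else 0) x y +
        gg u' (fun v w => if r v w then H v w else 0) y x = 0 := by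
      intro x y hx hsub
      have hsub' : A i ∩ B j ⊆ {y} := by
        intro z hz
        have h5 := hsub hz
        rw [mem_insert] at h5
        rcases h5 with h5 | h5
        · exact absurd (h5 ▸ hout i j hij hz) hx
        · exact h5
      by_cases hy : y ∈ Y
      · by_cases hk : ∀ k, y ∉ A k ∩ B k
        · exact hh3 x y hy hk
        · push Not at hk
          obtain ⟨k, hk⟩ := hk
          exact absurd (hsub'.trans (singleton_subset_iff.2 hk)) (hcond i j k hij)
      · exfalso
        apply hcond i j i hij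
        intro z hz
        have h5 := mem_singleton.1 (hsub' hz)
        exact absurd (h5 ▸ hout i j hij hz) hy
    by_cases hxY : x ∈ Y
    · by_cases hyY : y ∈ Y
      · rw [hh2 x y hxY hyY]
        by_contra h
        obtain ⟨_, k, hk⟩ := (hGa x y).1 h
        exact hcond i j k hij (hsub.trans hk)
      · rw [add_comm]
        exact hsingle y x hyY (by rw [pair_comm]; exact hsub)
    · exact hsingle x y hxY hsub

end uni

end Pool.Agent.H374.TF
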