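import Mathlib
import Pool.Agent.H374.TF8

set_option autoImplicit false

namespace Pool.Agent.H374.TF.Small

open Finset

/-- `S(a,b) = ∑_{i=2}^{a} 2^{i-2} (a+b-2i choose a-i)` -/
def S (a b : ℕ) : ℕ := ∑ i ∈ Finset.Icc 2 a, 2 ^ (i - 2) * (a + b - 2 * i).choose (a - i)

/-- the sizes prescribed for an `(a,b)`-system -/
def Sizes (a b : ℕ) {ι β : Type} [DecidableEq β] (A B : ι → Finset β) : Prop :=
  ∀ i, (A i).card = a ∧ (B i).card = b ∧ (A i ∩ B i).card = 2

/-- the pairs `(A i, B i)` form an `(a,b)`-system -/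
def IsSystem (a b : ℕ) {ι β : Type} [DecidableEq β] (A B : ι → Finset β) : Prop :=
  Sizes a b A B ∧ ∀ i j k, i ≠ j → ¬ A i ∩ B j ⊆ A k ∩ B k

theorem part2 (a b : ℕ) (ha : 2 ≤ a) (hab : a ≤ b) (ι : Type) [Fintype ι]
    (β : Type) [DecidableEq β] (A B : ι → Finset β) (hs : IsSystem a b A B)
    (Y : Finset β) (hY : Y.card = a + b - 2) (hPY : ∀ i, A i ∩ B i ⊆ Y)
    (ρ : β → ℕ) (hρ : ∀ i, ∀ x ∈ A i \ Y, ∀ y ∈ B i \ Y, ρ x < ρ y) :
    Fintype.card ι ≤ S a b := by
  have hn : ∀ i, (A i ∪ B i).card = a + b - 2 := by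
    intro i
    have := card_union_add_card_inter (A i) (B i)
    rw [(hs.1 i).1, (hs.1 i).2.1, (hs.1 i).2.2] at this
    omega
  have hd : ∀ i, (A i \ B i).card = a - 2 := by
    intro i
    have := card_sdiff_add_card_inter (A i) (B i)
    rw [(hs.1 i).1, (hs.1 i).2.2] at this
    omega
  have h1 := H374.TF.local_field (F := AlgebraicClosure (ZMod 2)) (a + b - 2) (a - 2) A B hn hd
    (fun i => (hs.1 i).2.2) hs.2 Y hY ρ hPY hρ
  have h2 := H374.TF.num a b ha hab
  unfold S
  omega

theorem part3 (a b : ℕ) (ha : 2 ≤ a) (hab : a ≤ b) (ι : Type) [Fintype ι]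
    (β : Type) [DecidableEq β] (A B : ι → Finset β) (hs : IsSystem a b A B)
    (X : Finset β) (hX : ∀ i, A i ∪ B i ⊆ X) (hXc : X.card = a + b - 1) :
    (a + b - 3) * Fintype.card ι ≤ (a + b - 1) * S a b := by
  classical
  have hz : ∀ z ∈ X, (univ.filter (fun i => z ∉ A i ∩ B i)).card ≤ S a b := by
    intro z hz
    have h1 := part2 a b ha hab {i : ι // z ∉ A i ∩ B i} β (fun i => A i.1) (fun i => B i.1)
      ⟨fun i => hs.1 i.1, fun i j k hij => hs.2 i.1 j.1 k.1 (fun h => hij (Subtype.ext h))⟩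
      (X.erase z) (by rw [card_erase_of_mem hz, hXc]; omega)
      (by
        intro i x hx
        rw [mem_erase]
        refine ⟨?_, hX i.1 (mem_union_left _ (mem_inter.1 hx).1)⟩
        rintro rfl
        exact i.2 hx)
      (fun _ => 0)
      (by
        intro i x hx y hy
        exfalso
        rw [mem_sdiff, mem_erase] at hx hy
        have hxz : x = z := by
          by_contra h
          exact hx.2 ⟨h, hX i.1 (mem_union_left _ hx.1)⟩
        have hyz : y = z := by
          by_contra h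
          exact hy.2 ⟨h, hX i.1 (mem_union_right _ hy.1)⟩
        apply i.2
        rw [mem_inter]
        exact ⟨hxz ▸ hx.1, hyz ▸ hy.1⟩)
    rw [Fintype.card_subtype] at h1
    exact h1
  have hi : ∀ i, (X.filter (fun z => z ∉ A i ∩ B i)).card = a + b - 3 := by
    intro i
    have h1 : X.filter (fun z => z ∉ A i ∩ B i) = X \ (A i ∩ B i) := by
      ext z
      rw [mem_filter, mem_sdiff]
    rw [h1, card_sdiff_of_subset, hXc, (hs.1 i).2.2]
    · omega
    · intro x hx
      exact hX i (mem_union_left _ (mem_inter.1 hx).1)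
  have h1 : ∑ z ∈ X, (univ.filter (fun i => z ∉ A i ∩ B i)).card =
      ∑ i : ι, (X.filter (fun z => z ∉ A i ∩ B i)).card :=
    sum_card_bipartiteAbove_eq_sum_card_bipartiteBelow (fun z i => z ∉ A i ∩ B i)
  have h2 : ∑ i : ι, (X.filter (fun z => z ∉ A i ∩ B i)).card =
      (a + b - 3) * Fintype.card ι := by
    rw [sum_congr rfl fun i _ => hi i, sum_const, card_univ, smul_eq_mul, mul_comm]
  have h3 : ∑ z ∈ X, (univ.filter (fun i => z ∉ A i ∩ B i)).card ≤ (a + b - 1) * S a b := by
    rw [← hXc, ← smul_eq_mul, ← sum_const]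
    exact sum_le_sum hz
  rw [← h2, ← h1]
  exact h3

theorem part4 (a b : ℕ) (ha : 2 ≤ a) (hab : a ≤ b) (ι : Type) [Fintype ι]
    (β : Type) [DecidableEq β] (A B : ι → Finset β) (hs : IsSystem a b A B)
    (X : Finset β) (hX : ∀ i, A i ∪ B i ⊆ X) (hXc : X.card = a + b) :
    ((a + b - 2) * (a + b - 3) - (a - 2) * (b - 2)) * Fintype.card ι ≤
      (a + b) * (a + b - 1) * S a b := by
  classical
  let good : β × β → ι → Prop := fun z i => z.1 ∉ A i ∩ B i ∧ z.2 ∉ A i ∩ B i ∧
    ¬ (z.1 ∈ B i ∧ z.2 ∈ A i)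
  have hz : ∀ z ∈ X.offDiag, (univ.filter (fun i => good z i)).card ≤ S a b := by
    rintro ⟨z, w⟩ hzw
    rw [mem_offDiag] at hzw
    obtain ⟨hz, hw, hne⟩ := hzw
    simp only at hz hw hne
    have hY : ∀ x ∈ X, x ∉ (X.erase z).erase w → x = z ∨ x = w := by
      intro x hx hx'
      by_contra hcon
      push Not at hcon
      exact hx' (mem_erase.2 ⟨hcon.2, mem_erase.2 ⟨hcon.1, hx⟩⟩)
    have h1 := part2 a b ha hab {i : ι // good (z, w) i} β (fun i => A i.1) (fun i => B i.1)
      ⟨fun i => hs.1 i.1, fun i j k hij => hs.2 i.1 j.1 k.1 (fun h => hij (Subtype.ext h))⟩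
      ((X.erase z).erase w)
      (by
        rw [card_erase_of_mem (mem_erase.2 ⟨hne.symm, hw⟩), card_erase_of_mem hz, hXc]
        omega)
      (by
        intro i x hx
        rw [mem_erase, mem_erase]
        refine ⟨?_, ?_, hX i.1 (mem_union_left _ (mem_inter.1 hx).1)⟩
        · rintro rfl
          exact i.2.2.1 hx
        · rintro rfl
          exact i.2.1 hx)
      (fun x => if x = z then 0 else 1)
      (by
        intro i x hx y hy
        rw [mem_sdiff] at hx hy
        have hx' := hY x (hX i.1 (mem_union_left _ hx.1)) hx.2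
        have hy' := hY y (hX i.1 (mem_union_right _ hy.1)) hy.2
        have g1 : z ∉ A i.1 ∩ B i.1 := i.2.1
        have g2 : w ∉ A i.1 ∩ B i.1 := i.2.2.1
        have g3 : ¬ (z ∈ B i.1 ∧ w ∈ A i.1) := i.2.2.2
        rcases hx' with rfl | rfl
        · rcases hy' with rfl | rfl
          · exact absurd (mem_inter.2 ⟨hx.1, hy.1⟩) g1
          · simp [hne.symm]
        · rcases hy' with rfl | rfl
          · exact absurd ⟨hy.1, hx.1⟩ g3
          · exact absurd (mem_inter.2 ⟨hx.1, hy.1⟩) g2)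
    rw [Fintype.card_subtype] at h1
    exact h1
  have hi : ∀ i, (X.offDiag.filter (fun z => good z i)).card =
      (a + b - 2) * (a + b - 3) - (a - 2) * (b - 2) := by
    intro i
    have hPX : A i ∩ B i ⊆ X := fun x hx => hX i (mem_union_left _ (mem_inter.1 hx).1)
    have hC : (A i \ B i).card = a - 2 := by
      have := card_sdiff_add_card_inter (A i) (B i)
      rw [(hs.1 i).1, (hs.1 i).2.2] at this
      omega
    have hD : (B i \ A i).card = b - 2 := by
      have := card_sdiff_add_card_inter (B i) (A i)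
      rw [inter_comm, (hs.1 i).2.1, (hs.1 i).2.2] at this
      omega
    have e1 : X.offDiag.filter (fun z => good z i) =
        (X \ (A i ∩ B i)).offDiag \ ((B i \ A i) ×ˢ (A i \ B i)) := by
      ext ⟨z, w⟩
      simp only [good, mem_filter, mem_offDiag, mem_sdiff, mem_product, mem_inter]
      tauto
    have e2 : (B i \ A i) ×ˢ (A i \ B i) ⊆ (X \ (A i ∩ B i)).offDiag := by
      rintro ⟨z, w⟩ h
      rw [mem_product, mem_sdiff, mem_sdiff] at h
      rw [mem_offDiag, mem_sdiff, mem_sdiff, mem_inter, mem_inter]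
      refine ⟨⟨hX i (mem_union_right _ h.1.1), fun h' => h.1.2 h'.1⟩,
        ⟨hX i (mem_union_left _ h.2.1), fun h' => h.2.2 h'.2⟩, ?_⟩
      intro h'
      simp only at h'
      exact h.1.2 (by rw [h']; exact h.2.1)
    rw [e1, card_sdiff_of_subset e2, offDiag_card, card_product, hC, hD,
      card_sdiff_of_subset hPX, hXc, (hs.1 i).2.2, mul_comm (b - 2)]
    congr 1
    obtain ⟨c, hc⟩ : ∃ c, a + b = c + 3 := ⟨a + b - 3, by omega⟩
    rw [hc]
    have e3 : c + 3 - 2 = c + 1 := by omega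
    have e4 : c + 3 - 3 = c := by omega
    rw [e3, e4, Nat.mul_succ, Nat.add_sub_cancel]
  have h1 : ∑ z ∈ X.offDiag, (univ.filter (fun i => good z i)).card =
      ∑ i : ι, (X.offDiag.filter (fun z => good z i)).card :=
    sum_card_bipartiteAbove_eq_sum_card_bipartiteBelow good
  have h2 : ∑ i : ι, (X.offDiag.filter (fun z => good z i)).card =
      ((a + b - 2) * (a + b - 3) - (a - 2) * (b - 2)) * Fintype.card ι := by
    rw [sum_congr rfl fun i _ => hi i, sum_const, card_univ, smul_eq_mul, mul_comm]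
  have h3 : ∑ z ∈ X.offDiag, (univ.filter (fun i => good z i)).card ≤
      (a + b) * (a + b - 1) * S a b := by
    have h4 : X.offDiag.card = (a + b) * (a + b - 1) := by
      rw [offDiag_card, hXc, Nat.mul_sub, mul_one]
    rw [← h4, ← smul_eq_mul, ← sum_const]
    exact sum_le_sum hz
  rw [← h2, ← h1]
  exact h3

end Pool.Agent.H374.TF.Small
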